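import Pool.Agent.PGS.Defs

/-! PGS / Sh: removing a prime from the set `V`.

PROOFS. `Lam V y n = LamS V y m` with `m = V.filter (· ∣ n)`. Write `V = insert q (V.erase q)` and split the subsets
(`Finset.sum_powerset_insert`): for `B ⊆ V.erase q` the term of `insert q B` is
`y (insert q B) / ((q - 1) ph B) * ee m q * ∏_{p ∈ B} ee m p` with `ee m q = 1 - q` if `q ∣ n` and `ee m q = 1` otherwise;
`ee m p` for `p ∈ B` is the same for `V` and for `V.erase q`. This gives `Lam_shM` and `Lam_shP` (`q ≥ 2`).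
`Lam_sub`, `mass_sub`, `dia_sub`: the terms with `B` not contained in `V'` vanish; for `B ⊆ V'` the factors `ee` agree.
`ys_sub`: a prime `p ∈ B` is at most `pr B ≤ N^b < N^α`. `shM_Bd`, `shP_Bd`: `pr (insert q B) ≥ pr B` for `q ≥ 1`.
`y1_Bd`: `N^(κ/2) ≤ N^κ`. -/

set_option autoImplicit false

open Finset PGL

noncomputable section

namespace PGS

private def en (n p : ℕ) : ℝ := if p ∣ n then 1 - (p : ℝ) else 1

private theorem Lam_eq (V : Finset ℕ) (y : Finset ℕ → ℝ) (n : ℕ) :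
    Lam V y n = ∑ B ∈ V.powerset, y B / ph B * ∏ p ∈ B, en n p := by
  unfold Lam LamS
  refine sum_congr rfl fun B hB => ?_
  rw [mem_powerset] at hB
  congr 1
  refine prod_congr rfl fun p hp => ?_
  unfold ee en
  have h : p ∈ V.filter (· ∣ n) ↔ p ∣ n := by
    rw [mem_filter]
    exact ⟨fun h => h.2, fun h => ⟨hB hp, h⟩⟩
  by_cases hpn : p ∣ n
  · rw [if_pos hpn, if_pos (h.2 hpn)]
  · rw [if_neg hpn, if_neg (fun h' => hpn (h.1 h'))]

private theorem Lam_split {V : Finset ℕ} {q : ℕ} (hq : q ∈ V) (y : Finset ℕ → ℝ) (n : ℕ) :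
    Lam V y n = ∑ B ∈ (V.erase q).powerset, (y B / ph B * ∏ p ∈ B, en n p +
      y (insert q B) / (((q : ℝ) - 1) * ph B) * (en n q * ∏ p ∈ B, en n p)) := by
  rw [Lam_eq]
  conv_lhs => rw [← insert_erase hq]
  rw [sum_powerset_insert (notMem_erase q V), ← sum_add_distrib]
  refine sum_congr rfl fun B hB => ?_
  rw [mem_powerset] at hB
  have hqB : q ∉ B := fun h => notMem_erase q V (hB h)
  have h2 : ph (insert q B) = ((q : ℝ) - 1) * ph B := prod_insert hqB
  rw [h2, prod_insert hqB]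

private theorem q_pos {V : Finset ℕ} (hV : ∀ p ∈ V, p.Prime) {q : ℕ} (hq : q ∈ V) :
    (0 : ℝ) < (q : ℝ) - 1 := by
  have h2 : (2 : ℝ) ≤ q := by exact_mod_cast (hV q hq).two_le
  linarith

private theorem ph_pos {B : Finset ℕ} (hB : ∀ p ∈ B, p.Prime) : 0 < ph B := by
  refine prod_pos fun p hp => ?_
  have h2 : (2 : ℝ) ≤ p := by exact_mod_cast (hB p hp).two_le
  linarith

theorem Lam_shM {V : Finset ℕ} (hV : ∀ p ∈ V, p.Prime) {q : ℕ} (hq : q ∈ V) (y : Finset ℕ → ℝ) {n : ℕ}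
    (h : q ∣ n) : Lam V y n = Lam (V.erase q) (shM q y) n := by
  rw [Lam_split hq, Lam_eq]
  refine sum_congr rfl fun B hB => ?_
  rw [mem_powerset] at hB
  have hp := ph_pos fun p hp => hV p (mem_of_mem_erase (hB hp))
  have hq1 := q_pos hV hq
  have he : en n q = 1 - (q : ℝ) := if_pos h
  rw [he]
  unfold shM
  field_simp
  ring

theorem Lam_shP {V : Finset ℕ} (hV : ∀ p ∈ V, p.Prime) {q : ℕ} (hq : q ∈ V) (y : Finset ℕ → ℝ) {n : ℕ}
    (h : ¬ q ∣ n) : Lam V y n = Lam (V.erase q) (shP q y) n := by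
  rw [Lam_split hq, Lam_eq]
  refine sum_congr rfl fun B hB => ?_
  rw [mem_powerset] at hB
  have hp := ph_pos fun p hp => hV p (mem_of_mem_erase (hB hp))
  have hq1 := q_pos hV hq
  have he : en n q = 1 := if_neg h
  rw [he]
  unfold shP
  field_simp

theorem Lam_sub {V V' : Finset ℕ} (hV : V' ⊆ V) (y : Finset ℕ → ℝ) (hy : ∀ B ⊆ V, y B ≠ 0 → B ⊆ V') (n : ℕ) :
    Lam V y n = Lam V' y n := by
  rw [Lam_eq, Lam_eq]
  symm
  refine sum_subset (powerset_mono.2 hV) fun B hB hB' => ?_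
  rw [mem_powerset] at hB hB'
  have h0 : y B = 0 := by
    by_contra hc
    exact hB' (hy B hB hc)
  rw [h0, zero_div, zero_mul]

theorem mass_sub {V V' : Finset ℕ} (hV : V' ⊆ V) (y : Finset ℕ → ℝ) (hy : ∀ B ⊆ V, y B ≠ 0 → B ⊆ V') :
    mass V y = mass V' y := by
  unfold mass
  symm
  refine sum_subset (powerset_mono.2 hV) fun B hB hB' => ?_
  rw [mem_powerset] at hB hB'
  have h0 : y B = 0 := by
    by_contra hc
    exact hB' (hy B hB hc)
  rw [h0, zero_div]

theorem dia_sub {V V' : Finset ℕ} (hV : V' ⊆ V) (y y' : Finset ℕ → ℝ) (hy : ∀ B ⊆ V, y B ≠ 0 → B ⊆ V') :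
    dia V y y' = dia V' y y' := by
  unfold dia
  symm
  refine sum_subset (powerset_mono.2 hV) fun B hB hB' => ?_
  rw [mem_powerset] at hB hB'
  have h0 : y B = 0 := by
    by_contra hc
    exact hB' (hy B hB hc)
  rw [h0, zero_mul, zero_div]

theorem ys_sub {N : ℕ} (hN : 2 ≤ N) {a b α : ℝ} (hb : b < α) {V : Finset ℕ} (hV : ∀ p ∈ V, p.Prime) :
    ∀ B ⊆ V, ys N a b B ≠ 0 → B ⊆ Vs N α V := by
  intro B hB hy p hp
  rw [mem_Vs]
  refine ⟨hB hp, ?_⟩
  have h1 : (pr B : ℝ) ≤ (N : ℝ) ^ b := by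
    by_contra hc
    apply hy
    unfold ys
    rw [if_neg]
    rintro ⟨-, h⟩
    exact hc h
  have h2 : p ≤ pr B := by
    refine Nat.le_of_dvd ?_ (dvd_prod_of_mem _ hp)
    exact prod_pos fun r hr => (hV r (hB hr)).pos
  have h3 : (p : ℝ) ≤ pr B := by exact_mod_cast h2
  have h4 : (N : ℝ) ^ b < (N : ℝ) ^ α :=
    Real.rpow_lt_rpow_of_exponent_lt (by exact_mod_cast (by omega : 1 < N)) hb
  linarith

theorem y1_sub {N : ℕ} (hN : 2 ≤ N) {κ α : ℝ} (hκ : 0 ≤ κ) (hb : κ < α) {V : Finset ℕ} (hV : ∀ p ∈ V, p.Prime) :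
    ∀ B ⊆ V, y1 N κ B ≠ 0 → B ⊆ Vs N α V := by
  intro B hB hy
  by_cases h1 : ys N (-1) κ B = 0
  · by_cases h2 : ys N (-1) (κ / 2) B = 0
    · exfalso
      apply hy
      unfold y1
      rw [h1, h2]
      norm_num
    · exact ys_sub hN (by linarith) hV B hB h2
  · exact ys_sub hN hb hV B hB h1

private theorem pr_insert_ge {q : ℕ} (hq : 1 ≤ q) (B : Finset ℕ) : (pr B : ℝ) ≤ (pr (insert q B) : ℝ) := by
  by_cases h : q ∈ B
  · rw [insert_eq_of_mem h]
  · have h1 : pr (insert q B) = q * pr B := prod_insert h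
    rw [h1]
    exact_mod_cast Nat.le_mul_of_pos_left _ hq

theorem shM_Bd {y : Finset ℕ → ℝ} {c R : ℝ} {q : ℕ} (hq : 1 ≤ q) (hy : Bd y c R) : Bd (shM q y) (2 * c) R := by
  intro B
  refine ⟨?_, fun hR => ?_⟩
  · unfold shM
    have h1 := (hy B).1
    have h2 := (hy (insert q B)).1
    refine (abs_sub _ _).trans ?_
    linarith
  · unfold shM
    rw [(hy B).2 hR, (hy (insert q B)).2 (lt_of_lt_of_le hR (pr_insert_ge hq B)), sub_zero]

theorem shP_Bd {y : Finset ℕ → ℝ} {c R : ℝ} {q : ℕ} (hq : 2 ≤ q) (hy : Bd y c R) : Bd (shP q y) (2 * c) R := by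
  intro B
  have h2 : (2 : ℝ) ≤ q := by exact_mod_cast hq
  refine ⟨?_, fun hR => ?_⟩
  · unfold shP
    have h3 := (hy B).1
    have h4 := (hy (insert q B)).1
    have h5 : |y (insert q B) / ((q : ℝ) - 1)| ≤ |y (insert q B)| := by
      rw [abs_div]
      refine div_le_self (abs_nonneg _) ?_
      rw [abs_of_pos (by linarith)]
      linarith
    refine (abs_add_le _ _).trans ?_
    linarith
  · unfold shP
    rw [(hy B).2 hR, (hy (insert q B)).2 (lt_of_lt_of_le hR (pr_insert_ge (by omega) B)), zero_div,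
      add_zero]

private theorem ys_01 (N : ℕ) (a b : ℝ) (B : Finset ℕ) : 0 ≤ ys N a b B ∧ ys N a b B ≤ 1 := by
  unfold ys
  split_ifs <;> norm_num

private theorem ys_zero {N : ℕ} {a b : ℝ} {B : Finset ℕ} (h : (N : ℝ) ^ b < (pr B : ℝ)) :
    ys N a b B = 0 := by
  unfold ys
  rw [if_neg]
  rintro ⟨-, h'⟩
  exact absurd h (not_lt.2 h')

theorem y1_Bd {N : ℕ} (hN : 1 ≤ N) {κ : ℝ} (hκ : 0 ≤ κ) : Bd (y1 N κ) 5 ((N : ℝ) ^ κ) := by
  intro B
  refine ⟨?_, fun hR => ?_⟩
  · unfold y1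
    have h1 := ys_01 N (-1) κ B
    have h2 := ys_01 N (-1) (κ / 2) B
    rw [abs_of_nonneg (by linarith)]
    linarith
  · have h1 : (N : ℝ) ^ (κ / 2) ≤ (N : ℝ) ^ κ :=
      Real.rpow_le_rpow_of_exponent_le (by exact_mod_cast hN) (by linarith)
    unfold y1
    rw [ys_zero hR, ys_zero (lt_of_le_of_lt h1 hR)]
    norm_num

theorem Lam_y1 (V : Finset ℕ) (N : ℕ) (κ : ℝ) (n : ℕ) :
    Lam V (y1 N κ) n = 3 * Lam V (ys N (-1) κ) n + 2 * Lam V (ys N (-1) (κ / 2)) n := by
  rw [Lam_eq, Lam_eq, Lam_eq, mul_sum, mul_sum, ← sum_add_distrib]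
  refine sum_congr rfl fun B _ => ?_
  unfold y1
  ring

/-- replacing `y`, `y'` by `shP q y`, `shP q y'` changes the diagonal sum by at most `3 G_V / (q - 1)` -/
theorem dia_shP {V : Finset ℕ} (hV : Big V 1) {y y' : Finset ℕ → ℝ} {R R' : ℝ} {q : ℕ} (hq : 2 ≤ q)
    (hy : Bd y 1 R) (hy' : Bd y' 1 R') : |dia V (shP q y) (shP q y') - dia V y y'| ≤
      3 / ((q : ℝ) - 1) * GV V R := by
  have h2 : (2 : ℝ) ≤ q := by exact_mod_cast hq
  have ht : (1 : ℝ) ≤ (q : ℝ) - 1 := by linarith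
  unfold dia GV
  rw [← sum_sub_distrib, mul_sum, sum_filter]
  refine (abs_sum_le_sum_abs _ _).trans (sum_le_sum fun B hB => ?_)
  rw [mem_powerset] at hB
  have hp := ph_pos fun p hp => (hV p (hB hp)).1
  split_ifs with hR
  · rw [← sub_div, abs_div, abs_of_pos hp, mul_one_div]
    refine div_le_div_of_nonneg_right ?_ hp.le
    have a1 := (hy B).1
    have a2 := (hy (insert q B)).1
    have b1 := (hy' B).1
    have b2 := (hy' (insert q B)).1
    unfold shP
    generalize y B = a at *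
    generalize y (insert q B) = a' at *
    generalize y' B = b at *
    generalize y' (insert q B) = b' at *
    generalize (q : ℝ) - 1 = t at *
    have ht0 : 0 < t := by linarith
    have e : (a + a' / t) * (b + b' / t) - a * b = (a * b' + a' * b) / t + (a' * b') / t / t := by
      field_simp
      ring
    rw [e]
    have m1 : |a * b'| ≤ 1 := by
      rw [abs_mul]
      exact mul_le_one₀ a1 (abs_nonneg _) b2
    have m2 : |a' * b| ≤ 1 := by
      rw [abs_mul]
      exact mul_le_one₀ a2 (abs_nonneg _) b1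
    have m3 : |a' * b'| ≤ 1 := by
      rw [abs_mul]
      exact mul_le_one₀ a2 (abs_nonneg _) b2
    have m4 : |(a * b' + a' * b) / t| ≤ 2 / t := by
      rw [abs_div, abs_of_pos ht0]
      refine div_le_div_of_nonneg_right ?_ ht0.le
      exact (abs_add_le _ _).trans (by linarith)
    have m5 : |(a' * b') / t / t| ≤ 1 / t := by
      rw [abs_div, abs_of_pos ht0, abs_div, abs_of_pos ht0]
      refine (div_le_self (by positivity) ht).trans ?_
      exact div_le_div_of_nonneg_right m3 ht0.le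
    refine (abs_add_le _ _).trans ?_
    have e3 : 3 / t = 2 / t + 1 / t := by ring
    rw [e3]
    linarith
  · have hR' := not_le.1 hR
    have z1 := (hy B).2 hR'
    have z2 := (hy (insert q B)).2 (lt_of_lt_of_le hR' (pr_insert_ge (by omega) B))
    unfold shP
    rw [z1, z2]
    simp

end PGS
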