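import Pool.Agent.PGS.Gun
import Pool.Agent.PGS.Sh

/-! PGS / KM: the value of the Selberg weight at an integer without small prime factors.

PROOF. Let `S = V.filter (· ∣ m)`, so `Lam V y m = LamS V y S`, and `y = ys N (-1) κ` is the indicator of `pr B ≤ N^κ`
(`N^(-1) < 1 ≤ pr B` for `N ≥ 2`). Split the subsets of `V` into `B ∪ T`, `B ⊆ V \ S`, `T ⊆ S`: `ph (B ∪ T) = ph B ph T`,
the factors `ee` are `1` on `B` and `1 - p` on `T`, so `∏_{p ∈ T} (1 - p) / (p - 1) = (-1)^|T|`: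
`Lam V y m = ∑_{T ⊆ S} (-1)^|T| ∑_{B ⊆ V \ S} y(B ∪ T) / ph B`. If `|T| ≥ 2`, `pr T ≥ N^(2α) > N^κ` and the term is `0`.
The terms `T = ∅`, `T = {p}` give `GV (V \ S) (N^κ) - ∑_{p ∈ S, p ≤ N^κ} GV (V \ S) (N^κ / p)` (`0` for `p > N^κ`).
As `(N^α)^|S| ≤ pr S ≤ m ≤ 3 N`, `|S| ≤ 1 / α + 1` for large `N`. `V \ S` misses at most `1 + k² + |S|` primes of
`VN (ε log N) N` (`Ctx_card`), so `g_unif` applies with `x = N^κ` and `x = N^κ / p ∈ [1, N]`
(`log x / log N = κ - sz N p`). Total error at most `(|S| + 1) η' Γ`. -/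

set_option autoImplicit false

open Finset PGL

noncomputable section

namespace PGS

private theorem km_pr_insert {p : ℕ} {B : Finset ℕ} (h : p ∉ B) : pr (insert p B) = p * pr B := by
  unfold pr
  exact prod_insert h

private theorem km_ph_insert {p : ℕ} {B : Finset ℕ} (h : p ∉ B) :
    ph (insert p B) = ((p : ℝ) - 1) * ph B := by
  unfold ph
  exact prod_insert h

private theorem km_congr {V : Finset ℕ} {Y Y' : Finset ℕ → ℝ} (h : ∀ B ⊆ V, Y B = Y' B) (n : ℕ) :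
    Lam V Y n = Lam V Y' n := by
  unfold Lam LamS
  refine sum_congr rfl fun B hB => ?_
  rw [h B (mem_powerset.1 hB)]

/-- removing one prime divisor -/
private theorem km_step {V : Finset ℕ} {q : ℕ} (hq : q.Prime) (hqV : q ∉ V) (Y : Finset ℕ → ℝ) {n : ℕ}
    (hn : q ∣ n) : Lam (insert q V) Y n = Lam V (fun B => Y B - Y (insert q B)) n := by
  classical
  unfold Lam LamS
  rw [sum_powerset_insert hqV, ← sum_add_distrib]
  refine sum_congr rfl fun B hB => ?_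
  rw [mem_powerset] at hB
  have hqB : q ∉ B := fun h => hqV (hB h)
  have hq1 : (q : ℝ) - 1 ≠ 0 := by
    have : (2 : ℝ) ≤ q := by exact_mod_cast hq.two_le
    linarith
  have he : ∀ p ∈ B, ee ((insert q V).filter (· ∣ n)) p = ee (V.filter (· ∣ n)) p := by
    intro p hp
    have hpq : p ≠ q := fun h => hqB (h ▸ hp)
    unfold ee
    congr 1
    rw [mem_filter, mem_filter, mem_insert]
    simp [hpq]
  have h1 : ∏ p ∈ B, ee ((insert q V).filter (· ∣ n)) p = ∏ p ∈ B, ee (V.filter (· ∣ n)) p :=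
    prod_congr rfl he
  have h2 : ee ((insert q V).filter (· ∣ n)) q = 1 - (q : ℝ) := by
    unfold ee
    rw [if_pos]
    rw [mem_filter]
    exact ⟨mem_insert_self _ _, hn⟩
  rw [prod_insert hqB, h1, h2, km_ph_insert hqB]
  by_cases hph : ph B = 0
  · rw [hph]; simp
  · field_simp
    ring

private theorem km_iter {V : Finset ℕ} (hV : ∀ p ∈ V, p.Prime) (y : Finset ℕ → ℝ) {n : ℕ} (S : Finset ℕ) :
    S ⊆ V → (∀ q ∈ S, q ∣ n) → (∀ q ∈ S, ∀ q' ∈ S, q ≠ q' → ∀ B ⊆ V, q ∉ B → q' ∉ B →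
      y (insert q' (insert q B)) = 0) →
    Lam V y n = Lam (V \ S) (fun B => y B - ∑ q ∈ S, y (insert q B)) n := by
  classical
  induction S using Finset.induction_on with
  | empty =>
    intro _ _ _
    simp
  | insert q S hqS ih =>
    intro hSV hSn h2
    have hq := hSV (mem_insert_self q S)
    rw [ih (fun p hp => hSV (mem_insert_of_mem hp)) (fun p hp => hSn p (mem_insert_of_mem hp))
      (fun p hp p' hp' => h2 p (mem_insert_of_mem hp) p' (mem_insert_of_mem hp'))]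
    have e1 : V \ S = insert q (V \ insert q S) := by
      ext p
      simp only [mem_sdiff, mem_insert]
      constructor
      · rintro ⟨a, b⟩
        by_cases h : p = q
        · exact Or.inl h
        · exact Or.inr ⟨a, fun c => c.elim h b⟩
      · rintro (h | ⟨a, b⟩)
        · subst h; exact ⟨hq, hqS⟩
        · exact ⟨a, fun c => b (Or.inr c)⟩
    rw [e1, km_step (hV q hq) (by simp) _ (hSn q (mem_insert_self q S))]
    refine km_congr (fun B hB => ?_) n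
    have hqB : q ∉ B := fun h => by
      have := hB h
      rw [mem_sdiff] at this
      exact this.2 (mem_insert_self q S)
    have hz : ∑ q' ∈ S, y (insert q' (insert q B)) = 0 := by
      refine sum_eq_zero fun q' hq' => ?_
      refine h2 q (mem_insert_self q S) q' (mem_insert_of_mem hq') (fun h => hqS (h ▸ hq')) B
        (fun p hp => (mem_sdiff.1 (hB hp)).1) hqB ?_
      intro h
      exact (mem_sdiff.1 (hB h)).2 (mem_insert_of_mem hq')
    show y B - ∑ q' ∈ S, y (insert q' B) - (y (insert q B) - ∑ q' ∈ S, y (insert q' (insert q B))) = _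
    rw [hz, sum_insert hqS]
    ring

private theorem km_one_le {B : Finset ℕ} (hB : ∀ p ∈ B, p.Prime) : 1 ≤ pr B :=
  Nat.one_le_iff_ne_zero.2 (prod_ne_zero_iff.2 fun p hp => (hB p hp).ne_zero)

private theorem km_ys {N : ℕ} (hN : 2 ≤ N) {κ : ℝ} {B : Finset ℕ} (hB : ∀ p ∈ B, p.Prime) :
    ys N (-1) κ B = if (pr B : ℝ) ≤ (N : ℝ) ^ κ then 1 else 0 := by
  unfold ys
  have h1 : (N : ℝ) ^ (-1 : ℝ) < pr B := by
    have h2 : (1 : ℝ) ≤ pr B := by exact_mod_cast km_one_le hB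
    have h3 : (2 : ℝ) ≤ N := by exact_mod_cast hN
    have h4 : (N : ℝ) ^ (-1 : ℝ) < 1 := Real.rpow_lt_one_of_one_lt_of_neg (by linarith) (by norm_num)
    linarith
  simp [h1]

private theorem km_sum0 {N : ℕ} (hN : 2 ≤ N) {κ : ℝ} {W : Finset ℕ} (hW : ∀ p ∈ W, p.Prime) :
    ∑ B ∈ W.powerset, ys N (-1) κ B / ph B = GV W ((N : ℝ) ^ κ) := by
  unfold GV
  rw [sum_filter]
  refine sum_congr rfl fun B hB => ?_
  rw [mem_powerset] at hB
  rw [km_ys hN fun p hp => hW p (hB hp)]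
  split_ifs <;> simp

private theorem km_sum1 {N : ℕ} (hN : 2 ≤ N) {κ : ℝ} {W : Finset ℕ} (hW : ∀ p ∈ W, p.Prime) {q : ℕ}
    (hq : q.Prime) (hqW : q ∉ W) :
    ∑ B ∈ W.powerset, ys N (-1) κ (insert q B) / ph B =
      if (q : ℝ) ≤ (N : ℝ) ^ κ then GV W ((N : ℝ) ^ κ / q) else 0 := by
  have hq0 : (0 : ℝ) < q := by exact_mod_cast hq.pos
  have h1 : ∑ B ∈ W.powerset, ys N (-1) κ (insert q B) / ph B = GV W ((N : ℝ) ^ κ / q) := by
    unfold GV
    rw [sum_filter]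
    refine sum_congr rfl fun B hB => ?_
    rw [mem_powerset] at hB
    have hqB : q ∉ B := fun h => hqW (hB h)
    rw [km_ys hN (fun p hp => by
      rcases mem_insert.1 hp with h | h
      · rw [h]; exact hq
      · exact hW p (hB h)), km_pr_insert hqB]
    have h2 : (((q * pr B : ℕ)) : ℝ) ≤ (N : ℝ) ^ κ ↔ (pr B : ℝ) ≤ (N : ℝ) ^ κ / q := by
      rw [le_div_iff₀ hq0]
      push_cast
      rw [mul_comm]
    simp only [h2]
    split_ifs <;> simp
  rw [h1]
  split_ifs with h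
  · rfl
  · unfold GV
    refine sum_eq_zero fun B hB => ?_
    exfalso
    rw [mem_filter, mem_powerset] at hB
    have h2 : (1 : ℝ) ≤ pr B := by exact_mod_cast km_one_le fun p hp => hW p (hB.1 hp)
    have h3 : (N : ℝ) ^ κ / q < 1 := by
      rw [div_lt_one hq0]
      exact not_le.1 h
    linarith [hB.2]

theorem km {ι : Type} [Fintype ι] (ε C κ α η : ℝ) (hε : 0 < ε) (hκ : 0 < κ) (hκ1 : κ ≤ 1) (hα : 0 < α)
    (h2 : κ < 2 * α) (hη : 0 < η) : ∃ N₀ : ℕ, ∀ N : ℕ, N₀ ≤ N →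
    ∀ (D D' V : Finset ℕ) (h : ι → ℕ) (b : ℕ), Ctx ε C N D D' V h b → ∀ m : ℕ, 0 < m → m ≤ 3 * N →
      (∀ p ∈ V, p ∣ m → (N : ℝ) ^ α ≤ (p : ℝ)) →
      |Lam V (ys N (-1) κ) m - Gam ε N *
        (κ - ∑ p ∈ V.filter (fun p : ℕ => p ∣ m ∧ (p : ℝ) ≤ (N : ℝ) ^ κ), (κ - sz N p))| ≤ η * Gam ε N := by
  classical
  obtain ⟨s, hs⟩ : ∃ s : ℕ, s = ⌈2 / α⌉₊ := ⟨_, rfl⟩
  obtain ⟨N₁, hN₁⟩ := g_unif ε (η / (1 + s)) (1 + Fintype.card ι ^ 2 + s) hε (by positivity)
  obtain ⟨N₂, hN₂⟩ := Ctx_card (ι := ι) ε C hε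
  refine ⟨max (max N₁ N₂) 3, fun N hN D D' V h b hC m hm hm3 hbig => ?_⟩
  have hNa : N₁ ≤ N := ((le_max_left _ _).trans (le_max_left _ _)).trans hN
  have hNb : N₂ ≤ N := ((le_max_right _ _).trans (le_max_left _ _)).trans hN
  have hN3 : 3 ≤ N := (le_max_right _ _).trans hN
  have hN2 : 2 ≤ N := by omega
  have hNr : (3 : ℝ) ≤ N := by exact_mod_cast hN3
  have hN0 : (0 : ℝ) < N := by linarith
  have hlog : 0 < Real.log N := Real.log_pos (by linarith)
  obtain ⟨hVN, hcard⟩ := hN₂ N hNb D D' V h b hC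
  have hV : ∀ p ∈ V, p.Prime := fun p hp => ((mem_filter.1 (hVN hp)).2).1
  have hΓ : 0 < Gam ε N := mul_pos (MP_pos _) hlog
  obtain ⟨S, hS⟩ : ∃ S, S = V.filter (· ∣ m) := ⟨_, rfl⟩
  obtain ⟨W, hW⟩ : ∃ W, W = V \ S := ⟨_, rfl⟩
  have hSV : S ⊆ V := by rw [hS]; exact filter_subset _ _
  have hSm : ∀ q ∈ S, q ∣ m := fun q hq => by
    rw [hS] at hq
    exact (mem_filter.1 hq).2
  have hSb : ∀ q ∈ S, (N : ℝ) ^ α ≤ (q : ℝ) := fun q hq => hbig q (hSV hq) (hSm q hq)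
  have hWp : ∀ p ∈ W, p.Prime := fun p hp => by
    rw [hW] at hp
    exact hV p (mem_sdiff.1 hp).1
  -- the number of prime divisors
  have hSc : S.card ≤ s := by
    have a1 : ∏ p ∈ S, p ∣ m :=
      Finset.prod_primes_dvd m (fun p hp => (hV p (hSV hp)).prime) hSm
    have a2 : ∏ p ∈ S, p ≤ m := Nat.le_of_dvd hm a1
    have a3 : ((N : ℝ) ^ α) ^ S.card ≤ 3 * N := by
      calc ((N : ℝ) ^ α) ^ S.card = ∏ p ∈ S, ((N : ℝ) ^ α) := by rw [prod_const]
        _ ≤ ∏ p ∈ S, (p : ℝ) := prod_le_prod (fun p _ => by positivity) hSb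
        _ = ((∏ p ∈ S, p : ℕ) : ℝ) := by push_cast; rfl
        _ ≤ (m : ℝ) := by exact_mod_cast a2
        _ ≤ 3 * N := by exact_mod_cast hm3
    have a4 : (3 : ℝ) * N ≤ N ^ 2 := by nlinarith
    have a5 := Real.log_le_log (by positivity) (a3.trans a4)
    rw [Real.log_pow, Real.log_pow, Real.log_rpow hN0] at a5
    have a6 : (S.card : ℝ) * α ≤ 2 := by
      have a7 : (S.card : ℝ) * α * Real.log N ≤ 2 * Real.log N := by
        push_cast at a5
        linarith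
      exact le_of_mul_le_mul_right a7 hlog
    have a8 : (S.card : ℝ) ≤ 2 / α := by rwa [le_div_iff₀ hα]
    rw [hs]
    have a9 : (S.card : ℝ) ≤ (⌈2 / α⌉₊ : ℝ) := a8.trans (Nat.le_ceil _)
    exact_mod_cast a9
  -- the identity
  have hid : Lam V (ys N (-1) κ) m = GV W ((N : ℝ) ^ κ) -
      ∑ q ∈ V.filter (fun p : ℕ => p ∣ m ∧ (p : ℝ) ≤ (N : ℝ) ^ κ), GV W ((N : ℝ) ^ κ / q) := by
    rw [km_iter hV (ys N (-1) κ) S hSV hSm ?_]
    · rw [← hW]
      have e1 : W.filter (· ∣ m) = ∅ := by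
        rw [filter_eq_empty_iff]
        intro p hp hpm
        rw [hW, mem_sdiff] at hp
        apply hp.2
        rw [hS, mem_filter]
        exact ⟨hp.1, hpm⟩
      unfold Lam LamS
      rw [e1]
      have e2 : ∀ B ∈ W.powerset, (ys N (-1) κ B - ∑ q ∈ S, ys N (-1) κ (insert q B)) / ph B *
          ∏ p ∈ B, ee ∅ p = ys N (-1) κ B / ph B - ∑ q ∈ S, ys N (-1) κ (insert q B) / ph B := by
        intro B _
        have e3 : ∏ p ∈ B, ee ∅ p = 1 := prod_eq_one fun p _ => by unfold ee; simp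
        rw [e3, mul_one, sub_div, sum_div]
      rw [sum_congr rfl e2, sum_sub_distrib, sum_comm, km_sum0 hN2 hWp]
      congr 1
      have e4 : ∀ q ∈ S, ∑ B ∈ W.powerset, ys N (-1) κ (insert q B) / ph B =
          if (q : ℝ) ≤ (N : ℝ) ^ κ then GV W ((N : ℝ) ^ κ / q) else 0 := by
        intro q hq
        refine km_sum1 hN2 hWp (hV q (hSV hq)) ?_
        rw [hW, mem_sdiff]
        exact fun h => h.2 hq
      rw [sum_congr rfl e4, ← sum_filter, hS, filter_filter]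
    · intro q hq q' hq' hne B hB hqB hq'B
      rw [km_ys hN2]
      · rw [if_neg]
        rw [not_le, km_pr_insert (by
          rw [mem_insert, not_or]
          exact ⟨hne.symm, hq'B⟩), km_pr_insert hqB]
        have c1 : (1 : ℝ) ≤ pr B := by exact_mod_cast km_one_le fun p hp => hV p (hB hp)
        have c2 := hSb q hq
        have c3 := hSb q' hq'
        have c4 : (N : ℝ) ^ κ < (N : ℝ) ^ (2 * α) :=
          Real.rpow_lt_rpow_of_exponent_lt (by linarith) h2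
        have c5 : (N : ℝ) ^ (2 * α) = (N : ℝ) ^ α * (N : ℝ) ^ α := by
          rw [← Real.rpow_add hN0]
          congr 1
          ring
        have c6 : (0 : ℝ) < (N : ℝ) ^ α := by positivity
        push_cast
        calc (N : ℝ) ^ κ < (N : ℝ) ^ α * (N : ℝ) ^ α := by rw [← c5]; exact c4
          _ ≤ (q' : ℝ) * q := mul_le_mul c3 c2 c6.le (by linarith)
          _ ≤ (q' : ℝ) * (q * pr B) := by
              rw [← mul_assoc]
              exact le_mul_of_one_le_right (mul_nonneg (by linarith) (by linarith)) c1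
      · intro p hp
        rcases mem_insert.1 hp with h | h
        · rw [h]; exact hV _ (hSV hq')
        · rcases mem_insert.1 h with h | h
          · rw [h]; exact hV _ (hSV hq)
          · exact hV p (hB h)
  -- the asymptotics
  have hWVN : W ⊆ VN (ε * Real.log N) N := fun p hp => by
    rw [hW] at hp
    exact hVN (mem_sdiff.1 hp).1
  have hWc : ((VN (ε * Real.log N) N) \ W).card ≤ 1 + Fintype.card ι ^ 2 + s := by
    have d1 : (VN (ε * Real.log N) N) \ W ⊆ ((VN (ε * Real.log N) N) \ V) ∪ S := by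
      intro p hp
      rw [hW, mem_sdiff, mem_sdiff] at hp
      rw [mem_union, mem_sdiff]
      by_cases hpV : p ∈ V
      · right
        by_contra hpS
        exact hp.2 ⟨hpV, hpS⟩
      · exact Or.inl ⟨hp.1, hpV⟩
    exact (card_le_card d1).trans ((card_union_le _ _).trans (Nat.add_le_add hcard hSc))
  have hG := hN₁ N hNa W hWVN hWc
  have hκN : (N : ℝ) ^ κ ≤ N := by
    calc (N : ℝ) ^ κ ≤ (N : ℝ) ^ (1 : ℝ) := Real.rpow_le_rpow_of_exponent_le (by linarith) hκ1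
      _ = N := Real.rpow_one _
  have hκ1' : 1 ≤ (N : ℝ) ^ κ := Real.one_le_rpow (by linarith) hκ.le
  have hG0 := hG ((N : ℝ) ^ κ) hκ1' hκN
  rw [Real.log_rpow hN0, mul_div_cancel_right₀ _ hlog.ne'] at hG0
  set F : Finset ℕ := V.filter (fun p : ℕ => p ∣ m ∧ (p : ℝ) ≤ (N : ℝ) ^ κ) with hF
  have hFS : F ⊆ S := by
    intro p hp
    rw [hF, mem_filter] at hp
    rw [hS, mem_filter]
    exact ⟨hp.1, hp.2.1⟩
  have hGq : ∀ q ∈ F, |GV W ((N : ℝ) ^ κ / q) - Gam ε N * (κ - sz N q)| ≤ η / (1 + s) * Gam ε N := by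
    intro q hq
    have hqS := hFS hq
    have hqp := hV q (hSV hqS)
    have hq1 : (1 : ℝ) ≤ q := by exact_mod_cast hqp.one_le
    have hq0 : (0 : ℝ) < q := by linarith
    have hqκ : (q : ℝ) ≤ (N : ℝ) ^ κ := by
      rw [hF, mem_filter] at hq
      exact hq.2.2
    have g1 := hG ((N : ℝ) ^ κ / q) (by rw [one_le_div hq0]; exact hqκ)
      ((div_le_self (by positivity) hq1).trans hκN)
    have g2 : Real.log ((N : ℝ) ^ κ / q) / Real.log N = κ - sz N q := by
      rw [Real.log_div (by positivity) hq0.ne', Real.log_rpow hN0, sub_div,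
        mul_div_cancel_right₀ _ hlog.ne']
      rfl
    rw [g2] at g1
    exact g1
  have hFc : (F.card : ℝ) ≤ s := by exact_mod_cast (card_le_card hFS).trans hSc
  rw [hid]
  have e5 : GV W ((N : ℝ) ^ κ) - ∑ q ∈ F, GV W ((N : ℝ) ^ κ / q) -
      Gam ε N * (κ - ∑ p ∈ F, (κ - sz N p)) =
      (GV W ((N : ℝ) ^ κ) - Gam ε N * κ) -
        ∑ q ∈ F, (GV W ((N : ℝ) ^ κ / q) - Gam ε N * (κ - sz N q)) := by
    have e7 : ∑ q ∈ F, (GV W ((N : ℝ) ^ κ / q) - Gam ε N * (κ - sz N q)) =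
        ∑ q ∈ F, GV W ((N : ℝ) ^ κ / q) - Gam ε N * ∑ q ∈ F, (κ - sz N q) := by
      rw [sum_sub_distrib, mul_sum]
    rw [e7]
    ring
  rw [e5]
  have e6 : |∑ q ∈ F, (GV W ((N : ℝ) ^ κ / q) - Gam ε N * (κ - sz N q))| ≤
      s * (η / (1 + s) * Gam ε N) := by
    calc |∑ q ∈ F, (GV W ((N : ℝ) ^ κ / q) - Gam ε N * (κ - sz N q))|
        ≤ ∑ q ∈ F, |GV W ((N : ℝ) ^ κ / q) - Gam ε N * (κ - sz N q)| := abs_sum_le_sum_abs _ _
      _ ≤ ∑ q ∈ F, (η / (1 + s) * Gam ε N) := sum_le_sum hGq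
      _ = F.card * (η / (1 + s) * Gam ε N) := by rw [sum_const, nsmul_eq_mul]
      _ ≤ s * (η / (1 + s) * Gam ε N) := mul_le_mul_of_nonneg_right hFc (by positivity)
  calc |(GV W ((N : ℝ) ^ κ) - Gam ε N * κ) -
        ∑ q ∈ F, (GV W ((N : ℝ) ^ κ / q) - Gam ε N * (κ - sz N q))|
      ≤ |GV W ((N : ℝ) ^ κ) - Gam ε N * κ| +
        |∑ q ∈ F, (GV W ((N : ℝ) ^ κ / q) - Gam ε N * (κ - sz N q))| := abs_sub _ _
    _ ≤ η / (1 + s) * Gam ε N + s * (η / (1 + s) * Gam ε N) := add_le_add hG0 e6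
    _ = η * Gam ε N := by
        field_simp

end PGS
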