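import Pool.Agent.PGS.Defs
import Pool.Agent.RG.Mer

/-! PGS / Mer: sums over the primes of `V`.

PROOFS. `mer_unif`: `recip_bounds` of `Pool.Agent.RG.Mer` (`prm u v` is the set of the primes in `(u, v]`), with
`u' = ⌈u⌉ - 1`, `v' = ⌊v⌋` (`log u' ≥ (log u) / 2` etc.; `|log log u - log log u'| ≤ C / log u`; for small `u` enlarge `C`:
`log log u` is bounded below by `log log 2`).
`mer_log`: `∑_{p ≤ x} log p / p ≤ log x + 3` (`mA_bound` of `RG.Mer`, `mA n = ∑_{p ≤ n} log p / p`), and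
`log p / (p - 1) = log p / p + log p / (p (p - 1))`, where `∑_{n ≥ 2} log n / (n (n-1)) ≤ 2` (`sum_tail` of
`Helper35.Primes`).
`mer_V`: the primes in `[N^α, N^β)` which are not in `V` are at most `m`, each contributes at most `2 N^(-α)`;
`recip_bounds` with `u ~ N^α`, `v ~ N^β` for the sum of `1 / p` over all primes (`log log N^β - log log N^α = log (β/α)`,
error `C / (α log N)`), and `0 ≤ 1/(p-1) - 1/p ≤ 2 / p²`, `∑ ≤ 4 N^(-α)`. For `β > 1` nothing is claimed. Note that `V`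
consists of primes `≤ N`, and `N^β ≤ N`.
`mer_logV`: `mA_bound` at the two end points: `∑_{N^α ≤ p < N^β} log p / p ≤ (β - α) log N + 6 + ...` -/

set_option autoImplicit false

open Finset PGL

noncomputable section

namespace PGS

/-- `log ⌊x⌋` -/
private theorem log_fl {x : ℝ} (hx : 1 ≤ x) :
    Real.log x - 1 / (⌊x⌋₊ : ℝ) ≤ Real.log (⌊x⌋₊ : ℝ) ∧ Real.log (⌊x⌋₊ : ℝ) ≤ Real.log x := by
  have h1 : 1 ≤ ⌊x⌋₊ := (Nat.one_le_floor_iff x).2 hx
  have h2 : (1 : ℝ) ≤ (⌊x⌋₊ : ℝ) := by exact_mod_cast h1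
  have h3 : (⌊x⌋₊ : ℝ) ≤ x := Nat.floor_le (by linarith)
  have h4 : x < (⌊x⌋₊ : ℝ) + 1 := Nat.lt_floor_add_one x
  refine ⟨?_, Real.log_le_log (by linarith) h3⟩
  have h5 := Real.log_le_sub_one_of_pos (x := x / (⌊x⌋₊ : ℝ)) (by positivity)
  rw [Real.log_div (by linarith) (by linarith)] at h5
  have h6 : x / (⌊x⌋₊ : ℝ) - 1 ≤ 1 / (⌊x⌋₊ : ℝ) := by
    rw [sub_le_iff_le_add, div_le_iff₀ (by linarith), add_mul, one_div,
      inv_mul_cancel₀ (by linarith)]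
    linarith
  linarith

/-- the primes in `[u, v]` -/
private theorem sub_ins {u v : ℝ} {P : Finset ℕ}
    (hP : ∀ p ∈ P, p.Prime ∧ u ≤ (p : ℝ) ∧ (p : ℝ) ≤ v) :
    P ⊆ insert ⌊u⌋₊ (Pool.Agent.RG.prm ⌊u⌋₊ ⌊v⌋₊) := by
  intro p hp
  obtain ⟨h1, h2, h3⟩ := hP p hp
  rw [mem_insert, Pool.Agent.RG.mem_prm]
  have h4 : ⌊u⌋₊ ≤ p := Nat.floor_le_of_le h2
  rcases eq_or_lt_of_le h4 with h5 | h5
  · exact Or.inl h5.symm
  · exact Or.inr ⟨⟨h5, Nat.le_floor h3⟩, h1⟩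

private theorem sum_ins_le (f : ℕ → ℝ) (hf : ∀ p, 0 ≤ f p) {P S : Finset ℕ} {a : ℕ}
    (h : P ⊆ insert a S) : ∑ p ∈ P, f p ≤ f a + ∑ p ∈ S, f p := by
  refine (sum_le_sum_of_subset_of_nonneg h fun i _ _ => hf i).trans ?_
  by_cases ha : a ∈ S
  · rw [insert_eq_of_mem ha]
    linarith [hf a]
  · rw [sum_insert ha]

theorem mer_unif : ∃ C : ℝ, 0 < C ∧ ∀ u v : ℝ, 2 ≤ u → u ≤ v → ∀ P : Finset ℕ,
    (∀ p ∈ P, p.Prime ∧ u ≤ (p : ℝ) ∧ (p : ℝ) ≤ v) →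
      ∑ p ∈ P, 1 / (p : ℝ) ≤ Real.log (Real.log v / Real.log u) + C / Real.log u := by
  obtain ⟨C, hC, hrec⟩ := Pool.Agent.RG.recip_bounds
  refine ⟨2 * C + 4, by linarith, ?_⟩
  intro u v hu huv P hP
  set a : ℕ := ⌊u⌋₊ with ha
  set b : ℕ := ⌊v⌋₊ with hb
  have ha2 : 2 ≤ a := Nat.le_floor (by exact_mod_cast hu)
  have hab : a ≤ b := Nat.floor_le_floor huv
  have ha2' : (2 : ℝ) ≤ (a : ℝ) := by exact_mod_cast ha2
  have hb2' : (2 : ℝ) ≤ (b : ℝ) := ha2'.trans (by exact_mod_cast hab)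
  have h1 := sum_ins_le (fun p : ℕ => 1 / (p : ℝ)) (fun p => by positivity) (sub_ins hP)
  rw [← ha, ← hb] at h1
  have h2 := (abs_le.1 (hrec a b ha2 hab)).2
  have hla : 0 < Real.log (a : ℝ) := Real.log_pos (by linarith)
  have hlb : 0 < Real.log (b : ℝ) := Real.log_pos (by linarith)
  have hlu : 0 < Real.log u := Real.log_pos (by linarith)
  have hlv : 0 < Real.log v := Real.log_pos (by linarith)
  obtain ⟨h3, h3'⟩ := log_fl (x := u) (by linarith)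
  obtain ⟨h4, h4'⟩ := log_fl (x := v) (by linarith)
  rw [← ha] at h3 h3'
  rw [← hb] at h4 h4'
  -- `log u ≤ 2 log a`
  have h5 : Real.log u ≤ 2 * Real.log (a : ℝ) := by
    have h6 : u < (a : ℝ) + 1 := Nat.lt_floor_add_one u
    have h7 : u ≤ (a : ℝ) ^ 2 := by nlinarith
    have h8 := Real.log_le_log (by linarith) h7
    rw [Real.log_pow] at h8
    push_cast at h8
    linarith
  have h6 : 1 / Real.log (a : ℝ) ≤ 2 / Real.log u := by
    rw [div_le_div_iff₀ hla hlu]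
    linarith
  have h7 : 1 / (a : ℝ) ≤ 1 / Real.log (a : ℝ) := by
    apply one_div_le_one_div_of_le hla
    have := Real.log_le_sub_one_of_pos (x := (a : ℝ)) (by linarith)
    linarith
  have h8 : Real.log (Real.log u) - Real.log (Real.log (a : ℝ)) ≤ 1 / Real.log (a : ℝ) := by
    rw [← Real.log_div hlu.ne' hla.ne']
    have h9 := Real.log_le_sub_one_of_pos (x := Real.log u / Real.log (a : ℝ)) (by positivity)
    have h10 : Real.log u / Real.log (a : ℝ) - 1 ≤ 1 / Real.log (a : ℝ) := by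
      rw [sub_le_iff_le_add, div_le_iff₀ hla, add_mul, one_div, inv_mul_cancel₀ hla.ne']
      have h11 : 1 / (a : ℝ) ≤ 1 := by
        rw [div_le_one (by linarith)]
        linarith
      linarith
    linarith
  have h9 : Real.log (Real.log (b : ℝ)) ≤ Real.log (Real.log v) := Real.log_le_log hlb h4'
  rw [Real.log_div hlv.ne' hlu.ne']
  have h10 : C / Real.log (a : ℝ) = C * (1 / Real.log (a : ℝ)) := by ring
  have h11 : (2 * C + 4) / Real.log u = C * (2 / Real.log u) + 2 * (2 / Real.log u) := by ring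
  have h12 : C * (1 / Real.log (a : ℝ)) ≤ C * (2 / Real.log u) :=
    mul_le_mul_of_nonneg_left h6 hC.le
  rw [h11]
  rw [h10] at h2
  linarith

private theorem log_div_sub_one {p : ℕ} (hp : 2 ≤ p) : Real.log p / ((p : ℝ) - 1) =
    Real.log p / p + Real.log p / ((p : ℝ) * ((p : ℝ) - 1)) := by
  have h1 : (2 : ℝ) ≤ (p : ℝ) := by exact_mod_cast hp
  have h2 : (p : ℝ) - 1 ≠ 0 := by linarith
  have h3 : (p : ℝ) ≠ 0 := by linarith
  field_simp
  ring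

private theorem sum_log_tail {P : Finset ℕ} (hP : ∀ p ∈ P, p.Prime) :
    ∑ p ∈ P, Real.log p / ((p : ℝ) * ((p : ℝ) - 1)) ≤ 2 := by
  refine le_trans ?_ (Pool.Agent.Helper35.sum_tail (P.sup id))
  refine sum_le_sum_of_subset_of_nonneg ?_ ?_
  · intro p hp
    rw [mem_Ioc]
    exact ⟨(hP p hp).one_lt, le_sup (f := id) hp⟩
  · intro k hk _
    rw [mem_Ioc] at hk
    have h1 : (1 : ℝ) < (k : ℝ) := by exact_mod_cast hk.1
    have h2 : 0 ≤ Real.log (k : ℝ) := Real.log_natCast_nonneg k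
    have h3 : 0 < (k : ℝ) * ((k : ℝ) - 1) := mul_pos (by linarith) (by linarith)
    positivity

private theorem sum_log_le {P : Finset ℕ} (hP : ∀ p ∈ P, p.Prime) :
    ∑ p ∈ P, Real.log p / ((p : ℝ) - 1) ≤ ∑ p ∈ P, Real.log p / (p : ℝ) + 2 := by
  have h1 : ∑ p ∈ P, Real.log p / ((p : ℝ) - 1) =
      ∑ p ∈ P, (Real.log p / p + Real.log p / ((p : ℝ) * ((p : ℝ) - 1))) :=
    sum_congr rfl fun p hp => log_div_sub_one (hP p hp).two_le
  rw [h1, sum_add_distrib]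
  linarith [sum_log_tail hP]

theorem mer_log : ∃ C : ℝ, 0 < C ∧ ∀ x : ℝ, 1 ≤ x → ∀ P : Finset ℕ, (∀ p ∈ P, p.Prime ∧ (p : ℝ) ≤ x) →
    ∑ p ∈ P, Real.log p / ((p : ℝ) - 1) ≤ Real.log x + C := by
  refine ⟨5, by norm_num, ?_⟩
  intro x hx P hP
  have h1 := sum_log_le (fun p hp => (hP p hp).1)
  have h2 := (abs_le.1 (Pool.Agent.RG.mA_bound ⌊x⌋₊ ((Nat.one_le_floor_iff x).2 hx))).2
  have h3 := (log_fl hx).2
  have h4 : ∑ p ∈ P, Real.log p / (p : ℝ) ≤ Pool.Agent.RG.mA ⌊x⌋₊ := by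
    unfold Pool.Agent.RG.mA
    refine sum_le_sum_of_subset_of_nonneg ?_ ?_
    · intro p hp
      rw [Pool.Agent.Helper35.mem_prm]
      exact ⟨⟨(hP p hp).1.pos, Nat.le_floor (hP p hp).2⟩, (hP p hp).1⟩
    · intro k _ _
      have h2 : 0 ≤ Real.log (k : ℝ) := Real.log_natCast_nonneg k
      positivity
  linarith

/-- elementary estimate behind `mer_V` -/
private theorem V_aux {C : ℝ} (hrec : ∀ u v : ℕ, 2 ≤ u → u ≤ v →
    |∑ p ∈ Pool.Agent.RG.prm u v, 1 / (p : ℝ) - (Real.log (Real.log v) - Real.log (Real.log u))| ≤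
      C / Real.log u) (ε α β : ℝ) (m N : ℕ) (hN : 1 ≤ N) (hα : 0 < α) (hαβ : α < β) (hβ : β ≤ 1)
    (ha2 : 2 ≤ ⌊(N : ℝ) ^ α⌋₊) (hε : ε * Real.log N < (N : ℝ) ^ α)
    (V : Finset ℕ) (hV : V ⊆ VN (ε * Real.log N) N) (hm : ((VN (ε * Real.log N) N) \ V).card ≤ m) :
    |∑ p ∈ PR N α β V, 1 / (p : ℝ) - (Real.log (Real.log (⌊(N : ℝ) ^ β⌋₊ : ℝ)) -
      Real.log (Real.log (⌊(N : ℝ) ^ α⌋₊ : ℝ)))| ≤
        (m + 1) * (1 / (⌊(N : ℝ) ^ α⌋₊ : ℝ)) + C / Real.log (⌊(N : ℝ) ^ α⌋₊ : ℝ) ∧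
    |∑ p ∈ PR N α β V, 1 / ((p : ℝ) - 1) - ∑ p ∈ PR N α β V, 1 / (p : ℝ)| ≤
      4 * (1 / (⌊(N : ℝ) ^ α⌋₊ : ℝ)) := by
  have hN1 : (1 : ℝ) ≤ (N : ℝ) := by exact_mod_cast hN
  have hu1 : (1 : ℝ) ≤ (N : ℝ) ^ α := Real.one_le_rpow hN1 hα.le
  have huv : (N : ℝ) ^ α ≤ (N : ℝ) ^ β := Real.rpow_le_rpow_of_exponent_le hN1 hαβ.le
  have hvN : (N : ℝ) ^ β ≤ (N : ℝ) := by
    calc (N : ℝ) ^ β ≤ (N : ℝ) ^ (1 : ℝ) := Real.rpow_le_rpow_of_exponent_le hN1 hβ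
      _ = (N : ℝ) := Real.rpow_one _
  set u : ℝ := (N : ℝ) ^ α with hu
  set v : ℝ := (N : ℝ) ^ β with hv
  set a : ℕ := ⌊u⌋₊ with ha
  set b : ℕ := ⌊v⌋₊ with hb
  have hab : a ≤ b := Nat.floor_le_floor huv
  have ha2' : (2 : ℝ) ≤ (a : ℝ) := by exact_mod_cast ha2
  have hT : ∀ p ∈ PR N α β V, p.Prime ∧ u ≤ (p : ℝ) ∧ (p : ℝ) ≤ v := by
    intro p hp
    rw [mem_PR] at hp
    have h1 := hV hp.1
    unfold VN at h1
    rw [mem_filter] at h1
    exact ⟨h1.2.1, hp.2.1, hp.2.2.le⟩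
  have hT1 : PR N α β V ⊆ insert a (Pool.Agent.RG.prm a b) := sub_ins hT
  have hap : ∀ p : ℕ, a ≤ p → 1 / (p : ℝ) ≤ 1 / (a : ℝ) := fun p hp =>
    one_div_le_one_div_of_le (by linarith) (by exact_mod_cast hp)
  constructor
  · have h1 := sum_ins_le (fun p : ℕ => 1 / (p : ℝ)) (fun p => by positivity) hT1
    have h2 : ∑ p ∈ Pool.Agent.RG.prm a b, 1 / (p : ℝ) ≤ ∑ p ∈ PR N α β V, 1 / (p : ℝ) +
        (m + 1) * (1 / (a : ℝ)) := by
      have h3 : Pool.Agent.RG.prm a b ⊆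
          PR N α β V ∪ (insert b (VN (ε * Real.log N) N \ V)).filter (fun p => a ≤ p) := by
        intro p hp
        rw [Pool.Agent.RG.mem_prm] at hp
        obtain ⟨⟨hp1, hp2⟩, hp3⟩ := hp
        rw [mem_union, mem_filter, mem_insert, mem_sdiff, mem_PR]
        have h4 : u ≤ (p : ℝ) := by
          have h5 : u < (a : ℝ) + 1 := Nat.lt_floor_add_one u
          have h6 : (a : ℝ) + 1 ≤ (p : ℝ) := by exact_mod_cast hp1
          linarith
        have h5 : (p : ℝ) ≤ v := (Nat.le_floor_iff (by linarith)).1 hp2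
        have h6 : p ∈ VN (ε * Real.log N) N := by
          unfold VN
          rw [mem_filter, mem_range]
          refine ⟨?_, hp3, by linarith⟩
          have : (p : ℝ) ≤ (N : ℝ) := h5.trans hvN
          have : p ≤ N := by exact_mod_cast this
          omega
        by_cases hpV : p ∈ V
        · rcases eq_or_lt_of_le hp2 with h7 | h7
          · exact Or.inr ⟨Or.inl h7, hp1.le⟩
          · left
            refine ⟨hpV, h4, ?_⟩
            have h8 : (p : ℝ) + 1 ≤ (b : ℝ) := by exact_mod_cast h7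
            have h9 : (b : ℝ) ≤ v := Nat.floor_le (by linarith)
            linarith
        · exact Or.inr ⟨Or.inr ⟨h6, hpV⟩, hp1.le⟩
      have h4 : ∑ p ∈ (insert b (VN (ε * Real.log N) N \ V)).filter (fun p => a ≤ p), 1 / (p : ℝ) ≤
          (m + 1) * (1 / (a : ℝ)) := by
        calc _ ≤ ∑ p ∈ (insert b (VN (ε * Real.log N) N \ V)).filter (fun p => a ≤ p),
              1 / (a : ℝ) := sum_le_sum fun p hp => hap p (mem_filter.1 hp).2
          _ = (((insert b (VN (ε * Real.log N) N \ V)).filter (fun p => a ≤ p)).card : ℝ) *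
              (1 / (a : ℝ)) := by rw [sum_const, nsmul_eq_mul]
          _ ≤ _ := by
            refine mul_le_mul_of_nonneg_right ?_ (by positivity)
            have h5 : ((insert b (VN (ε * Real.log N) N \ V)).filter (fun p => a ≤ p)).card ≤
                m + 1 :=
              (card_filter_le _ _).trans ((card_insert_le _ _).trans (Nat.add_le_add_right hm 1))
            exact_mod_cast h5
      calc ∑ p ∈ Pool.Agent.RG.prm a b, 1 / (p : ℝ)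
          ≤ ∑ p ∈ PR N α β V ∪ (insert b (VN (ε * Real.log N) N \ V)).filter (fun p => a ≤ p),
            1 / (p : ℝ) := sum_le_sum_of_subset_of_nonneg h3 fun i _ _ => by positivity
        _ ≤ ∑ p ∈ PR N α β V, 1 / (p : ℝ) +
            ∑ p ∈ (insert b (VN (ε * Real.log N) N \ V)).filter (fun p => a ≤ p), 1 / (p : ℝ) := by
            have h5 := sum_union_inter (f := fun p : ℕ => 1 / (p : ℝ)) (s₁ := PR N α β V)
              (s₂ := (insert b (VN (ε * Real.log N) N \ V)).filter (fun p => a ≤ p))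
            have h6 : 0 ≤ ∑ p ∈ PR N α β V ∩
                (insert b (VN (ε * Real.log N) N \ V)).filter (fun p => a ≤ p), 1 / (p : ℝ) :=
              sum_nonneg fun i _ => by positivity
            linarith
        _ ≤ _ := by linarith
    have h3 := abs_le.1 (hrec a b ha2 hab)
    have h4 : (0 : ℝ) ≤ 1 / (a : ℝ) := by positivity
    have h5 : (0 : ℝ) ≤ (m : ℝ) * (1 / (a : ℝ)) := by positivity
    rw [abs_le]
    constructor
    · linarith [h3.1]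
    · linarith [h3.2]
  · rw [← sum_sub_distrib]
    have h1 : ∀ p ∈ PR N α β V, 0 ≤ 1 / ((p : ℝ) - 1) - 1 / (p : ℝ) ∧
        1 / ((p : ℝ) - 1) - 1 / (p : ℝ) ≤ 2 * (1 / (p : ℝ) ^ 2) := by
      intro p hp
      have h2 : (2 : ℝ) ≤ (p : ℝ) := by exact_mod_cast (hT p hp).1.two_le
      have h3 : (0 : ℝ) < (p : ℝ) - 1 := by linarith
      have h4 : 1 / ((p : ℝ) - 1) - 1 / (p : ℝ) = 1 / ((p : ℝ) * ((p : ℝ) - 1)) := by
        field_simp
        ring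
      rw [h4]
      refine ⟨by positivity, ?_⟩
      have h5 : 2 * (1 / (p : ℝ) ^ 2) = 2 / (p : ℝ) ^ 2 := by ring
      rw [h5, div_le_div_iff₀ (by positivity) (by positivity)]
      nlinarith
    rw [abs_of_nonneg (sum_nonneg fun p hp => (h1 p hp).1)]
    have h2 : ∑ p ∈ PR N α β V, (1 / ((p : ℝ) - 1) - 1 / (p : ℝ)) ≤
        ∑ p ∈ PR N α β V, 2 * (1 / (p : ℝ) ^ 2) := sum_le_sum fun p hp => (h1 p hp).2
    rw [← mul_sum] at h2
    have h3 := sum_ins_le (fun p : ℕ => 1 / (p : ℝ) ^ 2) (fun p => by positivity) hT1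
    have h4 := Pool.Agent.RG.sq_sum a b (by omega)
    have h5 : 1 / (a : ℝ) ^ 2 ≤ 1 / (a : ℝ) := by
      apply one_div_le_one_div_of_le (by linarith)
      nlinarith
    linarith

private theorem tend_fl (α : ℝ) (hα : 0 < α) :
    Filter.Tendsto (fun N : ℕ => (⌊(N : ℝ) ^ α⌋₊ : ℝ)) Filter.atTop Filter.atTop := by
  refine tendsto_natCast_atTop_atTop.comp (tendsto_nat_floor_atTop.comp ?_)
  exact (tendsto_rpow_atTop hα).comp tendsto_natCast_atTop_atTop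

private theorem tend_log_fl (α : ℝ) (hα : 0 < α) :
    Filter.Tendsto (fun N : ℕ => Real.log (⌊(N : ℝ) ^ α⌋₊ : ℝ) / Real.log N) Filter.atTop
      (nhds α) := by
  have hlog : Filter.Tendsto (fun N : ℕ => Real.log (N : ℝ)) Filter.atTop Filter.atTop :=
    Real.tendsto_log_atTop.comp tendsto_natCast_atTop_atTop
  have h1 : Filter.Tendsto (fun N : ℕ => α - 1 / Real.log (N : ℝ)) Filter.atTop (nhds α) := by
    have h2 : Filter.Tendsto (fun N : ℕ => 1 / Real.log (N : ℝ)) Filter.atTop (nhds 0) := by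
      simp only [one_div]
      exact tendsto_inv_atTop_zero.comp hlog
    simpa using h2.const_sub α
  refine tendsto_of_tendsto_of_tendsto_of_le_of_le' h1 tendsto_const_nhds ?_ ?_
  · filter_upwards [Filter.eventually_ge_atTop 2] with N hN
    have hN1 : (2 : ℝ) ≤ (N : ℝ) := by exact_mod_cast hN
    have hl : 0 < Real.log (N : ℝ) := Real.log_pos (by linarith)
    have hu1 : (1 : ℝ) ≤ (N : ℝ) ^ α := Real.one_le_rpow (by linarith) hα.le
    have h2 := (log_fl hu1).1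
    rw [Real.log_rpow (by linarith)] at h2
    have h3 : (1 : ℝ) ≤ (⌊(N : ℝ) ^ α⌋₊ : ℝ) := by
      exact_mod_cast (Nat.one_le_floor_iff _).2 hu1
    have h4 : 1 / (⌊(N : ℝ) ^ α⌋₊ : ℝ) ≤ 1 := by
      rw [div_le_one (by linarith)]
      exact h3
    rw [le_div_iff₀ hl, sub_mul, one_div, inv_mul_cancel₀ hl.ne']
    linarith
  · filter_upwards [Filter.eventually_ge_atTop 2] with N hN
    have hN1 : (2 : ℝ) ≤ (N : ℝ) := by exact_mod_cast hN
    have hl : 0 < Real.log (N : ℝ) := Real.log_pos (by linarith)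
    have hu1 : (1 : ℝ) ≤ (N : ℝ) ^ α := Real.one_le_rpow (by linarith) hα.le
    have h2 := (log_fl hu1).2
    rw [Real.log_rpow (by linarith)] at h2
    rw [div_le_iff₀ hl]
    exact h2

theorem mer_V (ε η α β : ℝ) (m : ℕ) (hη : 0 < η) (hα : 0 < α) (hαβ : α < β) (hβ : β ≤ 1) : ∃ N₀ : ℕ, ∀ N : ℕ,
    N₀ ≤ N → ∀ V : Finset ℕ, V ⊆ VN (ε * Real.log N) N → ((VN (ε * Real.log N) N) \ V).card ≤ m →
      |∑ p ∈ PR N α β V, 1 / ((p : ℝ) - 1) - Real.log (β / α)| ≤ η ∧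
      |∑ p ∈ PR N α β V, 1 / (p : ℝ) - Real.log (β / α)| ≤ η := by
  obtain ⟨C, hC, hrec⟩ := Pool.Agent.RG.recip_bounds
  have hβ0 : 0 < β := hα.trans hαβ
  have hlog : Filter.Tendsto (fun N : ℕ => Real.log (N : ℝ)) Filter.atTop Filter.atTop :=
    Real.tendsto_log_atTop.comp tendsto_natCast_atTop_atTop
  have ta := tend_fl α hα
  have ta' := tend_log_fl α hα
  have tb' := tend_log_fl β hβ0
  -- the main term
  have t1 : Filter.Tendsto (fun N : ℕ => Real.log (Real.log (⌊(N : ℝ) ^ β⌋₊ : ℝ)) -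
      Real.log (Real.log (⌊(N : ℝ) ^ α⌋₊ : ℝ))) Filter.atTop (nhds (Real.log (β / α))) := by
    rw [Real.log_div hβ0.ne' hα.ne']
    have h1 := (tb'.log hβ0.ne').sub (ta'.log hα.ne')
    refine h1.congr' ?_
    filter_upwards [Filter.eventually_ge_atTop 2, ta.eventually_ge_atTop 2,
      (tend_fl β hβ0).eventually_ge_atTop 2] with N hN h2 h3
    have hN1 : (2 : ℝ) ≤ (N : ℝ) := by exact_mod_cast hN
    have hl : 0 < Real.log (N : ℝ) := Real.log_pos (by linarith)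
    have h4 : 0 < Real.log (⌊(N : ℝ) ^ α⌋₊ : ℝ) := Real.log_pos (by linarith)
    have h5 : 0 < Real.log (⌊(N : ℝ) ^ β⌋₊ : ℝ) := Real.log_pos (by linarith)
    rw [Real.log_div h4.ne' hl.ne', Real.log_div h5.ne' hl.ne']
    ring
  have t2 : Filter.Tendsto (fun N : ℕ => (1 : ℝ) / (⌊(N : ℝ) ^ α⌋₊ : ℝ)) Filter.atTop (nhds 0) := by
    simp only [one_div]
    exact tendsto_inv_atTop_zero.comp ta
  have t3 : Filter.Tendsto (fun N : ℕ => C / Real.log (⌊(N : ℝ) ^ α⌋₊ : ℝ)) Filter.atTop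
      (nhds 0) := (Real.tendsto_log_atTop.comp ta).const_div_atTop C
  have t4 : Filter.Tendsto (fun N : ℕ => |(Real.log (Real.log (⌊(N : ℝ) ^ β⌋₊ : ℝ)) -
      Real.log (Real.log (⌊(N : ℝ) ^ α⌋₊ : ℝ))) - Real.log (β / α)| +
      ((m + 5) * (1 / (⌊(N : ℝ) ^ α⌋₊ : ℝ)) + C / Real.log (⌊(N : ℝ) ^ α⌋₊ : ℝ)))
      Filter.atTop (nhds 0) := by
    have h1 := ((t1.sub_const (Real.log (β / α))).abs).add ((t2.const_mul ((m : ℝ) + 5)).add t3)
    simpa using h1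
  have t5 : ∀ᶠ N : ℕ in Filter.atTop, ε * Real.log N < (N : ℝ) ^ α := by
    have h1 : Filter.Tendsto (fun N : ℕ => Real.log (N : ℝ) / (N : ℝ) ^ α) Filter.atTop
        (nhds 0) :=
      ((isLittleO_log_rpow_atTop hα).tendsto_div_nhds_zero).comp tendsto_natCast_atTop_atTop
    have h2 : Filter.Tendsto (fun N : ℕ => ε * (Real.log (N : ℝ) / (N : ℝ) ^ α)) Filter.atTop
        (nhds 0) := by simpa using h1.const_mul ε
    filter_upwards [h2.eventually_lt_const (by norm_num : (0 : ℝ) < 1),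
      Filter.eventually_ge_atTop 1] with N h3 hN
    have hN1 : (1 : ℝ) ≤ (N : ℝ) := by exact_mod_cast hN
    have h4 : 0 < (N : ℝ) ^ α := Real.rpow_pos_of_pos (by linarith) α
    rw [← mul_div_assoc, div_lt_one h4] at h3
    exact h3
  have hall := ((t4.eventually_le_const hη).and (t5.and ((ta.eventually_ge_atTop 2).and
    (Filter.eventually_ge_atTop 1))))
  obtain ⟨N₀, hN₀⟩ := Filter.eventually_atTop.1 hall
  refine ⟨N₀, fun N hN V hV hm => ?_⟩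
  obtain ⟨h1, h2, h3, h4⟩ := hN₀ N hN
  have h3' : 2 ≤ ⌊(N : ℝ) ^ α⌋₊ := by exact_mod_cast h3
  obtain ⟨e1, e2⟩ := V_aux hrec ε α β m N h4 hα hαβ hβ h3' h2 V hV hm
  have h5 : (0 : ℝ) ≤ 1 / (⌊(N : ℝ) ^ α⌋₊ : ℝ) := by positivity
  have h6 : ((m : ℝ) + 5) * (1 / (⌊(N : ℝ) ^ α⌋₊ : ℝ)) = ((m : ℝ) + 1) *
      (1 / (⌊(N : ℝ) ^ α⌋₊ : ℝ)) + 4 * (1 / (⌊(N : ℝ) ^ α⌋₊ : ℝ)) := by ring
  rw [h6] at h1
  have h7 := abs_le.1 (le_refl |(Real.log (Real.log (⌊(N : ℝ) ^ β⌋₊ : ℝ)) -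
      Real.log (Real.log (⌊(N : ℝ) ^ α⌋₊ : ℝ))) - Real.log (β / α)|)
  rw [abs_le] at e1 e2
  constructor
  · rw [abs_le]
    constructor
    · linarith [e1.1, e2.1, h7.1]
    · linarith [e1.2, e2.2, h7.2]
  · rw [abs_le]
    constructor
    · linarith [e1.1, h7.1]
    · linarith [e1.2, h7.2]

theorem mer_logV (η α β : ℝ) (hη : 0 < η) (hα : 0 ≤ α) (hαβ : α < β) : ∃ N₀ : ℕ, ∀ N : ℕ,
    N₀ ≤ N → ∀ V : Finset ℕ, (∀ p ∈ V, p.Prime) →
      ∑ p ∈ PR N α β V, Real.log p / ((p : ℝ) - 1) ≤ (β - α + η) * Real.log N := by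
  have hlog : Filter.Tendsto (fun N : ℕ => Real.log (N : ℝ)) Filter.atTop Filter.atTop :=
    Real.tendsto_log_atTop.comp tendsto_natCast_atTop_atTop
  obtain ⟨N₀, hN₀⟩ := Filter.eventually_atTop.1 ((hlog.eventually_ge_atTop (10 / η)).and
    (Filter.eventually_ge_atTop 1))
  refine ⟨N₀, fun N hN V hV => ?_⟩
  obtain ⟨h1, h2⟩ := hN₀ N hN
  have hN1 : (1 : ℝ) ≤ (N : ℝ) := by exact_mod_cast h2
  have hu1 : (1 : ℝ) ≤ (N : ℝ) ^ α := Real.one_le_rpow hN1 hα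
  have huv : (N : ℝ) ^ α ≤ (N : ℝ) ^ β := Real.rpow_le_rpow_of_exponent_le hN1 hαβ.le
  have hT : ∀ p ∈ PR N α β V, p.Prime ∧ (N : ℝ) ^ α ≤ (p : ℝ) ∧ (p : ℝ) ≤ (N : ℝ) ^ β := by
    intro p hp
    rw [mem_PR] at hp
    exact ⟨hV p hp.1, hp.2.1, hp.2.2.le⟩
  have h3 := sum_log_le (fun p hp => (hT p hp).1)
  have h4 := sum_ins_le (fun p : ℕ => Real.log p / (p : ℝ)) (fun p => by
    have h2 : 0 ≤ Real.log (p : ℝ) := Real.log_natCast_nonneg p
    positivity) (sub_ins hT)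
  have hlu := (log_fl hu1).1
  have hlv := (log_fl (hu1.trans huv)).2
  rw [Real.log_rpow (by linarith)] at hlu hlv
  have ha1 : 1 ≤ ⌊(N : ℝ) ^ α⌋₊ := (Nat.one_le_floor_iff _).2 hu1
  have hb1 : 1 ≤ ⌊(N : ℝ) ^ β⌋₊ := (Nat.one_le_floor_iff _).2 (hu1.trans huv)
  have hab : ⌊(N : ℝ) ^ α⌋₊ ≤ ⌊(N : ℝ) ^ β⌋₊ := Nat.floor_le_floor huv
  have h5 := (abs_le.1 (Pool.Agent.RG.mA_bound _ ha1)).1
  have h6 := (abs_le.1 (Pool.Agent.RG.mA_bound _ hb1)).2
  have h7 : ∑ p ∈ Pool.Agent.RG.prm ⌊(N : ℝ) ^ α⌋₊ ⌊(N : ℝ) ^ β⌋₊, Real.log p / (p : ℝ) =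
      Pool.Agent.RG.mA ⌊(N : ℝ) ^ β⌋₊ - Pool.Agent.RG.mA ⌊(N : ℝ) ^ α⌋₊ := by
    unfold Pool.Agent.RG.mA
    exact Pool.Agent.Helper35.prm_sum_sub (fun p : ℕ => Real.log p / (p : ℝ)) hab
  have ha1' : (1 : ℝ) ≤ (⌊(N : ℝ) ^ α⌋₊ : ℝ) := by exact_mod_cast ha1
  have h8 : Real.log (⌊(N : ℝ) ^ α⌋₊ : ℝ) / (⌊(N : ℝ) ^ α⌋₊ : ℝ) ≤ 1 := by
    rw [div_le_one (by linarith)]
    have := Real.log_le_sub_one_of_pos (x := (⌊(N : ℝ) ^ α⌋₊ : ℝ)) (by linarith)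
    linarith
  have h9 : 1 / (⌊(N : ℝ) ^ α⌋₊ : ℝ) ≤ 1 := by
    rw [div_le_one (by linarith)]
    exact ha1'
  have h10 : 10 ≤ η * Real.log (N : ℝ) := by
    rw [div_le_iff₀ hη] at h1
    linarith
  rw [h7] at h4
  have h11 : (β - α + η) * Real.log (N : ℝ) = β * Real.log N - α * Real.log N +
      η * Real.log N := by ring
  rw [h11]
  linarith

end PGS
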