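import Pool.Agent.PGS.Cf
import Pool.Agent.PGS.Mer

/-! PGS / Rg34: the sums over the pairs and triples of primes near a hyperplane.

PROOF. Let `Q = V.filter (N^α ≤ x ≤ N^κ)`, `α = 0.1251`, `c = 1/50000`, `1/4 - 10^(-6) ≤ κ < 1/4`, and `s = sz N p ∈ [0.1251, 0.1252]`.
`M = {x, y}`, `x < y`: for fixed `x` the prime `y` satisfies `|sz N y - w| ≤ c` with `w = 2 κ - s - sz N x`,
`w ≥ κ - s ≥ 0.1247`, so `N^(w - c) ≤ y ≤ N^(w + c)` and by `mer_unif` the sum of `1 / y` is at most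
`log ((w + c) / (w - c)) + C / log N ≤ 2 c / (w - c) + C / log N ≤ 0.00033` for large `N`. The sum of `1 / x` over `Q` is at most
`log (κ / α) + C / log N ≤ 0.7`. Total `≤ 0.00024`.
`M = {x, y, z}`, `x < y < z`: the same with `w = 3 κ - s - sz N x - sz N y ≥ 0.1247` for `z`; total
`≤ 0.7 · 0.7 · 0.00033 ≤ 0.00017`. Together `≤ 0.00041`. (The map `M ↦` (its elements in increasing order) is
injective, `pr M` is the product.) -/

set_option autoImplicit false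

open Finset PGL

noncomputable section

namespace PGS

/-- splitting off an element of a set -/
private theorem split_sum (Q : Finset ℕ) (k : ℕ) (P : Finset ℕ → Prop) [DecidablePred P] :
    ∑ M ∈ (powersetCard (k + 1) Q).filter P, (1 : ℝ) / pr M ≤
      ∑ M ∈ powersetCard k Q, (1 : ℝ) / pr M *
        ∑ y ∈ Q.filter (fun y => y ∉ M ∧ P (insert y M)), (1 : ℝ) / y := by
  classical
  have hne : ∀ M ∈ (powersetCard (k + 1) Q).filter P, ∃ y, y ∈ M := by
    intro M hM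
    rw [mem_filter, mem_powersetCard] at hM
    have h1 : 0 < M.card := by omega
    exact card_pos.1 h1
  set g : Finset ℕ → ℕ := fun M => if h : ∃ y, y ∈ M then h.choose else 0 with hg
  have hgm : ∀ M ∈ (powersetCard (k + 1) Q).filter P, g M ∈ M := by
    intro M hM
    have h := hne M hM
    simp only [hg, dif_pos h]
    exact h.choose_spec
  have hins : ∀ M ∈ (powersetCard (k + 1) Q).filter P, insert (g M) (M.erase (g M)) = M :=
    fun M hM => insert_erase (hgm M hM)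
  have h1 : ∑ M ∈ powersetCard k Q, (1 : ℝ) / pr M *
        ∑ y ∈ Q.filter (fun y => y ∉ M ∧ P (insert y M)), (1 : ℝ) / y =
      ∑ q ∈ (powersetCard k Q).sigma (fun M => Q.filter (fun y => y ∉ M ∧ P (insert y M))),
        (1 : ℝ) / pr q.1 * ((1 : ℝ) / q.2) := by
    rw [sum_sigma]
    exact sum_congr rfl fun M _ => by rw [mul_sum]
  rw [h1]
  set e : Finset ℕ → (Σ _ : Finset ℕ, ℕ) := fun M => ⟨M.erase (g M), g M⟩ with he
  have hinj : Set.InjOn e ((powersetCard (k + 1) Q).filter P : Finset (Finset ℕ)) := by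
    intro M hM M' hM' hMM
    have h2 : M.erase (g M) = M'.erase (g M') ∧ g M = g M' := by
      simp only [he, Sigma.mk.injEq, heq_eq_eq] at hMM
      exact hMM
    rw [← hins M hM, ← hins M' hM', h2.1, h2.2]
  have h3 : ∑ M ∈ (powersetCard (k + 1) Q).filter P, (1 : ℝ) / pr M =
      ∑ q ∈ ((powersetCard (k + 1) Q).filter P).image e, (1 : ℝ) / pr q.1 * ((1 : ℝ) / q.2) := by
    rw [sum_image hinj]
    refine sum_congr rfl fun M hM => ?_
    have h4 : pr M = g M * pr (M.erase (g M)) := by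
      conv_lhs => rw [← hins M hM]
      unfold pr
      rw [prod_insert (notMem_erase _ _)]
    simp only [he]
    rw [h4]
    push_cast
    rw [one_div_mul_one_div, mul_comm]
  rw [h3]
  refine sum_le_sum_of_subset_of_nonneg ?_ fun q _ _ => by positivity
  intro q hq
  rw [mem_image] at hq
  obtain ⟨M, hM, rfl⟩ := hq
  have hgM := hgm M hM
  have hi := hins M hM
  have hM' := hM
  rw [mem_filter, mem_powersetCard] at hM'
  rw [mem_sigma, mem_powersetCard, mem_filter]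
  refine ⟨⟨(erase_subset _ _).trans hM'.1.1, ?_⟩, hM'.1.1 hgM, notMem_erase _ _, ?_⟩
  · rw [card_erase_of_mem hgM, hM'.1.2]
    rfl
  · simp only [he]
    rw [hi]
    exact hM'.2

private theorem pow_sum (Q : Finset ℕ) (b : ℝ) (hb : ∑ x ∈ Q, (1 : ℝ) / x ≤ b) (hb0 : 0 ≤ b) (k : ℕ) :
    ∑ M ∈ powersetCard k Q, (1 : ℝ) / pr M ≤ b ^ k := by
  induction k with
  | zero => simp [pr]
  | succ k ih =>
    have h1 := split_sum Q k (fun _ => True)
    rw [filter_true_of_mem (fun _ _ => trivial)] at h1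
    refine h1.trans ?_
    calc _ ≤ ∑ M ∈ powersetCard k Q, (1 : ℝ) / pr M * b := by
          refine sum_le_sum fun M _ => mul_le_mul_of_nonneg_left ?_ (by positivity)
          refine le_trans ?_ hb
          exact sum_le_sum_of_subset_of_nonneg (filter_subset _ _) fun i _ _ => by positivity
      _ = (∑ M ∈ powersetCard k Q, (1 : ℝ) / pr M) * b := by rw [sum_mul]
      _ ≤ b ^ k * b := mul_le_mul_of_nonneg_right ih hb0
      _ = b ^ (k + 1) := (pow_succ b k).symm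

/-- the two estimates for the primes of `V` -/
private theorem two_est : ∃ N₀ : ℕ, ∀ N : ℕ, N₀ ≤ N → 2 ≤ N ∧ ∀ V : Finset ℕ, (∀ p ∈ V, p.Prime) →
    (∀ κ : ℝ, 1 / 4 - 1 / 1000000 ≤ κ → κ < 1 / 4 →
      ∑ x ∈ V.filter (fun x : ℕ => (N : ℝ) ^ (1251 / 10000 : ℝ) ≤ (x : ℝ) ∧ (x : ℝ) ≤ (N : ℝ) ^ κ),
        (1 : ℝ) / x ≤ 7 / 10) ∧
    (∀ w : ℝ, 1247 / 10000 ≤ w → ∑ y ∈ V.filter (fun y : ℕ => |sz N y - w| ≤ 1 / 50000),
        (1 : ℝ) / y ≤ 33 / 100000) := by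
  obtain ⟨C, hC, hmer⟩ := mer_unif
  have hlog : Filter.Tendsto (fun N : ℕ => Real.log (N : ℝ)) Filter.atTop Filter.atTop :=
    Real.tendsto_log_atTop.comp tendsto_natCast_atTop_atTop
  obtain ⟨N₀, hN₀⟩ := Filter.eventually_atTop.1 ((hlog.eventually_ge_atTop (10000000 * C + 10)).and
    (Filter.eventually_ge_atTop 2))
  refine ⟨N₀, fun N hN => ?_⟩
  obtain ⟨h1, h2⟩ := hN₀ N hN
  refine ⟨h2, fun V hV => ?_⟩
  have hN1 : (2 : ℝ) ≤ (N : ℝ) := by exact_mod_cast h2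
  set L : ℝ := Real.log (N : ℝ) with hL
  have hL0 : 10 ≤ L := by linarith
  have hpow : ∀ t : ℝ, 1 / 10 ≤ t → (2 : ℝ) ≤ (N : ℝ) ^ t := by
    intro t ht
    have h3 : Real.log 2 ≤ Real.log ((N : ℝ) ^ t) := by
      rw [Real.log_rpow (by linarith)]
      have h4 : Real.log 2 < 1 := by
        have := Real.log_two_lt_d9
        linarith
      nlinarith
    exact (Real.log_le_log_iff (by norm_num) (Real.rpow_pos_of_pos (by linarith) t)).1 h3
  have hC' : ∀ t : ℝ, 1 / 10 ≤ t → C / (t * L) ≤ 1 / 1000000 := by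
    intro t ht
    have h5 : 0 < t * L := by positivity
    rw [div_le_div_iff₀ h5 (by norm_num)]
    have h6 : 1 / 10 * (10000000 * C + 10) ≤ t * L := by
      apply mul_le_mul ht h1 (by positivity) (by linarith)
    linarith
  constructor
  · intro κ hκ1 hκ2
    have h3 := hmer ((N : ℝ) ^ (1251 / 10000 : ℝ)) ((N : ℝ) ^ κ) (hpow _ (by norm_num))
      (Real.rpow_le_rpow_of_exponent_le (by linarith) (by linarith))
      (V.filter (fun x : ℕ => (N : ℝ) ^ (1251 / 10000 : ℝ) ≤ (x : ℝ) ∧ (x : ℝ) ≤ (N : ℝ) ^ κ))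
      (fun p hp => ⟨hV p (mem_filter.1 hp).1, (mem_filter.1 hp).2⟩)
    refine h3.trans ?_
    rw [Real.log_rpow (by linarith), Real.log_rpow (by linarith), ← hL]
    have h4 := hC' (1251 / 10000) (by norm_num)
    have h5 : κ * L / (1251 / 10000 * L) ≤ 2 := by
      rw [div_le_iff₀ (by positivity)]
      nlinarith
    have h6 : Real.log (κ * L / (1251 / 10000 * L)) ≤ Real.log 2 := by
      apply Real.log_le_log _ h5
      have : 0 < κ := by linarith
      positivity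
    have := Real.log_two_lt_d9
    linarith
  · intro w hw
    have h3 := hmer ((N : ℝ) ^ (w - 1 / 50000)) ((N : ℝ) ^ (w + 1 / 50000)) (hpow _ (by linarith))
      (Real.rpow_le_rpow_of_exponent_le (by linarith) (by linarith))
      (V.filter (fun y : ℕ => |sz N y - w| ≤ 1 / 50000)) (by
        intro p hp
        rw [mem_filter] at hp
        obtain ⟨h4, h5⟩ := hp
        have h6 : (0 : ℝ) < (p : ℝ) := by exact_mod_cast (hV p h4).pos
        rw [abs_le] at h5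
        have h7 : sz N p * L = Real.log p := by
          unfold sz
          rw [← hL]
          field_simp
        refine ⟨hV p h4, ?_, ?_⟩
        · rw [← Real.log_le_log_iff (Real.rpow_pos_of_pos (by linarith) _) h6,
            Real.log_rpow (by linarith), ← hL, ← h7]
          nlinarith
        · rw [← Real.log_le_log_iff h6 (Real.rpow_pos_of_pos (by linarith) _),
            Real.log_rpow (by linarith), ← hL, ← h7]
          nlinarith)
    refine h3.trans ?_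
    rw [Real.log_rpow (by linarith), Real.log_rpow (by linarith), ← hL]
    have h4 := hC' (w - 1 / 50000) (by linarith)
    have h0 : 0 < w - 1 / 50000 := by linarith
    have h0' : 0 < w + 1 / 50000 := by linarith
    have h5 : Real.log ((w + 1 / 50000) * L / ((w - 1 / 50000) * L)) ≤ 329 / 1000000 := by
      have h6 := Real.log_le_sub_one_of_pos
        (x := (w + 1 / 50000) * L / ((w - 1 / 50000) * L)) (by positivity)
      have h7 : (w + 1 / 50000) * L / ((w - 1 / 50000) * L) ≤ 1 + 329 / 1000000 := by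
        rw [div_le_iff₀ (by positivity)]
        nlinarith
      linarith
    linarith

/-- the common bound -/
private theorem rgk (N : ℕ) (hN : 2 ≤ N) (κ : ℝ) (hκ1 : 1 / 4 - 1 / 1000000 ≤ κ) (hκ2 : κ < 1 / 4)
    (V : Finset ℕ) (s : ℝ) (hs : s ≤ 1252 / 10000)
    (h1 : ∑ x ∈ V.filter (fun x : ℕ => (N : ℝ) ^ (1251 / 10000 : ℝ) ≤ (x : ℝ) ∧ (x : ℝ) ≤ (N : ℝ) ^ κ),
        (1 : ℝ) / x ≤ 7 / 10)
    (h2 : ∀ w : ℝ, 1247 / 10000 ≤ w → ∑ y ∈ V.filter (fun y : ℕ => |sz N y - w| ≤ 1 / 50000),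
        (1 : ℝ) / y ≤ 33 / 100000) (k : ℕ) (F : Finset (Finset ℕ))
    (hF : ∀ M ∈ F, M ⊆ V ∧ (∀ x ∈ M, (N : ℝ) ^ (1251 / 10000 : ℝ) ≤ (x : ℝ) ∧ (x : ℝ) ≤ (N : ℝ) ^ κ) ∧
        M.card = k + 1 ∧ |s + ∑ x ∈ M, sz N x - (k + 1) * κ| ≤ 1 / 50000) :
    ∑ M ∈ F, (1 : ℝ) / pr M ≤ (7 / 10) ^ k * (33 / 100000) := by
  classical
  set Q : Finset ℕ := V.filter (fun x : ℕ => (N : ℝ) ^ (1251 / 10000 : ℝ) ≤ (x : ℝ) ∧
    (x : ℝ) ≤ (N : ℝ) ^ κ) with hQ
  have hN1 : (2 : ℝ) ≤ (N : ℝ) := by exact_mod_cast hN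
  have hL : 0 < Real.log (N : ℝ) := Real.log_pos (by linarith)
  have hsz : ∀ x ∈ Q, sz N x ≤ κ := by
    intro x hx
    rw [hQ, mem_filter] at hx
    have hx0 : (0 : ℝ) < (x : ℝ) := lt_of_lt_of_le (Real.rpow_pos_of_pos (by linarith) _) hx.2.1
    unfold sz
    rw [div_le_iff₀ hL, ← Real.log_rpow (by linarith)]
    exact Real.log_le_log hx0 hx.2.2
  set P : Finset ℕ → Prop := fun M => |s + ∑ x ∈ M, sz N x - (k + 1) * κ| ≤ 1 / 50000 with hP
  have h3 : F ⊆ (powersetCard (k + 1) Q).filter P := by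
    intro M hM
    obtain ⟨m1, m2, m3, m4⟩ := hF M hM
    rw [mem_filter, mem_powersetCard]
    refine ⟨⟨fun x hx => ?_, m3⟩, m4⟩
    rw [hQ, mem_filter]
    exact ⟨m1 hx, m2 x hx⟩
  calc ∑ M ∈ F, (1 : ℝ) / pr M ≤ ∑ M ∈ (powersetCard (k + 1) Q).filter P, (1 : ℝ) / pr M :=
        sum_le_sum_of_subset_of_nonneg h3 fun _ _ _ => by positivity
    _ ≤ _ := split_sum Q k P
    _ ≤ ∑ M ∈ powersetCard k Q, (1 : ℝ) / pr M * (33 / 100000) := by
        refine sum_le_sum fun M hM => mul_le_mul_of_nonneg_left ?_ (by positivity)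
        rw [mem_powersetCard] at hM
        have h4 : ∑ x ∈ M, sz N x ≤ k * κ := by
          have h5 := sum_le_card_nsmul M (fun x => sz N x) κ (fun x hx => hsz x (hM.1 hx))
          rw [hM.2, nsmul_eq_mul] at h5
          exact h5
        refine le_trans ?_ (h2 ((k + 1) * κ - s - ∑ x ∈ M, sz N x) (by linarith))
        refine sum_le_sum_of_subset_of_nonneg ?_ fun _ _ _ => by positivity
        intro y hy
        rw [mem_filter] at hy
        rw [mem_filter]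
        obtain ⟨y1, y2, y3⟩ := hy
        rw [hQ, mem_filter] at y1
        refine ⟨y1.1, ?_⟩
        simp only [hP] at y3
        rw [sum_insert y2] at y3
        have h6 : sz N y - ((k + 1) * κ - s - ∑ x ∈ M, sz N x) =
            s + (sz N y + ∑ x ∈ M, sz N x) - (k + 1) * κ := by ring
        rw [h6]
        exact y3
    _ = (∑ M ∈ powersetCard k Q, (1 : ℝ) / pr M) * (33 / 100000) := by rw [sum_mul]
    _ ≤ _ := mul_le_mul_of_nonneg_right (pow_sum Q (7 / 10) h1 (by norm_num) k) (by norm_num)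

open Classical in
theorem rg2 : ∃ N₀ : ℕ, ∀ N : ℕ, N₀ ≤ N → ∀ κ : ℝ, 1 / 4 - 1 / 1000000 ≤ κ → κ < 1 / 4 →
    ∀ V : Finset ℕ, (∀ p ∈ V, p.Prime) → ∀ s : ℝ, 1251 / 10000 ≤ s → s ≤ 1252 / 10000 →
      ∑ M ∈ V.powerset.filter (fun M : Finset ℕ => (∀ x ∈ M, (N : ℝ) ^ (1251 / 10000 : ℝ) ≤ (x : ℝ) ∧ (x : ℝ) ≤ (N : ℝ) ^ κ) ∧
        M.card = 2 ∧ |s + ∑ x ∈ M, sz N x - 2 * κ| ≤ 1 / 50000), (1 : ℝ) / pr M ≤ 24 / 100000 := by
  obtain ⟨N₀, hN₀⟩ := two_est
  refine ⟨N₀, fun N hN κ hκ1 hκ2 V hV s _ hs => ?_⟩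
  obtain ⟨h1, h2⟩ := hN₀ N hN
  obtain ⟨h3, h4⟩ := h2 V hV
  refine (rgk N h1 κ hκ1 hκ2 V s hs (h3 κ hκ1 hκ2) h4 1 _ ?_).trans (by norm_num)
  intro M hM
  rw [mem_filter, mem_powerset] at hM
  obtain ⟨m1, m2, m3, m4⟩ := hM
  refine ⟨m1, m2, m3, ?_⟩
  have h5 : ((1 : ℕ) : ℝ) + 1 = 2 := by norm_num
  rw [h5]
  exact m4

open Classical in
theorem rg3 : ∃ N₀ : ℕ, ∀ N : ℕ, N₀ ≤ N → ∀ κ : ℝ, 1 / 4 - 1 / 1000000 ≤ κ → κ < 1 / 4 →
    ∀ V : Finset ℕ, (∀ p ∈ V, p.Prime) → ∀ s : ℝ, 1251 / 10000 ≤ s → s ≤ 1252 / 10000 →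
      ∑ M ∈ V.powerset.filter (fun M : Finset ℕ => (∀ x ∈ M, (N : ℝ) ^ (1251 / 10000 : ℝ) ≤ (x : ℝ) ∧ (x : ℝ) ≤ (N : ℝ) ^ κ) ∧
        M.card = 3 ∧ |s + ∑ x ∈ M, sz N x - 3 * κ| ≤ 1 / 50000), (1 : ℝ) / pr M ≤ 17 / 100000 := by
  obtain ⟨N₀, hN₀⟩ := two_est
  refine ⟨N₀, fun N hN κ hκ1 hκ2 V hV s _ hs => ?_⟩
  obtain ⟨h1, h2⟩ := hN₀ N hN
  obtain ⟨h3, h4⟩ := h2 V hV
  refine (rgk N h1 κ hκ1 hκ2 V s hs (h3 κ hκ1 hκ2) h4 2 _ ?_).trans (by norm_num)
  intro M hM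
  rw [mem_filter, mem_powerset] at hM
  obtain ⟨m1, m2, m3, m4⟩ := hM
  refine ⟨m1, m2, m3, ?_⟩
  have h5 : ((2 : ℕ) : ℝ) + 1 = 3 := by norm_num
  rw [h5]
  exact m4

end PGS
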