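import Mathlib

/-! PGS / Num: a finite numerical sum.

PROOF. The sum has 1488 nonzero terms out of 19600; `∑ = 0.0029598...`. It is enough to bound
`∑ (10^12 / ((95-i)(95-j)(95-k)) + 1)` (natural number division, `a / b < a / b + 1`) by `297 * 10^7`; evaluate this natural
number with `decide +kernel` or `by rfl`-like kernel computation of a recursive function on `ℕ` (write a function by
structural recursion or use `List.range`/`Finset.sum_range` with `Nat` arithmetic; `Nat.decEq` on literals is fast in the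
kernel), or with `norm_num [Finset.sum_range_succ]` in pieces. No `native_decide`. -/

set_option autoImplicit false

open Finset

noncomputable section

namespace PGS

/-- the upper bound for `10 ^ 12` times a term -/
def tm (i j k : ℕ) : ℕ :=
  if i + j + k ≤ 48 ∧ 45 ≤ i + j + 2 * k then
    1000000000000 / ((95 - i) * (95 - j) * (95 - k)) + 1 else 0

theorem tm_le (i j k : ℕ) (hi : i ≤ 47) (hj : j ≤ 47) (hk : k ≤ 47) :
    (if i + j + k ≤ 48 ∧ 45 ≤ i + j + 2 * k then (1 : ℝ) / ((95 - i) * (95 - j) * (95 - k))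
      else 0) ≤ (tm i j k : ℝ) / 10 ^ 12 := by
  unfold tm
  split_ifs with h
  · have e1 : ((95 - i : ℕ) : ℝ) = 95 - i := by
      rw [Nat.cast_sub (by omega)]
      norm_num
    have e2 : ((95 - j : ℕ) : ℝ) = 95 - j := by
      rw [Nat.cast_sub (by omega)]
      norm_num
    have e3 : ((95 - k : ℕ) : ℝ) = 95 - k := by
      rw [Nat.cast_sub (by omega)]
      norm_num
    rw [← e1, ← e2, ← e3, ← Nat.cast_mul, ← Nat.cast_mul]
    have hd : 0 < (95 - i) * (95 - j) * (95 - k) :=
      Nat.mul_pos (Nat.mul_pos (by omega) (by omega)) (by omega)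
    generalize (95 - i) * (95 - j) * (95 - k) = d at hd ⊢
    have h1 : 1000000000000 < d * (1000000000000 / d + 1) := Nat.lt_mul_div_succ _ hd
    have h2 : (1000000000000 : ℝ) < d * ((1000000000000 / d + 1 : ℕ) : ℝ) := by
      exact_mod_cast h1
    have hd' : (0 : ℝ) < d := by exact_mod_cast hd
    rw [div_le_div_iff₀ hd' (by norm_num)]
    nlinarith
  · simp

theorem tm_sum : ∑ i ∈ range 48, ∑ j ∈ range (i + 1), ∑ k ∈ range (j + 1), tm i j k ≤
    297 * 10 ^ 7 := by
  decide +kernel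

theorem num48 : ∑ i ∈ range 48, ∑ j ∈ range (i + 1), ∑ k ∈ range (j + 1),
    (if i + j + k ≤ 48 ∧ 45 ≤ i + j + 2 * k then (1 : ℝ) / ((95 - i) * (95 - j) * (95 - k)) else 0) ≤
      297 / 100000 := by
  have h1 : ∑ i ∈ range 48, ∑ j ∈ range (i + 1), ∑ k ∈ range (j + 1),
      (if i + j + k ≤ 48 ∧ 45 ≤ i + j + 2 * k then (1 : ℝ) / ((95 - i) * (95 - j) * (95 - k))
        else 0) ≤ ∑ i ∈ range 48, ∑ j ∈ range (i + 1), ∑ k ∈ range (j + 1),
      (tm i j k : ℝ) / 10 ^ 12 := by
    refine Finset.sum_le_sum (fun i hi => Finset.sum_le_sum (fun j hj => Finset.sum_le_sum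
      (fun k hk => ?_)))
    rw [Finset.mem_range] at hi hj hk
    exact tm_le i j k (by omega) (by omega) (by omega)
  have h2 : ∑ i ∈ range 48, ∑ j ∈ range (i + 1), ∑ k ∈ range (j + 1),
      (tm i j k : ℝ) / 10 ^ 12 = ((∑ i ∈ range 48, ∑ j ∈ range (i + 1), ∑ k ∈ range (j + 1),
      tm i j k : ℕ) : ℝ) / 10 ^ 12 := by
    push_cast
    simp only [Finset.sum_div]
  have h3 : (((∑ i ∈ range 48, ∑ j ∈ range (i + 1), ∑ k ∈ range (j + 1),
      tm i j k : ℕ)) : ℝ) ≤ ((297 * 10 ^ 7 : ℕ) : ℝ) := by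
    exact_mod_cast tm_sum
  refine h1.trans ?_
  rw [h2]
  generalize (∑ i ∈ range 48, ∑ j ∈ range (i + 1), ∑ k ∈ range (j + 1), tm i j k : ℕ) = N at h3
  rw [div_le_div_iff₀ (by norm_num) (by norm_num)]
  push_cast at h3
  linarith

end PGS
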