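import Pool.Agent.PGS.Cf
import Pool.Agent.PGS.Mer
import Pool.Agent.PGS.Num

/-! PGS / Rg5: the sum over the triples of primes in the region `R5`.

PROOF. Let `Q = V.filter (N^α ≤ x ≤ N^κ)`, `1/8 < α`, `κ < 1/4`. For `x ∈ Q` put `e x = 1/4 - sz N x ∈ (0, 1/8)` and
`cell x = ⌊384 e x⌋₊ ∈ {0, ..., 47}`. `cell x = i` means `N^(1/4 - (i+1)/384) < x ≤ N^(1/4 - i/384)`, so by `mer_unif` the sum
of `1 / x` over the `x ∈ Q` with `cell x = i` is at most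
`log ((1/4 - i/384) / (1/4 - (i+1)/384)) + C / log N = log ((96 - i) / (95 - i)) + C' / log N ≤ 1 / (95 - i) + C' / log N`
(`log (1 + u) ≤ u`). Let `M = {x, y, z}`, `x < y < z` satisfy `R5`, `i = cell x ≥ j = cell y ≥ k = cell z`. The first
inequality says `e x + e y + e z ≤ 1/8 + 1/400`, so `i + j + k ≤ 384 (1/8 + 1/400) = 48.96`, `i + j + k ≤ 48`. The second says
`e x + e y + 2 e z ≥ 1/8`, so `(i + 1) + (j + 1) + 2 (k + 1) > 48`, i.e. `i + j + 2 k ≥ 45`. The map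
`M ↦ (x, y, z)` is injective, `pr M = x y z`, hence
`∑_M 1 / pr M ≤ ∑_{i < 48} ∑_{j ≤ i} ∑_{k ≤ j} [i + j + k ≤ 48, 45 ≤ i + j + 2 k] s_i s_j s_k`, `s_i ≤ 1 / (95 - i) + C' / log N`,
and `num48`; the products of the perturbed factors differ by `O(1 / log N)` (finitely many terms). -/

set_option autoImplicit false

open Finset PGL

noncomputable section

namespace PGS

/-- the cell of a number -/
private def cell13 (N x : ℕ) : ℕ := ⌊384 * (1 / 4 - sz N x)⌋₊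

private theorem le_of_sz13 {N x : ℕ} (hN : 0 < Real.log N) (hx : 0 < x) {a : ℝ} (h : sz N x ≤ a) :
    (x : ℝ) ≤ (N : ℝ) ^ a := by
  have hN0 : (0 : ℝ) < (N : ℝ) := by
    rcases Nat.eq_zero_or_pos N with h0 | h0
    · rw [h0] at hN; simp at hN
    · exact_mod_cast h0
  have hx0 : (0 : ℝ) < (x : ℝ) := by exact_mod_cast hx
  unfold sz at h
  rw [div_le_iff₀ hN, ← Real.log_rpow hN0] at h
  exact (Real.log_le_log_iff hx0 (Real.rpow_pos_of_pos hN0 a)).mp h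

private theorem ge_of_sz13 {N x : ℕ} (hN : 0 < Real.log N) (hx : 0 < x) {a : ℝ} (h : a ≤ sz N x) :
    (N : ℝ) ^ a ≤ (x : ℝ) := by
  have hN0 : (0 : ℝ) < (N : ℝ) := by
    rcases Nat.eq_zero_or_pos N with h0 | h0
    · rw [h0] at hN; simp at hN
    · exact_mod_cast h0
  have hx0 : (0 : ℝ) < (x : ℝ) := by exact_mod_cast hx
  unfold sz at h
  rw [le_div_iff₀ hN, ← Real.log_rpow hN0] at h
  exact (Real.log_le_log_iff (Real.rpow_pos_of_pos hN0 a) hx0).mp h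

/-- the bound for the cells of a triple -/
private theorem cells13 {N : ℕ} (hN : 0 < Real.log N) {α κ : ℝ} (hα : 1 / 8 < α) (hκ : κ < 1 / 4)
    {x y z : ℕ} (hx0 : 0 < x) (hxy : x < y) (hyz : y < z)
    (hb : ∀ t ∈ ({x, y, z} : Finset ℕ), (N : ℝ) ^ α ≤ (t : ℝ) ∧ (t : ℝ) ≤ (N : ℝ) ^ κ)
    (h1 : 3 / 4 - (sz N x + sz N y + sz N z) ≤ 1 / 8 + 1 / 400)
    (h2 : 1 / 8 ≤ 1 - (sz N x + sz N y + sz N z) - sz N z) :
    cell13 N x < 48 ∧ cell13 N y ≤ cell13 N x ∧ cell13 N z ≤ cell13 N y ∧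
      cell13 N x + cell13 N y + cell13 N z ≤ 48 ∧ 45 ≤ cell13 N x + cell13 N y + 2 * cell13 N z := by
  have hmono : ∀ a b : ℕ, 0 < a → a ≤ b → sz N a ≤ sz N b := by
    intro a b ha hab
    unfold sz
    exact div_le_div_of_nonneg_right (Real.log_le_log (by exact_mod_cast ha) (by exact_mod_cast hab)) hN.le
  have hxy' := hmono x y hx0 hxy.le
  have hyz' := hmono y z (by omega) hyz.le
  have ax : α ≤ sz N x := sz_ge hN (hb x (by simp)).1
  have bz : sz N z ≤ κ := sz_le hN (by omega) (hb z (by simp)).2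
  have fx := Nat.floor_le (show (0 : ℝ) ≤ 384 * (1 / 4 - sz N x) by linarith)
  have fy := Nat.floor_le (show (0 : ℝ) ≤ 384 * (1 / 4 - sz N y) by linarith)
  have fz := Nat.floor_le (show (0 : ℝ) ≤ 384 * (1 / 4 - sz N z) by linarith)
  have gx := Nat.lt_floor_add_one (384 * (1 / 4 - sz N x))
  have gy := Nat.lt_floor_add_one (384 * (1 / 4 - sz N y))
  have gz := Nat.lt_floor_add_one (384 * (1 / 4 - sz N z))
  refine ⟨?_, ?_, ?_, ?_, ?_⟩
  · unfold cell13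
    rw [Nat.floor_lt (by linarith)]
    push_cast
    linarith
  · unfold cell13
    exact Nat.floor_le_floor (by linarith)
  · unfold cell13
    exact Nat.floor_le_floor (by linarith)
  · unfold cell13
    have : ((⌊384 * (1 / 4 - sz N x)⌋₊ + ⌊384 * (1 / 4 - sz N y)⌋₊ + ⌊384 * (1 / 4 - sz N z)⌋₊ : ℕ) : ℝ) < 49 := by
      push_cast
      linarith
    have h' : ⌊384 * (1 / 4 - sz N x)⌋₊ + ⌊384 * (1 / 4 - sz N y)⌋₊ + ⌊384 * (1 / 4 - sz N z)⌋₊ < 49 := by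
      exact_mod_cast this
    omega
  · unfold cell13
    have : (44 : ℝ) < ((⌊384 * (1 / 4 - sz N x)⌋₊ + ⌊384 * (1 / 4 - sz N y)⌋₊ +
        2 * ⌊384 * (1 / 4 - sz N z)⌋₊ : ℕ) : ℝ) := by
      push_cast
      linarith
    have h' : 44 < ⌊384 * (1 / 4 - sz N x)⌋₊ + ⌊384 * (1 / 4 - sz N y)⌋₊ +
        2 * ⌊384 * (1 / 4 - sz N z)⌋₊ := by
      exact_mod_cast this
    omega

open Classical in
/-- the combinatorial bound by the sums over the cells -/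
private theorem comb13 {N : ℕ} (hN : 0 < Real.log N) {α κ : ℝ} (hα : 1 / 8 < α) (hκ : κ < 1 / 4)
    (V : Finset ℕ) (hV : ∀ p ∈ V, p.Prime) (S : ℕ → ℝ)
    (hS : ∀ i, i < 48 → ∑ x ∈ V.filter (fun x : ℕ => ((N : ℝ) ^ α ≤ (x : ℝ) ∧ (x : ℝ) ≤ (N : ℝ) ^ κ) ∧
      cell13 N x = i), 1 / (x : ℝ) ≤ S i) :
    ∑ M ∈ V.powerset.filter (fun M : Finset ℕ => (∀ x ∈ M, (N : ℝ) ^ α ≤ (x : ℝ) ∧ (x : ℝ) ≤ (N : ℝ) ^ κ) ∧ R5 N M),
        (1 : ℝ) / pr M ≤
      ∑ i ∈ range 48, ∑ j ∈ range (i + 1), ∑ k ∈ range (j + 1),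
        (if i + j + k ≤ 48 ∧ 45 ≤ i + j + 2 * k then S i * S j * S k else 0) := by
  set F := V.powerset.filter (fun M : Finset ℕ =>
    (∀ x ∈ M, (N : ℝ) ^ α ≤ (x : ℝ) ∧ (x : ℝ) ≤ (N : ℝ) ^ κ) ∧ R5 N M) with hF
  set Q := V.filter (fun x : ℕ => (N : ℝ) ^ α ≤ (x : ℝ) ∧ (x : ℝ) ≤ (N : ℝ) ^ κ) with hQ
  set Qc : ℕ → Finset ℕ := fun i => V.filter (fun x : ℕ =>
    ((N : ℝ) ^ α ≤ (x : ℝ) ∧ (x : ℝ) ≤ (N : ℝ) ^ κ) ∧ cell13 N x = i) with hQc
  have hex : ∀ M : Finset ℕ, ∃ t : ℕ × ℕ × ℕ, R5 N M → (M = {t.1, t.2.1, t.2.2} ∧ t.1 < t.2.1 ∧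
      t.2.1 < t.2.2 ∧ 3 / 4 - (sz N t.1 + sz N t.2.1 + sz N t.2.2) ≤ 1 / 8 + 1 / 400 ∧
      1 / 8 ≤ 1 - (sz N t.1 + sz N t.2.1 + sz N t.2.2) - sz N t.2.2) := by
    intro M
    by_cases h : R5 N M
    · obtain ⟨x, y, z, h1, h2, h3, h4, h5⟩ := h
      exact ⟨(x, y, z), fun _ => ⟨h1, h2, h3, h4, h5⟩⟩
    · exact ⟨(0, 0, 0), fun h' => absurd h' h⟩
  choose f hf using hex
  set h : ℕ × ℕ × ℕ → ℝ := fun t => 1 / (t.1 : ℝ) * (1 / (t.2.1 : ℝ)) * (1 / (t.2.2 : ℝ)) with hh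
  have hh0 : ∀ t, 0 ≤ h t := fun t => by rw [hh]; positivity
  obtain ⟨K, hK⟩ : ∃ K : Finset (Σ _ : ℕ, Σ _ : ℕ, ℕ), K =
    (range 48).sigma (fun i => (range (i + 1)).sigma (fun j => range (j + 1))) := ⟨_, rfl⟩
  obtain ⟨T, hT⟩ : ∃ T : Finset (ℕ × ℕ × ℕ), T = (Q ×ˢ Q ×ˢ Q).filter (fun t =>
    (⟨cell13 N t.1, cell13 N t.2.1, cell13 N t.2.2⟩ : Σ _ : ℕ, Σ _ : ℕ, ℕ) ∈ K ∧
    cell13 N t.1 + cell13 N t.2.1 + cell13 N t.2.2 ≤ 48 ∧
    45 ≤ cell13 N t.1 + cell13 N t.2.1 + 2 * cell13 N t.2.2) := ⟨_, rfl⟩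
  -- first step
  have hinj : Set.InjOn f F := by
    intro M hM M' hM' he
    have h1 := (hf M (mem_filter.mp (mem_coe.mp hM)).2.2).1
    have h2 := (hf M' (mem_filter.mp (mem_coe.mp hM')).2.2).1
    rw [h1, h2, he]
  have hval : ∀ M ∈ F, (1 : ℝ) / pr M = h (f M) := by
    intro M hM
    obtain ⟨h1, h2, h3, -, -⟩ := hf M (mem_filter.mp hM).2.2
    have h4 : pr M = (f M).1 * ((f M).2.1 * (f M).2.2) := by
      unfold pr
      conv_lhs => rw [h1]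
      rw [prod_insert, prod_insert, prod_singleton]
      · simp only [mem_singleton]; omega
      · simp only [mem_insert, mem_singleton]; omega
    rw [h4, hh]
    push_cast
    simp only [one_div, mul_inv]
    ring
  have hmaps : ∀ M ∈ F, f M ∈ T := by
    intro M hM
    have hM1 := mem_filter.mp hM
    have hMV : M ⊆ V := mem_powerset.mp hM1.1
    obtain ⟨h1, h2, h3, h4, h5⟩ := hf M hM1.2.2
    have hmem : ∀ t ∈ ({(f M).1, (f M).2.1, (f M).2.2} : Finset ℕ), t ∈ Q := by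
      intro t ht
      have htM : t ∈ M := by rw [h1]; exact ht
      exact mem_filter.mpr ⟨hMV htM, hM1.2.1 t htM⟩
    have q1 : (f M).1 ∈ Q := hmem _ (by simp)
    have q2 : (f M).2.1 ∈ Q := hmem _ (by simp)
    have q3 : (f M).2.2 ∈ Q := hmem _ (by simp)
    have hpos : 0 < (f M).1 := (hV _ (mem_filter.mp q1).1).pos
    obtain ⟨c1, c2, c3, c4, c5⟩ := cells13 hN hα hκ hpos h2 h3
      (fun t ht => (mem_filter.mp (hmem t ht)).2) h4 h5
    rw [hT, mem_filter]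
    refine ⟨mem_product.mpr ⟨q1, mem_product.mpr ⟨q2, q3⟩⟩, ?_, c4, c5⟩
    rw [hK, mem_sigma, mem_sigma]
    simp only [mem_range]
    omega
  have step1 : ∑ M ∈ F, (1 : ℝ) / pr M ≤ ∑ t ∈ T, h t := by
    rw [sum_congr rfl hval, ← sum_image (f := h) (g := f) hinj]
    refine sum_le_sum_of_subset_of_nonneg ?_ (fun t _ _ => hh0 t)
    intro t ht
    obtain ⟨M, hM, rfl⟩ := mem_image.mp ht
    exact hmaps M hM
  -- second step
  have step2 : ∑ t ∈ T, h t = ∑ c ∈ K, ∑ t ∈ T.filter (fun t =>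
      (⟨cell13 N t.1, cell13 N t.2.1, cell13 N t.2.2⟩ : Σ _ : ℕ, Σ _ : ℕ, ℕ) = c), h t := by
    refine (sum_fiberwise_of_maps_to (fun t ht => ?_) h).symm
    rw [hT, mem_filter] at ht
    exact ht.2.1
  have hSQ : ∀ i, i < 48 → 0 ≤ ∑ x ∈ Qc i, 1 / (x : ℝ) := fun i _ =>
    sum_nonneg (fun x _ => by positivity)
  have step3 : ∀ c ∈ K, ∑ t ∈ T.filter (fun t =>
      (⟨cell13 N t.1, cell13 N t.2.1, cell13 N t.2.2⟩ : Σ _ : ℕ, Σ _ : ℕ, ℕ) = c), h t ≤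
      (if c.1 + c.2.1 + c.2.2 ≤ 48 ∧ 45 ≤ c.1 + c.2.1 + 2 * c.2.2 then S c.1 * S c.2.1 * S c.2.2 else 0) := by
    rintro ⟨i, j, k⟩ hc
    rw [hK, mem_sigma, mem_sigma] at hc
    simp only [mem_range] at hc
    split_ifs with hcond
    · have hsub : T.filter (fun t =>
          (⟨cell13 N t.1, cell13 N t.2.1, cell13 N t.2.2⟩ : Σ _ : ℕ, Σ _ : ℕ, ℕ) = ⟨i, j, k⟩) ⊆
          Qc i ×ˢ Qc j ×ˢ Qc k := by
        intro t ht
        rw [mem_filter, hT, mem_filter, mem_product, mem_product] at ht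
        obtain ⟨⟨⟨q1, q2, q3⟩, -⟩, he⟩ := ht
        have e1 : cell13 N t.1 = i := by injection he
        have e2 : cell13 N t.2.1 = j ∧ cell13 N t.2.2 = k := by
          simp only [Sigma.mk.injEq, heq_eq_eq] at he
          exact he.2
        rw [mem_product, mem_product, hQc]
        exact ⟨mem_filter.mpr ⟨(mem_filter.mp q1).1, (mem_filter.mp q1).2, e1⟩,
          mem_filter.mpr ⟨(mem_filter.mp q2).1, (mem_filter.mp q2).2, e2.1⟩,
          mem_filter.mpr ⟨(mem_filter.mp q3).1, (mem_filter.mp q3).2, e2.2⟩⟩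
      refine (sum_le_sum_of_subset_of_nonneg hsub (fun t _ _ => hh0 t)).trans ?_
      have hprod : ∑ t ∈ Qc i ×ˢ Qc j ×ˢ Qc k, h t =
          (∑ x ∈ Qc i, 1 / (x : ℝ)) * (∑ x ∈ Qc j, 1 / (x : ℝ)) * (∑ x ∈ Qc k, 1 / (x : ℝ)) := by
        simp only [sum_product, hh]
        rw [sum_mul_sum, sum_mul]
        refine sum_congr rfl (fun x _ => ?_)
        rw [sum_mul]
        refine sum_congr rfl (fun y _ => ?_)
        rw [mul_sum]
      rw [hprod]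
      have hi : i < 48 := hc.1
      have hj : j < 48 := by omega
      have hk : k < 48 := by omega
      have a1 := hS i hi
      have a2 := hS j hj
      have a3 := hS k hk
      have b1 := hSQ i hi
      have b2 := hSQ j hj
      have b3 := hSQ k hk
      exact mul_le_mul (mul_le_mul a1 a2 b2 (b1.trans a1)) a3 b3
        (mul_nonneg (b1.trans a1) (b2.trans a2))
    · apply le_of_eq
      apply sum_eq_zero
      intro t ht
      exfalso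
      rw [mem_filter, hT, mem_filter] at ht
      obtain ⟨⟨-, -, h4, h5⟩, he⟩ := ht
      simp only [Sigma.mk.injEq, heq_eq_eq] at he
      obtain ⟨e1, e2, e3⟩ := he
      rw [e1, e2, e3] at h4 h5
      exact hcond ⟨h4, h5⟩
  calc ∑ M ∈ F, (1 : ℝ) / pr M ≤ ∑ t ∈ T, h t := step1
    _ = _ := step2
    _ ≤ ∑ c ∈ K, (if c.1 + c.2.1 + c.2.2 ≤ 48 ∧ 45 ≤ c.1 + c.2.1 + 2 * c.2.2 then
        S c.1 * S c.2.1 * S c.2.2 else 0) := sum_le_sum step3
    _ = _ := by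
      rw [hK, sum_sigma]
      refine sum_congr rfl (fun i _ => ?_)
      rw [sum_sigma]

/-- the sum over one cell -/
private theorem one_cell13 : ∃ C : ℝ, 0 < C ∧ ∀ N : ℕ, 256 ≤ N → ∀ V : Finset ℕ, (∀ p ∈ V, p.Prime) →
    ∀ α κ : ℝ, 1 / 8 < α → κ < 1 / 4 → ∀ i, i < 48 →
      ∑ x ∈ V.filter (fun x : ℕ => ((N : ℝ) ^ α ≤ (x : ℝ) ∧ (x : ℝ) ≤ (N : ℝ) ^ κ) ∧
        cell13 N x = i), 1 / (x : ℝ) ≤ 1 / (95 - (i : ℝ)) + C / Real.log N := by
  obtain ⟨C, hC, hmer⟩ := mer_unif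
  refine ⟨8 * C, by linarith, fun N hN V hV α κ hα hκ i hi => ?_⟩
  have hN1 : (256 : ℝ) ≤ (N : ℝ) := by exact_mod_cast hN
  have hN0 : (0 : ℝ) < (N : ℝ) := by linarith
  have hL : 0 < Real.log (N : ℝ) := Real.log_pos (by linarith)
  have hi' : (i : ℝ) ≤ 47 := by exact_mod_cast Nat.lt_succ_iff.mp hi
  have hi0 : (0 : ℝ) ≤ (i : ℝ) := Nat.cast_nonneg i
  set a : ℝ := 1 / 4 - ((i : ℝ) + 1) / 384 with ha
  set b : ℝ := 1 / 4 - (i : ℝ) / 384 with hb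
  have ha8 : 1 / 8 ≤ a := by rw [ha]; linarith
  have hab : a ≤ b := by rw [ha, hb]; linarith
  have hu2 : (2 : ℝ) ≤ (N : ℝ) ^ a := by
    have h1 : (2 : ℝ) = (256 : ℝ) ^ (1 / 8 : ℝ) := by
      rw [show (256 : ℝ) = 2 ^ (8 : ℝ) by norm_num, ← Real.rpow_mul (by norm_num)]
      norm_num
    rw [h1]
    calc (256 : ℝ) ^ (1 / 8 : ℝ) ≤ (N : ℝ) ^ (1 / 8 : ℝ) :=
          Real.rpow_le_rpow (by norm_num) hN1 (by norm_num)
      _ ≤ (N : ℝ) ^ a := Real.rpow_le_rpow_of_exponent_le (by linarith) ha8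
  have huv : (N : ℝ) ^ a ≤ (N : ℝ) ^ b := Real.rpow_le_rpow_of_exponent_le (by linarith) hab
  have hP : ∀ p ∈ V.filter (fun x : ℕ => ((N : ℝ) ^ α ≤ (x : ℝ) ∧ (x : ℝ) ≤ (N : ℝ) ^ κ) ∧
        cell13 N x = i), p.Prime ∧ (N : ℝ) ^ a ≤ (p : ℝ) ∧ (p : ℝ) ≤ (N : ℝ) ^ b := by
    intro p hp
    obtain ⟨hpV, ⟨h1, h2⟩, h3⟩ := mem_filter.mp hp
    have hpp := hV p hpV
    have hs1 : α ≤ sz N p := sz_ge hL h1
    have hs2 : sz N p ≤ κ := sz_le hL hpp.pos h2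
    unfold cell13 at h3
    have f1 := Nat.floor_le (show (0 : ℝ) ≤ 384 * (1 / 4 - sz N p) by linarith)
    have f2 := Nat.lt_floor_add_one (384 * (1 / 4 - sz N p))
    rw [h3] at f1 f2
    refine ⟨hpp, ge_of_sz13 hL hpp.pos ?_, le_of_sz13 hL hpp.pos ?_⟩
    · rw [ha]; linarith
    · rw [hb]; linarith
  have h1 := hmer _ _ hu2 huv _ hP
  rw [Real.log_rpow hN0, Real.log_rpow hN0] at h1
  have h95 : 0 < 95 - (i : ℝ) := by linarith
  have e1 : b * Real.log (N : ℝ) / (a * Real.log (N : ℝ)) = 1 + 1 / (95 - (i : ℝ)) := by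
    rw [mul_div_mul_right _ _ hL.ne']
    have ea : a = (95 - (i : ℝ)) / 384 := by rw [ha]; ring
    have eb : b = (96 - (i : ℝ)) / 384 := by rw [hb]; ring
    rw [ea, eb]
    field_simp
    ring
  have e2 : Real.log (1 + 1 / (95 - (i : ℝ))) ≤ 1 / (95 - (i : ℝ)) := by
    have hpos : 0 < 1 + 1 / (95 - (i : ℝ)) := by positivity
    have := Real.log_le_sub_one_of_pos hpos
    linarith
  have e3 : C / (a * Real.log (N : ℝ)) ≤ 8 * C / Real.log (N : ℝ) := by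
    rw [div_le_div_iff₀ (by positivity) hL]
    have : 1 ≤ 8 * a := by linarith
    have h2 : 0 < C * Real.log (N : ℝ) := by positivity
    nlinarith
  rw [e1] at h1
  linarith

open Classical in
theorem rg5 (η α κ : ℝ) (hη : 0 < η) (hα : 1 / 8 < α) (hακ : α < κ) (hκ : κ < 1 / 4) : ∃ N₀ : ℕ, ∀ N : ℕ,
    N₀ ≤ N → ∀ V : Finset ℕ, (∀ p ∈ V, p.Prime) →
      ∑ M ∈ V.powerset.filter (fun M : Finset ℕ => (∀ x ∈ M, (N : ℝ) ^ α ≤ (x : ℝ) ∧ (x : ℝ) ≤ (N : ℝ) ^ κ) ∧ R5 N M),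
        (1 : ℝ) / pr M ≤ 297 / 100000 + η := by
  obtain ⟨C, hC, hcell⟩ := one_cell13
  set G : ℝ → ℝ := fun δ => ∑ i ∈ range 48, ∑ j ∈ range (i + 1), ∑ k ∈ range (j + 1),
    (if i + j + k ≤ 48 ∧ 45 ≤ i + j + 2 * k then
      (1 / (95 - (i : ℝ)) + δ) * (1 / (95 - (j : ℝ)) + δ) * (1 / (95 - (k : ℝ)) + δ) else 0) with hG
  have hcont : Continuous G := by
    rw [hG]
    refine continuous_finsetSum _ (fun i _ => continuous_finsetSum _ (fun j _ =>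
      continuous_finsetSum _ (fun k _ => ?_)))
    split_ifs
    · fun_prop
    · exact continuous_const
  have hG0 : G 0 ≤ 297 / 100000 := by
    refine le_trans (le_of_eq ?_) num48
    rw [hG]
    refine sum_congr rfl (fun i _ => sum_congr rfl (fun j _ => sum_congr rfl (fun k _ => ?_)))
    split_ifs
    · simp only [add_zero, one_div, mul_inv]
    · rfl
  have hlog : Filter.Tendsto (fun N : ℕ => C / Real.log (N : ℝ)) Filter.atTop (nhds 0) :=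
    (Real.tendsto_log_atTop.comp tendsto_natCast_atTop_atTop).const_div_atTop C
  have hlim : Filter.Tendsto (fun N : ℕ => G (C / Real.log (N : ℝ))) Filter.atTop (nhds (G 0)) :=
    (hcont.tendsto 0).comp hlog
  obtain ⟨N₀, hN₀⟩ := Filter.eventually_atTop.1 ((hlim.eventually_lt_const
    (show G 0 < 297 / 100000 + η by linarith)).and (Filter.eventually_ge_atTop 256))
  refine ⟨N₀, fun N hN V hV => ?_⟩
  obtain ⟨h1, h2⟩ := hN₀ N hN
  have hN1 : (256 : ℝ) ≤ (N : ℝ) := by exact_mod_cast h2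
  have hL : 0 < Real.log (N : ℝ) := Real.log_pos (by linarith)
  refine (comb13 hL hα hκ V hV (fun i => 1 / (95 - (i : ℝ)) + C / Real.log (N : ℝ))
    (fun i hi => hcell N h2 V hV α κ hα hκ i hi)).trans ?_
  exact h1.le

end PGS
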