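import Pool.Agent.PGS.UM
import Pool.Agent.PGS.KM
import Pool.Agent.PGS.Rg5
import Pool.Agent.PGS.Rg34

/-! PGS / Bad: the integers counted in `LB` for which the Selberg weight `K` is small are few.

PROOF. `α = 0.1251`, `β = 0.1252`, `κ₁ = 27/500`, `θ = 0.2186`, `K = Lam V (ys N (-1) κ)`, `G = mass V (ys N (-1) κ) ≤ (κ + η') Γ`
(`mass_step`, `dia_step`). Let `p ∈ P = PR N α β V`, `n ∈ Pg` with `p ∣ m = n + h i₁`, no prime of `V` below `N^α` divides `m`,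
`|K(m)| < G / 20000`. `0 < m ≤ 3 N`. By `km` (`2 α = 0.2502 > κ`) `|K(m) - Γ (κ - ∑)| ≤ η' Γ` with the sum over the primes of
`S = V.filter (· ∣ m)` which are `≤ N^κ`; so `|κ - ∑| ≤ (κ + η') / 20000 + η' ≤ 1/50000`. The product of `S` divides `m`, so
`pr S ≤ 3 N`, and `cls` gives `M ⊆ S` with `Cfg N κ α (1/50000) p M`, `pr (insert p M) ≤ N^(1-θ)`. Hence the sum over these `n` is
at most `∑_M ∑_n fp wq`, where `M` runs over the subsets of `V` with `Cfg` and `pr (insert p M) ≤ N^(1-θ)` and `n` over the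
elements of `Pg` such that all primes of `insert p M` divide `m` and no prime of `Vs N α V` does. By `up` (with the set
`insert p M`, `pr (insert p M) = p pr M`, level `2 ρ + 4 κ₁ + 2 ε ≤ 0.2164 < θ`) the inner sum is at most
`XX Γ^(k+1) (50/49 JJ / κ₁² + η') / (p pr M)`. By `rg2`, `rg3` (`s = sz N p`), `rg5` `∑_M 1 / pr M ≤ 0.00024 + 0.00017 + 0.00297 + η'
≤ 0.00339`, and `∑_{p ∈ P} 1 / p ≤ log (β / α) + η'` (`mer_V`, `Ctx_card`). `50/49 / κ₁² ≤ 349.94`, `349.94 · 0.00339 ≤ 1.187`.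
`JJ ≥ 0` (`JJ_nonneg`). -/

set_option autoImplicit false

open Finset PGL

noncomputable section

namespace PGS

private theorem bad_sz {N p : ℕ} {α β : ℝ} (hN : 2 ≤ N) (h1 : (N : ℝ) ^ α ≤ (p : ℝ))
    (h2 : (p : ℝ) < (N : ℝ) ^ β) : α ≤ sz N p ∧ sz N p ≤ β := by
  have hNr : (2 : ℝ) ≤ N := by exact_mod_cast hN
  have hN0 : (0 : ℝ) < N := by linarith
  have hlog : 0 < Real.log N := Real.log_pos (by linarith)
  have hp0 : (0 : ℝ) < p := lt_of_lt_of_le (Real.rpow_pos_of_pos hN0 _) h1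
  unfold sz
  constructor
  · rw [le_div_iff₀ hlog, ← Real.log_rpow hN0]
    exact Real.log_le_log (Real.rpow_pos_of_pos hN0 _) h1
  · rw [div_le_iff₀ hlog, ← Real.log_rpow hN0]
    exact Real.log_le_log hp0 h2.le

private theorem bad_union {P : Finset ℕ} {Q : Finset (Finset ℕ)} (g : ℕ → ℝ) (hg : ∀ n, 0 ≤ g n)
    (A : ℕ → Prop) (B : Finset ℕ → ℕ → Prop) [DecidablePred A] [∀ M, DecidablePred (B M)]
    (h : ∀ n ∈ P, A n → ∃ M ∈ Q, B M n) :
    ∑ n ∈ P.filter A, g n ≤ ∑ M ∈ Q, ∑ n ∈ P.filter (B M), g n := by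
  simp_rw [sum_filter]
  rw [sum_comm]
  refine sum_le_sum fun n hn => ?_
  have h0 : ∀ M' ∈ Q, 0 ≤ (if B M' n then g n else 0) := fun M' _ => by
    split_ifs
    exacts [hg n, le_rfl]
  by_cases hA : A n
  · rw [if_pos hA]
    obtain ⟨M, hM, hB⟩ := h n hn hA
    calc g n = if B M n then g n else 0 := by rw [if_pos hB]
      _ ≤ _ := single_le_sum (f := fun M => if B M n then g n else 0) h0 hM
  · rw [if_neg hA]
    exact sum_nonneg h0

private theorem bad_three {Q A B C : Finset (Finset ℕ)} (f : Finset ℕ → ℝ) (hf : ∀ M, 0 ≤ f M)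
    (h : ∀ M ∈ Q, M ∈ A ∨ M ∈ B ∨ M ∈ C) {a b c : ℝ} (ha : ∑ M ∈ A, f M ≤ a) (hb : ∑ M ∈ B, f M ≤ b)
    (hc : ∑ M ∈ C, f M ≤ c) : ∑ M ∈ Q, f M ≤ a + b + c := by
  classical
  have h1 : ∑ M ∈ Q, f M ≤ ∑ M ∈ (A ∪ B) ∪ C, f M := by
    refine sum_le_sum_of_subset_of_nonneg (fun M hM => ?_) fun M _ _ => hf M
    rw [mem_union, mem_union]
    rcases h M hM with h | h | h
    exacts [Or.inl (Or.inl h), Or.inl (Or.inr h), Or.inr h]
  have h2 := sum_union_inter (s₁ := A ∪ B) (s₂ := C) (f := f)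
  have h3 := sum_union_inter (s₁ := A) (s₂ := B) (f := f)
  have h4 : 0 ≤ ∑ M ∈ (A ∪ B) ∩ C, f M := sum_nonneg fun M _ => hf M
  have h5 : 0 ≤ ∑ M ∈ A ∩ B, f M := sum_nonneg fun M _ => hf M
  linarith

private theorem bad_log (C : ℝ) : ∃ N₀ : ℕ, ∀ N : ℕ, N₀ ≤ N → C * Real.log N ≤ N := by
  have h1 := (isLittleO_log_rpow_atTop (show (0 : ℝ) < 1 by norm_num)).bound
    (show 0 < 1 / (|C| + 1) by positivity)
  have h2 := (tendsto_natCast_atTop_atTop (R := ℝ)).eventually h1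
  obtain ⟨N₀, hN₀⟩ := Filter.eventually_atTop.1 (h2.and (Filter.eventually_ge_atTop 1))
  refine ⟨N₀, fun N hN => ?_⟩
  obtain ⟨h3, h4⟩ := hN₀ N hN
  have hN' : (1 : ℝ) ≤ N := by exact_mod_cast h4
  have hL : 0 ≤ Real.log N := Real.log_nonneg hN'
  rw [Real.norm_of_nonneg hL, Real.norm_of_nonneg (by positivity), Real.rpow_one,
    one_div, inv_mul_eq_div, le_div_iff₀ (by positivity)] at h3
  have h5 : C ≤ |C| + 1 := (le_abs_self C).trans (by linarith)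
  nlinarith

private theorem bad_fp (n : ℕ) : 0 ≤ fp n := by
  unfold fp
  split_ifs with h
  · exact Real.log_nonneg (by exact_mod_cast h.one_lt.le)
  · exact le_rfl

/-- the configuration attached to one integer -/
private theorem bad_one {N m p : ℕ} {κ Γ G K : ℝ} {V : Finset ℕ}
    (hκ1 : κ < 1 / 4) (hV : ∀ p ∈ V, p.Prime) (hΓ : 0 < Γ)
    (hm0 : 0 < m) (hm : m ≤ 3 * N) (hG : G ≤ (κ + 1 / 1000000) * Γ)
    (hcls : ∀ S : Finset ℕ,
      (∀ x ∈ S, x.Prime ∧ (N : ℝ) ^ (1251 / 10000 : ℝ) ≤ (x : ℝ)) → pr S ≤ 3 * N → ∀ p ∈ S,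
      (p : ℝ) < (N : ℝ) ^ (1252 / 10000 : ℝ) →
      |κ - ∑ x ∈ S.filter (fun x : ℕ => (x : ℝ) ≤ (N : ℝ) ^ κ), (κ - sz N x)| ≤ 1 / 50000 →
      ∃ M ⊆ S, Cfg N κ (1251 / 10000) (1 / 50000) p M ∧
        (pr (insert p M) : ℝ) ≤ (N : ℝ) ^ (1 - 2186 / 10000 : ℝ))
    (hkm : |K - Γ * (κ - ∑ p ∈ V.filter (fun p : ℕ => p ∣ m ∧ (p : ℝ) ≤ (N : ℝ) ^ κ), (κ - sz N p))| ≤
      1 / 1000000 * Γ)
    (hK : |K| < 1 / 20000 * G) (hbig : ∀ x ∈ V, x ∣ m → (N : ℝ) ^ (1251 / 10000 : ℝ) ≤ (x : ℝ))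
    (hpV : p ∈ V) (hpm : p ∣ m) (hp : (p : ℝ) < (N : ℝ) ^ (1252 / 10000 : ℝ)) :
    ∃ M : Finset ℕ, M ⊆ V ∧ (∀ x ∈ M, x ∣ m) ∧ Cfg N κ (1251 / 10000) (1 / 50000) p M ∧
        (pr (insert p M) : ℝ) ≤ (N : ℝ) ^ (1 - 2186 / 10000 : ℝ) := by
  classical
  have hS : ∀ x ∈ V.filter (· ∣ m), x.Prime ∧ (N : ℝ) ^ (1251 / 10000 : ℝ) ≤ (x : ℝ) := fun x hx => by
    rw [mem_filter] at hx
    exact ⟨hV x hx.1, hbig x hx.1 hx.2⟩
  have hdvd : pr (V.filter (· ∣ m)) ∣ m := by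
    unfold pr
    refine Finset.prod_primes_dvd m (fun x hx => (hS x hx).1.prime) fun x hx => (mem_filter.1 hx).2
  have hle : pr (V.filter (· ∣ m)) ≤ 3 * N := (Nat.le_of_dvd hm0 hdvd).trans hm
  obtain ⟨M, hM, hcfg, hpr⟩ := hcls _ hS hle p (mem_filter.2 ⟨hpV, hpm⟩) hp (by
    rw [filter_filter]
    set s := ∑ p ∈ V.filter (fun p : ℕ => p ∣ m ∧ (p : ℝ) ≤ (N : ℝ) ^ κ), (κ - sz N p) with hs
    rw [abs_le] at hkm
    rw [abs_lt] at hK
    rw [abs_le]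
    have h3 : 1 / 20000 * G ≤ 1 / 20000 * ((κ + 1 / 1000000) * Γ) := by linarith
    have h4 : (κ + 1 / 1000000) * Γ ≤ (1 / 4 + 1 / 1000000) * Γ :=
      mul_le_mul_of_nonneg_right (by linarith) hΓ.le
    constructor
    · refine le_of_mul_le_mul_left (a := Γ) ?_ hΓ
      linarith [hkm.1, hkm.2, hK.1, hK.2]
    · refine le_of_mul_le_mul_left (a := Γ) ?_ hΓ
      linarith [hkm.1, hkm.2, hK.1, hK.2])
  exact ⟨M, fun x hx => (mem_filter.1 (hM hx)).1, fun x hx => (mem_filter.1 (hM hx)).2, hcfg, hpr⟩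

theorem bad {ι : Type} [Fintype ι] [DecidableEq ι] (ρ κ : ℝ) (hρ0 : 0 ≤ ρ) (hρ : ρ ≤ 1 / 10000)
    (hκ : 1 / 4 - 1 / 1000000 ≤ κ) (hκ1 : κ < 1 / 4) {L : ℕ} (J : Finset (ι → Fin L)) (c a b t : Fin L → ℝ)
    (hD : Dat ρ J a b t) (i₀ i₁ : ι) (hi : i₀ ≠ i₁) (ε C η : ℝ) (hε : 0 < ε) (hε1 : ε ≤ 1 / 10000) (hη : 0 < η) :
    ∃ N₀ : ℕ, ∀ N : ℕ, N₀ ≤ N → ∀ (D D' V : Finset ℕ) (h : ι → ℕ) (b₀ : ℕ), Ctx ε C N D D' V h b₀ →
      49 / 50 ≤ (PGB.qz (ε * Real.log N) D : ℝ) / (Nat.totient (PGB.qz (ε * Real.log N) D) : ℝ) * Gam ε N /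
        Real.log N →
      ∑ p ∈ PR N (1251 / 10000) (1252 / 10000) V, ∑ n ∈ (Pg ε N D b₀).filter (fun n => p ∣ n + h i₁ ∧
          (∀ x ∈ Vs N (1251 / 10000) V, ¬ x ∣ n + h i₁) ∧
          |Lam V (ys N (-1) κ) (n + h i₁)| < 1 / 20000 * mass V (ys N (-1) κ)),
            fp (n + h i₀) * wq J c a b N V h i₀ i₁ n ≤
        XX ε N D * Gam ε N ^ (Fintype.card ι + 1) *
          (Real.log (1252 / 1251) * (119 / 100) * JJ J c t {i₀, i₁} + η) := by
  classical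
  have ht : ∀ l, 0 ≤ t l := t_nonneg hD
  obtain ⟨Jv, hJv⟩ : ∃ x, x = JJ J c t {i₀, i₁} := ⟨_, rfl⟩
  have hJ0 : 0 ≤ Jv := by
    rw [hJv]
    exact JJ_nonneg J c t ht _
  simp only [← hJv]
  obtain ⟨ℓ, hℓ⟩ : ∃ x, x = Real.log (1252 / 1251) := ⟨_, rfl⟩
  simp only [← hℓ]
  have hℓ0 : 0 ≤ ℓ := by
    rw [hℓ]
    exact Real.log_nonneg (by norm_num)
  have hℓ1 : ℓ ≤ 1 := by
    rw [hℓ]
    have := Real.log_le_sub_one_of_pos (show (0 : ℝ) < 1252 / 1251 by norm_num)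
    linarith
  obtain ⟨η₃, hη₃, hη₃1, hη₃2⟩ : ∃ x : ℝ, 0 < x ∧ x ≤ 1 ∧ (119 / 100) * Jv * x ≤ η / 2 := by
    refine ⟨min 1 (η / (2 * ((119 / 100) * Jv + 1))), lt_min one_pos (by positivity), min_le_left _ _, ?_⟩
    have h1 : min 1 (η / (2 * ((119 / 100) * Jv + 1))) ≤ η / (2 * ((119 / 100) * Jv + 1)) := min_le_right _ _
    calc (119 / 100) * Jv * min 1 (η / (2 * ((119 / 100) * Jv + 1)))
        ≤ ((119 / 100) * Jv + 1) * (η / (2 * ((119 / 100) * Jv + 1))) := by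
          refine mul_le_mul (by linarith) h1 ?_ (by positivity)
          exact le_min zero_le_one (by positivity)
      _ = η / 2 := by
          field_simp
  obtain ⟨N₁, hN₁⟩ := up ρ (27 / 500) (1251 / 10000) (2186 / 10000) hρ0 (by linarith) (by norm_num)
    (by norm_num) (by norm_num) J c a b t hD i₀ i₁ hi ε C (η / 2) hε (by linarith) (by linarith)
    (by linarith)
  obtain ⟨N₂, hN₂⟩ := km (ι := ι) ε C κ (1251 / 10000) (1 / 1000000) hε (by linarith) (by linarith)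
    (by norm_num) (by linarith) (by norm_num)
  have hst : St (-1) κ := ⟨Or.inl rfl, by linarith, by linarith, by linarith⟩
  obtain ⟨N₃, hN₃⟩ := dia_step (ι := ι) ε C (1 / 1000000) (-1) κ (-1) κ hε (by norm_num) hst hst
  obtain ⟨N₄, hN₄⟩ := cls
  obtain ⟨N₅, hN₅⟩ := rg2
  obtain ⟨N₆, hN₆⟩ := rg3
  obtain ⟨N₇, hN₇⟩ := rg5 (1 / 100000) (1251 / 10000) κ (by norm_num) (by norm_num) (by linarith) hκ1
  obtain ⟨N₈, hN₈⟩ := mer_V ε η₃ (1251 / 10000) (1252 / 10000) (1 + Fintype.card ι ^ 2) hη₃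
    (by norm_num) (by norm_num) (by norm_num)
  obtain ⟨N₉, hN₉⟩ := Ctx_card (ι := ι) ε C hε
  obtain ⟨N₁₀, hN₁₀⟩ := bad_log C
  refine ⟨N₁ + N₂ + N₃ + N₄ + N₅ + N₆ + N₇ + N₈ + N₉ + N₁₀ + 2, fun N hN D D' V h b₀ hC hu => ?_⟩
  have hN2 : 2 ≤ N := by omega
  have hNr : (2 : ℝ) ≤ N := by exact_mod_cast hN2
  have hN0 : (0 : ℝ) < N := by linarith
  have hlog : 0 < Real.log N := Real.log_pos (by linarith)
  have hΓ : 0 < Gam ε N := mul_pos (MP_pos _) hlog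
  obtain ⟨hVN, hcard⟩ := hN₉ N (by omega) D D' V h b₀ hC
  have hV : ∀ p ∈ V, p.Prime := fun p hp => ((mem_filter.1 (hVN hp)).2).1
  have hup := hN₁ N (by omega) D D' V h b₀ hC hu
  simp only [← hJv] at hup
  have hkm := hN₂ N (by omega) D D' V h b₀ hC
  have hdia := hN₃ N (by omega) D D' V h b₀ hC
  rw [← mass_step] at hdia
  have hov : ov (-1) κ (-1) κ = κ := by
    unfold ov
    rw [min_self, max_self, max_eq_right (by norm_num : (-1 : ℝ) ≤ 0), sub_zero,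
      max_eq_right (by linarith)]
  rw [hov] at hdia
  have hG : mass V (ys N (-1) κ) ≤ (κ + 1 / 1000000) * Gam ε N := by
    have := (abs_le.1 hdia).2
    linarith
  have hcls := hN₄ N (by omega) κ hκ hκ1
  have hlogC := hN₁₀ N (by omega)
  obtain ⟨X, hX⟩ : ∃ X, X = XX ε N D * Gam ε N ^ (Fintype.card ι + 1) := ⟨_, rfl⟩
  have hX0 : 0 ≤ X := by
    rw [hX]
    unfold XX
    positivity
  rw [← hX]
  simp only [← hX] at hup
  obtain ⟨Bc, hBc⟩ : ∃ B : ℝ, B = 50 / 49 * Jv / (27 / 500) ^ 2 + η / 2 := ⟨_, rfl⟩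
  simp only [← hBc] at hup
  have hBc0 : 0 ≤ Bc := by
    rw [hBc]
    positivity
  -- the sum for one prime
  have key : ∀ p ∈ PR N (1251 / 10000) (1252 / 10000) V,
      ∑ n ∈ (Pg ε N D b₀).filter (fun n => p ∣ n + h i₁ ∧
          (∀ x ∈ Vs N (1251 / 10000) V, ¬ x ∣ n + h i₁) ∧
          |Lam V (ys N (-1) κ) (n + h i₁)| < 1 / 20000 * mass V (ys N (-1) κ)),
            fp (n + h i₀) * wq J c a b N V h i₀ i₁ n ≤ X * Bc * (339 / 100000) * (1 / (p : ℝ)) := by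
    intro p hp
    rw [mem_PR] at hp
    obtain ⟨hpV, hp1, hp2⟩ := hp
    have hp0 : (0 : ℝ) < p := by exact_mod_cast (hV p hpV).pos
    obtain ⟨hs1, hs2⟩ := bad_sz hN2 hp1 hp2
    have h2 := hN₅ N (by omega) κ hκ hκ1 V hV (sz N p) hs1 hs2
    have h3 := hN₆ N (by omega) κ hκ hκ1 V hV (sz N p) hs1 hs2
    have h5 := hN₇ N (by omega) V hV
    have hpos : ∀ M : Finset ℕ, 0 ≤ (1 : ℝ) / pr M := fun M => by positivity
    obtain ⟨Q, hQ⟩ : ∃ Q : Finset (Finset ℕ), Q = V.powerset.filter (fun M : Finset ℕ =>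
        Cfg N κ (1251 / 10000) (1 / 50000) p M ∧
        (pr (insert p M) : ℝ) ≤ (N : ℝ) ^ (1 - 2186 / 10000 : ℝ)) := ⟨_, rfl⟩
    have hQs : ∑ M ∈ Q, (1 : ℝ) / pr M ≤ 24 / 100000 + 17 / 100000 + (297 / 100000 + 1 / 100000) := by
      refine bad_three (fun M => (1 : ℝ) / pr M) hpos ?_ h2 h3 h5
      intro M hM
      rw [hQ, mem_filter] at hM
      obtain ⟨hM1, ⟨-, hM2, hM3⟩, -⟩ := hM
      rcases hM3 with ⟨hM3, hM4⟩ | ⟨hM3, hM4⟩ | hM3
      · exact Or.inl (mem_filter.2 ⟨hM1, hM2, hM3, hM4⟩)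
      · exact Or.inr (Or.inl (mem_filter.2 ⟨hM1, hM2, hM3, hM4⟩))
      · exact Or.inr (Or.inr (mem_filter.2 ⟨hM1, hM2, hM3⟩))
    have hun := bad_union (P := Pg ε N D b₀) (Q := Q) (fun n => fp (n + h i₀) * wq J c a b N V h i₀ i₁ n)
      (fun n => mul_nonneg (bad_fp _) (wq_nonneg _ _ _ _ _ _ _ _ _ _))
      (fun n => p ∣ n + h i₁ ∧
          (∀ x ∈ Vs N (1251 / 10000) V, ¬ x ∣ n + h i₁) ∧
          |Lam V (ys N (-1) κ) (n + h i₁)| < 1 / 20000 * mass V (ys N (-1) κ))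
      (fun M n => (∀ q ∈ insert p M, q ∣ n + h i₁) ∧ ∀ x ∈ Vs N (1251 / 10000) V, ¬ x ∣ n + h i₁)
      (by
        rintro n hn ⟨hpn, hno, hK⟩
        have hn1 : N < n ∧ n ≤ 2 * N := by
          unfold Pg at hn
          exact mem_Ioc.1 (mem_filter.1 hn).1
        have hh : h i₁ ≤ N := by
          have := (hC.le i₁).trans hlogC
          exact_mod_cast this
        have hbig : ∀ x ∈ V, x ∣ n + h i₁ → (N : ℝ) ^ (1251 / 10000 : ℝ) ≤ (x : ℝ) := by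
          intro x hx hxd
          by_contra hc
          exact hno x (mem_Vs.2 ⟨hx, not_le.1 hc⟩) hxd
        obtain ⟨M, hM1, hM2, hM3, hM4⟩ := bad_one hκ1 hV hΓ (by omega) (by omega) hG hcls
          (hkm (n + h i₁) (by omega) (by omega) hbig) hK hbig hpV hpn hp2
        refine ⟨M, ?_, ?_, hno⟩
        · rw [hQ]
          exact mem_filter.2 ⟨mem_powerset.2 hM1, hM3, hM4⟩
        · intro q hq
          rcases mem_insert.1 hq with hq | hq
          · rw [hq]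
            exact hpn
          · exact hM2 q hq)
    refine hun.trans ?_
    calc _ ≤ ∑ M ∈ Q, X * Bc * (1 / (p : ℝ)) * (1 / pr M) := by
          refine sum_le_sum fun M hM => ?_
          rw [hQ, mem_filter] at hM
          obtain ⟨hM1, ⟨hM0, hM2, -⟩, hM4⟩ := hM
          have hiV : insert p M ⊆ V := insert_subset hpV (mem_powerset.1 hM1)
          have hib : ∀ q ∈ insert p M, (N : ℝ) ^ (1251 / 10000 : ℝ) ≤ (q : ℝ) := by
            intro q hq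
            rcases mem_insert.1 hq with hq | hq
            · rw [hq]
              exact hp1
            · exact (hM2 q hq).1
          refine (hup (insert p M) hiV hib hM4).trans (le_of_eq ?_)
          have hpi : pr (insert p M) = p * pr M := by
            unfold pr
            exact prod_insert hM0
          have hpM : (0 : ℝ) < pr M := by
            have : 0 < pr M := prod_pos fun q hq => (hV q (mem_powerset.1 hM1 hq)).pos
            exact_mod_cast this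
          rw [hpi]
          push_cast
          field_simp
      _ = X * Bc * (1 / (p : ℝ)) * ∑ M ∈ Q, (1 : ℝ) / pr M := by rw [mul_sum]
      _ ≤ X * Bc * (1 / (p : ℝ)) * (339 / 100000) := by
          refine mul_le_mul_of_nonneg_left (by linarith) (by positivity)
      _ = _ := by ring
  have hmer := (hN₈ N (by omega) V hVN hcard).2
  have hmer2 : ∑ p ∈ PR N (1251 / 10000) (1252 / 10000) V, 1 / (p : ℝ) ≤ ℓ + η₃ := by
    have h1 := (abs_le.1 hmer).2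
    have h2 : Real.log (1252 / 10000 / (1251 / 10000)) = ℓ := by
      rw [hℓ]
      congr 1
      norm_num
    rw [h2] at h1
    linarith
  refine (sum_le_sum key).trans ?_
  rw [← mul_sum]
  calc X * Bc * (339 / 100000) * ∑ p ∈ PR N (1251 / 10000) (1252 / 10000) V, 1 / (p : ℝ)
      ≤ X * Bc * (339 / 100000) * (ℓ + η₃) := mul_le_mul_of_nonneg_left hmer2 (by positivity)
    _ = X * ((Bc * (339 / 100000)) * (ℓ + η₃)) := by ring
    _ ≤ X * (ℓ * (119 / 100) * Jv + η) := by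
        refine mul_le_mul_of_nonneg_left ?_ hX0
        have h1 : Bc * (339 / 100000) ≤ 119 / 100 * Jv + η / 4 := by
          rw [hBc]
          have : 50 / 49 * Jv / (27 / 500) ^ 2 * (339 / 100000) ≤ 119 / 100 * Jv := by
            have h2 : 50 / 49 * Jv / (27 / 500) ^ 2 * (339 / 100000) =
              (50 / 49 / (27 / 500) ^ 2 * (339 / 100000)) * Jv := by ring
            rw [h2]
            exact mul_le_mul_of_nonneg_right (by norm_num) hJ0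
          linarith
        calc (Bc * (339 / 100000)) * (ℓ + η₃) ≤ (119 / 100 * Jv + η / 4) * (ℓ + η₃) :=
              mul_le_mul_of_nonneg_right h1 (by linarith)
          _ = ℓ * (119 / 100) * Jv + (119 / 100 * Jv * η₃ + η / 4 * (ℓ + η₃)) := by ring
          _ ≤ ℓ * (119 / 100) * Jv + (η / 2 + η / 4 * 2) := by
              have h4 : η / 4 * (ℓ + η₃) ≤ η / 4 * 2 :=
                mul_le_mul_of_nonneg_left (by linarith) (by linarith)
              linarith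
          _ = ℓ * (119 / 100) * Jv + η := by ring

end PGS
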