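import Pool.Agent.PGL.WD

/-! PGS / OptG: the choice of the weights for `r` clusters (`r` arbitrary).

PROOF. `L` large, `M = 2^L`, `k = r M`, `A = 4 k L / (e ρ)`, `T_l = 2^l / A`, `b_l = T_l`, `a_0 = -1`,
`a_l = T_{l-1}` for `l ≥ 1`, `c_l = 2^(-l)`, `t_l = b_l - max a_l 0`, `J` the set of the `j` with
`∑ T(j i) ≤ ρ`. -/

set_option autoImplicit false

open Finset PGL

noncomputable section

namespace PGS

section gen

variable {ι : Type} [Fintype ι] [DecidableEq ι] {L : ℕ}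

/-- the factor of the coordinate `i` -/
def GG (c t : Fin L → ℝ) (I : Finset ι) (i : ι) (p : Fin L × Fin L) : ℝ :=
  if i ∈ I then c p.1 * t p.1 * (c p.2 * t p.2) else if p.2 = p.1 then c p.1 ^ 2 * t p.1 else 0

theorem JJ_eq (J : Finset (ι → Fin L)) (c t : Fin L → ℝ) (I : Finset ι) :
    JJ J c t I = ∑ j ∈ J, ∑ j' ∈ J, ∏ i, GG c t I i (j i, j' i) := by
  unfold JJ
  refine Finset.sum_congr rfl fun j hj => ?_
  rw [Finset.sum_filter]
  refine Finset.sum_congr rfl fun j' hj' => ?_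
  split_ifs with h
  · refine Finset.prod_congr rfl fun i _ => ?_
    unfold GG
    by_cases h1 : i ∈ I
    · rw [if_pos h1, if_pos h1]
    · rw [if_neg h1, if_neg h1, if_pos (h i h1)]
  · rw [not_forall] at h
    obtain ⟨i, hi⟩ := h
    rw [Classical.not_imp] at hi
    symm
    refine Finset.prod_eq_zero (Finset.mem_univ i) ?_
    unfold GG
    rw [if_neg hi.1, if_neg hi.2]

theorem GG_nonneg {c t : Fin L → ℝ} (hc : ∀ l, 0 ≤ c l) (ht : ∀ l, 0 ≤ t l) (I : Finset ι)
    (i : ι) (p : Fin L × Fin L) : 0 ≤ GG c t I i p := by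
  unfold GG
  split_ifs
  · exact mul_nonneg (mul_nonneg (hc _) (ht _)) (mul_nonneg (hc _) (ht _))
  · exact mul_nonneg (pow_nonneg (hc _) 2) (ht _)
  · exact le_rfl

theorem sum_pairs (f : ι → Fin L × Fin L → ℝ) :
    ∑ j : ι → Fin L, ∑ j' : ι → Fin L, ∏ i, f i (j i, j' i) = ∏ i, ∑ q, f i q := by
  have h1 : ∏ i, ∑ q, f i q = ∑ p : ι → Fin L × Fin L, ∏ i, f i (p i) := by
    rw [Finset.prod_univ_sum, Fintype.piFinset_univ]
  rw [h1, ← Fintype.sum_prod_type' (f := fun (j j' : ι → Fin L) => ∏ i, f i (j i, j' i))]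
  refine (Fintype.sum_equiv (Equiv.arrowProdEquivProdArrow ι (fun _ => Fin L) (fun _ => Fin L))
    _ _ (fun p => ?_)).symm
  rfl

theorem sum_GG (c t : Fin L → ℝ) (I : Finset ι) (i : ι) :
    ∑ q, GG c t I i q = if i ∈ I then (∑ l, c l * t l) ^ 2 else ∑ l, c l ^ 2 * t l := by
  rw [Fintype.sum_prod_type]
  by_cases h : i ∈ I
  · rw [if_pos h, pow_two, Finset.sum_mul_sum]
    refine Finset.sum_congr rfl fun l _ => Finset.sum_congr rfl fun l' _ => ?_
    simp only [GG, if_pos h]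
  · rw [if_neg h]
    refine Finset.sum_congr rfl fun l _ => ?_
    simp only [GG, if_neg h]
    rw [Finset.sum_ite_eq' Finset.univ l (fun _ => c l ^ 2 * t l), if_pos (Finset.mem_univ l)]

theorem sum_TGG (T c t : Fin L → ℝ) (I : Finset ι) (i : ι) (h : i ∉ I) :
    ∑ q : Fin L × Fin L, T q.1 * GG c t I i q = ∑ l, T l * (c l ^ 2 * t l) := by
  rw [Fintype.sum_prod_type]
  refine Finset.sum_congr rfl fun l _ => ?_
  simp only [GG, if_neg h]
  rw [← Finset.mul_sum, Finset.sum_ite_eq' Finset.univ l (fun _ => c l ^ 2 * t l),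
    if_pos (Finset.mem_univ l)]

theorem prod_GG (c t : Fin L → ℝ) (I : Finset ι) :
    ∏ i, ∑ q, GG c t I i q =
      (∑ l, c l ^ 2 * t l) ^ (Fintype.card ι - I.card) * ((∑ l, c l * t l) ^ 2) ^ I.card := by
  rw [Finset.prod_congr rfl (fun i _ => sum_GG c t I i), Finset.prod_ite, Finset.prod_const,
    Finset.prod_const, mul_comm]
  congr 2
  · have h : (Finset.univ.filter (fun i => i ∉ I)) = Iᶜ := by
      ext i
      simp
    rw [h, Finset.card_compl]
  · congr 1
    ext i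
    simp

theorem JJ_upper {c t : Fin L → ℝ} (hc : ∀ l, 0 ≤ c l) (ht : ∀ l, 0 ≤ t l)
    (J : Finset (ι → Fin L)) (I : Finset ι) :
    JJ J c t I ≤ ∏ i, ∑ q, GG c t I i q := by
  rw [JJ_eq, ← sum_pairs]
  have h0 : ∀ j j' : ι → Fin L, 0 ≤ ∏ i, GG c t I i (j i, j' i) := fun j j' =>
    Finset.prod_nonneg fun i _ => GG_nonneg hc ht I i _
  calc ∑ j ∈ J, ∑ j' ∈ J, ∏ i, GG c t I i (j i, j' i)
      ≤ ∑ j ∈ J, ∑ j' : ι → Fin L, ∏ i, GG c t I i (j i, j' i) :=
        Finset.sum_le_sum fun j _ => Finset.sum_le_sum_of_subset_of_nonneg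
          (Finset.subset_univ _) (fun j' _ _ => h0 j j')
    _ ≤ ∑ j : ι → Fin L, ∑ j' : ι → Fin L, ∏ i, GG c t I i (j i, j' i) :=
        Finset.sum_le_sum_of_subset_of_nonneg (Finset.subset_univ _)
          (fun j _ _ => Finset.sum_nonneg fun j' _ => h0 j j')

theorem JJ_lower {T c t : Fin L → ℝ} {ρ θ : ℝ} (hρ : 0 < ρ) (hT : ∀ l, 0 ≤ T l)
    (hT2 : ∀ l, T l ≤ ρ / 2) (hc : ∀ l, 0 ≤ c l) (ht : ∀ l, 0 ≤ t l)
    (I : Finset ι) (hI : I.card ≤ 1) (hθ : 0 ≤ θ)
    (hQ : ∑ l, T l * (c l ^ 2 * t l) ≤ θ * ∑ l, c l ^ 2 * t l) :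
    ∏ i, ∑ q, GG c t I i q -
        JJ (Finset.univ.filter (fun j : ι → Fin L => ∑ i, T (j i) ≤ ρ)) c t I ≤
      (2 / ρ) * (Fintype.card ι * (θ * ∏ i, ∑ q, GG c t I i q)) := by
  have h0 : ∀ j j' : ι → Fin L, 0 ≤ ∏ i, GG c t I i (j i, j' i) := fun j j' =>
    Finset.prod_nonneg fun i _ => GG_nonneg hc ht I i _
  have hS0 : ∀ i, 0 ≤ ∑ q, GG c t I i q := fun i =>
    Finset.sum_nonneg fun q _ => GG_nonneg hc ht I i q
  -- the pointwise inequality
  have hpt : ∀ j j' : ι → Fin L, ∏ i, GG c t I i (j i, j' i) -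
      (if ∑ i, T (j i) ≤ ρ then (if ∑ i, T (j' i) ≤ ρ then ∏ i, GG c t I i (j i, j' i) else 0)
        else 0) ≤
      (2 / ρ) * ∑ i₁ ∈ Iᶜ, T (j i₁) * ∏ i, GG c t I i (j i, j' i) := by
    intro j j'
    have hr : 0 ≤ (2 / ρ) * ∑ i₁ ∈ Iᶜ, T (j i₁) * ∏ i, GG c t I i (j i, j' i) :=
      mul_nonneg (by positivity) (Finset.sum_nonneg fun i₁ _ => mul_nonneg (hT _) (h0 j j'))
    by_cases hz : ∏ i, GG c t I i (j i, j' i) = 0
    · rw [hz] at hr ⊢
      simp only [ite_self, sub_zero]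
      exact hr
    · have hag : ∀ i, i ∉ I → j' i = j i := by
        intro i hi
        by_contra hne
        apply hz
        refine Finset.prod_eq_zero (Finset.mem_univ i) ?_
        unfold GG
        rw [if_neg hi, if_neg hne]
      -- sum over the complement
      have hbig : ∀ u : ι → Fin L, ¬ ∑ i, T (u i) ≤ ρ → ρ / 2 ≤ ∑ i ∈ Iᶜ, T (u i) := by
        intro u hu
        have h1 : ∑ i ∈ I, T (u i) + ∑ i ∈ Iᶜ, T (u i) = ∑ i, T (u i) :=
          Finset.sum_add_sum_compl I _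
        have h2 : ∑ i ∈ I, T (u i) ≤ ρ / 2 := by
          calc ∑ i ∈ I, T (u i) ≤ ∑ _i ∈ I, ρ / 2 := Finset.sum_le_sum fun i _ => hT2 _
            _ = (I.card : ℝ) * (ρ / 2) := by rw [Finset.sum_const, nsmul_eq_mul]
            _ ≤ 1 * (ρ / 2) := by
              refine mul_le_mul_of_nonneg_right ?_ (by positivity)
              exact_mod_cast hI
            _ = ρ / 2 := one_mul _
        have h3 := not_le.1 hu
        linarith
      have hmain : ρ / 2 ≤ ∑ i ∈ Iᶜ, T (j i) →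
          ∏ i, GG c t I i (j i, j' i) ≤
          (2 / ρ) * ∑ i₁ ∈ Iᶜ, T (j i₁) * ∏ i, GG c t I i (j i, j' i) := by
        intro h1
        rw [← Finset.sum_mul, ← mul_assoc]
        have h2 : 1 ≤ 2 / ρ * ∑ i ∈ Iᶜ, T (j i) := by
          calc (1 : ℝ) = 2 / ρ * (ρ / 2) := by field_simp
            _ ≤ _ := mul_le_mul_of_nonneg_left h1 (by positivity)
        calc ∏ i, GG c t I i (j i, j' i) = 1 * ∏ i, GG c t I i (j i, j' i) := (one_mul _).symm
          _ ≤ _ := mul_le_mul_of_nonneg_right h2 (h0 j j')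
      by_cases h1 : ∑ i, T (j i) ≤ ρ
      · by_cases h2 : ∑ i, T (j' i) ≤ ρ
        · rw [if_pos h1, if_pos h2, sub_self]
          exact hr
        · rw [if_pos h1, if_neg h2, sub_zero]
          refine hmain ?_
          have h3 := hbig j' h2
          have h4 : ∑ i ∈ Iᶜ, T (j' i) = ∑ i ∈ Iᶜ, T (j i) :=
            Finset.sum_congr rfl fun i hi => by rw [hag i (Finset.mem_compl.1 hi)]
          rw [← h4]
          exact h3
      · rw [if_neg h1, sub_zero]
        exact hmain (hbig j h1)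
  -- the sums
  have hJ : JJ (Finset.univ.filter (fun j : ι → Fin L => ∑ i, T (j i) ≤ ρ)) c t I =
      ∑ j : ι → Fin L, ∑ j' : ι → Fin L,
        (if ∑ i, T (j i) ≤ ρ then (if ∑ i, T (j' i) ≤ ρ then ∏ i, GG c t I i (j i, j' i) else 0)
          else 0) := by
    rw [JJ_eq, Finset.sum_filter]
    refine Finset.sum_congr rfl fun j _ => ?_
    by_cases h1 : ∑ i, T (j i) ≤ ρ
    · simp only [if_pos h1]
      rw [Finset.sum_filter]
    · simp only [if_neg h1]
      rw [Finset.sum_const_zero]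
  have hterm : ∀ i₁ ∈ Iᶜ, ∑ j : ι → Fin L, ∑ j' : ι → Fin L,
      T (j i₁) * ∏ i, GG c t I i (j i, j' i) ≤ θ * ∏ i, ∑ q, GG c t I i q := by
    intro i₁ hi₁
    have hi₁' : i₁ ∉ I := Finset.mem_compl.1 hi₁
    have e1 : ∀ j j' : ι → Fin L, T (j i₁) * ∏ i, GG c t I i (j i, j' i) =
        ∏ i, (fun (i : ι) (q : Fin L × Fin L) => (if i = i₁ then T q.1 else 1) * GG c t I i q) i
          (j i, j' i) := by
      intro j j'
      simp only
      rw [Finset.prod_mul_distrib, Finset.prod_ite_eq' Finset.univ i₁ (fun i => T (j i)),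
        if_pos (Finset.mem_univ i₁)]
    simp only [e1]
    rw [sum_pairs (fun (i : ι) (q : Fin L × Fin L) => (if i = i₁ then T q.1 else 1) *
      GG c t I i q), ← Finset.mul_prod_erase Finset.univ _ (Finset.mem_univ i₁),
      ← Finset.mul_prod_erase Finset.univ (fun i => ∑ q, GG c t I i q) (Finset.mem_univ i₁),
      ← mul_assoc]
    have e2 : ∏ i ∈ Finset.univ.erase i₁, ∑ q : Fin L × Fin L,
        (if i = i₁ then T q.1 else 1) * GG c t I i q =
        ∏ i ∈ Finset.univ.erase i₁, ∑ q, GG c t I i q := by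
      refine Finset.prod_congr rfl fun i hi => ?_
      have hne : i ≠ i₁ := (Finset.mem_erase.1 hi).1
      simp only [if_neg hne, one_mul]
    rw [e2]
    refine mul_le_mul_of_nonneg_right ?_ (Finset.prod_nonneg fun i _ => hS0 i)
    simp only [if_true]
    rw [sum_TGG T c t I i₁ hi₁', sum_GG, if_neg hi₁']
    exact hQ
  calc ∏ i, ∑ q, GG c t I i q -
        JJ (Finset.univ.filter (fun j : ι → Fin L => ∑ i, T (j i) ≤ ρ)) c t I
      = ∑ j : ι → Fin L, ∑ j' : ι → Fin L, (∏ i, GG c t I i (j i, j' i) -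
        (if ∑ i, T (j i) ≤ ρ then (if ∑ i, T (j' i) ≤ ρ then ∏ i, GG c t I i (j i, j' i) else 0)
          else 0)) := by
        rw [hJ, ← sum_pairs, ← Finset.sum_sub_distrib]
        refine Finset.sum_congr rfl fun j _ => ?_
        rw [← Finset.sum_sub_distrib]
    _ ≤ ∑ j : ι → Fin L, ∑ j' : ι → Fin L,
        (2 / ρ) * ∑ i₁ ∈ Iᶜ, T (j i₁) * ∏ i, GG c t I i (j i, j' i) :=
        Finset.sum_le_sum fun j _ => Finset.sum_le_sum fun j' _ => hpt j j'
    _ = (2 / ρ) * ∑ i₁ ∈ Iᶜ, ∑ j : ι → Fin L, ∑ j' : ι → Fin L,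
        T (j i₁) * ∏ i, GG c t I i (j i, j' i) := by
        have e3 : ∀ j : ι → Fin L, ∑ j' : ι → Fin L,
            (2 / ρ) * ∑ i₁ ∈ Iᶜ, T (j i₁) * ∏ i, GG c t I i (j i, j' i) =
            (2 / ρ) * ∑ i₁ ∈ Iᶜ, ∑ j' : ι → Fin L, T (j i₁) * ∏ i, GG c t I i (j i, j' i) := by
          intro j
          rw [← Finset.mul_sum, Finset.sum_comm]
        rw [Finset.sum_congr rfl (fun j _ => e3 j), ← Finset.mul_sum, Finset.sum_comm]
    _ ≤ (2 / ρ) * ∑ _i₁ ∈ Iᶜ, θ * ∏ i, ∑ q, GG c t I i q :=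
        mul_le_mul_of_nonneg_left (Finset.sum_le_sum hterm) (by positivity)
    _ ≤ (2 / ρ) * (Fintype.card ι * (θ * ∏ i, ∑ q, GG c t I i q)) := by
        refine mul_le_mul_of_nonneg_left ?_ (by positivity)
        rw [Finset.sum_const, nsmul_eq_mul]
        refine mul_le_mul_of_nonneg_right ?_
          (mul_nonneg hθ (Finset.prod_nonneg fun i _ => hS0 i))
        exact_mod_cast Finset.card_le_univ _

end gen

/-- the parameters -/
theorem optG_aux (r : ℕ) (hr : 0 < r) (e ρ : ℝ) (he : 0 < e) (he1 : e ≤ 1) (hρ : 0 < ρ)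
    (hρ1 : ρ ≤ 1) : ∃ (M L : ℕ) (J : Finset (Fin r × Fin M → Fin L))
    (c a b t : Fin L → ℝ) (Z m : ℝ), 0 < M ∧ 0 < Z ∧ 0 < m ∧ Dat ρ J a b t ∧
      (1 - e) * Z ^ (r * M) ≤ JJ J c t ∅ ∧ JJ J c t ∅ ≤ Z ^ (r * M) ∧
      (∀ i₀, (1 - e) * (Z ^ (r * M - 1) * m ^ 2) ≤ JJ J c t {i₀} ∧
        JJ J c t {i₀} ≤ Z ^ (r * M - 1) * m ^ 2) ∧
      (∀ i₀ i₁, i₀ ≠ i₁ → JJ J c t {i₀, i₁} ≤ Z ^ (r * M - 2) * m ^ 4) ∧
      Z ≤ e * (M * m ^ 2) := by
  obtain ⟨L, hL⟩ := exists_nat_ge (32 * r / (e ^ 2 * ρ) + 2)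
  have hr' : (1 : ℝ) ≤ r := by exact_mod_cast hr
  have hLpos : (2 : ℝ) ≤ L := by
    have h1 : 0 ≤ 32 * (r : ℝ) / (e ^ 2 * ρ) := by positivity
    linarith
  have hL0 : 0 < L := by
    have h1 : (0 : ℝ) < L := by linarith
    exact_mod_cast h1
  obtain ⟨M, hM⟩ : ∃ M : ℕ, M = 2 ^ L := ⟨_, rfl⟩
  have hMR : (M : ℝ) = 2 ^ L := by rw [hM]; push_cast; rfl
  have hM1 : (1 : ℝ) ≤ M := by rw [hMR]; exact one_le_pow₀ (by norm_num)
  have hM0 : 0 < M := by rw [hM]; positivity
  obtain ⟨A, hA⟩ : ∃ A : ℝ, A = 4 * (r * M) * L / (e * ρ) := ⟨_, rfl⟩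
  have hA0 : 0 < A := by rw [hA]; positivity
  have hAe : A * (e * ρ) = 4 * (r * M) * L := by
    rw [hA]
    field_simp
  have heρ1 : e * ρ ≤ 1 := by nlinarith
  have hAM : (M : ℝ) ≤ A := by
    have h1 : A * (e * ρ) ≤ A * 1 := mul_le_mul_of_nonneg_left heρ1 hA0.le
    have h2 : (M : ℝ) ≤ 4 * (r * M) * L := by
      have h3 : (1 : ℝ) * M ≤ r * M := mul_le_mul_of_nonneg_right hr' (by linarith)
      have h4 : (0 : ℝ) ≤ r * M := by positivity
      nlinarith
    rw [hAe, mul_one] at h1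
    linarith
  let T : Fin L → ℝ := fun l => 2 ^ (l : ℕ) / A
  let a : Fin L → ℝ := fun l => if (l : ℕ) = 0 then -1 else 2 ^ ((l : ℕ) - 1) / A
  let c : Fin L → ℝ := fun l => (1 / 2) ^ (l : ℕ)
  let t : Fin L → ℝ := fun l => if (l : ℕ) = 0 then 1 / A else 2 ^ ((l : ℕ) - 1) / A
  have hT0 : ∀ l, 0 < T l := fun l => by
    simp only [T]
    positivity
  have hc0 : ∀ l, 0 < c l := fun l => by
    simp only [c]
    positivity
  have ht0 : ∀ l, 0 < t l := fun l => by
    simp only [t]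
    split_ifs <;> positivity
  have htT : ∀ l, t l ≤ T l := fun l => by
    simp only [t, T]
    split_ifs with h
    · rw [h, pow_zero]
    · refine div_le_div_of_nonneg_right ?_ hA0.le
      exact pow_le_pow_right₀ (by norm_num) (by omega)
  have hTt : ∀ l, T l / 2 ≤ t l := fun l => by
    simp only [t, T]
    split_ifs with h
    · rw [h, pow_zero]
      have h1 : 0 < 1 / A := by positivity
      linarith
    · have h1 : (2 : ℝ) ^ (l : ℕ) = 2 * 2 ^ ((l : ℕ) - 1) := by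
        rw [← pow_succ']
        congr 1
        omega
      rw [h1]
      apply le_of_eq
      ring
  have hTle : ∀ l : Fin L, T l ≤ M / A := fun l => by
    simp only [T]
    refine div_le_div_of_nonneg_right ?_ hA0.le
    rw [hMR]
    exact pow_le_pow_right₀ (by norm_num) l.2.le
  have hMA : (M : ℝ) / A ≤ ρ / 2 := by
    rw [div_le_iff₀ hA0]
    have h1 : A * ρ ≥ A * (e * ρ) := by
      refine mul_le_mul_of_nonneg_left ?_ hA0.le
      nlinarith
    rw [hAe] at h1
    have h3 : (1 : ℝ) * M ≤ r * M := mul_le_mul_of_nonneg_right hr' (by linarith)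
    have h4 : (0 : ℝ) ≤ r * M := by positivity
    nlinarith
  have hT2 : ∀ l, T l ≤ ρ / 2 := fun l => (hTle l).trans hMA
  obtain ⟨Z, hZ⟩ : ∃ Z : ℝ, Z = ∑ l, c l ^ 2 * t l := ⟨_, rfl⟩
  obtain ⟨m, hm⟩ : ∃ m : ℝ, m = ∑ l, c l * t l := ⟨_, rfl⟩
  have hcT : ∀ l, c l * T l = 1 / A := fun l => by
    simp only [c, T]
    rw [← mul_div_assoc, ← mul_pow]
    norm_num
  have hZlow : 1 / A ≤ Z := by
    have h1 : c ⟨0, hL0⟩ ^ 2 * t ⟨0, hL0⟩ ≤ ∑ l, c l ^ 2 * t l :=
      Finset.single_le_sum (f := fun l => c l ^ 2 * t l)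
        (fun l _ => mul_nonneg (pow_nonneg (hc0 l).le 2) (ht0 l).le) (Finset.mem_univ _)
    have h2 : c ⟨0, hL0⟩ ^ 2 * t ⟨0, hL0⟩ = 1 / A := by
      simp [c, t]
    rw [hZ, ← h2]
    exact h1
  have hZ0 : 0 < Z := lt_of_lt_of_le (by positivity) hZlow
  have hZup : Z ≤ 2 / A := by
    have h1 : Z ≤ ∑ l : Fin L, (1 / 2 : ℝ) ^ (l : ℕ) * (1 / A) := by
      rw [hZ]
      refine Finset.sum_le_sum fun l _ => ?_
      calc c l ^ 2 * t l ≤ c l ^ 2 * T l :=
            mul_le_mul_of_nonneg_left (htT l) (pow_nonneg (hc0 l).le 2)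
        _ = c l * (c l * T l) := by ring
        _ = (1 / 2 : ℝ) ^ (l : ℕ) * (1 / A) := by rw [hcT]
    have h2 : ∑ l : Fin L, (1 / 2 : ℝ) ^ (l : ℕ) * (1 / A) ≤ 2 / A := by
      rw [← Finset.sum_mul, Fin.sum_univ_eq_sum_range (fun n => (1 / 2 : ℝ) ^ n) L]
      have h3 : ∑ n ∈ Finset.range L, (1 / 2 : ℝ) ^ n ≤ 2 := by
        have h4 : ∀ n : ℕ, ∑ i ∈ Finset.range n, (1 / 2 : ℝ) ^ i = 2 - 2 * (1 / 2) ^ n := by
          intro n
          induction n with
          | zero => simp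
          | succ n ih =>
            rw [Finset.sum_range_succ, ih, pow_succ]
            ring
        rw [h4]
        have h5 : (0 : ℝ) ≤ (1 / 2) ^ L := by positivity
        linarith
      calc (∑ n ∈ Finset.range L, (1 / 2 : ℝ) ^ n) * (1 / A) ≤ 2 * (1 / A) :=
            mul_le_mul_of_nonneg_right h3 (by positivity)
        _ = 2 / A := by ring
    exact h1.trans h2
  have hmlow : L / (2 * A) ≤ m := by
    have h1 : ∑ _l : Fin L, 1 / (2 * A) ≤ m := by
      rw [hm]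
      refine Finset.sum_le_sum fun l _ => ?_
      calc 1 / (2 * A) = c l * T l / 2 := by rw [hcT]; ring
        _ = c l * (T l / 2) := by ring
        _ ≤ c l * t l := mul_le_mul_of_nonneg_left (hTt l) (hc0 l).le
    rw [Finset.sum_const, Finset.card_univ, Fintype.card_fin, nsmul_eq_mul] at h1
    calc (L : ℝ) / (2 * A) = L * (1 / (2 * A)) := by ring
      _ ≤ m := h1
  have hm0 : 0 < m := lt_of_lt_of_le (by positivity) hmlow
  have hQ : ∑ l, T l * (c l ^ 2 * t l) ≤ (L / A) * ∑ l, c l ^ 2 * t l := by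
    have h1 : ∑ l, T l * (c l ^ 2 * t l) ≤ ∑ _l : Fin L, (1 / A) * (1 / A) := by
      refine Finset.sum_le_sum fun l _ => ?_
      calc T l * (c l ^ 2 * t l) ≤ T l * (c l ^ 2 * T l) := by
            refine mul_le_mul_of_nonneg_left ?_ (hT0 l).le
            exact mul_le_mul_of_nonneg_left (htT l) (pow_nonneg (hc0 l).le 2)
        _ = (c l * T l) * (c l * T l) := by ring
        _ = (1 / A) * (1 / A) := by rw [hcT]
    rw [Finset.sum_const, Finset.card_univ, Fintype.card_fin, nsmul_eq_mul] at h1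
    calc ∑ l, T l * (c l ^ 2 * t l) ≤ L * (1 / A * (1 / A)) := h1
      _ = (L / A) * (1 / A) := by ring
      _ ≤ (L / A) * ∑ l, c l ^ 2 * t l := by
          rw [← hZ]
          exact mul_le_mul_of_nonneg_left hZlow (by positivity)
  have hcard : Fintype.card (Fin r × Fin M) = r * M := by
    rw [Fintype.card_prod, Fintype.card_fin, Fintype.card_fin]
  have hlow : ∀ I : Finset (Fin r × Fin M), I.card ≤ 1 →
      (1 - e) * ∏ i, ∑ q, GG c t I i q ≤
      JJ (Finset.univ.filter (fun j : Fin r × Fin M → Fin L => ∑ i, T (j i) ≤ ρ)) c t I := by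
    intro I hI
    have h1 := JJ_lower (T := T) (c := c) (t := t) (ρ := ρ) (θ := L / A) hρ (fun l => (hT0 l).le)
      hT2 (fun l => (hc0 l).le) (fun l => (ht0 l).le) I hI (by positivity) hQ
    have hS : 0 ≤ ∏ i, ∑ q, GG c t I i q := Finset.prod_nonneg fun i _ =>
      Finset.sum_nonneg fun q _ => GG_nonneg (fun l => (hc0 l).le) (fun l => (ht0 l).le) I i q
    have h2 : (2 / ρ) * (((r * M : ℕ) : ℝ) * (L / A * ∏ i, ∑ q, GG c t I i q)) =
        (e / 2) * ∏ i, ∑ q, GG c t I i q := by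
      have h3 : (2 / ρ) * (((r * M : ℕ) : ℝ) * (L / A)) = e / 2 := by
        have h4 : (L : ℝ) / A = e * ρ / (4 * (r * M)) := by
          rw [hA]
          field_simp
        rw [h4]
        push_cast
        field_simp
        norm_num
      calc (2 / ρ) * (((r * M : ℕ) : ℝ) * (L / A * ∏ i, ∑ q, GG c t I i q)) =
          ((2 / ρ) * (((r * M : ℕ) : ℝ) * (L / A))) * ∏ i, ∑ q, GG c t I i q := by ring
        _ = _ := by rw [h3]
    rw [hcard, h2] at h1
    nlinarith
  refine ⟨M, L, Finset.univ.filter (fun j => ∑ i, T (j i) ≤ ρ), c, a, T, t, Z, m, hM0, hZ0, hm0,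
    ⟨?_, ?_, ?_⟩, ?_, ?_, ?_, ?_, ?_⟩
  · -- admissible
    intro l
    have haT : a l ≤ T l := by
      simp only [a, T]
      split_ifs with h
      · have h1 : 0 < 2 ^ (l : ℕ) / A := by positivity
        linarith
      · refine div_le_div_of_nonneg_right ?_ hA0.le
        exact pow_le_pow_right₀ (by norm_num) (by omega)
    refine ⟨?_, haT, hT0 l, ?_⟩
    · simp only [a]
      split_ifs with h
      · left
        rfl
      · right
        positivity
    · have h1 := hT2 l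
      linarith
  · -- overlaps
    intro l l'
    have hmax : ∀ l, max (a l) 0 = T l - t l := by
      intro l
      simp only [a, T, t]
      split_ifs with h
      · rw [h, pow_zero, sub_self]
        exact max_eq_right (by norm_num)
      · have h1 : (2 : ℝ) ^ (l : ℕ) = 2 * 2 ^ ((l : ℕ) - 1) := by
          rw [← pow_succ']
          congr 1
          omega
        rw [h1, max_eq_left (by positivity)]
        ring
    have hmono : ∀ l l' : Fin L, l < l' → T l ≤ T l' - t l' := by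
      intro l l' h
      have h0 : (l' : ℕ) ≠ 0 := by
        have := Fin.lt_def.1 h
        omega
      have h2 : T l' - t l' = 2 ^ ((l' : ℕ) - 1) / A := by
        rw [← hmax l']
        simp only [a, if_neg h0]
        exact max_eq_left (by positivity)
      rw [h2]
      simp only [T]
      refine div_le_div_of_nonneg_right ?_ hA0.le
      refine pow_le_pow_right₀ (by norm_num) ?_
      have := Fin.lt_def.1 h
      omega
    unfold PGL.ov
    have hmm : max (max (a l) (a l')) 0 = max (max (a l) 0) (max (a l') 0) := by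
      rw [max_max_max_comm, max_self]
    rw [hmm, hmax, hmax]
    rcases lt_trichotomy l l' with h | h | h
    · rw [if_neg h.ne]
      refine max_eq_left ?_
      have h1 := hmono l l' h
      have h2 : min (T l) (T l') ≤ T l := min_le_left _ _
      have h3 : T l' - t l' ≤ max (T l - t l) (T l' - t l') := le_max_right _ _
      linarith
    · subst h
      rw [if_pos rfl, min_self, max_self]
      rw [show T l - (T l - t l) = t l by ring]
      exact max_eq_right (ht0 l).le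
    · rw [if_neg h.ne']
      refine max_eq_left ?_
      have h1 := hmono l' l h
      have h2 : min (T l) (T l') ≤ T l' := min_le_right _ _
      have h3 : T l - t l ≤ max (T l - t l) (T l' - t l') := le_max_left _ _
      linarith
  · intro j hj
    exact (Finset.mem_filter.1 hj).2
  · have h1 := hlow ∅ (by simp)
    rw [prod_GG, hcard, Finset.card_empty, Nat.sub_zero, pow_zero, mul_one, ← hZ] at h1
    exact h1
  · have h1 := JJ_upper (c := c) (t := t) (fun l => (hc0 l).le) (fun l => (ht0 l).le)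
      (Finset.univ.filter (fun j : Fin r × Fin M → Fin L => ∑ i, T (j i) ≤ ρ)) ∅
    rw [prod_GG, hcard, Finset.card_empty, Nat.sub_zero, pow_zero, mul_one, ← hZ] at h1
    exact h1
  · intro i₀
    refine ⟨?_, ?_⟩
    · have h1 := hlow {i₀} (by simp)
      rw [prod_GG, hcard, Finset.card_singleton, pow_one, ← hZ, ← hm] at h1
      exact h1
    · have h1 := JJ_upper (c := c) (t := t) (fun l => (hc0 l).le) (fun l => (ht0 l).le)
        (Finset.univ.filter (fun j : Fin r × Fin M → Fin L => ∑ i, T (j i) ≤ ρ)) {i₀}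
      rw [prod_GG, hcard, Finset.card_singleton, pow_one, ← hZ, ← hm] at h1
      exact h1
  · intro i₀ i₁ hne
    have h1 := JJ_upper (c := c) (t := t) (fun l => (hc0 l).le) (fun l => (ht0 l).le)
      (Finset.univ.filter (fun j : Fin r × Fin M → Fin L => ∑ i, T (j i) ≤ ρ)) {i₀, i₁}
    rw [prod_GG, hcard, Finset.card_pair hne, ← pow_mul, ← hZ, ← hm] at h1
    exact h1
  · -- the last inequality
    have h1 : 32 * (r : ℝ) / (e ^ 2 * ρ) ≤ L := by linarith
    rw [div_le_iff₀ (by positivity)] at h1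
    have h2 : e * (M * (L / (2 * A)) ^ 2) ≤ e * (M * m ^ 2) := by
      refine mul_le_mul_of_nonneg_left ?_ he.le
      refine mul_le_mul_of_nonneg_left ?_ (by positivity)
      exact pow_le_pow_left₀ (by positivity) hmlow 2
    refine hZup.trans (le_trans ?_ h2)
    rw [div_pow, ← mul_div_assoc, ← mul_div_assoc, le_div_iff₀ (by positivity)]
    have h3 : 2 / A * (2 * A) ^ 2 = 8 * A := by
      field_simp
      ring
    rw [h3, hA, ← mul_div_assoc, div_le_iff₀ (by positivity)]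
    have h4 : 0 < (M : ℝ) * L := by positivity
    nlinarith [mul_le_mul_of_nonneg_left h1 h4.le]

/-- the choice of the weights for `r` clusters -/
theorem optG (r : ℕ) (hr : 0 < r) (e ρ : ℝ) (he : 0 < e) (hρ : 0 < ρ) :
    ∃ (M L : ℕ) (J : Finset (Fin r × Fin M → Fin L))
    (c a b t : Fin L → ℝ) (Z m : ℝ), 0 < M ∧ 0 < Z ∧ 0 < m ∧ Dat ρ J a b t ∧
      (1 - e) * Z ^ (r * M) ≤ JJ J c t ∅ ∧ JJ J c t ∅ ≤ Z ^ (r * M) ∧
      (∀ i₀, (1 - e) * (Z ^ (r * M - 1) * m ^ 2) ≤ JJ J c t {i₀} ∧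
        JJ J c t {i₀} ≤ Z ^ (r * M - 1) * m ^ 2) ∧
      (∀ i₀ i₁, i₀ ≠ i₁ → JJ J c t {i₀, i₁} ≤ Z ^ (r * M - 2) * m ^ 4) ∧
      Z ≤ e * (M * m ^ 2) := by
  obtain ⟨M, L, J, c, a, b, t, Z, m, hM, hZ, hm, hD, h1, h2, h3, h4, h5⟩ :=
    optG_aux r hr (min e 1) (min ρ 1) (lt_min he one_pos) (min_le_right _ _)
      (lt_min hρ one_pos) (min_le_right _ _)
  have hle : 1 - e ≤ 1 - min e 1 := by
    have := min_le_left e 1
    linarith
  refine ⟨M, L, J, c, a, b, t, Z, m, hM, hZ, hm, ⟨hD.st, hD.ov, fun j hj => ?_⟩, ?_, h2, ?_, h4, ?_⟩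
  · exact (hD.lev j hj).trans (min_le_left _ _)
  · exact (mul_le_mul_of_nonneg_right hle (by positivity)).trans h1
  · intro i₀
    exact ⟨(mul_le_mul_of_nonneg_right hle (by positivity)).trans (h3 i₀).1, (h3 i₀).2⟩
  · refine h5.trans ?_
    exact mul_le_mul_of_nonneg_right (min_le_left _ _) (by positivity)

end PGS
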