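import Pool.Agent.PGL.WD
import Pool.Agent.PGS.OptG

/-! PGS / Opt4: the choice of the weights for four clusters.

PROOF. The proof of `PGL.opt` (see the header of `PGL/Opt.lean` and its proof) with `Fin 4`, `k = 4 M` in place of `Fin 5`,
`k = 5 M`: `L` large, `M = 2^L`, `A = 4 k L / (e ρ)`, `T_l = 2^l / A`, `b_l = T_l`, `a_0 = -1`, `a_l = T_{l-1}` for `l ≥ 1`,
`c_l = 2^(-l)`, `t_l = b_l - max a_l 0`, `J` the set of the `j` with `∑ T(j i) ≤ ρ`. -/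

set_option autoImplicit false

open Finset PGL

noncomputable section

namespace PGS

theorem opt4 (e ρ : ℝ) (he : 0 < e) (hρ : 0 < ρ) : ∃ (M L : ℕ) (J : Finset (Fin 4 × Fin M → Fin L))
    (c a b t : Fin L → ℝ) (Z m : ℝ), 0 < M ∧ 0 < Z ∧ 0 < m ∧ Dat ρ J a b t ∧
      (1 - e) * Z ^ (4 * M) ≤ JJ J c t ∅ ∧ JJ J c t ∅ ≤ Z ^ (4 * M) ∧
      (∀ i₀, (1 - e) * (Z ^ (4 * M - 1) * m ^ 2) ≤ JJ J c t {i₀} ∧ JJ J c t {i₀} ≤ Z ^ (4 * M - 1) * m ^ 2) ∧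
      (∀ i₀ i₁, i₀ ≠ i₁ → JJ J c t {i₀, i₁} ≤ Z ^ (4 * M - 2) * m ^ 4) ∧
      Z ≤ e * (M * m ^ 2) := by
  exact optG 4 (by norm_num) e ρ he hρ

end PGS
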