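import Pool.Agent.PGS.Tr

/-! PGS / SK: the sum of `fp (n + h i₀) K(n + h i₁)² wq n`.

PROOF. For every pair `j, j' ∈ J` apply `s2` with the data `a i = a (j i)` etc. for `i ≠ i₁`, and `(-1, κ)`, `(-1, κ)` at
`i₁` (`St (-1) κ`, `ov (-1) κ (-1) κ = κ`; `κ ≤ 1/4`): level `∑_{i ≠ i₀} (b i + b' i) ≤ 2 ρ + 2 κ ≤ 1/2 - δ` (`Dat.lev`, all
`b ≥ 0`). The product over `univ.erase i₀` is `K(n + h i₁)²` times the product over `oth i₀ i₁`
(`Finset.mul_prod_erase`). This is the hypothesis of `tr` with `S = Pg ε N D b₀`, `φ n = fp (n + h i₀) K(n + h i₁)²`,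
`Y = XX κ Γ`, `Z = XX Γ` (`κ ≤ 1`; `Γ^(k-1) = Γ Γ^(k-2)` for `k ≥ 2`), with `s2` applied with `η = η'` of `tr`.
`Y Γ^(k+2) JJ = XX Γ^(k+3) κ JJ`. -/

set_option autoImplicit false

open Finset PGL

noncomputable section

namespace PGS

private theorem sk_st {κ : ℝ} (h0 : 0 < κ) (h1 : κ ≤ 1) : St (-1) κ :=
  ⟨Or.inl rfl, by linarith, h0, h1⟩

private theorem sk_ov {κ : ℝ} (h0 : 0 < κ) : ov (-1) κ (-1) κ = κ := by
  unfold ov
  rw [min_self, max_self, max_eq_right (show (-1 : ℝ) ≤ 0 by norm_num), sub_zero, max_eq_right h0.le]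

/-- the function `f`, changed to `x` at `i₁` -/
private def up {ι : Type} [DecidableEq ι] (i₁ : ι) (x : ℝ) (f : ι → ℝ) : ι → ℝ :=
  fun i => if i = i₁ then x else f i

private theorem up_self {ι : Type} [DecidableEq ι] (i₁ : ι) (x : ℝ) (f : ι → ℝ) : up i₁ x f i₁ = x := by
  unfold up
  rw [if_pos rfl]

private theorem up_ne {ι : Type} [DecidableEq ι] {i₁ i : ι} (hi : i ≠ i₁) (x : ℝ) (f : ι → ℝ) :
    up i₁ x f i = f i := by
  unfold up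
  rw [if_neg hi]

private theorem up_st {ι : Type} [DecidableEq ι] {κ : ℝ} (h0 : 0 < κ) (h1 : κ ≤ 1) (i₁ : ι) {f g : ι → ℝ}
    (h : ∀ i, St (f i) (g i)) (i : ι) : St (up i₁ (-1) f i) (up i₁ κ g i) := by
  by_cases hi : i = i₁
  · subst hi
    rw [up_self, up_self]
    exact sk_st h0 h1
  · rw [up_ne hi, up_ne hi]
    exact h i

private theorem up_prod {ι : Type} [Fintype ι] [DecidableEq ι] {i₀ i₁ : ι} (hi : i₀ ≠ i₁)
    (F : ι → ℝ → ℝ → ℝ → ℝ → ℝ) (x κ : ℝ) (f g f' g' : ι → ℝ) :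
    ∏ i ∈ univ.erase i₀, F i (up i₁ x f i) (up i₁ κ g i) (up i₁ x f' i) (up i₁ κ g' i) =
      F i₁ x κ x κ * ∏ i ∈ oth i₀ i₁, F i (f i) (g i) (f' i) (g' i) := by
  rw [← mul_prod_erase (univ.erase i₀) _ (mem_erase.2 ⟨hi.symm, mem_univ i₁⟩), up_self, up_self, up_self,
    up_self]
  congr 1
  refine prod_congr rfl fun i hi' => ?_
  have h1 : i ≠ i₁ := (mem_erase.1 hi').1
  rw [up_ne h1, up_ne h1, up_ne h1, up_ne h1]

private theorem up_sum {ι : Type} [Fintype ι] [DecidableEq ι] {i₀ i₁ : ι} (hi : i₀ ≠ i₁) {κ : ℝ} {g g' : ι → ℝ}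
    (hg : ∀ i, 0 ≤ g i) (hg' : ∀ i, 0 ≤ g' i) {ρ M : ℝ} (h1 : ∑ i, g i ≤ ρ) (h2 : ∑ i, g' i ≤ ρ)
    (h3 : 2 * ρ + 2 * κ ≤ M) :
    ∑ i ∈ univ.erase i₀, (up i₁ κ g i + up i₁ κ g' i) ≤ M := by
  rw [← add_sum_erase (univ.erase i₀) _ (mem_erase.2 ⟨hi.symm, mem_univ i₁⟩), up_self, up_self]
  have e : ∑ i ∈ (univ.erase i₀).erase i₁, (up i₁ κ g i + up i₁ κ g' i) =
      ∑ i ∈ (univ.erase i₀).erase i₁, (g i + g' i) := by
    refine sum_congr rfl fun i hi' => ?_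
    have h1 : i ≠ i₁ := (mem_erase.1 hi').1
    rw [up_ne h1, up_ne h1]
  rw [e]
  have h4 : ∑ i ∈ (univ.erase i₀).erase i₁, (g i + g' i) ≤ ∑ i, (g i + g' i) :=
    sum_le_sum_of_subset_of_nonneg ((erase_subset _ _).trans (erase_subset _ _)) fun i _ _ =>
      add_nonneg (hg i) (hg' i)
  rw [sum_add_distrib (s := univ)] at h4
  linarith

theorem sk {ι : Type} [Fintype ι] [DecidableEq ι] (δ ρ κ : ℝ) (hδ : 0 < δ) (hδ2 : δ < 1 / 2) (hκ : 0 < κ)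
    (hρ0 : 0 ≤ ρ) (hρ : 2 * ρ + 2 * κ ≤ 1 / 2 - δ) : ∃ A : ℝ,
    ∀ {L : ℕ} (J : Finset (ι → Fin L)) (c a b t : Fin L → ℝ), Dat ρ J a b t →
    ∀ (i₀ i₁ : ι) (ε C η : ℝ), i₀ ≠ i₁ → 0 < ε → 8 * ε ≤ δ → 0 < η →
    ∃ N₀ : ℕ, ∀ N : ℕ, N₀ ≤ N → ∀ (D D' V : Finset ℕ) (h : ι → ℕ) (b₀ : ℕ), Ctx ε C N D D' V h b₀ →
      MB δ A ε N D →
      |∑ n ∈ Pg ε N D b₀, fp (n + h i₀) * Lam V (ys N (-1) κ) (n + h i₁) ^ 2 * wq J c a b N V h i₀ i₁ n -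
        XX ε N D * Gam ε N ^ (Fintype.card ι + 3) * (κ * JJ J c t {i₀, i₁})| ≤
        η * (XX ε N D * Gam ε N ^ (Fintype.card ι + 3)) := by
  obtain ⟨A, hA⟩ := s2 (ι := ι) δ hδ hδ2
  refine ⟨A, ?_⟩
  intro L J c a b t hD i₀ i₁ ε C η hi hε hε8 hη
  have hκ1 : κ ≤ 1 := by linarith
  obtain ⟨ξ, hξ0, N₁, hN₁⟩ := tr ρ J c a b t hD i₀ i₁ hi ε C η hε hη
  have hb0 : ∀ l, 0 ≤ b l := fun l => (hD.st l).2.2.1.le
  have hE : ∀ᶠ N : ℕ in Filter.atTop, ∀ p ∈ J ×ˢ J,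
      ∀ (D D' V : Finset ℕ) (h : ι → ℕ) (b₀ : ℕ), Ctx ε C N D D' V h b₀ → MB δ A ε N D →
      |∑ n ∈ Pg ε N D b₀, fp (n + h i₀) *
          (Lam V (ys N (-1) κ) (n + h i₁) * Lam V (ys N (-1) κ) (n + h i₁) *
          ∏ i ∈ oth i₀ i₁, (Lam V (ys N (a (p.1 i)) (b (p.1 i))) (n + h i) *
            Lam V (ys N (a (p.2 i)) (b (p.2 i))) (n + h i))) -
        XX ε N D * Gam ε N ^ (Fintype.card ι - 1) *
          (κ * ∏ i ∈ oth i₀ i₁, ov (a (p.1 i)) (b (p.1 i)) (a (p.2 i)) (b (p.2 i)))| ≤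
        ξ * (XX ε N D * Gam ε N ^ (Fintype.card ι - 1)) := by
    rw [Filter.eventually_all_finset]
    intro p hp
    rw [Finset.mem_product] at hp
    obtain ⟨N₀, hN₀⟩ := hA i₀ ε C ξ hε hε8 hξ0 (up i₁ (-1) fun i => a (p.1 i)) (up i₁ κ fun i => b (p.1 i))
      (up i₁ (-1) fun i => a (p.2 i)) (up i₁ κ fun i => b (p.2 i))
      (up_st hκ hκ1 i₁ fun i => hD.st _) (up_st hκ hκ1 i₁ fun i => hD.st _)
      (up_sum hi (fun i => hb0 _) (fun i => hb0 _) (hD.lev p.1 hp.1) (hD.lev p.2 hp.2) hρ)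
    filter_upwards [Filter.eventually_ge_atTop N₀] with N hN
    intro D D' V h b₀ hC hM
    have h1 := hN₀ N hN D D' V h b₀ hC hM
    have h2 : ∀ n : ℕ, ∏ i ∈ univ.erase i₀,
        (Lam V (ys N (up i₁ (-1) (fun i => a (p.1 i)) i) (up i₁ κ (fun i => b (p.1 i)) i)) (n + h i) *
          Lam V (ys N (up i₁ (-1) (fun i => a (p.2 i)) i) (up i₁ κ (fun i => b (p.2 i)) i)) (n + h i)) =
        Lam V (ys N (-1) κ) (n + h i₁) * Lam V (ys N (-1) κ) (n + h i₁) *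
          ∏ i ∈ oth i₀ i₁, (Lam V (ys N (a (p.1 i)) (b (p.1 i))) (n + h i) *
            Lam V (ys N (a (p.2 i)) (b (p.2 i))) (n + h i)) := fun n =>
      up_prod hi (fun i x y x' y' => Lam V (ys N x y) (n + h i) * Lam V (ys N x' y') (n + h i)) (-1) κ
        _ _ _ _
    have h3 : ∏ i ∈ univ.erase i₀, ov (up i₁ (-1) (fun i => a (p.1 i)) i) (up i₁ κ (fun i => b (p.1 i)) i)
        (up i₁ (-1) (fun i => a (p.2 i)) i) (up i₁ κ (fun i => b (p.2 i)) i) =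
        κ * ∏ i ∈ oth i₀ i₁, ov (a (p.1 i)) (b (p.1 i)) (a (p.2 i)) (b (p.2 i)) := by
      rw [up_prod hi (fun _ x y x' y' => ov x y x' y') (-1) κ _ _ _ _, sk_ov hκ]
    rw [h3] at h1
    simp only [h2] at h1
    exact h1
  obtain ⟨N₂, hN₂⟩ := Filter.eventually_atTop.1 hE
  obtain ⟨N₃, hN₃⟩ := Gam_ge ε hε
  refine ⟨max N₁ (max N₂ N₃), fun N hN D D' V h b₀ hC hM => ?_⟩
  have hG : 0 < Gam ε N :=
    lt_of_lt_of_le (by positivity) (hN₃ N (((le_max_right _ _).trans (le_max_right _ _)).trans hN))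
  have hX : 0 ≤ XX ε N D := by
    unfold XX
    positivity
  have hcard : 2 ≤ Fintype.card ι := by
    have := Fintype.one_lt_card_iff.2 ⟨i₀, i₁, hi⟩
    omega
  have hpow : Gam ε N ^ (Fintype.card ι - 1) = Gam ε N * Gam ε N ^ (Fintype.card ι - 2) := by
    rw [← pow_succ']
    congr 1
    omega
  have h4 := hN₁ N ((le_max_left _ _).trans hN) D D' V h b₀ hC (Pg ε N D b₀)
    (fun n => fp (n + h i₀) * Lam V (ys N (-1) κ) (n + h i₁) ^ 2) (XX ε N D * κ * Gam ε N) (XX ε N D * Gam ε N)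
    (by positivity) (by
      have : XX ε N D * κ ≤ XX ε N D * 1 := mul_le_mul_of_nonneg_left hκ1 hX
      nlinarith) (by
      intro j hj j' hj'
      have h5 := hN₂ N (((le_max_left _ _).trans (le_max_right _ _)).trans hN) (j, j')
        (mem_product.2 ⟨hj, hj'⟩) D D' V h b₀ hC hM
      simp only at h5
      rw [hpow] at h5
      refine le_trans (le_of_eq ?_) (h5.trans (le_of_eq ?_))
      · congr 1
        congr 1
        · refine sum_congr rfl fun n _ => ?_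
          ring
        · ring
      · ring)
  refine le_trans (le_of_eq ?_) (h4.trans (le_of_eq ?_))
  · congr 1
    congr 1
    ring
  · ring

end PGS
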