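import Pool.Agent.PGS.LB
import Pool.Agent.PGS.Bad
import Pool.Agent.PGS.SK

/-! PGS / W3c: the sum of the weight over pairs of primes, with a constant below `4`.

PROOF. `Λ = log (1252/1251) > 0`, `g = (1/20000)² (1/7) (17/100) Λ > 0` (`g < 10^(-9)`, `Λ ≤ 1/1251`), `c₀ = 4 - g / 2`,
`κ = 1/4 - g / 64`, so `1 / κ = 4 / (1 - g/16) ≤ 4 + g / 2` and `1 / κ - g ≤ c₀`; `δ = ρ = g / 100`, so
`2 ρ + 2 κ ≤ 1/2 - δ`, `2 ρ + δ ≤ 1/10000`, `8 ε ≤ δ` gives `ε ≤ 1/10000`. `A` is the maximum of the constants of `sk` and `lb`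
(`MB` for `A` implies `MB` for smaller exponents when `log N ≥ 1`). Let `α = 0.1251`, `β = 0.1252`, `P = PR N α β V`,
`m = n + h i₁`, `K = Lam V (ys N (-1) κ)`, `G = mass V (ys N (-1) κ) = (κ + o(1)) Γ` (`mass_step`, `dia_step`),
`w n = fp (n + h i₀) wq n ≥ 0`.
(1) If `m` is a prime, `K(m) = G` (`Lam_prime`); if also `n + h i₀` is a prime, `ww n = wq n` (`ww_eq_wq`); so the sum to be
bounded is `Σ₁ = ∑_{n ∈ Pg, m prime} w n` (`fp = 0` if `n + h i₀` is not a prime).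
(2) Let `B` be the set of the `n ∈ Pg` such that some `p ∈ P` divides `m`, no prime of `Vs N α V` divides `m` and
`|K(m)| ≥ G / 20000`. For `n ∈ B` `m` is not a prime (`p < N^β < N < m`). So `sk` gives
`G² Σ₁ + (1/20000)² G² ∑_{n ∈ B} w n ≤ ∑_{Pg} K(m)² w n ≤ XX Γ^(k+3) (κ JJ + η')`.
(3) At most `7` primes `p ∈ P` divide `m` (`N^(8 α) = N^1.0008 > 3 N ≥ m` for large `N`), so
`7 ∑_{n ∈ B} w n ≥ ∑_{p ∈ P} ∑_{n ∈ B, p ∣ m} w n = (sum of lb) - (sum of bad)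
≥ XX Γ^(k+1) (Λ (136/100 - 119/100) JJ - 2 η')`.
(4) Divide by `G²` and use `G = (κ + o(1)) Γ`, `JJ ≥ 0` (`JJ_nonneg`):
`Σ₁ ≤ XX Γ^(k+1) (JJ / κ - (1/20000)² (1/7) Λ (17/100) JJ + η) = XX Γ^(k+1) ((1/κ - g) JJ + η)`. -/

set_option autoImplicit false

open Finset PGL

noncomputable section

namespace PGS

private theorem w3c_lam {ι : Type} [Fintype ι] {ε C : ℝ} {N : ℕ} {D D' V : Finset ℕ} {h : ι → ℕ} {c : ℕ}
    (hC : Ctx ε C N D D' V h c) (y : Finset ℕ → ℝ) {m : ℕ} (hm : m.Prime) (hN : N < m) :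
    Lam V y m = mass V y := by
  have h1 : V.filter (· ∣ m) = ∅ := by
    rw [Finset.filter_eq_empty_iff]
    intro p hp hpm
    have h2 := ((hC.mem p).1 hp).1
    unfold VN at h2
    rw [mem_filter, mem_range] at h2
    have h3 := (Nat.prime_dvd_prime_iff_eq h2.2.1 hm).1 hpm
    omega
  unfold Lam
  rw [h1]
  unfold LamS mass
  refine sum_congr rfl fun B _ => ?_
  have h2 : ∏ p ∈ B, ee ∅ p = 1 := prod_eq_one fun p _ => by
    unfold ee
    rw [if_neg (Finset.notMem_empty p)]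
  rw [h2, mul_one]

/-- at most seven primes above `N^α` divide `m` -/
private theorem w3c_cnt {N m : ℕ} {P : Finset ℕ} (hN : 1 ≤ N) (hP : ∀ p ∈ P, p.Prime ∧ (N : ℝ) ^ (1251 / 10000 : ℝ) ≤ (p : ℝ))
    (hm0 : 0 < m) (hm : (m : ℝ) ≤ 3 * N) (hbig : 3 * (N : ℝ) < (N : ℝ) ^ (8 * (1251 / 10000) : ℝ)) :
    ((P.filter (fun p => p ∣ m)).card : ℝ) ≤ 7 := by
  have hN1 : (1 : ℝ) ≤ N := by exact_mod_cast hN
  by_contra hc
  push Not at hc
  have hc8 : 8 ≤ (P.filter (fun p => p ∣ m)).card := by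
    have : 7 < (P.filter (fun p => p ∣ m)).card := by exact_mod_cast hc
    omega
  have h1 : ∏ p ∈ P.filter (fun p => p ∣ m), p ∣ m :=
    Finset.prod_primes_dvd m (fun p hp => (hP p (mem_filter.1 hp).1).1.prime) fun p hp => (mem_filter.1 hp).2
  have h2 := Nat.le_of_dvd hm0 h1
  have h3 : ((∏ p ∈ P.filter (fun p => p ∣ m), p : ℕ) : ℝ) ≤ m := by exact_mod_cast h2
  rw [Nat.cast_prod] at h3
  have hpow : (1 : ℝ) ≤ (N : ℝ) ^ (1251 / 10000 : ℝ) := Real.one_le_rpow hN1 (by norm_num)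
  have h4 : ((N : ℝ) ^ (1251 / 10000 : ℝ)) ^ (P.filter (fun p => p ∣ m)).card ≤
      ∏ p ∈ P.filter (fun p => p ∣ m), (p : ℝ) := by
    rw [← Finset.prod_const]
    exact Finset.prod_le_prod (fun _ _ => by linarith) fun p hp => (hP p (mem_filter.1 hp).1).2
  have h5 : ((N : ℝ) ^ (1251 / 10000 : ℝ)) ^ 8 ≤
      ((N : ℝ) ^ (1251 / 10000 : ℝ)) ^ (P.filter (fun p => p ∣ m)).card := pow_le_pow_right₀ hpow hc8
  have h6 : ((N : ℝ) ^ (1251 / 10000 : ℝ)) ^ 8 = (N : ℝ) ^ (8 * (1251 / 10000) : ℝ) := by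
    rw [← Real.rpow_natCast, ← Real.rpow_mul (by linarith)]
    congr 1
    norm_num
  rw [h6] at h5
  linarith

/-- the double sum -/
private theorem w3c_dbl {P Q : Finset ℕ} {w : ℕ → ℝ} (hw : ∀ n, 0 ≤ w n) (r : ℕ → ℕ → Prop) (c k : ℕ → Prop)
    [∀ p, DecidablePred (r p)] [DecidablePred c] [DecidablePred k]
    (h7 : ∀ n ∈ Q, ((P.filter (fun p => r p n)).card : ℝ) ≤ 7) :
    ∑ p ∈ P, ∑ n ∈ Q.filter (fun n => r p n ∧ c n), w n -
      ∑ p ∈ P, ∑ n ∈ Q.filter (fun n => r p n ∧ c n ∧ k n), w n ≤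
      7 * ∑ n ∈ Q, (if (∃ p ∈ P, r p n) ∧ c n ∧ ¬ k n then w n else 0) := by
  have e1 : ∀ p ∈ P, ∑ n ∈ Q.filter (fun n => r p n ∧ c n), w n = ∑ n ∈ Q, if r p n ∧ c n then w n else 0 :=
    fun p _ => sum_filter _ _
  have e2 : ∀ p ∈ P, ∑ n ∈ Q.filter (fun n => r p n ∧ c n ∧ k n), w n =
      ∑ n ∈ Q, if r p n ∧ c n ∧ k n then w n else 0 := fun p _ => sum_filter _ _
  rw [sum_congr rfl e1, sum_congr rfl e2, ← Finset.sum_sub_distrib, Finset.mul_sum]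
  have e3 : ∀ p ∈ P, (∑ n ∈ Q, if r p n ∧ c n then w n else 0) - (∑ n ∈ Q, if r p n ∧ c n ∧ k n then w n else 0) =
      ∑ n ∈ Q, ((if r p n ∧ c n then w n else 0) - (if r p n ∧ c n ∧ k n then w n else 0)) :=
    fun p _ => (Finset.sum_sub_distrib _ _).symm
  rw [sum_congr rfl e3, Finset.sum_comm]
  refine sum_le_sum fun n hn => ?_
  by_cases hck : c n ∧ ¬ k n
  · have e4 : ∀ p ∈ P, ((if r p n ∧ c n then w n else 0) - (if r p n ∧ c n ∧ k n then w n else 0)) =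
        if r p n then w n else 0 := by
      intro p _
      by_cases hr : r p n
      · rw [if_pos ⟨hr, hck.1⟩, if_neg (fun h => hck.2 h.2.2), if_pos hr, sub_zero]
      · rw [if_neg (fun h => hr h.1), if_neg (fun h => hr h.1), if_neg hr, sub_zero]
    rw [sum_congr rfl e4, ← sum_filter, sum_const, nsmul_eq_mul]
    by_cases hex : ∃ p ∈ P, r p n
    · rw [if_pos ⟨hex, hck⟩]
      exact mul_le_mul_of_nonneg_right (h7 n hn) (hw n)
    · rw [if_neg (fun h => hex h.1), mul_zero]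
      have h1 : P.filter (fun p => r p n) = ∅ := by
        rw [Finset.filter_eq_empty_iff]
        intro p hp hr
        exact hex ⟨p, hp, hr⟩
      rw [h1]
      simp
  · have e4 : ∀ p ∈ P, ((if r p n ∧ c n then w n else 0) - (if r p n ∧ c n ∧ k n then w n else 0)) = 0 := by
      intro p _
      by_cases hcn : c n
      · have hk : k n := by
          by_contra hk
          exact hck ⟨hcn, hk⟩
        by_cases hr : r p n
        · rw [if_pos ⟨hr, hcn⟩, if_pos ⟨hr, hcn, hk⟩, sub_self]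
        · rw [if_neg (fun h => hr h.1), if_neg (fun h => hr h.1), sub_self]
      · rw [if_neg (fun h => hcn h.2), if_neg (fun h => hcn h.2.1), sub_self]
    rw [sum_congr rfl e4, sum_const_zero]
    split_ifs
    · have := hw n
      linarith
    · simp

private theorem w3c_MB {δ A A' ε : ℝ} {N : ℕ} {D : Finset ℕ} (hA : A' ≤ A) (hN : 1 ≤ Real.log N)
    (h : MB δ A ε N D) : MB δ A' ε N D := by
  intro R hR a ha
  refine (h R hR a ha).trans ?_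
  have h1 : Real.log N ^ A' ≤ Real.log N ^ A := Real.rpow_le_rpow_of_exponent_le hN hA
  have h2 : (0 : ℝ) < (Nat.totient (PGB.qz (ε * Real.log N) D) : ℝ) := by
    exact_mod_cast Nat.totient_pos.2 (qz_pos _ _)
  have h3 : (0 : ℝ) < Real.log N ^ A' := Real.rpow_pos_of_pos (by linarith) _
  refine div_le_div_of_nonneg_left (Nat.cast_nonneg _) (mul_pos h2 h3) ?_
  exact mul_le_mul_of_nonneg_left h1 h2.le

/-- the final numerical step -/
private theorem w3c_fin {κ g Jv s η G Γ X S B T : ℝ} (hκ : 0 < κ) (hs0 : 0 < s) (hsκ : s < κ) (hJ : 0 ≤ Jv)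
    (hs : (κ * Jv + s) / (κ - s) ^ 2 + 2 * s ≤ Jv / κ + η) (hX : 0 ≤ X) (hΓ : 0 < Γ)
    (hG : |G - κ * Γ| ≤ s * Γ) (hB : 7 * B ≥ X * T)
    (hS : G ^ 2 * S + (1 / 20000 * G) ^ 2 * B ≤ X * Γ ^ 2 * (κ * Jv + s))
    (hT : T = (7 * 20000 ^ 2) * g * Jv - 2 * s) : S ≤ X * ((1 / κ - g) * Jv + η) := by
  have hG1 : (κ - s) * Γ ≤ G := by
    have := (abs_le.1 hG).1
    linarith
  have hG0 : 0 < (κ - s) * Γ := mul_pos (by linarith) hΓ
  have hGp : 0 < G := lt_of_lt_of_le hG0 hG1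
  have hκs : 0 < κ - s := by linarith
  -- divide by G ^ 2
  have h1 : S + (1 / 20000) ^ 2 * B ≤ X * (κ * Jv + s) / (κ - s) ^ 2 := by
    have h2 : G ^ 2 * (S + (1 / 20000) ^ 2 * B) ≤ X * Γ ^ 2 * (κ * Jv + s) := by
      calc G ^ 2 * (S + (1 / 20000) ^ 2 * B) = G ^ 2 * S + (1 / 20000 * G) ^ 2 * B := by ring
        _ ≤ _ := hS
    have h3 : X * Γ ^ 2 * (κ * Jv + s) ≤ G ^ 2 * (X * (κ * Jv + s) / (κ - s) ^ 2) := by
      have h4 : ((κ - s) * Γ) ^ 2 ≤ G ^ 2 := pow_le_pow_left₀ hG0.le hG1 2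
      have h5 : X * Γ ^ 2 * (κ * Jv + s) = ((κ - s) * Γ) ^ 2 * (X * (κ * Jv + s) / (κ - s) ^ 2) := by
        field_simp
      rw [h5]
      refine mul_le_mul_of_nonneg_right h4 ?_
      have : 0 ≤ κ * Jv + s := by positivity
      positivity
    have h6 := h2.trans h3
    exact le_of_mul_le_mul_left h6 (by positivity)
  have h2 : X * T / 7 ≤ B := by linarith
  have h3 : S ≤ X * (κ * Jv + s) / (κ - s) ^ 2 - (1 / 20000) ^ 2 * (X * T / 7) := by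
    have : (1 / 20000 : ℝ) ^ 2 * (X * T / 7) ≤ (1 / 20000) ^ 2 * B := mul_le_mul_of_nonneg_left h2 (by norm_num)
    linarith
  refine h3.trans ?_
  have h4 : X * (κ * Jv + s) / (κ - s) ^ 2 - (1 / 20000) ^ 2 * (X * T / 7) =
      X * ((κ * Jv + s) / (κ - s) ^ 2 - g * Jv + (1 / 20000) ^ 2 * (2 / 7) * s) := by
    rw [hT]
    ring
  rw [h4]
  refine mul_le_mul_of_nonneg_left ?_ hX
  have h5 : (1 / κ - g) * Jv = Jv / κ - g * Jv := by ring
  rw [h5]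
  have h6 : (1 / 20000 : ℝ) ^ 2 * (2 / 7) * s ≤ 2 * s := by nlinarith
  linarith

private theorem w3c_s {κ Jv η : ℝ} (hκ : 0 < κ) (hη : 0 < η) : ∃ s : ℝ, 0 < s ∧ s < κ ∧
    (κ * Jv + s) / (κ - s) ^ 2 + 2 * s ≤ Jv / κ + η := by
  have hc : ContinuousAt (fun s : ℝ => (κ * Jv + s) / (κ - s) ^ 2 + 2 * s) 0 := by
    refine ContinuousAt.add (ContinuousAt.div (by fun_prop) (by fun_prop) ?_) (by fun_prop)
    simp only [sub_zero]
    positivity
  have h0 : (κ * Jv + 0) / (κ - 0) ^ 2 + 2 * 0 = Jv / κ := by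
    rw [add_zero, sub_zero, mul_zero, add_zero]
    field_simp
  obtain ⟨d, hd, hd'⟩ := Metric.continuousAt_iff.1 hc η hη
  have h1 := lt_min hd hκ
  obtain ⟨s, hs0, hs⟩ := exists_between h1
  refine ⟨s, hs0, hs.trans_le (min_le_right _ _), ?_⟩
  have h2 := hd' (x := s) (by
    rw [Real.dist_eq, sub_zero, abs_of_pos hs0]
    exact hs.trans_le (min_le_left _ _))
  rw [Real.dist_eq, h0] at h2
  have := (abs_lt.1 h2).2
  linarith

private theorem w3c_large (C : ℝ) : ∀ᶠ N : ℕ in Filter.atTop,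
    3 * (N : ℝ) < (N : ℝ) ^ (8 * (1251 / 10000) : ℝ) ∧ C * Real.log N ≤ N ∧ 1 ≤ Real.log N ∧ 2 ≤ N := by
  have h1 : Filter.Tendsto (fun N : ℕ => (N : ℝ) ^ (8 / 10000 : ℝ)) Filter.atTop Filter.atTop :=
    (tendsto_rpow_atTop (by norm_num)).comp tendsto_natCast_atTop_atTop
  have h2 : Filter.Tendsto (fun N : ℕ => Real.log N) Filter.atTop Filter.atTop :=
    Real.tendsto_log_atTop.comp tendsto_natCast_atTop_atTop
  have h3 : ∀ᶠ N : ℕ in Filter.atTop, |Real.log N| ≤ 1 / (|C| + 1) * |(N : ℝ)| := by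
    have h4 := tendsto_natCast_atTop_atTop.eventually
      (Real.isLittleO_log_id_atTop.def (show (0 : ℝ) < 1 / (|C| + 1) by positivity))
    filter_upwards [h4] with N hN
    exact hN
  filter_upwards [h1.eventually_gt_atTop 3, h2.eventually_ge_atTop 1, h3, Filter.eventually_ge_atTop 2]
    with N a1 a2 a3 a4
  have hN : (0 : ℝ) < N := by
    have : (2 : ℝ) ≤ N := by exact_mod_cast a4
    linarith
  refine ⟨?_, ?_, a2, a4⟩
  · have h5 : (N : ℝ) ^ (8 * (1251 / 10000) : ℝ) = (N : ℝ) ^ (8 / 10000 : ℝ) * N := by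
      rw [show (8 * (1251 / 10000) : ℝ) = 8 / 10000 + 1 by norm_num, Real.rpow_add hN, Real.rpow_one]
    rw [h5]
    exact mul_lt_mul_of_pos_right a1 hN
  · rw [abs_of_pos hN, abs_of_pos (by linarith)] at a3
    have h6 : C * Real.log N ≤ |C| * Real.log N := mul_le_mul_of_nonneg_right (le_abs_self C) (by linarith)
    have h7 : |C| * Real.log N ≤ |C| * (1 / (|C| + 1) * N) := mul_le_mul_of_nonneg_left a3 (abs_nonneg _)
    have h8 : |C| * (1 / (|C| + 1) * N) ≤ N := by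
      have h9 : |C| * (1 / (|C| + 1) * N) = (|C| / (|C| + 1)) * N := by ring
      rw [h9]
      have h10 : |C| / (|C| + 1) ≤ 1 := by
        rw [div_le_one (by positivity)]
        linarith
      nlinarith
    linarith

theorem w3c : ∃ c₀ δ ρ : ℝ, 0 < c₀ ∧ c₀ < 4 ∧ 0 < δ ∧ δ ≤ 1 / 100 ∧ 0 < ρ ∧ ρ ≤ 1 / 100 ∧
    ∀ {ι : Type} [Fintype ι] [DecidableEq ι], ∃ A : ℝ,
    ∀ {L : ℕ} (J : Finset (ι → Fin L)) (c a b t : Fin L → ℝ), Dat ρ J a b t →
    ∀ (i₀ i₁ : ι) (ε C η : ℝ), i₀ ≠ i₁ → 0 < ε → 8 * ε ≤ δ → 0 < η →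
    ∃ N₀ : ℕ, ∀ N : ℕ, N₀ ≤ N → ∀ (D D' V : Finset ℕ) (h : ι → ℕ) (b₀ : ℕ), Ctx ε C N D D' V h b₀ →
      MB δ A ε N D →
      49 / 50 ≤ (PGB.qz (ε * Real.log N) D : ℝ) / (Nat.totient (PGB.qz (ε * Real.log N) D) : ℝ) * Gam ε N /
        Real.log N →
      ∑ n ∈ (Ioc N (2 * N)).filter (· ≡ b₀ [MOD PGB.qz (ε * Real.log N) D]),
          ww J c a b N V h n * fp (n + h i₀) * (if (n + h i₁).Prime then 1 else 0) ≤
        N / (Nat.totient (PGB.qz (ε * Real.log N) D) : ℝ) * Gam ε N ^ (Fintype.card ι + 1) *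
          (c₀ * JJ J c t {i₀, i₁} + η) := by
  obtain ⟨Λ, hΛ⟩ : ∃ Λ : ℝ, Λ = Real.log (1252 / 1251) := ⟨_, rfl⟩
  have hΛ0 : 0 < Λ := by
    rw [hΛ]
    exact Real.log_pos (by norm_num)
  have hΛ1 : Λ ≤ 1 / 1251 := by
    rw [hΛ]
    have := Real.log_le_sub_one_of_pos (show (0 : ℝ) < 1252 / 1251 by norm_num)
    linarith
  obtain ⟨g, hg⟩ : ∃ g : ℝ, g = (1 / 20000) ^ 2 * (1 / 7) * (17 / 100) * Λ := ⟨_, rfl⟩
  have hg0 : 0 < g := by
    rw [hg]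
    positivity
  have hg1 : g < 1 / 10 ^ 9 := by
    rw [hg]
    nlinarith
  refine ⟨4 - g / 2, g / 100, g / 100, by linarith, by linarith, by linarith, by linarith, by linarith,
    by linarith, ?_⟩
  intro ι _ _
  obtain ⟨κ, hκd⟩ : ∃ κ : ℝ, κ = 1 / 4 - g / 64 := ⟨_, rfl⟩
  have hκ0 : 0 < κ := by linarith
  have hκi : 1 / κ - g ≤ 4 - g / 2 := by
    have h1 : 1 / κ ≤ 4 + g / 2 := by
      rw [div_le_iff₀ hκ0, hκd]
      nlinarith
    linarith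
  obtain ⟨A₁, hA₁⟩ := sk (ι := ι) (g / 100) (g / 100) κ (by linarith) (by linarith) hκ0 (by linarith)
    (by rw [hκd]; linarith)
  obtain ⟨A₂, hA₂⟩ := lb (ι := ι) (g / 100) (g / 100) (by linarith) (by linarith) (by linarith)
  refine ⟨max A₁ A₂, ?_⟩
  intro L J c a b t hD i₀ i₁ ε C η hi hε hε8 hη
  obtain ⟨Jv, hJv⟩ : ∃ Jv : ℝ, Jv = JJ J c t {i₀, i₁} := ⟨_, rfl⟩
  have hJ0 : 0 ≤ Jv := by
    rw [hJv]
    exact JJ_nonneg J c t (t_nonneg hD) _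
  obtain ⟨s, hs0, hsκ, hs⟩ := w3c_s (κ := κ) (Jv := Jv) hκ0 hη
  have hSt : St (-1) κ := ⟨Or.inl rfl, by linarith, hκ0, by linarith⟩
  obtain ⟨N₁, hN₁⟩ := hA₁ J c a b t hD i₀ i₁ ε C s hi hε hε8 hs0
  obtain ⟨N₂, hN₂⟩ := hA₂ J c a b t hD i₀ i₁ ε C s hi hε hε8 hs0
  obtain ⟨N₃, hN₃⟩ := bad (g / 100) κ (by linarith) (by linarith) (by linarith) (by linarith) J c a b t hD
    i₀ i₁ hi ε C s hε (by linarith) hs0
  obtain ⟨N₄, hN₄⟩ := dia_step (ι := ι) ε C s (-1) κ (-1) κ hε hs0 hSt hSt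
  obtain ⟨N₅, hN₅⟩ := Gam_ge ε hε
  obtain ⟨N₆, hN₆⟩ := Filter.eventually_atTop.1 (w3c_large C)
  refine ⟨max (max (max N₁ N₂) (max N₃ N₄)) (max N₅ N₆), fun N hN D D' V h b₀ hC hM hq => ?_⟩
  simp only [max_le_iff] at hN
  obtain ⟨⟨⟨n1, n2⟩, n3, n4⟩, n5, n6⟩ := hN
  obtain ⟨hbig, hCl, hlog, hN2⟩ := hN₆ N n6
  have k1 := hN₁ N n1 D D' V h b₀ hC (w3c_MB (le_max_left _ _) hlog hM)
  have k2 := hN₂ N n2 D D' V h b₀ hC (w3c_MB (le_max_right _ _) hlog hM)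
  have k3 := hN₃ N n3 D D' V h b₀ hC hq
  have k4 := hN₄ N n4 D D' V h b₀ hC
  have hovκ : ov (-1) κ (-1) κ = κ := by
    unfold ov
    rw [min_self, max_self, max_eq_right (by norm_num : (-1 : ℝ) ≤ 0), sub_zero, max_eq_right hκ0.le]
  rw [hovκ, ← mass_step] at k4
  have hΓ : 0 < Gam ε N := lt_of_lt_of_le (by positivity) (hN₅ N n5)
  obtain ⟨w, hw⟩ : ∃ w : ℕ → ℝ, w = fun n => fp (n + h i₀) * wq J c a b N V h i₀ i₁ n := ⟨_, rfl⟩
  have hfp : ∀ n, 0 ≤ fp n := by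
    intro n
    unfold fp
    split_ifs
    · exact Real.log_natCast_nonneg _
    · exact le_rfl
  have hw0 : ∀ n, 0 ≤ w n := by
    intro n
    rw [hw]
    exact mul_nonneg (hfp _) (wq_nonneg _ _ _ _ _ _ _ _ _ _)
  obtain ⟨G, hG⟩ : ∃ G : ℝ, G = mass V (ys N (-1) κ) := ⟨_, rfl⟩
  obtain ⟨K, hK⟩ : ∃ K : ℕ → ℝ, K = fun n => Lam V (ys N (-1) κ) (n + h i₁) := ⟨_, rfl⟩
  rw [← hG] at k4
  have hVp : ∀ p ∈ V, p.Prime := by
    intro p hp
    have h2 := ((hC.mem p).1 hp).1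
    unfold VN at h2
    rw [mem_filter] at h2
    exact h2.2.1
  obtain ⟨P, hP⟩ : ∃ P : Finset ℕ, P = PR N (1251 / 10000) (1252 / 10000) V := ⟨_, rfl⟩
  have hPp : ∀ p ∈ P, p.Prime ∧ (N : ℝ) ^ (1251 / 10000 : ℝ) ≤ (p : ℝ) := by
    intro p hp
    rw [hP, mem_PR] at hp
    exact ⟨hVp p hp.1, hp.2.1⟩
  have hPN : ∀ p ∈ P, p < N := by
    intro p hp
    rw [hP, mem_PR] at hp
    have h1 : (N : ℝ) ^ (1252 / 10000 : ℝ) ≤ (N : ℝ) ^ (1 : ℝ) :=
      Real.rpow_le_rpow_of_exponent_le (by exact_mod_cast (by omega : 1 ≤ N)) (by norm_num)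
    rw [Real.rpow_one] at h1
    have h2 : (p : ℝ) < N := lt_of_lt_of_le hp.2.2 h1
    exact_mod_cast h2
  have hPg : ∀ n ∈ Pg ε N D b₀, N < n ∧ n ≤ 2 * N := by
    intro n hn
    unfold Pg at hn
    rw [mem_filter, mem_Ioc] at hn
    exact hn.1
  -- the double sum
  have hdbl := w3c_dbl (P := P) (Q := Pg ε N D b₀) hw0 (fun p n => p ∣ n + h i₁)
    (fun n => ∀ x ∈ Vs N (1251 / 10000) V, ¬ x ∣ n + h i₁)
    (fun n => |Lam V (ys N (-1) κ) (n + h i₁)| < 1 / 20000 * mass V (ys N (-1) κ)) (by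
      intro n hn
      have h1 := hPg n hn
      refine w3c_cnt (N := N) (m := n + h i₁) (by omega) hPp (by omega) ?_ hbig
      push_cast
      have h2 := hC.le i₁
      have h3 : (n : ℝ) ≤ 2 * N := by exact_mod_cast h1.2
      linarith)
  obtain ⟨B, hB⟩ : ∃ B : ℝ, B = ∑ n ∈ Pg ε N D b₀, (if (∃ p ∈ P, p ∣ n + h i₁) ∧
      (∀ x ∈ Vs N (1251 / 10000) V, ¬ x ∣ n + h i₁) ∧
      ¬ |Lam V (ys N (-1) κ) (n + h i₁)| < 1 / 20000 * mass V (ys N (-1) κ) then w n else 0) := ⟨_, rfl⟩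
  rw [← hB] at hdbl
  obtain ⟨S, hS⟩ : ∃ S : ℝ, S = ∑ n ∈ Pg ε N D b₀, (if (n + h i₁).Prime then w n else 0) := ⟨_, rfl⟩
  have hgoal : ∑ n ∈ (Ioc N (2 * N)).filter (· ≡ b₀ [MOD PGB.qz (ε * Real.log N) D]),
          ww J c a b N V h n * fp (n + h i₀) * (if (n + h i₁).Prime then 1 else 0) ≤ S := by
    rw [hS]
    unfold Pg
    refine sum_le_sum fun n hn => ?_
    rw [mem_filter, mem_Ioc] at hn
    by_cases hp1 : (n + h i₁).Prime
    · rw [if_pos hp1, if_pos hp1, mul_one]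
      by_cases hp0 : (n + h i₀).Prime
      · rw [ww_eq_wq J c a b hC i₀ i₁ hi hn.1.1 hp0 hp1, hw]
        exact le_of_eq (mul_comm _ _)
      · have h0 : fp (n + h i₀) = 0 := by
          unfold fp
          rw [if_neg hp0]
        rw [h0, mul_zero]
        exact hw0 n
    · rw [if_neg hp1, if_neg hp1, mul_zero]
  refine hgoal.trans ?_
  have hGpos : 0 < G := by
    have h1 := (abs_le.1 k4).1
    have h2 : 0 < (κ - s) * Gam ε N := mul_pos (by linarith) hΓ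
    linarith
  have hsum : G ^ 2 * S + (1 / 20000 * G) ^ 2 * B ≤ ∑ n ∈ Pg ε N D b₀,
      fp (n + h i₀) * Lam V (ys N (-1) κ) (n + h i₁) ^ 2 * wq J c a b N V h i₀ i₁ n := by
    rw [hS, hB, Finset.mul_sum, Finset.mul_sum, ← Finset.sum_add_distrib]
    refine sum_le_sum fun n hn => ?_
    have h1 := hPg n hn
    have e1 : fp (n + h i₀) * Lam V (ys N (-1) κ) (n + h i₁) ^ 2 * wq J c a b N V h i₀ i₁ n =
        Lam V (ys N (-1) κ) (n + h i₁) ^ 2 * w n := by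
      rw [hw]
      ring
    rw [e1]
    by_cases hp1 : (n + h i₁).Prime
    · have h2 : ¬ ((∃ p ∈ P, p ∣ n + h i₁) ∧ (∀ x ∈ Vs N (1251 / 10000) V, ¬ x ∣ n + h i₁) ∧
          ¬ |Lam V (ys N (-1) κ) (n + h i₁)| < 1 / 20000 * mass V (ys N (-1) κ)) := by
        rintro ⟨⟨p, hp, hpd⟩, -⟩
        have h3 := (Nat.prime_dvd_prime_iff_eq (hPp p hp).1 hp1).1 hpd
        have h4 := hPN p hp
        omega
      rw [if_pos hp1, if_neg h2, mul_zero, add_zero, w3c_lam hC _ hp1 (by omega), ← hG]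
    · rw [if_neg hp1, mul_zero, zero_add]
      split_ifs with h3
      · refine mul_le_mul_of_nonneg_right ?_ (hw0 n)
        have h4 := not_lt.1 h3.2.2
        rw [← hG] at h4
        rw [← sq_abs (Lam V (ys N (-1) κ) (n + h i₁))]
        exact pow_le_pow_left₀ (by positivity) h4 2
      · rw [mul_zero]
        exact mul_nonneg (sq_nonneg _) (hw0 n)
  have hX0 : 0 ≤ XX ε N D := by
    unfold XX
    positivity
  have hpow : Gam ε N ^ (Fintype.card ι + 3) = Gam ε N ^ (Fintype.card ι + 1) * Gam ε N ^ 2 := by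
    rw [← pow_add]
  have hfin := w3c_fin (κ := κ) (g := g) (Jv := Jv) (s := s) (η := η) (G := G) (Γ := Gam ε N)
    (X := XX ε N D * Gam ε N ^ (Fintype.card ι + 1)) (S := S) (B := B)
    (T := (7 * 20000 ^ 2) * g * Jv - 2 * s) hκ0 hs0 hsκ hJ0 hs (by positivity) hΓ k4 ?_ ?_ rfl
  · refine hfin.trans ?_
    have e1 : (N : ℝ) / (Nat.totient (PGB.qz (ε * Real.log N) D) : ℝ) = XX ε N D := rfl
    rw [e1, ← hJv]
    refine mul_le_mul_of_nonneg_left ?_ (by positivity)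
    have := mul_le_mul_of_nonneg_right hκi hJ0
    linarith
  · rw [← hP] at k2 k3
    have e2 : (7 * 20000 ^ 2) * g * Jv = Λ * (136 / 100) * Jv - Λ * (119 / 100) * Jv := by
      rw [hg]
      ring
    have k2' := k2
    have k3' := k3
    rw [← hΛ, ← hJv] at k2' k3'
    have e3 : ∀ n, fp (n + h i₀) * wq J c a b N V h i₀ i₁ n = w n := fun n => by rw [hw]
    simp only [e3] at k2' k3'
    have h4 := k2'.trans (le_of_eq rfl)
    have h5 : XX ε N D * Gam ε N ^ (Fintype.card ι + 1) * (Λ * (136 / 100) * Jv - s) -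
        XX ε N D * Gam ε N ^ (Fintype.card ι + 1) * (Λ * (119 / 100) * Jv + s) ≤ 7 * B := by
      refine le_trans ?_ hdbl
      exact sub_le_sub k2' k3'
    rw [e2]
    calc XX ε N D * Gam ε N ^ (Fintype.card ι + 1) * (Λ * (136 / 100) * Jv - Λ * (119 / 100) * Jv - 2 * s) =
        XX ε N D * Gam ε N ^ (Fintype.card ι + 1) * (Λ * (136 / 100) * Jv - s) -
        XX ε N D * Gam ε N ^ (Fintype.card ι + 1) * (Λ * (119 / 100) * Jv + s) := by ring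
      _ ≤ 7 * B := h5
  · refine hsum.trans ?_
    have h1 := (abs_le.1 k1).2
    rw [← hJv, hpow] at h1
    linarith

end PGS
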