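import Pool.Agent.PGS.Defs

/-! PGS / Cf: the possible sets of prime factors of an integer for which the Selberg weight is small.

Let `S` be a set of primes, all `≥ N^α`, with product `≤ 3 N`, `κ` slightly below `1/4`, and `T = {x ∈ S : x ≤ N^κ}`,
`j = |T|`. The hypothesis `|κ - ∑_{x ∈ T} (κ - sz x)| ≤ c` says `|∑_{x ∈ T} sz x - (j - 1) κ| ≤ c`, `c = 1/50000`.
PROOF. `sz` of the product of `T` is `∑_{T} sz x ≤ log (3N) / log N ≤ 1 + 1/20000` for large `N`, and `sz x ≥ α = 0.1251` for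
`x ∈ S`, `sz x ≤ κ < 1/4` for `x ∈ T`, `p ∈ T` as `sz p < 0.1252`. `j = 1`: `sz p ≤ c`, impossible. `j = 2`:
`0.2502 ≤ ∑ ≤ κ + c < 0.25002`, impossible. `j ≥ 6`: `∑_T ≥ 5 κ - c > 1.2`, impossible. `j = 3`, `j = 4`: `M = T \ {p}`;
`sz (p) + ∑_M = ∑_T ≤ 3 κ + c ≤ 0.76 ≤ 1 - 0.2186`. `j = 5`: let `w` be the largest element of `T \ {p}` and
`M = T \ {p, w}`, `M = {x < y < z}`, `z < w`. `∑_T ≥ 4 κ - c ≥ 1 - 0.000024`, `∑_T ≤ 1 + 1/20000`.
`3/4 - ∑_M = 3/4 - ∑_T + sz p + sz w ≤ 3/4 - 4 κ + c + 0.1252 + κ ≤ 0.1253 ≤ 1/8 + 1/400`;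
`1 - ∑_M - sz z ≥ 1 - ∑_M - sz w = 1 - ∑_T + sz p ≥ 0.1251 - 1/20000 ≥ 1/8`;
`sz w ≥ (∑_T - sz p) / 4 ≥ (1 - 0.000024 - 0.1252) / 4 ≥ 0.21869`, so `sz p + ∑_M = ∑_T - sz w ≤ 1 + 0.00005 - 0.21869
≤ 1 - 0.2186`. The bound for `pr (insert p M)`: take logarithms (`pr` is a product of positive integers). -/

set_option autoImplicit false

open Finset PGL

noncomputable section

namespace PGS

/-- the region of the triples of primes which belong to a product of five primes below `N^(1/4)` -/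
def R5 (N : ℕ) (M : Finset ℕ) : Prop := ∃ x y z : ℕ, M = {x, y, z} ∧ x < y ∧ y < z ∧
  3 / 4 - (sz N x + sz N y + sz N z) ≤ 1 / 8 + 1 / 400 ∧ 1 / 8 ≤ 1 - (sz N x + sz N y + sz N z) - sz N z

/-- the exceptional configurations -/
def Cfg (N : ℕ) (κ α c : ℝ) (p : ℕ) (M : Finset ℕ) : Prop := p ∉ M ∧
  (∀ x ∈ M, (N : ℝ) ^ α ≤ (x : ℝ) ∧ (x : ℝ) ≤ (N : ℝ) ^ κ) ∧
  ((M.card = 2 ∧ |sz N p + ∑ x ∈ M, sz N x - 2 * κ| ≤ c) ∨ (M.card = 3 ∧ |sz N p + ∑ x ∈ M, sz N x - 3 * κ| ≤ c) ∨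
    R5 N M)

/-- split off the maximum -/
theorem cls_max (M : Finset ℕ) (h : M.Nonempty) : ∃ w ∈ M, ∀ x ∈ M.erase w, x < w :=
  ⟨M.max' h, M.max'_mem h, fun x hx => lt_of_le_of_ne (M.le_max' x (mem_of_mem_erase hx)) (ne_of_mem_erase hx)⟩

theorem cls_three (M : Finset ℕ) (h : M.card = 3) : ∃ x y z : ℕ, M = {x, y, z} ∧ x < y ∧ y < z := by
  obtain ⟨z, hz, hz'⟩ := cls_max M (card_pos.mp (by omega))
  have h2 : (M.erase z).card = 2 := by rw [card_erase_of_mem hz, h]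
  obtain ⟨y, hy, hy'⟩ := cls_max (M.erase z) (card_pos.mp (by omega))
  have h1 : ((M.erase z).erase y).card = 1 := by rw [card_erase_of_mem hy, h2]
  obtain ⟨x, hx⟩ := card_eq_one.mp h1
  refine ⟨x, y, z, ?_, hy' x (by rw [hx]; exact mem_singleton_self x), hz' y hy⟩
  ext t
  have e : t ∈ (M.erase z).erase y ↔ t = x := by rw [hx, mem_singleton]
  rw [mem_erase, mem_erase] at e
  simp only [mem_insert, mem_singleton]
  have hyM : y ∈ M := mem_of_mem_erase hy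
  constructor
  · intro ht
    by_cases h1 : t = y
    · exact Or.inr (Or.inl h1)
    by_cases h2 : t = z
    · exact Or.inr (Or.inr h2)
    exact Or.inl (e.mp ⟨h1, h2, ht⟩)
  · rintro (h | h | h)
    · exact (e.mpr h).2.2
    · rw [h]; exact hyM
    · rw [h]; exact hz

theorem sz_ge {N x : ℕ} (hN : 0 < Real.log N) {a : ℝ} (h : (N : ℝ) ^ a ≤ (x : ℝ)) : a ≤ sz N x := by
  have hN0 : (0 : ℝ) < (N : ℝ) := by
    rcases Nat.eq_zero_or_pos N with h0 | h0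
    · rw [h0] at hN; simp at hN
    · exact_mod_cast h0
  unfold sz
  rw [le_div_iff₀ hN, ← Real.log_rpow hN0]
  exact Real.log_le_log (Real.rpow_pos_of_pos hN0 a) h

theorem sz_le {N x : ℕ} (hN : 0 < Real.log N) (hx : 0 < x) {a : ℝ} (h : (x : ℝ) ≤ (N : ℝ) ^ a) : sz N x ≤ a := by
  have hN0 : (0 : ℝ) < (N : ℝ) := by
    rcases Nat.eq_zero_or_pos N with h0 | h0
    · rw [h0] at hN; simp at hN
    · exact_mod_cast h0
  unfold sz
  rw [div_le_iff₀ hN, ← Real.log_rpow hN0]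
  exact Real.log_le_log (by exact_mod_cast hx) h

theorem sz_lt {N x : ℕ} (hN : 0 < Real.log N) (hx : 0 < x) {a : ℝ} (h : (x : ℝ) < (N : ℝ) ^ a) : sz N x < a := by
  have hN0 : (0 : ℝ) < (N : ℝ) := by
    rcases Nat.eq_zero_or_pos N with h0 | h0
    · rw [h0] at hN; simp at hN
    · exact_mod_cast h0
  unfold sz
  rw [div_lt_iff₀ hN, ← Real.log_rpow hN0]
  exact Real.log_lt_log (by exact_mod_cast hx) h

theorem sum_sz (N : ℕ) (A : Finset ℕ) (h : ∀ x ∈ A, 0 < x) : ∑ x ∈ A, sz N x = Real.log (pr A) / Real.log N := by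
  unfold sz pr
  rw [← sum_div]
  congr 1
  rw [Nat.cast_prod, Real.log_prod]
  intro x hx
  exact_mod_cast (h x hx).ne'

theorem pr_le {N : ℕ} (hN : 0 < Real.log N) (A : Finset ℕ) (h : ∀ x ∈ A, 0 < x) {a : ℝ}
    (ha : ∑ x ∈ A, sz N x ≤ a) : (pr A : ℝ) ≤ (N : ℝ) ^ a := by
  have hN0 : (0 : ℝ) < (N : ℝ) := by
    rcases Nat.eq_zero_or_pos N with h0 | h0
    · rw [h0] at hN; simp at hN
    · exact_mod_cast h0
  rw [sum_sz N A h, div_le_iff₀ hN, ← Real.log_rpow hN0] at ha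
  have hp : (0 : ℝ) < (pr A : ℝ) := by
    unfold pr
    exact_mod_cast prod_pos h
  exact (Real.log_le_log_iff hp (Real.rpow_pos_of_pos hN0 a)).mp ha

theorem cls : ∃ N₀ : ℕ, ∀ N : ℕ, N₀ ≤ N → ∀ κ : ℝ, 1 / 4 - 1 / 1000000 ≤ κ → κ < 1 / 4 → ∀ S : Finset ℕ,
    (∀ x ∈ S, x.Prime ∧ (N : ℝ) ^ (1251 / 10000 : ℝ) ≤ (x : ℝ)) → pr S ≤ 3 * N → ∀ p ∈ S,
      (p : ℝ) < (N : ℝ) ^ (1252 / 10000 : ℝ) →
      |κ - ∑ x ∈ S.filter (fun x : ℕ => (x : ℝ) ≤ (N : ℝ) ^ κ), (κ - sz N x)| ≤ 1 / 50000 →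
      ∃ M ⊆ S, Cfg N κ (1251 / 10000) (1 / 50000) p M ∧
        (pr (insert p M) : ℝ) ≤ (N : ℝ) ^ (1 - 2186 / 10000 : ℝ) := by
  have hlim : Filter.Tendsto (fun N : ℕ => Real.log (N : ℝ)) Filter.atTop Filter.atTop :=
    Real.tendsto_log_atTop.comp tendsto_natCast_atTop_atTop
  obtain ⟨N₀, hN₀⟩ := Filter.eventually_atTop.mp (hlim.eventually_ge_atTop (40000 : ℝ))
  refine ⟨N₀, fun N hN κ hκ1 hκ2 S hS hprS p hp hpN hc => ?_⟩
  have hL : (40000 : ℝ) ≤ Real.log N := hN₀ N hN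
  have hL0 : 0 < Real.log (N : ℝ) := by linarith
  have hN1 : (0 : ℝ) < (N : ℝ) := by
    rcases Nat.eq_zero_or_pos N with h0 | h0
    · rw [h0] at hL0; simp at hL0
    · exact_mod_cast h0
  have hN2 : (1 : ℝ) < (N : ℝ) := by
    by_contra h
    push Not at h
    have := Real.log_nonpos hN1.le h
    linarith
  have hpos : ∀ x ∈ S, 0 < x := fun x hx => (hS x hx).1.pos
  have hge : ∀ x ∈ S, (1251 / 10000 : ℝ) ≤ sz N x := fun x hx => sz_ge hL0 (hS x hx).2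
  -- the total
  have hlog3 : Real.log 3 ≤ 2 := by
    have := Real.log_le_sub_one_of_pos (show (0 : ℝ) < 3 by norm_num)
    linarith
  have htot : ∑ x ∈ S, sz N x ≤ 1 + 1 / 20000 := by
    rw [sum_sz N S hpos, div_le_iff₀ hL0]
    have h1 : Real.log (pr S : ℝ) ≤ Real.log (3 * N) := by
      apply Real.log_le_log
      · unfold pr
        exact_mod_cast prod_pos hpos
      · exact_mod_cast hprS
    rw [Real.log_mul (by norm_num) hN1.ne'] at h1
    linarith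
  set T : Finset ℕ := S.filter (fun x : ℕ => (x : ℝ) ≤ (N : ℝ) ^ κ) with hT
  have hTS : T ⊆ S := filter_subset _ _
  have hTκ : ∀ x ∈ T, (x : ℝ) ≤ (N : ℝ) ^ κ := fun x hx => (mem_filter.mp hx).2
  have hTle : ∀ x ∈ T, sz N x ≤ κ := fun x hx => sz_le hL0 (hpos x (hTS hx)) (hTκ x hx)
  have hpT : p ∈ T := by
    rw [hT, mem_filter]
    exact ⟨hp, hpN.le.trans (Real.rpow_le_rpow_of_exponent_le hN2.le (by linarith))⟩
  have hp1 : (1251 / 10000 : ℝ) ≤ sz N p := hge p hp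
  have hp2 : sz N p < (1252 / 10000 : ℝ) := sz_lt hL0 (hpos p hp) hpN
  set M : Finset ℕ := T.erase p with hM
  have hMT : M ⊆ T := erase_subset _ _
  have hpM : p ∉ M := notMem_erase p T
  have hTM : insert p M = T := insert_erase hpT
  have hsumT : ∑ x ∈ T, sz N x = sz N p + ∑ x ∈ M, sz N x := by
    rw [← hTM, sum_insert hpM]
  have hcardT : T.card = M.card + 1 := by rw [← hTM, card_insert_of_notMem hpM]
  have hTtot : ∑ x ∈ T, sz N x ≤ 1 + 1 / 20000 :=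
    (sum_le_sum_of_subset_of_nonneg hTS (fun x hx _ => by have := hge x hx; linarith)).trans htot
  have hcc : |sz N p + ∑ x ∈ M, sz N x - M.card * κ| ≤ 1 / 50000 := by
    have e : κ - ∑ x ∈ T, (κ - sz N x) = sz N p + ∑ x ∈ M, sz N x - M.card * κ := by
      rw [sum_sub_distrib, sum_const, hsumT, hcardT, nsmul_eq_mul]
      push_cast
      ring
    rw [← e]
    exact hc
  have hMge : (M.card : ℝ) * (1251 / 10000) ≤ ∑ x ∈ M, sz N x := by
    have := card_nsmul_le_sum M (fun x => sz N x) (1251 / 10000) (fun x hx => hge x (hTS (hMT hx)))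
    rwa [nsmul_eq_mul] at this
  have hbd : ∀ x ∈ M, (N : ℝ) ^ (1251 / 10000 : ℝ) ≤ (x : ℝ) ∧ (x : ℝ) ≤ (N : ℝ) ^ κ := fun x hx =>
    ⟨(hS x (hTS (hMT hx))).2, hTκ x (hMT hx)⟩
  have hposT : ∀ x ∈ insert p M, 0 < x := fun x hx => hpos x (hTS (by rw [← hTM]; exact hx))
  obtain ⟨hc1, hc2⟩ := abs_le.mp hcc
  have hcases : M.card = 0 ∨ M.card = 1 ∨ M.card = 2 ∨ M.card = 3 ∨ M.card = 4 ∨ 5 ≤ M.card := by omega
  rcases hcases with h0 | h0 | h0 | h0 | h0 | h0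
  · exfalso
    rw [h0] at hc1 hc2 hMge
    have : ∑ x ∈ M, sz N x = 0 := by rw [card_eq_zero.mp h0, sum_empty]
    rw [this] at hc2
    push_cast at hc2
    linarith
  · exfalso
    rw [h0] at hc1 hc2 hMge
    push_cast at hc1 hc2 hMge
    linarith
  · refine ⟨M, hMT.trans hTS, ⟨hpM, hbd, Or.inl ⟨h0, ?_⟩⟩, ?_⟩
    · rw [h0] at hcc
      exact_mod_cast hcc
    · apply pr_le hL0 _ hposT
      rw [sum_insert hpM]
      rw [h0] at hc2
      push_cast at hc2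
      linarith
  · refine ⟨M, hMT.trans hTS, ⟨hpM, hbd, Or.inr (Or.inl ⟨h0, ?_⟩)⟩, ?_⟩
    · rw [h0] at hcc
      exact_mod_cast hcc
    · apply pr_le hL0 _ hposT
      rw [sum_insert hpM]
      rw [h0] at hc2
      push_cast at hc2
      linarith
  · rw [h0] at hc1 hc2
    push_cast at hc1 hc2
    obtain ⟨w, hw, hw'⟩ := cls_max M (card_pos.mp (by omega))
    have h3 : (M.erase w).card = 3 := by rw [card_erase_of_mem hw, h0]
    obtain ⟨x, y, z, e3, hxy, hyz⟩ := cls_three (M.erase w) h3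
    have hsz_mono : ∀ a b : ℕ, 0 < a → a ≤ b → sz N a ≤ sz N b := by
      intro a b ha hab
      unfold sz
      exact div_le_div_of_nonneg_right (Real.log_le_log (by exact_mod_cast ha) (by exact_mod_cast hab)) hL0.le
    have hxM : x ∈ M.erase w := by rw [e3]; simp
    have hyM : y ∈ M.erase w := by rw [e3]; simp
    have hzM : z ∈ M.erase w := by rw [e3]; simp
    have hzw : sz N z ≤ sz N w := hsz_mono z w (hpos z (hTS (hMT (mem_of_mem_erase hzM)))) (hw' z hzM).le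
    have hyw : sz N y ≤ sz N w := hsz_mono y w (hpos y (hTS (hMT (mem_of_mem_erase hyM)))) (hw' y hyM).le
    have hxw : sz N x ≤ sz N w := hsz_mono x w (hpos x (hTS (hMT (mem_of_mem_erase hxM)))) (hw' x hxM).le
    have hwκ : sz N w ≤ κ := hTle w (hMT hw)
    have hs3 : ∑ t ∈ M.erase w, sz N t = sz N x + sz N y + sz N z := by
      rw [e3, sum_insert, sum_insert, sum_singleton]
      · ring
      · simp only [mem_singleton]; omega
      · simp only [mem_insert, mem_singleton]; omega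
    have hs4 : ∑ t ∈ M, sz N t = sz N w + (sz N x + sz N y + sz N z) := by
      rw [← hs3, add_sum_erase M (fun t => sz N t) hw]
    rw [hsumT] at hTtot
    rw [hs4] at hc1 hc2 hTtot
    have hsub : M.erase w ⊆ M := erase_subset _ _
    have hpM' : p ∉ M.erase w := fun h => hpM (hsub h)
    refine ⟨M.erase w, (hsub.trans hMT).trans hTS, ⟨hpM', fun t ht => hbd t (hsub ht),
      Or.inr (Or.inr ⟨x, y, z, e3, hxy, hyz, ?_, ?_⟩)⟩, ?_⟩
    · linarith
    · linarith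
    · apply pr_le hL0 _ (fun t ht => hposT t (insert_subset_insert p hsub ht))
      rw [sum_insert hpM', hs3]
      linarith
  · exfalso
    have h5 : (5 : ℝ) ≤ (M.card : ℝ) := by exact_mod_cast h0
    rw [hsumT] at hTtot
    nlinarith

end PGS
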