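import Pool.Agent.PGL.D2
import Pool.Agent.PGS.C4f

/-! PGS / D1f: a normalised prime gap near a difference of the four numbers `β_i` (the copy of PGL / D1 for
four clusters). -/

set_option autoImplicit false

open Finset PGL

noncomputable section

namespace PGS

theorem ng_aux4 (β : Fin 4 → ℝ) (δ : ℝ) (M : ℕ) (h : Fin 4 × Fin M → ℕ) (N n : ℕ) (hL : 0 < Real.log (N : ℝ))
    (hδ : 0 < δ) (hsep : ∀ i j, i ≠ j → δ < |β i - β j|) (B : ℝ) (hB : ∀ i, β i + δ ≤ B)
    (hβ : ∀ i, 1 ≤ β i)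
    (hw : ∀ i, β i.1 * Real.log N < h i ∧ (h i : ℝ) ≤ (β i.1 + δ) * Real.log N)
    (hall : ∀ P : ℕ, P.Prime → n < P → (P : ℝ) ≤ n + B * Real.log N → ∃ k, P = n + h k)
    (i j : Fin 4 × Fin M) (hij : i.1 ≠ j.1) (hi : (n + h i).Prime) (hj : (n + h j).Prime)
    (hlt : h i < h j) :
    ∃ m : ℕ, ∃ k k' : Fin 4 × Fin M, β k.1 < β k'.1 ∧ Nat.nth Nat.Prime m = n + h k' ∧
      Nat.nth Nat.Prime (m - 1) = n + h k := by
  classical
  have hex : ∃ P : ℕ, P.Prime ∧ n + h i < P ∧ ∃ k, k.1 ≠ i.1 ∧ P = n + h k :=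
    ⟨n + h j, hj, by omega, j, fun e => hij e.symm, rfl⟩
  obtain ⟨hP, hPi, k', hk', hPk⟩ := Nat.find_spec hex
  have hmin := fun Q hQ => @Nat.find_min _ _ hex Q hQ
  set P := Nat.find hex with hPdef
  have hinf := Nat.infinite_setOfPred_prime
  have hcount : Nat.nth Nat.Prime (Nat.count Nat.Prime P) = P := Nat.nth_count hP
  have hcounti : Nat.nth Nat.Prime (Nat.count Nat.Prime (n + h i)) = n + h i := Nat.nth_count hi
  have hci : Nat.count Nat.Prime (n + h i) < Nat.count Nat.Prime P := by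
    rw [← (Nat.nth_strictMono hinf).lt_iff_lt, hcount, hcounti]
    exact hPi
  set m := Nat.count Nat.Prime P with hm
  have hle : n + h i ≤ Nat.nth Nat.Prime (m - 1) := by
    rw [← hcounti]
    exact (Nat.nth_strictMono hinf).monotone (by omega)
  have hltP : Nat.nth Nat.Prime (m - 1) < P := by
    rw [← hcount]
    exact Nat.nth_strictMono hinf (by omega)
  have hQ : (Nat.nth Nat.Prime (m - 1)).Prime := Nat.nth_mem_of_infinite hinf _
  have hhi : 0 < h i := by
    have h1 := (hw i).1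
    have h2 := hβ i.1
    have : (0 : ℝ) < h i := by nlinarith
    exact_mod_cast this
  obtain ⟨k, hk⟩ := hall _ hQ (by omega) (by
    have h1 := (hw k').2
    have h2 := hB k'.1
    have h3 : ((Nat.nth Nat.Prime (m - 1) : ℕ) : ℝ) ≤ (P : ℝ) := by exact_mod_cast hltP.le
    rw [hPk] at h3
    push_cast at h3
    nlinarith)
  have hk1 : k.1 = i.1 := by
    by_contra hne
    have hne' : Nat.nth Nat.Prime (m - 1) ≠ n + h i := by
      intro e
      have e1 : h k = h i := by omega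
      -- windows are disjoint
      have h1 := hw k
      have h2 := hw i
      have h3 := hsep k.1 i.1 hne
      rw [e1] at h1
      rcases lt_abs.1 h3 with h4 | h4 <;> nlinarith
    exact hmin _ hltP ⟨hQ, by omega, k, hne, hk⟩
  refine ⟨m, k, k', ?_, by rw [hcount, hPk], hk⟩
  have hne : k'.1 ≠ k.1 := by rw [hk1]; exact hk'
  have h3 := hsep k'.1 k.1 hne
  rcases lt_abs.1 h3 with h4 | h4
  · linarith
  · exfalso
    have h5 : h k < h k' := by omega
    have h6 : (h k : ℝ) < h k' := by exact_mod_cast h5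
    have h1 := hw k
    have h2 := hw k'
    nlinarith

theorem gaps4 (β : Fin 4 → ℝ) (hinj : Function.Injective β) (δ : ℝ) (hδ : 0 < δ) (X : ℕ) :
    ∃ m : ℕ, X ≤ m ∧ ∃ i j, β i < β j ∧ |ng m - (β j - β i)| < δ := by
  -- separation
  obtain ⟨d, hd, hsepd⟩ : ∃ d : ℝ, 0 < d ∧ ∀ i j, i ≠ j → d ≤ |β i - β j| := by
    obtain ⟨q, hq, hmin⟩ := Finset.exists_min_image
      ((Finset.univ : Finset (Fin 4 × Fin 4)).filter (fun q => q.1 ≠ q.2))
      (fun q => |β q.1 - β q.2|) ⟨(0, 1), by simp⟩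
    refine ⟨|β q.1 - β q.2|, ?_, fun i j hij => hmin (i, j) (by simp [hij])⟩
    rw [Finset.mem_filter] at hq
    exact abs_pos.2 (sub_ne_zero.2 fun e => hq.2 (hinj e))
  set s : ℝ := 1 + ∑ i, |β i| with hs
  set γ : Fin 4 → ℝ := fun i => β i + s with hγ
  have hβs : ∀ i, |β i| ≤ ∑ i, |β i| := fun i =>
    Finset.single_le_sum (fun j _ => abs_nonneg (β j)) (Finset.mem_univ i)
  have hγ1 : ∀ i, 1 ≤ γ i := fun i => by
    have h1 := hβs i
    have h2 := neg_abs_le (β i)
    simp only [hγ, hs]; linarith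
  set δ' : ℝ := min δ (min 1 d) / 4 with hδ'
  have hδ0 : 0 < min δ (min 1 d) := lt_min hδ (lt_min one_pos hd)
  have hδ'0 : 0 < δ' := by positivity
  have hδ'1 : 4 * δ' ≤ δ := by
    have := min_le_left δ (min 1 d)
    simp only [hδ']; linarith
  have hδ'2 : 4 * δ' ≤ 1 := by
    have := (min_le_right δ (min 1 d)).trans (min_le_left 1 d)
    simp only [hδ']; linarith
  have hδ'3 : 4 * δ' ≤ d := by
    have := (min_le_right δ (min 1 d)).trans (min_le_right 1 d)
    simp only [hδ']; linarith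
  have hsep : ∀ i j, i ≠ j → δ' < |γ i - γ j| := fun i j hij => by
    have h1 := hsepd i j hij
    have h2 : γ i - γ j = β i - β j := by simp only [hγ]; ring
    rw [h2]; linarith
  set B : ℝ := 2 * s + 1 with hBdef
  have hs1 : 1 ≤ s := by
    have : 0 ≤ ∑ i, |β i| := Finset.sum_nonneg fun i _ => abs_nonneg _
    simp only [hs]; linarith
  have hB0 : 0 < B := by simp only [hBdef]; linarith
  have hB : ∀ i, γ i + δ' ≤ B := fun i => by
    have h1 := hβs i
    have h2 := le_abs_self (β i)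
    simp only [hγ, hBdef]
    have h3 : |β i| ≤ s := by simp only [hs]; linarith
    linarith
  obtain ⟨M, hM, ε₀, hε₀, K₀, hcore⟩ := core4
  set ε : ℝ := min ε₀ 1 with hε
  have hε0 : 0 < ε := lt_min hε₀ one_pos
  obtain ⟨K₁, N₁, hcov⟩ := PGS.covering M ε B δ' hε0 (min_le_right _ _) γ hγ1 hδ'0 hB hsep
  obtain ⟨N₂, hcore2⟩ := hcore ε hε0 (min_le_left _ _) (max K₀ K₁) (le_max_left _ _) B
  set η : ℝ := min (1 / 2) (δ' / (2 * B)) with hη
  have hη0 : 0 < η := lt_min (by norm_num) (by positivity)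
  have hη1 : η ≤ 1 / 2 := min_le_left _ _
  have hη2 : 2 * B * η ≤ δ' := by
    have : η ≤ δ' / (2 * B) := min_le_right _ _
    have := (le_div_iff₀ (by positivity)).1 this
    linarith
  obtain ⟨N₃, hlog⟩ := log_index η hη0
  have e1 : ∀ᶠ x : ℝ in Filter.atTop, ‖Real.log x‖ ≤ 1 / (B + 1) * ‖x‖ :=
    (Real.isLittleO_log_id_atTop).bound (by positivity)
  have e1' := tendsto_natCast_atTop_atTop.eventually e1 (f := fun N : ℕ => (N : ℝ))
  obtain ⟨N₄, hN₄⟩ := Filter.eventually_atTop.1 e1'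
  set N : ℕ := N₁ + N₂ + N₃ + N₄ + Nat.nth Nat.Prime X + 3 with hN
  have hN0 : (0 : ℝ) < N := by positivity
  have hN1 : (1 : ℝ) < N := by
    have h3 : 3 ≤ N := by omega
    have : (3 : ℝ) ≤ N := by exact_mod_cast h3
    linarith
  have hL : 0 < Real.log (N : ℝ) := Real.log_pos hN1
  have hBL : (B + 1) * Real.log (N : ℝ) ≤ N := by
    have h1 := hN₄ N (by omega)
    rw [Real.norm_of_nonneg hL.le, Real.norm_of_nonneg hN0.le] at h1
    have h2 : 0 < B + 1 := by linarith
    calc (B + 1) * Real.log (N : ℝ) ≤ (B + 1) * (1 / (B + 1) * N) :=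
          mul_le_mul_of_nonneg_left h1 h2.le
      _ = N := by field_simp
  obtain ⟨D, D', hDP, hcore3⟩ := hcore2 N (by omega)
  have hDP' : DP ε K₁ N D D' := by
    obtain ⟨h1, h2, h3, h4, h5⟩ := hDP
    exact ⟨h1, h2, fun p hp => ⟨(h3 p hp).1, lt_of_le_of_lt (le_max_right _ _) (h3 p hp).2⟩, h4, h5⟩
  obtain ⟨h, hinjh, hw, b, hcop, hcomp⟩ := hcov N (by omega) D D' hDP'
  have hhB : ∀ i, (h i : ℝ) ≤ B * Real.log N := fun i => by
    have h1 := (hw i).2
    have h2 := hB i.1
    nlinarith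
  obtain ⟨n, hn1, hn2, hnb, i, j, hij, hi, hj⟩ := hcore3 h hinjh hhB b hcop
  have hall : ∀ P : ℕ, P.Prime → n < P → (P : ℝ) ≤ n + B * Real.log N → ∃ k, P = n + h k := by
    intro P hP hnP hPB
    by_contra hcon
    push Not at hcon
    obtain ⟨p, hp, hpq, hpb⟩ := hcomp (P - n) (by omega) (by
      rw [Nat.cast_sub hnP.le]; linarith) (fun k e => hcon k (by omega))
    have h1 : n ≡ b [MOD p] := hnb.of_dvd hpq
    have h2 : n + (P - n) ≡ b + (P - n) [MOD p] := h1.add_right _
    have h3 : p ∣ n + (P - n) := (h2.dvd_iff (dvd_refl p)).2 hpb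
    rw [Nat.add_sub_cancel' hnP.le] at h3
    have h4 : p = P := (Nat.prime_dvd_prime_iff_eq hp hP).1 h3
    have h5 := ((PGB.dvd_qz (by positivity) hp).1 hpq).1
    have h6 : (N : ℝ) < p := by
      have : N < p := by omega
      exact_mod_cast this
    have h7 : ε ≤ 1 := min_le_right _ _
    have h8 : ε * Real.log N ≤ 1 * Real.log N := mul_le_mul_of_nonneg_right h7 hL.le
    nlinarith
  obtain ⟨m, k, k', hkk, hm, hm'⟩ : ∃ m : ℕ, ∃ k k' : Fin 4 × Fin M, γ k.1 < γ k'.1 ∧
      Nat.nth Nat.Prime m = n + h k' ∧ Nat.nth Nat.Prime (m - 1) = n + h k := by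
    have hne : h i ≠ h j := fun e => hij (by rw [hinjh e])
    rcases lt_or_gt_of_ne hne with hlt | hlt
    · exact ng_aux4 γ δ' M h N n hL hδ'0 hsep B hB hγ1 hw hall i j hij hi hj hlt
    · exact ng_aux4 γ δ' M h N n hL hδ'0 hsep B hB hγ1 hw hall j i (fun e => hij e.symm) hj hi hlt
  have hNm : N < Nat.nth Nat.Prime m := by rw [hm]; omega
  have hm3 : Nat.nth Nat.Prime m ≤ 3 * N := by
    rw [hm]
    have h1 := hhB k'
    have h2 : (h k' : ℝ) ≤ N := by nlinarith
    have h3 : h k' ≤ N := by exact_mod_cast h2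
    omega
  refine ⟨m, ?_, k.1, k'.1, ?_, ?_⟩
  · have h1 : Nat.nth Nat.Prime X < Nat.nth Nat.Prime m := by omega
    exact ((Nat.nth_strictMono Nat.infinite_setOfPred_prime).lt_iff_lt.1 h1).le
  · simp only [hγ] at hkk
    linarith
  · have ht := hlog N (by omega) m hNm hm3
    set t : ℝ := Real.log m / Real.log N with htdef
    rw [abs_le] at ht
    have ht0 : 1 / 2 ≤ t := by linarith [ht.1]
    have htpos : 0 < t := by linarith
    set g : ℝ := ((h k' : ℝ) - h k) / Real.log N with hg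
    have hng : ng m = g / t := by
      unfold ng
      rw [hm, hm']
      have hlm : Real.log m = t * Real.log N := by rw [htdef]; field_simp
      rw [hlm, hg]
      push_cast
      field_simp
      ring
    have w1 := hw k
    have w2 := hw k'
    have hg1 : g ≤ γ k'.1 - γ k.1 + δ' := by
      rw [hg, div_le_iff₀ hL]
      nlinarith [w1.1, w2.2]
    have hg2 : γ k'.1 - γ k.1 - δ' ≤ g := by
      rw [hg, le_div_iff₀ hL]
      nlinarith [w1.2, w2.1]
    have hg3 : g ≤ B := by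
      have h1 := hB k'.1
      have h2 := hγ1 k.1
      linarith
    have hg4 : 0 ≤ g := by
      have h1 := hsep k'.1 k.1 (fun e => by rw [e] at hkk; exact lt_irrefl _ hkk)
      rw [abs_of_pos (by linarith)] at h1
      linarith
    have hgt : |g / t - g| ≤ δ' := by
      have h1 : g / t - g = g * (1 - t) / t := by field_simp
      rw [h1, abs_div, abs_mul, abs_of_nonneg hg4, abs_of_pos htpos, div_le_iff₀ htpos]
      have h2 : |1 - t| ≤ η := by rw [abs_le]; constructor <;> linarith [ht.1, ht.2]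
      have h3 : g * |1 - t| ≤ B * η := mul_le_mul hg3 h2 (abs_nonneg _) hB0.le
      nlinarith
    rw [hng]
    have h1 : γ k'.1 - γ k.1 = β k'.1 - β k.1 := by simp only [hγ]; ring
    rw [← h1]
    rw [abs_le] at hgt
    rw [abs_lt]
    constructor <;> linarith [hgt.1, hgt.2]

end PGS
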