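import Pool.Agent.PGS.D1f

/-! PGS / D2f: the set of the limit points meets the differences of any four reals. -/

set_option autoImplicit false

open Finset Filter PGL

noncomputable section

namespace PGS

theorem p4 (β : Fin 4 → ℝ) (hinj : Function.Injective β) : ∃ i j, β i < β j ∧ β j - β i ∈ SG := by
  by_contra hcon
  push Not at hcon
  have h1 : ∀ q : Fin 4 × Fin 4, β q.1 < β q.2 → ∃ δ : ℝ, 0 < δ ∧ ∃ X : ℕ, ∀ m : ℕ, X ≤ m →
      δ ≤ |ng m - (β q.2 - β q.1)| := by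
    intro q hq
    have h2 := hcon q.1 q.2 hq
    rw [mem_SG] at h2
    push Not at h2
    obtain ⟨δ, hδ, X, hX⟩ := h2 (by linarith)
    exact ⟨δ, hδ, X, hX⟩
  have h3 : ∀ q : Fin 4 × Fin 4, ∃ δ : ℝ, 0 < δ ∧ ∃ X : ℕ, β q.1 < β q.2 → ∀ m : ℕ, X ≤ m →
      δ ≤ |ng m - (β q.2 - β q.1)| := by
    intro q
    by_cases hq : β q.1 < β q.2
    · obtain ⟨δ, hδ, X, hX⟩ := h1 q hq
      exact ⟨δ, hδ, X, fun _ => hX⟩
    · exact ⟨1, one_pos, 0, fun h => absurd h hq⟩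
  choose δ hδ X hX using h3
  obtain ⟨q₀, -, hq₀⟩ := Finset.exists_min_image (Finset.univ : Finset (Fin 4 × Fin 4)) δ ⟨(0, 0), Finset.mem_univ _⟩
  obtain ⟨m, hm, i, j, hij, hlt⟩ := gaps4 β hinj (δ q₀) (hδ q₀) (Finset.univ.sup X)
  have h4 : X (i, j) ≤ m := le_trans (Finset.le_sup (f := X) (Finset.mem_univ (i, j))) hm
  have h5 := hX (i, j) hij m h4
  have h6 := hq₀ (i, j) (Finset.mem_univ _)
  exact absurd hlt (not_lt.2 (h6.trans h5))

end PGS
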