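import Pool.Agent.PGL.WD

/-! PGS / Defs: definitions for the sieve constant below 4 (MP_133aef_nt).

`N^κ`, `κ` slightly below `1/4`, is the level of the Selberg weight `K = Lam V (ys N (-1) κ)` for the second prime
`m = n + h i₁`; it gives the constant `1 / κ > 4`. We show that `K (m)` is not small for a positive proportion of
composite `m`, which improves the constant to a number `< 4`. -/

set_option autoImplicit false

open Finset PGL

noncomputable section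

namespace PGS

/-- the primes of `V` in `[N^α, N^β)` -/
def PR (N : ℕ) (α β : ℝ) (V : Finset ℕ) : Finset ℕ :=
  V.filter fun p : ℕ => (N : ℝ) ^ α ≤ (p : ℝ) ∧ (p : ℝ) < (N : ℝ) ^ β

/-- the primes of `V` below `N^α` -/
def Vs (N : ℕ) (α : ℝ) (V : Finset ℕ) : Finset ℕ := V.filter fun p : ℕ => (p : ℝ) < (N : ℝ) ^ α

/-- the two step function of the lower bound sieve: `5` up to `N^(κ/2)` and `3` up to `N^κ` -/
def y1 (N : ℕ) (κ : ℝ) : Finset ℕ → ℝ := fun B => 3 * ys N (-1) κ B + 2 * ys N (-1) (κ / 2) B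

/-- the effect of a prime `q` dividing `n` -/
def shM (q : ℕ) (y : Finset ℕ → ℝ) : Finset ℕ → ℝ := fun B => y B - y (insert q B)

/-- the effect of a prime `q` not dividing `n` -/
def shP (q : ℕ) (y : Finset ℕ → ℝ) : Finset ℕ → ℝ := fun B => y B + y (insert q B) / ((q : ℝ) - 1)

/-- the integers of the progression in `(N, 2N]` -/
def Pg (ε : ℝ) (N : ℕ) (D : Finset ℕ) (b₀ : ℕ) : Finset ℕ :=
  (Ioc N (2 * N)).filter (· ≡ b₀ [MOD PGB.qz (ε * Real.log N) D])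

/-- `N / φ(q)` -/
def XX (ε : ℝ) (N : ℕ) (D : Finset ℕ) : ℝ := N / (Nat.totient (PGB.qz (ε * Real.log N) D) : ℝ)

/-- the coordinates different from `i₀`, `i₁` -/
def oth {ι : Type} [Fintype ι] [DecidableEq ι] (i₀ i₁ : ι) : Finset ι := (univ.erase i₀).erase i₁

/-- the weight `ww`, where the coordinates `i₀`, `i₁` are evaluated as at primes -/
def wq {ι : Type} [Fintype ι] [DecidableEq ι] {L : ℕ} (J : Finset (ι → Fin L)) (c a b : Fin L → ℝ) (N : ℕ)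
    (V : Finset ℕ) (h : ι → ℕ) (i₀ i₁ : ι) (n : ℕ) : ℝ :=
  (∑ j ∈ J, (∏ i, c (j i)) * (mass V (ys N (a (j i₀)) (b (j i₀))) * mass V (ys N (a (j i₁)) (b (j i₁)))) *
    ∏ i ∈ oth i₀ i₁, Lam V (ys N (a (j i)) (b (j i))) (n + h i)) ^ 2

/-- the logarithmic size -/
def sz (N p : ℕ) : ℝ := Real.log p / Real.log N

theorem wq_nonneg {ι : Type} [Fintype ι] [DecidableEq ι] {L : ℕ} (J : Finset (ι → Fin L)) (c a b : Fin L → ℝ)
    (N : ℕ) (V : Finset ℕ) (h : ι → ℕ) (i₀ i₁ : ι) (n : ℕ) : 0 ≤ wq J c a b N V h i₀ i₁ n :=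
  sq_nonneg _

theorem mem_oth {ι : Type} [Fintype ι] [DecidableEq ι] {i₀ i₁ i : ι} : i ∈ oth i₀ i₁ ↔ i ≠ i₁ ∧ i ≠ i₀ := by
  unfold oth
  simp

theorem mem_PR {N : ℕ} {α β : ℝ} {V : Finset ℕ} {p : ℕ} :
    p ∈ PR N α β V ↔ p ∈ V ∧ (N : ℝ) ^ α ≤ (p : ℝ) ∧ (p : ℝ) < (N : ℝ) ^ β := by
  unfold PR
  rw [mem_filter]

theorem mem_Vs {N : ℕ} {α : ℝ} {V : Finset ℕ} {p : ℕ} : p ∈ Vs N α V ↔ p ∈ V ∧ (p : ℝ) < (N : ℝ) ^ α := by
  unfold Vs
  rw [mem_filter]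

end PGS
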