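import Pool.Agent.PGL.GU
import Pool.Agent.Helper35.Primes

/-! PGS / Gsh: an upper bound for `G_V(B) - G_V(A)` with a small error.

PROOF. Let `y = ε log N` and `P = PP y` (primes `≤ y`).
(1) `card_block`: by induction on the finite set `T` of primes (`{no p ∈ insert q T} = {no p ∈ T} \ {q ∣ n, no p ∈ T}`, and
`n = q n'` with `n'` in an interval of length `w / q`): for reals `u ≥ 0`, `w ≥ 0` the number of integers
`n ∈ (u, u + w]` with no prime factor in `T` differs from `w ∏_{p ∈ T} (1 - 1/p)` by at most `2^|T|`.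
(2) `|PP y| ≤ √y + 4 y / log y` (from `theta_prm` of Helper35: `∑_{p ≤ n} log p ≤ n log 4`), so `2^|PP y| ≤ N^(c/8)` for
large `N`.
(3) Let `w = N^(c/2)`. For `N^c ≤ A ≤ B ≤ N` cut `(A, B]` into blocks `(A + j w, A + (j+1) w]`; by (1), (2) and
`MP y ≥ 1 / y ≥ N^(-c/16)` (see `gu_mp_ge` in `PGL/GU.lean`: `1 / y ≤ MP y` for `y ≥ 1`)
`∑_{A < n ≤ B, no prime factor ≤ y} 1 / n ≤ ∑_j (w MP + N^(c/8) + 1) / (A + j w) ≤ (1 + η/3) MP ∑_j w / (A + j w)
≤ (1 + η/3) MP (w / A + log (B / A))`.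
(4) `GV V B - GV V A = ∑_{B' ⊆ V, A < pr B' ≤ B} 1 / ph B'`. The numbers `pr B'` are distinct, in `(A, B]`, have no prime
factor `≤ y`, and `1 / ph B' ≤ exp (2 / (ε log y)) / pr B'` as `pr B' ≤ N` (`|B'| ≤ log N / log y`,
`pr / ph = ∏ (1 + 1/(p-1)) ≤ exp (|B'| / (y - 1))`), and `exp (2 / (ε log y)) ≤ 1 + η/3` for large `N`.
Together with `MP ≤ 1`, `w / A ≤ N^(-c/2)`: the claim (`(1+η/3)^2 ≤ 1 + η` for `η ≤ 1`; we may assume `η ≤ 1`). -/

set_option autoImplicit false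

open Finset PGL

noncomputable section

namespace PGS

theorem card_block (T : Finset ℕ) (hT : ∀ p ∈ T, p.Prime) (u w : ℝ) (hu : 0 ≤ u) (hw : 0 ≤ w) :
    |(((Ioc ⌊u⌋₊ ⌊u + w⌋₊).filter (fun n => ∀ p ∈ T, ¬ p ∣ n)).card : ℝ) - w * ∏ p ∈ T, (1 - 1 / (p : ℝ))| ≤
      2 ^ T.card := by
  induction T using Finset.induction_on generalizing u w with
  | empty =>
    have h1 : ((Ioc ⌊u⌋₊ ⌊u + w⌋₊).filter (fun n => ∀ p ∈ (∅ : Finset ℕ), ¬ p ∣ n))
        = Ioc ⌊u⌋₊ ⌊u + w⌋₊ := by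
      refine Finset.filter_true_of_mem fun n _ p hp => ?_
      exact absurd hp (Finset.notMem_empty p)
    rw [h1, Nat.card_Ioc, prod_empty, card_empty, pow_zero, mul_one]
    have h2 : ⌊u⌋₊ ≤ ⌊u + w⌋₊ := Nat.floor_mono (by linarith)
    rw [Nat.cast_sub h2, abs_le]
    have a1 := Nat.floor_le hu
    have a2 := Nat.lt_floor_add_one u
    have a3 := Nat.floor_le (by linarith : 0 ≤ u + w)
    have a4 := Nat.lt_floor_add_one (u + w)
    constructor <;> linarith
  | insert q T hq ih =>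
    have hqp : q.Prime := hT q (mem_insert_self _ _)
    have hT' : ∀ p ∈ T, p.Prime := fun p hp => hT p (mem_insert_of_mem hp)
    have hq0 : (0 : ℝ) < q := by exact_mod_cast hqp.pos
    have i1 := ih hT' u w hu hw
    have i2 := ih hT' (u / q) (w / q) (by positivity) (by positivity)
    have hcard : (((Ioc ⌊u / q⌋₊ ⌊u / q + w / q⌋₊).filter (fun n => ∀ p ∈ T, ¬ p ∣ n)).card)
        + (((Ioc ⌊u⌋₊ ⌊u + w⌋₊).filter (fun n => ∀ p ∈ insert q T, ¬ p ∣ n)).card)
        = (((Ioc ⌊u⌋₊ ⌊u + w⌋₊).filter (fun n => ∀ p ∈ T, ¬ p ∣ n)).card) := by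
      have e1 : ((Ioc ⌊u⌋₊ ⌊u + w⌋₊).filter (fun n => ∀ p ∈ insert q T, ¬ p ∣ n))
          = ((Ioc ⌊u⌋₊ ⌊u + w⌋₊).filter (fun n => ∀ p ∈ T, ¬ p ∣ n)).filter (fun n => ¬ q ∣ n) := by
        rw [Finset.filter_filter]
        refine Finset.filter_congr fun n _ => ?_
        simp only [mem_insert, forall_eq_or_imp]
        exact and_comm
      have e2 : ((Ioc ⌊u / q⌋₊ ⌊u / q + w / q⌋₊).filter (fun n => ∀ p ∈ T, ¬ p ∣ n)).card
          = (((Ioc ⌊u⌋₊ ⌊u + w⌋₊).filter (fun n => ∀ p ∈ T, ¬ p ∣ n)).filter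
            (fun n => q ∣ n)).card := by
        have hdiv : u / q + w / q = (u + w) / q := by ring
        refine Finset.card_nbij' (fun n => q * n) (fun n => n / q) ?_ ?_ ?_ ?_
        · intro n hn
          rw [mem_coe, mem_filter, mem_Ioc, Nat.floor_lt (by positivity),
            Nat.le_floor_iff (by positivity), hdiv, div_lt_iff₀ hq0, le_div_iff₀ hq0] at hn
          rw [mem_coe, mem_filter, mem_filter, mem_Ioc, Nat.floor_lt hu,
            Nat.le_floor_iff (by linarith)]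
          refine ⟨⟨⟨?_, ?_⟩, fun p hp hd => ?_⟩, dvd_mul_right q n⟩
          · push_cast
            linarith [hn.1.1]
          · push_cast
            linarith [hn.1.2]
          · have hpp := hT' p hp
            rcases (hpp.dvd_mul).1 hd with h | h
            · have := (Nat.prime_dvd_prime_iff_eq hpp hqp).1 h
              exact hq (this ▸ hp)
            · exact hn.2 p hp h
        · intro n hn
          rw [mem_coe, mem_filter, mem_filter, mem_Ioc, Nat.floor_lt hu,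
            Nat.le_floor_iff (by linarith)] at hn
          obtain ⟨⟨⟨n1, n2⟩, n3⟩, ⟨m, rfl⟩⟩ := hn
          rw [mem_coe, mem_filter, mem_Ioc, Nat.floor_lt (by positivity),
            Nat.le_floor_iff (by positivity), hdiv, div_lt_iff₀ hq0, le_div_iff₀ hq0]
          simp only [Nat.mul_div_cancel_left m hqp.pos]
          push_cast at n1 n2
          refine ⟨⟨by linarith, by linarith⟩, fun p hp hd => ?_⟩
          exact n3 p hp (dvd_mul_of_dvd_right hd q)
        · intro n _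
          exact Nat.mul_div_cancel_left n hqp.pos
        · intro n hn
          rw [mem_coe, mem_filter] at hn
          exact Nat.mul_div_cancel' hn.2
      rw [e1, e2]
      exact Finset.card_filter_add_card_filter_not _
    have hcard' : (((Ioc ⌊u⌋₊ ⌊u + w⌋₊).filter (fun n => ∀ p ∈ insert q T, ¬ p ∣ n)).card : ℝ)
        = (((Ioc ⌊u⌋₊ ⌊u + w⌋₊).filter (fun n => ∀ p ∈ T, ¬ p ∣ n)).card : ℝ)
          - (((Ioc ⌊u / q⌋₊ ⌊u / q + w / q⌋₊).filter (fun n => ∀ p ∈ T, ¬ p ∣ n)).card : ℝ) := by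
      rw [← hcard]
      push_cast
      ring
    rw [hcard', prod_insert hq, card_insert_of_notMem hq, pow_succ]
    have e3 : w * ((1 - 1 / (q : ℝ)) * ∏ p ∈ T, (1 - 1 / (p : ℝ)))
        = w * ∏ p ∈ T, (1 - 1 / (p : ℝ)) - w / q * ∏ p ∈ T, (1 - 1 / (p : ℝ)) := by
      field_simp
    rw [e3]
    rw [abs_le] at i1 i2 ⊢
    constructor <;> linarith [i1.1, i1.2, i2.1, i2.2]

theorem PP_card (ε c : ℝ) (hε : 0 < ε) (hc : 0 < c) : ∃ N₀ : ℕ, ∀ N : ℕ, N₀ ≤ N →
    (2 : ℝ) ^ (PP (ε * Real.log N)).card ≤ (N : ℝ) ^ c := by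
  have hlog := Real.tendsto_log_atTop
  have hl4 : 0 < Real.log 4 := Real.log_pos (by norm_num)
  have c1 : ∀ᶠ t : ℝ in Filter.atTop, 2 ≤ t := Filter.eventually_ge_atTop 2
  have c2 : ∀ᶠ t : ℝ in Filter.atTop, 4 * Real.log 4 * ε / c ≤ Real.log t :=
    hlog.eventually_ge_atTop _
  have c3 : ∀ᶠ t : ℝ in Filter.atTop, (2 * ε / c) ^ 2 ≤ t := Filter.eventually_ge_atTop _
  have htend : Filter.Tendsto (fun N : ℕ => ε * Real.log N) Filter.atTop Filter.atTop :=
    (Real.tendsto_log_atTop.comp tendsto_natCast_atTop_atTop).const_mul_atTop hε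
  obtain ⟨N₀, hN₀⟩ := Filter.eventually_atTop.1
    (htend.eventually (c1.and (c2.and c3)))
  refine ⟨max N₀ 1, fun N hN => ?_⟩
  obtain ⟨d1, d2, d3⟩ := hN₀ N ((le_max_left _ _).trans hN)
  have hN1 : 1 ≤ N := (le_max_right _ _).trans hN
  have hN0 : (0 : ℝ) < N := by exact_mod_cast hN1
  obtain ⟨y, hy⟩ : ∃ y, y = ε * Real.log N := ⟨_, rfl⟩
  rw [← hy] at d1 d2 d3 ⊢
  have hL : Real.log N = y / ε := by
    rw [hy]
    field_simp
  have hly : 0 < Real.log y := Real.log_pos (by linarith)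
  have hy0 : 0 ≤ y := by linarith
  -- counting the primes
  have hcount : ((PP y).card : ℝ) ≤ Real.sqrt y + 2 / Real.log y * (Real.log 4 * y) := by
    have h1 : ((PP y).card : ℝ) ≤ ∑ p ∈ PP y,
        ((if (p : ℝ) ≤ Real.sqrt y then (1 : ℝ) else 0) + 2 / Real.log y * Real.log p) := by
      rw [card_eq_sum_ones]
      push_cast
      refine sum_le_sum fun p hp => ?_
      have hpp : p.Prime := (mem_filter.1 hp).2
      have h2 : (2 : ℝ) ≤ p := by exact_mod_cast hpp.two_le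
      have h3 : 0 ≤ Real.log p := Real.log_nonneg (by linarith)
      split_ifs with h
      · have : 0 ≤ 2 / Real.log y * Real.log p := by positivity
        linarith
      · push Not at h
        have h4 : Real.log (Real.sqrt y) ≤ Real.log p :=
          Real.log_le_log (Real.sqrt_pos.2 (by linarith)) h.le
        rw [Real.log_sqrt hy0] at h4
        rw [zero_add, div_mul_eq_mul_div, le_div_iff₀ hly]
        linarith
    refine h1.trans ?_
    rw [sum_add_distrib, ← mul_sum]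
    refine add_le_add ?_ (mul_le_mul_of_nonneg_left ?_ (by positivity))
    · rw [← sum_filter, sum_const, nsmul_eq_mul, mul_one]
      have h5 : (PP y).filter (fun p : ℕ => (p : ℝ) ≤ Real.sqrt y) ⊆ Icc 1 ⌊Real.sqrt y⌋₊ := by
        intro p hp
        rw [mem_filter] at hp
        have hpp : p.Prime := (mem_filter.1 hp.1).2
        rw [mem_Icc]
        exact ⟨hpp.one_le, Nat.le_floor hp.2⟩
      have h6 := card_le_card h5
      rw [Nat.card_Icc, Nat.add_sub_cancel] at h6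
      have h7 : (⌊Real.sqrt y⌋₊ : ℝ) ≤ Real.sqrt y := Nat.floor_le (Real.sqrt_nonneg _)
      exact (Nat.cast_le.2 h6).trans h7
    · have h8 : PP y = Pool.Agent.Helper35.prm 0 ⌊y⌋₊ := by
        unfold PP Pool.Agent.Helper35.prm
        ext p
        simp only [mem_filter, mem_range, mem_Ioc]
        constructor
        · rintro ⟨h, hpp⟩
          exact ⟨⟨hpp.pos, by omega⟩, hpp⟩
        · rintro ⟨h, hpp⟩
          exact ⟨by omega, hpp⟩
      rw [h8]
      refine (Pool.Agent.Helper35.theta_prm ⌊y⌋₊).trans (mul_le_mul_of_nonneg_left (Nat.floor_le hy0) hl4.le)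
  -- conclusion
  have h1 : Real.sqrt y ≤ c / (2 * ε) * y := by
    have h2 : 2 * ε / c ≤ Real.sqrt y := Real.le_sqrt_of_sq_le d3
    rw [div_le_iff₀ hc] at h2
    have h3 : Real.sqrt y * Real.sqrt y = y := Real.mul_self_sqrt hy0
    rw [div_mul_eq_mul_div, le_div_iff₀ (by positivity)]
    nlinarith [Real.sqrt_nonneg y]
  have h2 : 2 / Real.log y * (Real.log 4 * y) ≤ c / (2 * ε) * y := by
    rw [div_le_iff₀ hc] at d2
    rw [div_mul_eq_mul_div, div_le_iff₀ hly, div_mul_eq_mul_div, div_mul_eq_mul_div,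
      le_div_iff₀ (by positivity)]
    nlinarith
  have h3 : ((PP y).card : ℝ) ≤ c * Real.log N := by
    rw [hL]
    have e : c / (2 * ε) * y + c / (2 * ε) * y = c * (y / ε) := by
      field_simp
      ring
    linarith
  have h4 : (2 : ℝ) ^ (PP y).card ≤ Real.exp ((PP y).card) := by
    rw [← Real.exp_one_pow]
    refine pow_le_pow_left₀ (by norm_num) ?_ _
    have := Real.add_one_le_exp (1 : ℝ)
    linarith
  refine h4.trans ?_
  rw [Real.rpow_def_of_pos hN0, Real.exp_le_exp]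
  linarith

private theorem gs_mp_ge {y : ℝ} (hy : 1 ≤ y) : 1 / y ≤ MP y := by
  have gu_nat : ∀ n : ℕ, 1 ≤ n →
      1 / (n : ℝ) ≤ ∏ p ∈ (range (n + 1)).filter Nat.Prime, (1 - 1 / (p : ℝ)) := by
    intro n hn
    induction n, hn using Nat.le_induction with
    | base =>
      have h : (range (1 + 1)).filter Nat.Prime = ∅ := by
        refine Finset.filter_eq_empty_iff.2 fun x hx hp => ?_
        rw [mem_range] at hx
        have := hp.two_le
        omega
      rw [h, prod_empty]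
      norm_num
    | succ n hn ih =>
      rw [range_add_one (n := n + 1), filter_insert]
      have hn0 : (0 : ℝ) < n := by exact_mod_cast hn
      split_ifs with hp
      · rw [prod_insert (by simp)]
        push_cast
        have e : 1 / ((n : ℝ) + 1) = (1 - 1 / ((n : ℝ) + 1)) * (1 / (n : ℝ)) := by
          field_simp
          ring
        refine e.trans_le (mul_le_mul_of_nonneg_left ih ?_)
        rw [sub_nonneg, div_le_one (by linarith)]
        linarith
      · refine le_trans ?_ ih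
        push_cast
        exact one_div_le_one_div_of_le hn0 (by linarith)
  have h1 : 1 ≤ ⌊y⌋₊ := Nat.le_floor (by simpa using hy)
  have h2 := gu_nat ⌊y⌋₊ h1
  have h3 : (⌊y⌋₊ : ℝ) ≤ y := Nat.floor_le (by linarith)
  have h4 : (0 : ℝ) < ⌊y⌋₊ := by exact_mod_cast h1
  exact (one_div_le_one_div_of_le h4 h3).trans h2

private theorem gs_mp_le (y : ℝ) : MP y ≤ 1 := by
  unfold MP
  refine prod_le_one (fun p hp => ?_) fun p hp => ?_
  · have hp' : p.Prime := (mem_filter.1 hp).2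
    have h2 : (2 : ℝ) ≤ p := by exact_mod_cast hp'.two_le
    rw [sub_nonneg, div_le_one (by linarith)]
    linarith
  · have h2 : (0 : ℝ) ≤ 1 / p := by positivity
    linarith

private theorem gs_pr {B : Finset ℕ} (hB : ∀ p ∈ B, p.Prime) : 0 < pr B :=
  prod_pos fun p hp => (hB p hp).pos

private theorem gs_vn {y : ℝ} {N : ℕ} : ∀ p ∈ VN y N, p.Prime ∧ y < (p : ℝ) := by
  intro p hp
  exact (mem_filter.1 hp).2

private theorem gs_card {y R : ℝ} {N : ℕ} (hy : 1 < y) (hN : R ≤ N)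
    {B : Finset ℕ} (hB : B ⊆ VN y N) (hR : (pr B : ℝ) ≤ R) :
    (B.card : ℝ) * Real.log y ≤ Real.log N := by
  have h1 : y ^ B.card ≤ (pr B : ℝ) := by
    unfold pr
    push_cast
    rw [← prod_const]
    exact prod_le_prod (fun _ _ => by linarith) fun p hp => (gs_vn p (hB hp)).2.le
  have h2 := Real.log_le_log (pow_pos (by linarith) _) (h1.trans (hR.trans hN))
  rwa [Real.log_pow] at h2

private theorem gs_ph_le {y : ℝ} (hy : 1 < y) {B : Finset ℕ}
    (hB : ∀ p ∈ B, p.Prime ∧ y < (p : ℝ)) :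
    1 / ph B ≤ 1 / (pr B : ℝ) * Real.exp (B.card / (y - 1)) := by
  have hy1 : 0 < y - 1 := by linarith
  have e : 1 / ph B = 1 / (pr B : ℝ) * ∏ p ∈ B, (1 + 1 / ((p : ℝ) - 1)) := by
    unfold ph pr
    push_cast
    rw [one_div, one_div, ← prod_inv_distrib, ← prod_inv_distrib, ← prod_mul_distrib]
    refine prod_congr rfl fun p hp => ?_
    have h3 : (2 : ℝ) ≤ p := by exact_mod_cast (hB p hp).1.two_le
    have h4 : (p : ℝ) - 1 ≠ 0 := by linarith
    have h5 : (p : ℝ) ≠ 0 := by linarith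
    field_simp
    ring
  rw [e]
  refine mul_le_mul_of_nonneg_left ?_ (by positivity)
  have h1 : (B.card : ℝ) / (y - 1) = ∑ _p ∈ B, 1 / (y - 1) := by
    rw [sum_const, nsmul_eq_mul, mul_one_div]
  rw [h1, Real.exp_sum]
  refine prod_le_prod (fun p hp => ?_) fun p hp => ?_
  · have h3 : (2 : ℝ) ≤ p := by exact_mod_cast (hB p hp).1.two_le
    have : 0 ≤ 1 / ((p : ℝ) - 1) := one_div_nonneg.2 (by linarith)
    linarith
  · have h3 : 1 / ((p : ℝ) - 1) ≤ 1 / (y - 1) :=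
      one_div_le_one_div_of_le hy1 (by linarith [(hB p hp).2])
    have h4 := Real.add_one_le_exp (1 / (y - 1))
    linarith

/-- the sum of `1 / n` over the integers of `(A, B]` without prime factors in `T` -/
private def gsS (T : Finset ℕ) (A B : ℝ) : ℝ :=
  ∑ n ∈ (Ioc ⌊A⌋₊ ⌊B⌋₊).filter (fun n => ∀ p ∈ T, ¬ p ∣ n), 1 / (n : ℝ)

private theorem gsS_add (T : Finset ℕ) {A B C : ℝ} (h1 : A ≤ B) (h2 : B ≤ C) :
    gsS T A C = gsS T A B + gsS T B C := by
  unfold gsS
  have e1 : Ioc ⌊A⌋₊ ⌊C⌋₊ = Ioc ⌊A⌋₊ ⌊B⌋₊ ∪ Ioc ⌊B⌋₊ ⌊C⌋₊ :=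
    (Ioc_union_Ioc_eq_Ioc (Nat.floor_mono h1) (Nat.floor_mono h2)).symm
  rw [e1, filter_union, sum_union]
  refine disjoint_filter_filter ?_
  rw [disjoint_left]
  intro n hn hn'
  rw [mem_Ioc] at hn hn'
  omega

private theorem gsS_mono (T : Finset ℕ) {A B C : ℝ} (h1 : A ≤ B) (h2 : B ≤ C) :
    gsS T A B ≤ gsS T A C := by
  rw [gsS_add T h1 h2]
  have : 0 ≤ gsS T B C := sum_nonneg fun n _ => by positivity
  linarith

/-- one block -/
private theorem gsS_block {T : Finset ℕ} (hT : ∀ p ∈ T, p.Prime) {x w κ : ℝ} (hx : 0 < x)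
    (hw : 0 ≤ w) (h2 : (2 : ℝ) ^ T.card ≤ κ * (w * ∏ p ∈ T, (1 - 1 / (p : ℝ)))) :
    gsS T x (x + w) ≤ (1 + κ) * (∏ p ∈ T, (1 - 1 / (p : ℝ))) * (w / x) := by
  have h1 := (abs_le.1 (card_block T hT x w hx.le hw)).2
  have h3 : gsS T x (x + w) ≤
      (((Ioc ⌊x⌋₊ ⌊x + w⌋₊).filter (fun n => ∀ p ∈ T, ¬ p ∣ n)).card : ℝ) * (1 / x) := by
    unfold gsS
    rw [← nsmul_eq_mul, ← sum_const]
    refine sum_le_sum fun n hn => ?_
    rw [mem_filter, mem_Ioc, Nat.floor_lt hx.le] at hn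
    exact one_div_le_one_div_of_le hx hn.1.1.le
  refine h3.trans ?_
  have h4 : (((Ioc ⌊x⌋₊ ⌊x + w⌋₊).filter (fun n => ∀ p ∈ T, ¬ p ∣ n)).card : ℝ) ≤
      (1 + κ) * (∏ p ∈ T, (1 - 1 / (p : ℝ))) * w := by linarith
  calc _ ≤ ((1 + κ) * (∏ p ∈ T, (1 - 1 / (p : ℝ))) * w) * (1 / x) :=
        mul_le_mul_of_nonneg_right h4 (by positivity)
    _ = _ := by ring

/-- many blocks -/
private theorem gsS_grid {T : Finset ℕ} (hT : ∀ p ∈ T, p.Prime) {A w κ : ℝ} (hA : 0 < A)
    (hw : 0 < w) (hκ : 0 ≤ κ)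
    (h2 : (2 : ℝ) ^ T.card ≤ κ * (w * ∏ p ∈ T, (1 - 1 / (p : ℝ))))
    (hM : 0 ≤ ∏ p ∈ T, (1 - 1 / (p : ℝ))) (J : ℕ) :
    gsS T A (A + (J + 1) * w) ≤
      (1 + κ) * (∏ p ∈ T, (1 - 1 / (p : ℝ))) * (w / A + Real.log ((A + J * w) / A)) := by
  induction J with
  | zero =>
    have h3 := gsS_block hT hA hw.le h2
    have e1 : A + (((0 : ℕ) : ℝ) + 1) * w = A + w := by
      push_cast
      ring
    have e2 : (A + ((0 : ℕ) : ℝ) * w) / A = 1 := by
      rw [Nat.cast_zero, zero_mul, add_zero, div_self hA.ne']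
    rw [e1, e2, Real.log_one, add_zero]
    exact h3
  | succ J ih =>
    have hJ : (0 : ℝ) ≤ J := Nat.cast_nonneg J
    have ht : 0 < A + (J + 1) * w := by positivity
    have ht' : 0 < A + J * w := by positivity
    have h3 := gsS_block hT ht hw.le h2
    have e1 : A + (((J + 1 : ℕ) : ℝ) + 1) * w = A + (J + 1) * w + w := by
      push_cast
      ring
    rw [e1, gsS_add T (by nlinarith : A ≤ A + (J + 1) * w) (by linarith)]
    have h4 : w / (A + (J + 1) * w) ≤
        Real.log ((A + ((J + 1 : ℕ) : ℝ) * w) / A) - Real.log ((A + J * w) / A) := by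
      have e2 : (A + ((J + 1 : ℕ) : ℝ) * w) = A + (J + 1) * w := by
        push_cast
        ring
      rw [e2, Real.log_div ht.ne' hA.ne', Real.log_div ht'.ne' hA.ne']
      have h5 := Real.one_sub_inv_le_log_of_pos
        (show 0 < (A + (J + 1) * w) / (A + J * w) by positivity)
      rw [Real.log_div ht.ne' ht'.ne', inv_div] at h5
      have e3 : 1 - (A + J * w) / (A + (J + 1) * w) = w / (A + (J + 1) * w) := by
        field_simp
        ring
      rw [e3] at h5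
      linarith
    have h5 : (1 + κ) * (∏ p ∈ T, (1 - 1 / (p : ℝ))) * (w / (A + (J + 1) * w)) ≤
        (1 + κ) * (∏ p ∈ T, (1 - 1 / (p : ℝ))) *
          (Real.log ((A + ((J + 1 : ℕ) : ℝ) * w) / A) - Real.log ((A + J * w) / A)) :=
      mul_le_mul_of_nonneg_left h4 (by positivity)
    have h6 := add_le_add ih (h3.trans h5)
    refine h6.trans (le_of_eq ?_)
    ring

private theorem gsS_le {T : Finset ℕ} (hT : ∀ p ∈ T, p.Prime) {A B w κ : ℝ} (hA : 0 < A)
    (hAB : A ≤ B) (hw : 0 < w) (hκ : 0 ≤ κ)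
    (h2 : (2 : ℝ) ^ T.card ≤ κ * (w * ∏ p ∈ T, (1 - 1 / (p : ℝ))))
    (hM : 0 ≤ ∏ p ∈ T, (1 - 1 / (p : ℝ))) :
    gsS T A B ≤ (1 + κ) * (∏ p ∈ T, (1 - 1 / (p : ℝ))) * (w / A + Real.log (B / A)) := by
  have hlog : 0 ≤ Real.log (B / A) := Real.log_nonneg (by rw [le_div_iff₀ hA]; linarith)
  rcases hAB.eq_or_lt with h | h
  · have e1 : gsS T A B = 0 := by
      unfold gsS
      rw [← h, Ioc_self, filter_empty, sum_empty]
    rw [e1]
    positivity
  · have h3 : 0 < (B - A) / w := div_pos (by linarith) hw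
    have h4 : 0 < ⌈(B - A) / w⌉₊ := Nat.ceil_pos.2 h3
    obtain ⟨J, hJ⟩ := Nat.exists_eq_succ_of_ne_zero h4.ne'
    have h5 : (J : ℝ) < (B - A) / w := by
      rw [← Nat.lt_ceil, hJ]
      exact Nat.lt_succ_self J
    have h6 : (B - A) / w ≤ (J : ℝ) + 1 := by
      have := Nat.le_ceil ((B - A) / w)
      rw [hJ] at this
      push_cast at this
      exact this
    rw [lt_div_iff₀ hw] at h5
    rw [div_le_iff₀ hw] at h6
    refine (gsS_mono T hAB (by linarith : B ≤ A + (J + 1) * w)).trans ?_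
    refine (gsS_grid hT hA hw hκ h2 hM J).trans ?_
    refine mul_le_mul_of_nonneg_left ?_ (by positivity)
    have h7 : Real.log ((A + J * w) / A) ≤ Real.log (B / A) := by
      refine Real.log_le_log (by positivity) ?_
      exact div_le_div_of_nonneg_right (by linarith) hA.le
    linarith

theorem g_short (ε c η : ℝ) (hε : 0 < ε) (hc : 0 < c) (hη : 0 < η) : ∃ N₀ : ℕ, ∀ N : ℕ, N₀ ≤ N →
    ∀ V : Finset ℕ, V ⊆ VN (ε * Real.log N) N → ∀ A B : ℝ, (N : ℝ) ^ c ≤ A → A ≤ B → B ≤ N →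
      GV V B - GV V A ≤ (1 + η) * MP (ε * Real.log N) * Real.log (B / A) + (N : ℝ) ^ (-(c / 4)) := by
  obtain ⟨κ, hκ0, hκ1, hκη⟩ : ∃ κ : ℝ, 0 < κ ∧ κ ≤ 1 ∧ 3 * κ ≤ η :=
    ⟨min 1 (η / 3), lt_min (by norm_num) (by linarith), min_le_left _ _, by
      have := min_le_right (1 : ℝ) (η / 3)
      linarith⟩
  have hlog := Real.tendsto_log_atTop
  obtain ⟨N₁, hN₁⟩ := PP_card ε (c / 8) hε (by linarith)
  have c1 : ∀ᶠ t : ℝ in Filter.atTop, 3 ≤ t := Filter.eventually_ge_atTop 3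
  have c2 : ∀ᶠ t : ℝ in Filter.atTop, Real.exp (2 / (ε * Real.log t)) ≤ 1 + κ := by
    have h1 : Filter.Tendsto (fun t : ℝ => 2 / (ε * Real.log t)) Filter.atTop (nhds 0) :=
      (hlog.const_mul_atTop hε).const_div_atTop 2
    have h2 := (Real.continuous_exp.tendsto 0).comp h1
    rw [Real.exp_zero] at h2
    exact (h2.eventually_lt_const (by linarith : (1 : ℝ) < 1 + κ)).mono fun t ht => ht.le
  have htend : Filter.Tendsto (fun N : ℕ => ε * Real.log N) Filter.atTop Filter.atTop :=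
    (Real.tendsto_log_atTop.comp tendsto_natCast_atTop_atTop).const_mul_atTop hε
  have c3 : ∀ᶠ t : ℝ in Filter.atTop, ε * Real.log t ≤ κ * t ^ (3 * c / 8) := by
    have h1 : ∀ᶠ t : ℝ in Filter.atTop, ‖Real.log t‖ ≤ (κ / ε) * ‖t ^ (3 * c / 8)‖ :=
      (isLittleO_log_rpow_atTop (by linarith : 0 < 3 * c / 8)).bound (by positivity)
    filter_upwards [h1, Filter.eventually_ge_atTop 1] with t ht1 ht2
    rw [Real.norm_of_nonneg (Real.log_nonneg ht2), Real.norm_of_nonneg (by positivity)] at ht1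
    calc ε * Real.log t ≤ ε * ((κ / ε) * t ^ (3 * c / 8)) :=
          mul_le_mul_of_nonneg_left ht1 hε.le
      _ = κ * t ^ (3 * c / 8) := by field_simp
  have c4 : ∀ᶠ t : ℝ in Filter.atTop, 4 ≤ t ^ (c / 4) :=
    (tendsto_rpow_atTop (by linarith : 0 < c / 4)).eventually_ge_atTop 4
  obtain ⟨N₂, hN₂⟩ := Filter.eventually_atTop.1
    ((htend.eventually (c1.and c2)).and
      (tendsto_natCast_atTop_atTop.eventually (c3.and c4)))
  refine ⟨max (max N₁ N₂) 1, fun N hN V hV A B hA hAB hBN => ?_⟩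
  obtain ⟨⟨d1, d2⟩, d3, d4⟩ := hN₂ N (((le_max_right _ _).trans (le_max_left _ _)).trans hN)
  have d5 := hN₁ N (((le_max_left _ _).trans (le_max_left _ _)).trans hN)
  have hN1 : 1 ≤ N := (le_max_right _ _).trans hN
  have hN0 : (0 : ℝ) < N := by exact_mod_cast hN1
  obtain ⟨y, hy⟩ : ∃ y, y = ε * Real.log N := ⟨_, rfl⟩
  rw [← hy] at d1 d2 d3 d5 hV ⊢
  have hL : Real.log N = y / ε := by
    rw [hy]
    field_simp
  have hly : 0 < Real.log y := Real.log_pos (by linarith)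
  have hA0 : 0 < A := lt_of_lt_of_le (Real.rpow_pos_of_pos hN0 _) hA
  have hM := MP_pos y
  have hPP : ∀ p ∈ PP y, p.Prime := fun p hp => (mem_filter.1 hp).2
  -- the block length
  obtain ⟨w, hwd⟩ : ∃ w, w = (N : ℝ) ^ (c / 2) := ⟨_, rfl⟩
  have hw0 : 0 < w := by
    rw [hwd]
    exact Real.rpow_pos_of_pos hN0 _
  have hblock : (2 : ℝ) ^ (PP y).card ≤ κ * (w * ∏ p ∈ PP y, (1 - 1 / (p : ℝ))) := by
    have h1 : 1 / y ≤ ∏ p ∈ PP y, (1 - 1 / (p : ℝ)) := gs_mp_ge (by linarith : 1 ≤ y)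
    have hy0 : 0 < y := by linarith
    have h2 : (N : ℝ) ^ (c / 8) ≤ κ * (w * (1 / y)) := by
      have e1 : (N : ℝ) ^ (c / 2) = (N : ℝ) ^ (c / 8) * (N : ℝ) ^ (3 * c / 8) := by
        rw [← Real.rpow_add hN0]
        congr 1
        ring
      rw [hwd, e1]
      have h3 : 1 ≤ κ * (N : ℝ) ^ (3 * c / 8) * (1 / y) := by
        rw [mul_one_div, le_div_iff₀ hy0]
        linarith
      have h4 : 0 < (N : ℝ) ^ (c / 8) := Real.rpow_pos_of_pos hN0 _
      nlinarith
    refine d5.trans (h2.trans ?_)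
    refine mul_le_mul_of_nonneg_left ?_ hκ0.le
    exact mul_le_mul_of_nonneg_left h1 hw0.le
  have hS := gsS_le hPP hA0 hAB hw0 hκ0.le hblock hM.le
  -- the difference of the `GV`
  have hVP : ∀ p ∈ V, p.Prime ∧ y < (p : ℝ) := fun p hp => gs_vn p (hV hp)
  have hdiff : GV V B - GV V A = ∑ B' ∈ V.powerset with A < (pr B' : ℝ) ∧ (pr B' : ℝ) ≤ B,
      1 / ph B' := by
    unfold GV
    have e1 : V.powerset.filter (fun B' => (pr B' : ℝ) ≤ B) =
        V.powerset.filter (fun B' => (pr B' : ℝ) ≤ A) ∪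
          V.powerset.filter (fun B' => A < (pr B' : ℝ) ∧ (pr B' : ℝ) ≤ B) := by
      ext B'
      simp only [mem_filter, mem_union]
      constructor
      · rintro ⟨h1, h2⟩
        rcases le_or_gt (pr B' : ℝ) A with h3 | h3
        · exact Or.inl ⟨h1, h3⟩
        · exact Or.inr ⟨h1, h3, h2⟩
      · rintro (⟨h1, h2⟩ | ⟨h1, h2, h3⟩)
        · exact ⟨h1, h2.trans hAB⟩
        · exact ⟨h1, h3⟩
    rw [e1, sum_union]
    · ring
    · rw [disjoint_left]
      intro B' h1 h2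
      rw [mem_filter] at h1 h2
      exact absurd h1.2 (not_le.2 h2.2.1)
  have hstep : GV V B - GV V A ≤ (1 + κ) * gsS (PP y) A B := by
    rw [hdiff]
    have h1 : ∑ B' ∈ V.powerset with A < (pr B' : ℝ) ∧ (pr B' : ℝ) ≤ B, 1 / ph B' ≤
        ∑ B' ∈ V.powerset with A < (pr B' : ℝ) ∧ (pr B' : ℝ) ≤ B, (1 + κ) * (1 / (pr B' : ℝ)) := by
      refine sum_le_sum fun B' hB' => ?_
      rw [mem_filter, mem_powerset] at hB'
      have h1 := gs_ph_le (by linarith : 1 < y) (B := B') (fun p hp => hVP p (hB'.1 hp))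
      have h2 := gs_card (by linarith : 1 < y) hBN (hB'.1.trans hV) hB'.2.2
      have h3 : (B'.card : ℝ) / (y - 1) ≤ 2 / (ε * Real.log y) := by
        rw [div_le_div_iff₀ (by linarith) (by positivity)]
        rw [hL] at h2
        have h4 : (B'.card : ℝ) * (ε * Real.log y) ≤ y := by
          rw [le_div_iff₀ hε] at h2
          linarith
        linarith
      have h4 := (Real.exp_le_exp.2 h3).trans d2
      have h5 : (0 : ℝ) ≤ 1 / (pr B' : ℝ) := by positivity
      calc 1 / ph B' ≤ 1 / (pr B' : ℝ) * Real.exp (B'.card / (y - 1)) := h1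
        _ ≤ 1 / (pr B' : ℝ) * (1 + κ) := mul_le_mul_of_nonneg_left h4 h5
        _ = (1 + κ) * (1 / (pr B' : ℝ)) := mul_comm _ _
    refine h1.trans ?_
    rw [← mul_sum]
    refine mul_le_mul_of_nonneg_left ?_ (by linarith)
    have hinj : Set.InjOn (fun B' : Finset ℕ => pr B')
        (V.powerset.filter (fun B' => A < (pr B' : ℝ) ∧ (pr B' : ℝ) ≤ B) : Finset (Finset ℕ)) := by
      have key : ∀ B₁ B₂ : Finset ℕ, B₁ ⊆ V → B₂ ⊆ V → pr B₁ = pr B₂ → B₁ ⊆ B₂ := by
        intro B₁ B₂ h1 h2 he p hp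
        have hpp := (hVP p (h1 hp)).1
        have h3 : p ∣ pr B₂ := by
          rw [← he]
          exact dvd_prod_of_mem (fun p => p) hp
        obtain ⟨q, hq, hpq⟩ := (hpp.prime.dvd_finsetProd_iff _).1 h3
        have hqq := (hVP q (h2 hq)).1
        rw [(Nat.prime_dvd_prime_iff_eq hpp hqq).1 hpq]
        exact hq
      intro B₁ h1 B₂ h2 he
      rw [mem_coe, mem_filter, mem_powerset] at h1 h2
      exact Subset.antisymm (key B₁ B₂ h1.1 h2.1 he) (key B₂ B₁ h2.1 h1.1 he.symm)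
    have e2 : ∑ B' ∈ V.powerset with A < (pr B' : ℝ) ∧ (pr B' : ℝ) ≤ B, 1 / (pr B' : ℝ)
        = ∑ n ∈ (V.powerset.filter (fun B' => A < (pr B' : ℝ) ∧ (pr B' : ℝ) ≤ B)).image
          (fun B' : Finset ℕ => pr B'), 1 / (n : ℝ) := (sum_image (f := fun n : ℕ => 1 / (n : ℝ)) hinj).symm
    rw [e2]
    unfold gsS
    refine sum_le_sum_of_subset_of_nonneg ?_ fun n _ _ => by positivity
    intro n hn
    obtain ⟨B', hB', rfl⟩ := mem_image.1 hn
    rw [mem_filter, mem_powerset] at hB'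
    rw [mem_filter, mem_Ioc, Nat.floor_lt hA0.le, Nat.le_floor_iff (by linarith)]
    refine ⟨hB'.2, fun p hp hd => ?_⟩
    have hpp := hPP p hp
    obtain ⟨q, hq, hpq⟩ := (hpp.prime.dvd_finsetProd_iff _).1 hd
    have hqq := hVP q (hB'.1 hq)
    have e3 := (Nat.prime_dvd_prime_iff_eq hpp hqq.1).1 hpq
    have h6 : p ≤ ⌊y⌋₊ := by
      have := mem_range.1 (mem_filter.1 hp).1
      omega
    have h7 : (p : ℝ) ≤ y := (Nat.cast_le.2 h6).trans (Nat.floor_le (by linarith))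
    rw [e3] at h7
    linarith [hqq.2]
  -- conclusion
  have hlogBA : 0 ≤ Real.log (B / A) := Real.log_nonneg (by rw [le_div_iff₀ hA0]; linarith)
  have hk2 : (1 + κ) * (1 + κ) ≤ 1 + η := by nlinarith
  have hk4 : (1 + κ) * (1 + κ) ≤ 4 := by nlinarith
  have hwA : w / A ≤ (N : ℝ) ^ (-(c / 2)) := by
    rw [div_le_iff₀ hA0, hwd]
    calc (N : ℝ) ^ (c / 2) = (N : ℝ) ^ (-(c / 2)) * (N : ℝ) ^ c := by
          rw [← Real.rpow_add hN0]
          congr 1
          ring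
      _ ≤ (N : ℝ) ^ (-(c / 2)) * A :=
          mul_le_mul_of_nonneg_left hA (Real.rpow_nonneg hN0.le _)
  have hlast : 4 * (N : ℝ) ^ (-(c / 2)) ≤ (N : ℝ) ^ (-(c / 4)) := by
    calc 4 * (N : ℝ) ^ (-(c / 2)) ≤ (N : ℝ) ^ (c / 4) * (N : ℝ) ^ (-(c / 2)) :=
          mul_le_mul_of_nonneg_right d4 (Real.rpow_nonneg hN0.le _)
      _ = (N : ℝ) ^ (-(c / 4)) := by
          rw [← Real.rpow_add hN0]
          congr 1
          ring
  have hMP : (∏ p ∈ PP y, (1 - 1 / (p : ℝ))) = MP y := rfl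
  rw [hMP] at hS
  have hM1 := gs_mp_le y
  have hwA0 : 0 ≤ w / A := by positivity
  calc GV V B - GV V A ≤ (1 + κ) * gsS (PP y) A B := hstep
    _ ≤ (1 + κ) * ((1 + κ) * MP y * (w / A + Real.log (B / A))) :=
        mul_le_mul_of_nonneg_left hS (by linarith)
    _ = ((1 + κ) * (1 + κ)) * (MP y * Real.log (B / A)) + ((1 + κ) * (1 + κ)) * (MP y * (w / A)) := by
        ring
    _ ≤ (1 + η) * (MP y * Real.log (B / A)) + 4 * (1 * (N : ℝ) ^ (-(c / 2))) := by
        refine add_le_add (mul_le_mul_of_nonneg_right hk2 (by positivity)) ?_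
        refine mul_le_mul hk4 (mul_le_mul hM1 hwA hwA0 (by norm_num)) (by positivity) (by norm_num)
    _ ≤ (1 + η) * MP y * Real.log (B / A) + (N : ℝ) ^ (-(c / 4)) := by
        rw [one_mul, mul_assoc]
        linarith

end PGS
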