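import Pool.Agent.PGS.Gun
import Pool.Agent.PGS.Gsh
import Pool.Agent.PGS.Mer
import Pool.Agent.PGS.Sh

/-! PGS / Dq: the diagonal sums with a prime `q` dividing the second prime.

Let `R = N^κ`, `R' = N^(κ/2)`, `G = GV (V.erase q)`. For `B ⊆ V.erase q` (`pr (insert q B) = q pr B`)
`shM q (y1 N κ) B = 3 · 1[R / q < pr B ≤ R] + 2 · 1[R' / q < pr B ≤ R']`, hence
`dia = 9 (G(R) - G(R/q)) + 4 (G(R') - G(R'/q)) + 12 max(G(R') - G(R/q), 0)` (for `q ≤ R'` the last term is `0`, and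
`G(x) = 0` for `x < 1`). `V.erase q` misses at most `m + 1` primes of `VN`.
PROOF of `dq_small` (`q ≤ N^(κ/4)`): `g_short` with `c = κ / 4` for the intervals `(R/q, R]`, `(R'/q, R']`
(`R'/q ≥ N^(κ/4)`): `dia ≤ 13 ((1 + η') MP log q + N^(-κ/16))`.
PROOF of `dq_mid`, `dq_large`: `g_unif` (for `x < 1` use `G(x) = 0`, and `log x < 0`): `G(R) ≤ Γ (κ + η')`,
`G(R/q) ≥ Γ (κ - sz N q - η')` always, `G(R'/q) ≥ Γ (κ/2 - sz N q - η')`, so for `q ≤ R'`: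
`dia ≤ Γ (9 sz + 4 sz + 13 · 2 η')`; for `q > R'` (`sz > κ/2`): `dia ≤ Γ (9 sz + 4 κ/2 + 12 (sz - κ/2) + 50 η')
= Γ (21 sz - 4 κ + 50 η')` (if `G(R') - G(R/q) < 0` the last term is `0 ≤ 12 (sz - κ/2)`).
PROOF of `dq`. Split the primes `q < N^α` of `V` at `N^τ` and `N^(κ/2)`, `τ` small (`τ ≤ κ/4`, `13 τ ≤ η / 8`), then
choose `η'` small in terms of `τ`:
`q ≤ N^τ`: `∑ dia / (q - 1) ≤ 13 (1 + η') MP (τ log N + C) + 13 N^(-κ/16) (2 + log N)`, `MP log N = Γ`, (`mer_log`);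
`N^τ < q < N^(κ/2)`: `Γ (13 (κ/2 - τ + η') + η' (log (κ / (2 τ)) + 1))` by `mer_logV`, `mer_V`;
`N^(κ/2) ≤ q < N^α`: `Γ (21 (α - κ/2 + η') - (4 κ - 50 η') (log (2 α / κ) - η'))` by `mer_logV` and the lower bound in
`mer_V`. -/

set_option autoImplicit false

open Finset PGL

noncomputable section

namespace PGS

/-- the sum over the small primes `q` -/
def DQ (N : ℕ) (α κ : ℝ) (V : Finset ℕ) : ℝ :=
  ∑ q ∈ Vs N α V, dia (V.erase q) (shM q (y1 N κ)) (shM q (y1 N κ)) / ((q : ℝ) - 1)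

private theorem phpos {B : Finset ℕ} (hB : ∀ p ∈ B, p.Prime) : 0 < ph B := by
  refine prod_pos fun p hp => ?_
  have h2 : (2 : ℝ) ≤ p := by exact_mod_cast (hB p hp).two_le
  linarith

private theorem prpos {B : Finset ℕ} (hB : ∀ p ∈ B, p.Prime) : 0 < pr B :=
  prod_pos fun p hp => (hB p hp).pos

private theorem GVnonneg {V : Finset ℕ} (hV : ∀ p ∈ V, p.Prime) (R : ℝ) : 0 ≤ GV V R := by
  refine sum_nonneg fun B hB => ?_
  rw [mem_filter, mem_powerset] at hB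
  exact one_div_nonneg.2 (phpos fun p hp => hV p (hB.1 hp)).le

private theorem GVind (V : Finset ℕ) (R : ℝ) :
    GV V R = ∑ B ∈ V.powerset, (if (pr B : ℝ) ≤ R then (1 : ℝ) else 0) / ph B := by
  unfold GV
  rw [sum_filter]
  refine sum_congr rfl fun B _ => ?_
  split_ifs <;> simp

private theorem ysval {N : ℕ} (hN : 2 ≤ N) (b : ℝ) {B : Finset ℕ} (hB : ∀ p ∈ B, p.Prime) :
    ys N (-1) b B = if (pr B : ℝ) ≤ (N : ℝ) ^ b then 1 else 0 := by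
  unfold ys
  have h1 : (1 : ℝ) ≤ pr B := by exact_mod_cast prpos hB
  have h2 : (2 : ℝ) ≤ N := by exact_mod_cast hN
  have h3 : (N : ℝ) ^ (-1 : ℝ) < pr B := by
    rw [Real.rpow_neg_one]
    have : (N : ℝ)⁻¹ < 1 := inv_lt_one_of_one_lt₀ (by linarith)
    linarith
  simp only [h3, true_and]

private theorem y1val {N : ℕ} (hN : 2 ≤ N) (κ : ℝ) {B : Finset ℕ} (hB : ∀ p ∈ B, p.Prime) :
    y1 N κ B = 3 * (if (pr B : ℝ) ≤ (N : ℝ) ^ κ then 1 else 0) +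
      2 * (if (pr B : ℝ) ≤ (N : ℝ) ^ (κ / 2) then 1 else 0) := by
  unfold y1
  rw [ysval hN _ hB, ysval hN _ hB]

private theorem shval {N : ℕ} (hN : 2 ≤ N) (κ : ℝ) {B : Finset ℕ} (hB : ∀ p ∈ B, p.Prime) {q : ℕ}
    (hq : q.Prime) (hqB : q ∉ B) :
    shM q (y1 N κ) B = (3 * (if (pr B : ℝ) ≤ (N : ℝ) ^ κ then 1 else 0) +
      2 * (if (pr B : ℝ) ≤ (N : ℝ) ^ (κ / 2) then 1 else 0)) -
      (3 * (if (pr B : ℝ) ≤ (N : ℝ) ^ κ / q then 1 else 0) +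
      2 * (if (pr B : ℝ) ≤ (N : ℝ) ^ (κ / 2) / q then 1 else 0)) := by
  unfold shM
  have hq0 : (0 : ℝ) < q := by exact_mod_cast hq.pos
  have hB' : ∀ p ∈ insert q B, p.Prime := by
    intro p hp
    rcases mem_insert.1 hp with h | h
    · rw [h]
      exact hq
    · exact hB p h
  have h1 : (pr (insert q B) : ℝ) = q * pr B := by
    have : pr (insert q B) = q * pr B := prod_insert hqB
    rw [this]
    push_cast
    ring
  have h2 : ∀ R : ℝ, ((pr (insert q B) : ℝ) ≤ R) ↔ ((pr B : ℝ) ≤ R / q) := by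
    intro R
    rw [h1, le_div_iff₀ hq0, mul_comm]
  rw [y1val hN κ hB, y1val hN κ hB']
  simp only [h2]

private theorem sqA {P R R' A A' : ℝ} (h1 : R' ≤ A) (h2 : A ≤ R) (h3 : A' ≤ R') :
    ((3 * (if P ≤ R then (1 : ℝ) else 0) + 2 * (if P ≤ R' then (1 : ℝ) else 0)) -
      (3 * (if P ≤ A then (1 : ℝ) else 0) + 2 * (if P ≤ A' then (1 : ℝ) else 0))) *
    ((3 * (if P ≤ R then (1 : ℝ) else 0) + 2 * (if P ≤ R' then (1 : ℝ) else 0)) -
      (3 * (if P ≤ A then (1 : ℝ) else 0) + 2 * (if P ≤ A' then (1 : ℝ) else 0))) ≤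
    9 * ((if P ≤ R then (1 : ℝ) else 0) - (if P ≤ A then (1 : ℝ) else 0)) +
    4 * ((if P ≤ R' then (1 : ℝ) else 0) - (if P ≤ A' then (1 : ℝ) else 0)) := by
  split_ifs <;> first | (exfalso; linarith) | norm_num

private theorem sqB {P R R' A A' : ℝ} (h1 : A ≤ R') (h2 : R' ≤ R) (h3 : A' ≤ A) :
    ((3 * (if P ≤ R then (1 : ℝ) else 0) + 2 * (if P ≤ R' then (1 : ℝ) else 0)) -
      (3 * (if P ≤ A then (1 : ℝ) else 0) + 2 * (if P ≤ A' then (1 : ℝ) else 0))) *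
    ((3 * (if P ≤ R then (1 : ℝ) else 0) + 2 * (if P ≤ R' then (1 : ℝ) else 0)) -
      (3 * (if P ≤ A then (1 : ℝ) else 0) + 2 * (if P ≤ A' then (1 : ℝ) else 0))) ≤
    9 * ((if P ≤ R then (1 : ℝ) else 0) - (if P ≤ A then (1 : ℝ) else 0)) +
    4 * ((if P ≤ R' then (1 : ℝ) else 0) - (if P ≤ A' then (1 : ℝ) else 0)) +
    12 * ((if P ≤ R' then (1 : ℝ) else 0) - (if P ≤ A then (1 : ℝ) else 0)) := by
  split_ifs <;> first | (exfalso; linarith) | norm_num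

private theorem diaA {N : ℕ} (hN : 2 ≤ N) {κ : ℝ} {V : Finset ℕ}
    (hV : ∀ p ∈ V, p.Prime) {q : ℕ} (hq : q.Prime) (hqV : q ∉ V) (h : (q : ℝ) ≤ (N : ℝ) ^ (κ / 2)) :
    dia V (shM q (y1 N κ)) (shM q (y1 N κ)) ≤
      9 * (GV V ((N : ℝ) ^ κ) - GV V ((N : ℝ) ^ κ / q)) +
      4 * (GV V ((N : ℝ) ^ (κ / 2)) - GV V ((N : ℝ) ^ (κ / 2) / q)) := by
  have hN0 : (0 : ℝ) < N := by exact_mod_cast (by omega : 0 < N)
  have hq1 : (1 : ℝ) ≤ q := by exact_mod_cast hq.pos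
  have hRR : (N : ℝ) ^ κ = (N : ℝ) ^ (κ / 2) * (N : ℝ) ^ (κ / 2) := by
    rw [← Real.rpow_add hN0, add_halves]
  have hR'0 : 0 < (N : ℝ) ^ (κ / 2) := Real.rpow_pos_of_pos hN0 _
  have a1 : (N : ℝ) ^ (κ / 2) ≤ (N : ℝ) ^ κ / q := by
    rw [le_div_iff₀ (by linarith), hRR]
    exact mul_le_mul_of_nonneg_left h hR'0.le
  have a2 : (N : ℝ) ^ κ / q ≤ (N : ℝ) ^ κ := div_le_self (by positivity) hq1
  have a3 : (N : ℝ) ^ (κ / 2) / q ≤ (N : ℝ) ^ (κ / 2) := div_le_self hR'0.le hq1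
  rw [GVind, GVind, GVind, GVind]
  unfold dia
  rw [← sum_sub_distrib, ← sum_sub_distrib, mul_sum, mul_sum, ← sum_add_distrib]
  refine sum_le_sum fun B hB => ?_
  rw [mem_powerset] at hB
  have hB' : ∀ p ∈ B, p.Prime := fun p hp => hV p (hB hp)
  have hph := phpos hB'
  rw [shval hN κ hB' hq (fun h' => hqV (hB h'))]
  have h5 := sqA (P := (pr B : ℝ)) a1 a2 a3
  have h6 := div_le_div_of_nonneg_right h5 hph.le
  refine h6.trans (le_of_eq ?_)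
  ring

private theorem diaB {N : ℕ} (hN : 2 ≤ N) {κ : ℝ} (hκ : 0 < κ) {V : Finset ℕ}
    (hV : ∀ p ∈ V, p.Prime) {q : ℕ} (hq : q.Prime) (hqV : q ∉ V) (h : (N : ℝ) ^ (κ / 2) ≤ (q : ℝ)) :
    dia V (shM q (y1 N κ)) (shM q (y1 N κ)) ≤
      9 * (GV V ((N : ℝ) ^ κ) - GV V ((N : ℝ) ^ κ / q)) +
      4 * (GV V ((N : ℝ) ^ (κ / 2)) - GV V ((N : ℝ) ^ (κ / 2) / q)) +
      12 * (GV V ((N : ℝ) ^ (κ / 2)) - GV V ((N : ℝ) ^ κ / q)) := by
  have hN0 : (0 : ℝ) < N := by exact_mod_cast (by omega : 0 < N)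
  have hN1 : (1 : ℝ) ≤ N := by exact_mod_cast (by omega : 1 ≤ N)
  have hq1 : (1 : ℝ) ≤ q := by exact_mod_cast hq.pos
  have hRR : (N : ℝ) ^ κ = (N : ℝ) ^ (κ / 2) * (N : ℝ) ^ (κ / 2) := by
    rw [← Real.rpow_add hN0, add_halves]
  have hR'0 : 0 < (N : ℝ) ^ (κ / 2) := Real.rpow_pos_of_pos hN0 _
  have a0 : (N : ℝ) ^ (κ / 2) ≤ (N : ℝ) ^ κ := Real.rpow_le_rpow_of_exponent_le hN1 (by linarith)
  have a1 : (N : ℝ) ^ κ / q ≤ (N : ℝ) ^ (κ / 2) := by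
    rw [div_le_iff₀ (by linarith), hRR]
    exact mul_le_mul_of_nonneg_left h hR'0.le
  have a3 : (N : ℝ) ^ (κ / 2) / q ≤ (N : ℝ) ^ κ / q := div_le_div_of_nonneg_right a0 (by linarith)
  rw [GVind, GVind, GVind, GVind]
  unfold dia
  rw [← sum_sub_distrib, ← sum_sub_distrib, ← sum_sub_distrib, mul_sum, mul_sum, mul_sum,
    ← sum_add_distrib, ← sum_add_distrib]
  refine sum_le_sum fun B hB => ?_
  rw [mem_powerset] at hB
  have hB' : ∀ p ∈ B, p.Prime := fun p hp => hV p (hB hp)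
  have hph := phpos hB'
  rw [shval hN κ hB' hq (fun h' => hqV (hB h'))]
  have h5 := sqB (P := (pr B : ℝ)) a1 a0 a3
  have h6 := div_le_div_of_nonneg_right h5 hph.le
  refine h6.trans (le_of_eq ?_)
  ring

private theorem vnp {y : ℝ} {N : ℕ} : ∀ p ∈ VN y N, p.Prime ∧ y < (p : ℝ) := by
  intro p hp
  exact (mem_filter.1 hp).2

private theorem vnN {y : ℝ} {N p : ℕ} (hp : p ∈ VN y N) : p ≤ N := by
  have h := mem_range.1 (mem_filter.1 hp).1
  omega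

private theorem lrq {N q : ℕ} (hN : 2 ≤ N) (hq : 0 < q) (κ : ℝ) :
    Real.log ((N : ℝ) ^ κ / q) / Real.log N = κ - sz N q := by
  have hN0 : (0 : ℝ) < N := by exact_mod_cast (by omega : 0 < N)
  have hq0 : (0 : ℝ) < q := by exact_mod_cast hq
  have hl : 0 < Real.log N := Real.log_pos (by exact_mod_cast (by omega : 1 < N))
  rw [Real.log_div (Real.rpow_pos_of_pos hN0 _).ne' hq0.ne', Real.log_rpow hN0, sub_div,
    mul_div_assoc, div_self hl.ne', mul_one]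
  rfl

private theorem lr {N : ℕ} (hN : 2 ≤ N) (κ : ℝ) : Real.log ((N : ℝ) ^ κ) / Real.log N = κ := by
  have hN0 : (0 : ℝ) < N := by exact_mod_cast (by omega : 0 < N)
  have hl : 0 < Real.log N := Real.log_pos (by exact_mod_cast (by omega : 1 < N))
  rw [Real.log_rpow hN0, mul_div_assoc, div_self hl.ne', mul_one]

private theorem card_er {W V : Finset ℕ} {m q : ℕ} (h : (W \ V).card ≤ m) :
    (W \ (V.erase q)).card ≤ m + 1 := by
  have h1 : W \ (V.erase q) ⊆ insert q (W \ V) := by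
    intro p hp
    rw [mem_sdiff, mem_erase] at hp
    rw [mem_insert, mem_sdiff]
    by_cases h2 : p = q
    · exact Or.inl h2
    · exact Or.inr ⟨hp.1, fun h3 => hp.2 ⟨h2, h3⟩⟩
  exact (card_le_card h1).trans ((card_insert_le _ _).trans (by omega))

theorem dq_small (ε η κ : ℝ) (hε : 0 < ε) (hη : 0 < η) (hκ : 0 < κ) (hκ1 : κ ≤ 1) : ∃ N₀ : ℕ, ∀ N : ℕ,
    N₀ ≤ N → ∀ V : Finset ℕ, V ⊆ VN (ε * Real.log N) N → ∀ q ∈ V, (q : ℝ) ≤ (N : ℝ) ^ (κ / 4) →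
      dia (V.erase q) (shM q (y1 N κ)) (shM q (y1 N κ)) ≤
        13 * ((1 + η) * MP (ε * Real.log N) * Real.log q + (N : ℝ) ^ (-(κ / 16))) := by
  obtain ⟨N₀, hN₀⟩ := g_short ε (κ / 4) η hε (by linarith) hη
  refine ⟨max N₀ 2, fun N hN V hV q hq hqs => ?_⟩
  have hN2 : 2 ≤ N := (le_max_right _ _).trans hN
  have hg := hN₀ N ((le_max_left _ _).trans hN) (V.erase q) ((erase_subset _ _).trans hV)
  have hN0 : (0 : ℝ) < N := by exact_mod_cast (by omega : 0 < N)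
  have hN1 : (1 : ℝ) ≤ N := by exact_mod_cast (by omega : 1 ≤ N)
  have hqp : q.Prime := (vnp q (hV hq)).1
  have hq1 : (1 : ℝ) ≤ q := by exact_mod_cast hqp.pos
  have hVp : ∀ p ∈ V.erase q, p.Prime := fun p hp => (vnp p (hV (mem_of_mem_erase hp))).1
  have hR0 : 0 < (N : ℝ) ^ κ := Real.rpow_pos_of_pos hN0 _
  have hR'0 : 0 < (N : ℝ) ^ (κ / 2) := Real.rpow_pos_of_pos hN0 _
  have hT0 : 0 < (N : ℝ) ^ (κ / 4) := Real.rpow_pos_of_pos hN0 _
  have hTT : (N : ℝ) ^ (κ / 2) = (N : ℝ) ^ (κ / 4) * (N : ℝ) ^ (κ / 4) := by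
    rw [← Real.rpow_add hN0]
    congr 1
    ring
  have b1 : (N : ℝ) ^ (κ / 2) ≤ (N : ℝ) ^ κ := Real.rpow_le_rpow_of_exponent_le hN1 (by linarith)
  have b2 : (N : ℝ) ^ κ ≤ N := by
    conv_rhs => rw [← Real.rpow_one (N : ℝ)]
    exact Real.rpow_le_rpow_of_exponent_le hN1 hκ1
  have b3 : (N : ℝ) ^ (κ / 4) * q ≤ (N : ℝ) ^ (κ / 2) := by
    rw [hTT]
    exact mul_le_mul_of_nonneg_left hqs hT0.le
  have b4 : (N : ℝ) ^ (κ / 4) ≤ (N : ℝ) ^ (κ / 2) := Real.rpow_le_rpow_of_exponent_le hN1 (by linarith)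
  have g1 := hg ((N : ℝ) ^ κ / q) ((N : ℝ) ^ κ) (by rw [le_div_iff₀ (by linarith)]; linarith)
    (div_le_self hR0.le hq1) b2
  have g2 := hg ((N : ℝ) ^ (κ / 2) / q) ((N : ℝ) ^ (κ / 2)) (by rw [le_div_iff₀ (by linarith)]; linarith)
    (div_le_self hR'0.le hq1) (b1.trans b2)
  have e1 : (N : ℝ) ^ κ / ((N : ℝ) ^ κ / q) = q := by
    field_simp
  have e2 : (N : ℝ) ^ (κ / 2) / ((N : ℝ) ^ (κ / 2) / q) = q := by
    field_simp
  have e3 : κ / 4 / 4 = κ / 16 := by ring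
  rw [e1, e3] at g1
  rw [e2, e3] at g2
  have h1 := diaA hN2 hVp hqp (notMem_erase q V) (hqs.trans b4)
  linarith

theorem dq_mid (ε η κ : ℝ) (m : ℕ) (hε : 0 < ε) (hη : 0 < η) (hκ : 0 < κ) (hκ1 : κ ≤ 1) : ∃ N₀ : ℕ, ∀ N : ℕ,
    N₀ ≤ N → ∀ V : Finset ℕ, V ⊆ VN (ε * Real.log N) N → ((VN (ε * Real.log N) N) \ V).card ≤ m → ∀ q ∈ V,
      (q : ℝ) ≤ (N : ℝ) ^ (κ / 2) →
      dia (V.erase q) (shM q (y1 N κ)) (shM q (y1 N κ)) ≤ Gam ε N * (13 * sz N q + η) := by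
  obtain ⟨N₀, hN₀⟩ := g_unif ε (η / 26) (m + 1) hε (by linarith)
  refine ⟨max N₀ 2, fun N hN V hV hm q hq hqs => ?_⟩
  have hN2 : 2 ≤ N := (le_max_right _ _).trans hN
  have hg := hN₀ N ((le_max_left _ _).trans hN) (V.erase q) ((erase_subset _ _).trans hV) (card_er hm)
  have hN0 : (0 : ℝ) < N := by exact_mod_cast (by omega : 0 < N)
  have hN1 : (1 : ℝ) ≤ N := by exact_mod_cast (by omega : 1 ≤ N)
  have hqp : q.Prime := (vnp q (hV hq)).1
  have hq1 : (1 : ℝ) ≤ q := by exact_mod_cast hqp.pos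
  have hVp : ∀ p ∈ V.erase q, p.Prime := fun p hp => (vnp p (hV (mem_of_mem_erase hp))).1
  have hR0 : 0 < (N : ℝ) ^ κ := Real.rpow_pos_of_pos hN0 _
  have hR'0 : 0 < (N : ℝ) ^ (κ / 2) := Real.rpow_pos_of_pos hN0 _
  have b0 : (1 : ℝ) ≤ (N : ℝ) ^ (κ / 2) := Real.one_le_rpow hN1 (by linarith)
  have b1 : (N : ℝ) ^ (κ / 2) ≤ (N : ℝ) ^ κ := Real.rpow_le_rpow_of_exponent_le hN1 (by linarith)
  have b2 : (N : ℝ) ^ κ ≤ N := by
    conv_rhs => rw [← Real.rpow_one (N : ℝ)]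
    exact Real.rpow_le_rpow_of_exponent_le hN1 hκ1
  have b3 : (N : ℝ) ^ κ / q ≤ (N : ℝ) ^ κ := div_le_self hR0.le hq1
  have b4 : (N : ℝ) ^ (κ / 2) / q ≤ (N : ℝ) ^ (κ / 2) := div_le_self hR'0.le hq1
  have b5 : (1 : ℝ) ≤ (N : ℝ) ^ (κ / 2) / q := by
    rw [le_div_iff₀ (by linarith), one_mul]
    exact hqs
  have b6 : (N : ℝ) ^ (κ / 2) / q ≤ (N : ℝ) ^ κ / q := div_le_div_of_nonneg_right b1 (by linarith)
  have g1 := abs_le.1 (hg ((N : ℝ) ^ κ) (b0.trans b1) b2)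
  have g2 := abs_le.1 (hg ((N : ℝ) ^ κ / q) (b5.trans b6) (b3.trans b2))
  have g3 := abs_le.1 (hg ((N : ℝ) ^ (κ / 2)) b0 (b1.trans b2))
  have g4 := abs_le.1 (hg ((N : ℝ) ^ (κ / 2) / q) b5 (b4.trans (b1.trans b2)))
  rw [lr hN2] at g1 g3
  rw [lrq hN2 hqp.pos] at g2 g4
  have h1 := diaA hN2 hVp hqp (notMem_erase q V) hqs
  linarith [g1.2, g2.1, g3.2, g4.1]

theorem dq_large (ε η κ : ℝ) (m : ℕ) (hε : 0 < ε) (hη : 0 < η) (hκ : 0 < κ) (hκ1 : κ ≤ 1) : ∃ N₀ : ℕ, ∀ N : ℕ,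
    N₀ ≤ N → ∀ V : Finset ℕ, V ⊆ VN (ε * Real.log N) N → ((VN (ε * Real.log N) N) \ V).card ≤ m → ∀ q ∈ V,
      (N : ℝ) ^ (κ / 2) ≤ (q : ℝ) →
      dia (V.erase q) (shM q (y1 N κ)) (shM q (y1 N κ)) ≤ Gam ε N * (21 * sz N q - 4 * κ + η) := by
  obtain ⟨N₀, hN₀⟩ := g_unif ε (η / 50) (m + 1) hε (by linarith)
  refine ⟨max N₀ 2, fun N hN V hV hm q hq hqs => ?_⟩
  have hN2 : 2 ≤ N := (le_max_right _ _).trans hN
  have hg := hN₀ N ((le_max_left _ _).trans hN) (V.erase q) ((erase_subset _ _).trans hV) (card_er hm)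
  have hN0 : (0 : ℝ) < N := by exact_mod_cast (by omega : 0 < N)
  have hN1 : (1 : ℝ) ≤ N := by exact_mod_cast (by omega : 1 ≤ N)
  have hlN : 0 < Real.log N := Real.log_pos (by exact_mod_cast (by omega : 1 < N))
  have hΓ : 0 ≤ Gam ε N := mul_nonneg (MP_pos _).le hlN.le
  have hqp : q.Prime := (vnp q (hV hq)).1
  have hq1 : (1 : ℝ) ≤ q := by exact_mod_cast hqp.pos
  have hVp : ∀ p ∈ V.erase q, p.Prime := fun p hp => (vnp p (hV (mem_of_mem_erase hp))).1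
  have hR0 : 0 < (N : ℝ) ^ κ := Real.rpow_pos_of_pos hN0 _
  have hR'0 : 0 < (N : ℝ) ^ (κ / 2) := Real.rpow_pos_of_pos hN0 _
  have b0 : (1 : ℝ) ≤ (N : ℝ) ^ (κ / 2) := Real.one_le_rpow hN1 (by linarith)
  have b1 : (N : ℝ) ^ (κ / 2) ≤ (N : ℝ) ^ κ := Real.rpow_le_rpow_of_exponent_le hN1 (by linarith)
  have b2 : (N : ℝ) ^ κ ≤ N := by
    conv_rhs => rw [← Real.rpow_one (N : ℝ)]
    exact Real.rpow_le_rpow_of_exponent_le hN1 hκ1
  have b3 : (N : ℝ) ^ κ / q ≤ (N : ℝ) ^ κ := div_le_self hR0.le hq1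
  have g1 := abs_le.1 (hg ((N : ℝ) ^ κ) (b0.trans b1) b2)
  have g3 := abs_le.1 (hg ((N : ℝ) ^ (κ / 2)) b0 (b1.trans b2))
  rw [lr hN2] at g1 g3
  have g4 := GVnonneg hVp ((N : ℝ) ^ (κ / 2) / q)
  have g2 : Gam ε N * (κ - sz N q) - η / 50 * Gam ε N ≤ GV (V.erase q) ((N : ℝ) ^ κ / q) := by
    by_cases hc : (1 : ℝ) ≤ (N : ℝ) ^ κ / q
    · have h1 := abs_le.1 (hg ((N : ℝ) ^ κ / q) hc (b3.trans b2))
      rw [lrq hN2 hqp.pos] at h1
      linarith [h1.1]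
    · have h1 := GVnonneg hVp ((N : ℝ) ^ κ / q)
      have h2 : κ - sz N q ≤ 0 := by
        rw [← lrq hN2 hqp.pos]
        refine div_nonpos_of_nonpos_of_nonneg (Real.log_nonpos (by positivity) (not_le.1 hc).le) hlN.le
      have h3 := mul_nonpos_of_nonneg_of_nonpos hΓ h2
      have h4 : 0 ≤ η / 50 * Gam ε N := by positivity
      linarith
  have h1 := diaB hN2 hκ hVp hqp (notMem_erase q V) hqs
  linarith [g1.2, g3.2, mul_nonneg hη.le hΓ]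

theorem DQ_nonneg {N : ℕ} {α κ : ℝ} {V : Finset ℕ} (hV : ∀ p ∈ V, p.Prime) : 0 ≤ DQ N α κ V := by
  unfold DQ
  refine sum_nonneg fun q hq => ?_
  have hqp := hV q (mem_Vs.1 hq).1
  have hq2 : (2 : ℝ) ≤ q := by exact_mod_cast hqp.two_le
  refine div_nonneg ?_ (by linarith)
  unfold dia
  refine sum_nonneg fun B hB => ?_
  rw [mem_powerset] at hB
  exact div_nonneg (mul_self_nonneg _) (phpos fun p hp => hV p (mem_of_mem_erase (hB hp))).le

theorem dq (ε η α κ : ℝ) (m : ℕ) (hε : 0 < ε) (hη : 0 < η) (hκ : 0 < κ) (hκα : κ ≤ α) (hα1 : α ≤ 1) :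
    ∃ N₀ : ℕ, ∀ N : ℕ, N₀ ≤ N → ∀ V : Finset ℕ, V ⊆ VN (ε * Real.log N) N →
      ((VN (ε * Real.log N) N) \ V).card ≤ m →
      DQ N α κ V ≤ Gam ε N *
        (13 * (κ / 2) + 21 * (α - κ / 2) - 4 * κ * Real.log (2 * α / κ) + η) := by
  have hκ1 : κ ≤ 1 := hκα.trans hα1
  have hα0 : 0 < α := hκ.trans_le hκα
  obtain ⟨C, hC, hlogC⟩ := mer_log
  obtain ⟨τ, hτ0, hτκ, hτη⟩ : ∃ τ : ℝ, 0 < τ ∧ τ ≤ κ / 4 ∧ 208 * τ ≤ η :=
    ⟨min (κ / 4) (η / 208), lt_min (by linarith) (by linarith), min_le_left _ _, by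
      have := min_le_right (κ / 4) (η / 208)
      linarith⟩
  have hl1 : 0 ≤ Real.log (κ / 2 / τ) := Real.log_nonneg (by
    rw [le_div_iff₀ hτ0]
    linarith)
  have hl2 : 0 ≤ Real.log (α / (κ / 2)) := Real.log_nonneg (by
    rw [le_div_iff₀ (by linarith)]
    linarith)
  have hl2' : Real.log (2 * α / κ) = Real.log (α / (κ / 2)) := by
    congr 1
    field_simp
  rw [hl2']
  set l1 := Real.log (κ / 2 / τ) with hl1d
  set l2 := Real.log (α / (κ / 2)) with hl2d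
  obtain ⟨η', hη'0, hη'κ, hη'η⟩ : ∃ η' : ℝ, 0 < η' ∧ η' ≤ 4 * κ ∧ η' * (8 * (l1 + l2 + 2)) ≤ η := by
    have h0 : 0 < 8 * (l1 + l2 + 2) := by linarith
    refine ⟨min (4 * κ) (η / (8 * (l1 + l2 + 2))), lt_min (by linarith) (div_pos hη h0),
      min_le_left _ _, ?_⟩
    have := min_le_right (4 * κ) (η / (8 * (l1 + l2 + 2)))
    rw [le_div_iff₀ h0] at this
    exact this
  obtain ⟨θ, hθ0, hθ1, hθη⟩ : ∃ θ : ℝ, 0 < θ ∧ θ ≤ 1 ∧ 304 * θ ≤ η :=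
    ⟨min 1 (η / 304), lt_min one_pos (by linarith), min_le_left _ _, by
      have := min_le_right 1 (η / 304)
      linarith⟩
  obtain ⟨N₁, h1⟩ := dq_small ε 1 κ hε one_pos hκ hκ1
  obtain ⟨N₂, h2⟩ := dq_mid ε η' κ m hε hη'0 hκ hκ1
  obtain ⟨N₃, h3⟩ := dq_large ε η' κ m hε hη'0 hκ hκ1
  obtain ⟨N₄, h4⟩ := mer_logV θ τ (κ / 2) hθ0 hτ0.le (by linarith)
  obtain ⟨N₅, h5⟩ := mer_V ε θ τ (κ / 2) m hθ0 hτ0 (by linarith) (by linarith)
  obtain ⟨N₆, h6⟩ := mer_logV θ (κ / 2) α hθ0 (by linarith) (by linarith)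
  obtain ⟨N₇, h7⟩ := mer_V ε θ (κ / 2) α m hθ0 (by linarith) (by linarith) hα1
  obtain ⟨N₈, h8⟩ := Gam_ge ε hε
  obtain ⟨N₉, h9⟩ : ∃ N₉ : ℕ, ∀ N : ℕ, N₉ ≤ N →
      (N : ℝ) ^ (-(κ / 16)) * (τ * Real.log N + C) ≤ η / (208 * ε) ∧ 208 * C / η ≤ Real.log N := by
    have hlog : Filter.Tendsto (fun N : ℕ => Real.log (N : ℝ)) Filter.atTop Filter.atTop :=
      Real.tendsto_log_atTop.comp tendsto_natCast_atTop_atTop
    have t1 : Filter.Tendsto (fun N : ℕ => Real.log (N : ℝ) / (N : ℝ) ^ (κ / 16)) Filter.atTop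
        (nhds 0) :=
      ((isLittleO_log_rpow_atTop (by linarith : 0 < κ / 16)).tendsto_div_nhds_zero).comp
        tendsto_natCast_atTop_atTop
    have t2 : Filter.Tendsto (fun N : ℕ => ((N : ℝ) ^ (κ / 16))⁻¹) Filter.atTop (nhds 0) :=
      tendsto_inv_atTop_zero.comp
        ((tendsto_rpow_atTop (by linarith : 0 < κ / 16)).comp tendsto_natCast_atTop_atTop)
    have t3 : Filter.Tendsto (fun N : ℕ => τ * (Real.log (N : ℝ) / (N : ℝ) ^ (κ / 16)) +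
        C * ((N : ℝ) ^ (κ / 16))⁻¹) Filter.atTop (nhds 0) := by
      have := (t1.const_mul τ).add (t2.const_mul C)
      simpa using this
    have h0 : 0 < η / (208 * ε) := by positivity
    obtain ⟨M, hM⟩ := Filter.eventually_atTop.1 ((t3.eventually_le_const h0).and
      (hlog.eventually_ge_atTop (208 * C / η)))
    refine ⟨M, fun N hN => ?_⟩
    obtain ⟨m1, m2⟩ := hM N hN
    refine ⟨?_, m2⟩
    rw [Real.rpow_neg (by positivity)]
    refine le_trans (le_of_eq ?_) m1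
    ring
  refine ⟨max (max (max N₁ N₂) (max N₃ N₄)) (max (max (max N₅ N₆) (max N₇ N₈)) (max N₉ 2)),
    fun N hN V hV hm => ?_⟩
  have k1 : N₁ ≤ N := le_trans (by simp) hN
  have k2 : N₂ ≤ N := le_trans (by simp) hN
  have k3 : N₃ ≤ N := le_trans (by simp) hN
  have k4 : N₄ ≤ N := le_trans (by simp) hN
  have k5 : N₅ ≤ N := le_trans (by simp) hN
  have k6 : N₆ ≤ N := le_trans (by simp) hN
  have k7 : N₇ ≤ N := le_trans (by simp) hN
  have k8 : N₈ ≤ N := le_trans (by simp) hN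
  have k9 : N₉ ≤ N := le_trans (by simp) hN
  have k10 : 2 ≤ N := le_trans (by simp) hN
  have hN1 : (1 : ℝ) ≤ N := by exact_mod_cast (by omega : 1 ≤ N)
  have hlN : 0 < Real.log N := Real.log_pos (by exact_mod_cast (by omega : 1 < N))
  have hMP := MP_pos (ε * Real.log N)
  have hΓd : Gam ε N = MP (ε * Real.log N) * Real.log N := rfl
  have hΓ : 0 ≤ Gam ε N := mul_nonneg hMP.le hlN.le
  have hVp : ∀ p ∈ V, p.Prime := fun p hp => (vnp p (hV hp)).1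
  set f : ℕ → ℝ := fun q => dia (V.erase q) (shM q (y1 N κ)) (shM q (y1 N κ)) / ((q : ℝ) - 1) with hf
  -- splitting
  have hsplit : DQ N α κ V = ∑ q ∈ V.filter (fun q : ℕ => (q : ℝ) < (N : ℝ) ^ τ), f q +
      (∑ q ∈ PR N τ (κ / 2) V, f q + ∑ q ∈ PR N (κ / 2) α V, f q) := by
    have s1 : (N : ℝ) ^ τ ≤ (N : ℝ) ^ (κ / 2) := Real.rpow_le_rpow_of_exponent_le hN1 (by linarith)
    have s2 : (N : ℝ) ^ (κ / 2) ≤ (N : ℝ) ^ α := Real.rpow_le_rpow_of_exponent_le hN1 (by linarith)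
    unfold DQ
    rw [← sum_filter_add_sum_filter_not (Vs N α V) (fun q : ℕ => (q : ℝ) < (N : ℝ) ^ τ)]
    rw [← sum_filter_add_sum_filter_not ((Vs N α V).filter (fun q : ℕ => ¬ (q : ℝ) < (N : ℝ) ^ τ))
      (fun q : ℕ => (q : ℝ) < (N : ℝ) ^ (κ / 2))]
    congr 1
    · refine sum_congr ?_ fun _ _ => rfl
      ext q
      rw [mem_filter, mem_filter, mem_Vs]
      constructor
      · rintro ⟨⟨a1, _⟩, a3⟩
        exact ⟨a1, a3⟩
      · rintro ⟨a1, a3⟩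
        exact ⟨⟨a1, by linarith⟩, a3⟩
    · congr 1
      · refine sum_congr ?_ fun _ _ => rfl
        ext q
        rw [mem_filter, mem_filter, mem_Vs, mem_PR, not_lt]
        constructor
        · rintro ⟨⟨⟨a1, _⟩, a3⟩, a4⟩
          exact ⟨a1, a3, a4⟩
        · rintro ⟨a1, a3, a4⟩
          exact ⟨⟨⟨a1, by linarith⟩, a3⟩, a4⟩
      · refine sum_congr ?_ fun _ _ => rfl
        ext q
        rw [mem_filter, mem_filter, mem_Vs, mem_PR, not_lt, not_lt]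
        constructor
        · rintro ⟨⟨⟨a1, a2⟩, _⟩, a4⟩
          exact ⟨a1, a4, a2⟩
        · rintro ⟨a1, a3, a4⟩
          exact ⟨⟨⟨a1, a4⟩, by linarith⟩, a3⟩
  rw [hsplit]
  -- the small primes
  have hS0 : ∑ q ∈ V.filter (fun q : ℕ => (q : ℝ) < (N : ℝ) ^ τ), f q ≤ Gam ε N * (3 * η / 8) := by
    have s1 : (N : ℝ) ^ τ ≤ (N : ℝ) ^ (κ / 4) := Real.rpow_le_rpow_of_exponent_le hN1 hτκ
    have a1 : ∀ q ∈ V.filter (fun q : ℕ => (q : ℝ) < (N : ℝ) ^ τ), f q ≤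
        26 * (MP (ε * Real.log N) + (N : ℝ) ^ (-(κ / 16))) * (Real.log q / ((q : ℝ) - 1)) := by
      intro q hq
      rw [mem_filter] at hq
      have b1 := h1 N k1 V hV q hq.1 (by linarith [hq.2])
      have hq2 : (2 : ℝ) ≤ q := by exact_mod_cast (hVp q hq.1).two_le
      have hq1 : (0 : ℝ) < (q : ℝ) - 1 := by linarith
      have b2 : (1 : ℝ) / 2 ≤ Real.log q := by
        have c1 : Real.log 2 ≤ Real.log q := Real.log_le_log (by norm_num) hq2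
        have c2 := Real.log_two_gt_d9
        linarith
      have b3 : 0 < (N : ℝ) ^ (-(κ / 16)) := Real.rpow_pos_of_pos (by linarith) _
      rw [hf]
      simp only
      rw [← mul_div_assoc]
      refine div_le_div_of_nonneg_right (b1.trans ?_) hq1.le
      linarith [mul_nonneg b3.le (sub_nonneg.2 b2)]
    have a2 := sum_le_sum a1
    rw [← mul_sum] at a2
    have a3 := hlogC ((N : ℝ) ^ τ) (Real.one_le_rpow hN1 hτ0.le)
      (V.filter (fun q : ℕ => (q : ℝ) < (N : ℝ) ^ τ)) (fun p hp => by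
        rw [mem_filter] at hp
        exact ⟨hVp p hp.1, hp.2.le⟩)
    rw [Real.log_rpow (by linarith)] at a3
    have b3 : 0 < (N : ℝ) ^ (-(κ / 16)) := Real.rpow_pos_of_pos (by linarith) _
    have a4 : 26 * (MP (ε * Real.log N) + (N : ℝ) ^ (-(κ / 16))) *
        (∑ q ∈ V.filter (fun q : ℕ => (q : ℝ) < (N : ℝ) ^ τ), Real.log q / ((q : ℝ) - 1)) ≤
        26 * (MP (ε * Real.log N) + (N : ℝ) ^ (-(κ / 16))) * (τ * Real.log N + C) :=
      mul_le_mul_of_nonneg_left a3 (by positivity)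
    obtain ⟨c1, c2⟩ := h9 N k9
    have c3 := h8 N k8
    have c4 : 26 * ((N : ℝ) ^ (-(κ / 16)) * (τ * Real.log N + C)) ≤ Gam ε N * (η / 8) := by
      have d1 : η / (208 * ε) = 1 / ε * (η / 208) := by
        field_simp
      rw [d1] at c1
      have d2 : 1 / ε * (η / 208) ≤ Gam ε N * (η / 208) :=
        mul_le_mul_of_nonneg_right c3 (by linarith)
      linarith
    have c5 : 26 * (MP (ε * Real.log N) * (τ * Real.log N)) ≤ Gam ε N * (η / 8) := by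
      have d1 : MP (ε * Real.log N) * (τ * Real.log N) = Gam ε N * τ := by
        rw [hΓd]
        ring
      rw [d1]
      have d2 := mul_le_mul_of_nonneg_left hτη hΓ
      linarith
    have c6 : 26 * (MP (ε * Real.log N) * C) ≤ Gam ε N * (η / 8) := by
      rw [div_le_iff₀ hη] at c2
      have d1 : MP (ε * Real.log N) * (208 * C) ≤ MP (ε * Real.log N) * (Real.log N * η) :=
        mul_le_mul_of_nonneg_left c2 hMP.le
      rw [hΓd]
      linarith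
    linarith
  -- the primes in the middle
  have hS1 : ∑ q ∈ PR N τ (κ / 2) V, f q ≤ Gam ε N * (13 * (κ / 2 - τ + θ) + η' * (l1 + θ)) := by
    have a1 : ∀ q ∈ PR N τ (κ / 2) V, f q ≤ Gam ε N * (13 / Real.log N *
        (Real.log q / ((q : ℝ) - 1)) + η' * (1 / ((q : ℝ) - 1))) := by
      intro q hq
      rw [mem_PR] at hq
      have b1 := h2 N k2 V hV hm q hq.1 hq.2.2.le
      have hq2 : (2 : ℝ) ≤ q := by exact_mod_cast (hVp q hq.1).two_le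
      have hq1 : (0 : ℝ) < (q : ℝ) - 1 := by linarith
      rw [hf]
      simp only
      refine (div_le_div_of_nonneg_right b1 hq1.le).trans (le_of_eq ?_)
      unfold sz
      ring
    have a2 := sum_le_sum a1
    rw [← mul_sum, sum_add_distrib, ← mul_sum, ← mul_sum] at a2
    have a3 := h4 N k4 V hVp
    have a4 := (abs_le.1 (h5 N k5 V hV hm).1).2
    have a5 : 13 / Real.log N * ∑ p ∈ PR N τ (κ / 2) V, Real.log p / ((p : ℝ) - 1) ≤
        13 * (κ / 2 - τ + θ) := by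
      have c1 : 13 / Real.log N * ∑ p ∈ PR N τ (κ / 2) V, Real.log p / ((p : ℝ) - 1) ≤
          13 / Real.log N * ((κ / 2 - τ + θ) * Real.log N) :=
        mul_le_mul_of_nonneg_left a3 (by positivity)
      refine c1.trans (le_of_eq ?_)
      field_simp
    have a6 : η' * ∑ p ∈ PR N τ (κ / 2) V, 1 / ((p : ℝ) - 1) ≤ η' * (l1 + θ) :=
      mul_le_mul_of_nonneg_left (by linarith) hη'0.le
    exact a2.trans (mul_le_mul_of_nonneg_left (add_le_add a5 a6) hΓ)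
  -- the large primes
  have hS2 : ∑ q ∈ PR N (κ / 2) α V, f q ≤
      Gam ε N * (21 * (α - κ / 2 + θ) - (4 * κ - η') * (l2 - θ)) := by
    have a1 : ∀ q ∈ PR N (κ / 2) α V, f q ≤ Gam ε N * (21 / Real.log N *
        (Real.log q / ((q : ℝ) - 1)) - (4 * κ - η') * (1 / ((q : ℝ) - 1))) := by
      intro q hq
      rw [mem_PR] at hq
      have b1 := h3 N k3 V hV hm q hq.1 hq.2.1
      have hq2 : (2 : ℝ) ≤ q := by exact_mod_cast (hVp q hq.1).two_le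
      have hq1 : (0 : ℝ) < (q : ℝ) - 1 := by linarith
      rw [hf]
      simp only
      refine (div_le_div_of_nonneg_right b1 hq1.le).trans (le_of_eq ?_)
      unfold sz
      ring
    have a2 := sum_le_sum a1
    rw [← mul_sum, sum_sub_distrib, ← mul_sum, ← mul_sum] at a2
    have a3 := h6 N k6 V hVp
    have a4 := (abs_le.1 (h7 N k7 V hV hm).1).1
    have a5 : 21 / Real.log N * ∑ p ∈ PR N (κ / 2) α V, Real.log p / ((p : ℝ) - 1) ≤
        21 * (α - κ / 2 + θ) := by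
      have c1 : 21 / Real.log N * ∑ p ∈ PR N (κ / 2) α V, Real.log p / ((p : ℝ) - 1) ≤
          21 / Real.log N * ((α - κ / 2 + θ) * Real.log N) :=
        mul_le_mul_of_nonneg_left a3 (by positivity)
      refine c1.trans (le_of_eq ?_)
      field_simp
    have a6 : (4 * κ - η') * (l2 - θ) ≤ (4 * κ - η') * ∑ p ∈ PR N (κ / 2) α V, 1 / ((p : ℝ) - 1) :=
      mul_le_mul_of_nonneg_left (by linarith) (by linarith)
    exact a2.trans (mul_le_mul_of_nonneg_left (sub_le_sub a5 a6) hΓ)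
  have hfin : 3 * η / 8 + (13 * (κ / 2 - τ + θ) + η' * (l1 + θ)) +
      (21 * (α - κ / 2 + θ) - (4 * κ - η') * (l2 - θ)) ≤
      13 * (κ / 2) + 21 * (α - κ / 2) - 4 * κ * l2 + η := by
    have d1 : η' * θ ≤ η' := mul_le_of_le_one_right hη'0.le hθ1
    have d2 : κ * θ ≤ θ := mul_le_of_le_one_left hθ0.le hκ1
    have d3 : 0 ≤ η' * θ := by positivity
    linarith
  have hfin2 := mul_le_mul_of_nonneg_left hfin hΓ
  linarith

end PGS
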