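import Pool.Agent.PGL.E2

/-! PGS / E2w: the window form of PGL / E2: an invariant mean which sees the density of an open set in arbitrary
windows `[a, a + T]`. The points `i / m_j` are replaced by `r_j + i / m_j` with a rational number `r_j` near `a_j`. -/

set_option autoImplicit false

open Finset MeasureTheory Filter PGL

noncomputable section

namespace PGS

private theorem tele (F : ℤ → ℝ) (n : ℕ) :
    ∑ i ∈ Finset.Icc 1 n, F ((i : ℤ) + 1) - ∑ i ∈ Finset.Icc 1 n, F (i : ℤ) = F ((n : ℤ) + 1) - F 1 := by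
  induction n with
  | zero => simp
  | succ n ih =>
    rw [Finset.sum_Icc_succ_top (by omega), Finset.sum_Icc_succ_top (by omega)]
    push_cast
    linarith

private theorem shift_nat (C : ℝ) (n k : ℕ) : ∀ F : ℤ → ℝ, (∀ x, |F x| ≤ C) →
    |∑ i ∈ Finset.Icc 1 n, F ((i : ℤ) + k) - ∑ i ∈ Finset.Icc 1 n, F (i : ℤ)| ≤ 2 * C * k := by
  induction k with
  | zero =>
    intro F hF
    simp
  | succ k ih =>
    intro F hF
    have h1 := ih F hF
    have h2 := tele (fun x => F (x + k)) n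
    have e1 : ∑ i ∈ Finset.Icc 1 n, F ((i : ℤ) + ((k + 1 : ℕ) : ℤ)) =
        ∑ i ∈ Finset.Icc 1 n, F ((i : ℤ) + 1 + k) := by
      apply Finset.sum_congr rfl
      intro i _
      congr 1
      push_cast
      ring
    rw [e1]
    have h3 : |F ((n : ℤ) + 1 + k) - F (1 + k)| ≤ 2 * C := by
      calc |F ((n : ℤ) + 1 + k) - F (1 + k)| ≤ |F ((n : ℤ) + 1 + k)| + |F (1 + k)| := abs_sub _ _
        _ ≤ 2 * C := by linarith [hF ((n : ℤ) + 1 + k), hF (1 + k)]
    have h4 : ∑ i ∈ Finset.Icc 1 n, F ((i : ℤ) + 1 + k) - ∑ i ∈ Finset.Icc 1 n, F (i : ℤ) =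
        (F ((n : ℤ) + 1 + k) - F (1 + k)) +
          (∑ i ∈ Finset.Icc 1 n, F ((i : ℤ) + k) - ∑ i ∈ Finset.Icc 1 n, F (i : ℤ)) := by
      linarith
    rw [h4]
    calc _ ≤ |F ((n : ℤ) + 1 + k) - F (1 + k)| +
          |∑ i ∈ Finset.Icc 1 n, F ((i : ℤ) + k) - ∑ i ∈ Finset.Icc 1 n, F (i : ℤ)| := abs_add_le _ _
      _ ≤ 2 * C + 2 * C * k := add_le_add h3 h1
      _ = 2 * C * ((k + 1 : ℕ) : ℝ) := by
        push_cast
        ring

private theorem shift_int (C : ℝ) (n : ℕ) (w : ℤ) (F : ℤ → ℝ) (hF : ∀ x, |F x| ≤ C) :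
    |∑ i ∈ Finset.Icc 1 n, F ((i : ℤ) + w) - ∑ i ∈ Finset.Icc 1 n, F (i : ℤ)| ≤ 2 * C * |(w : ℝ)| := by
  rcases le_total 0 w with hw | hw
  · obtain ⟨k, rfl⟩ := Int.eq_ofNat_of_zero_le hw
    have := shift_nat C n k F hF
    have e : |(((k : ℕ) : ℤ) : ℝ)| = (k : ℝ) := by
      rw [Int.cast_natCast, abs_of_nonneg (Nat.cast_nonneg _)]
    rw [e]
    exact this
  · obtain ⟨k, hk⟩ := Int.eq_ofNat_of_zero_le (by omega : 0 ≤ -w)
    have := shift_nat C n k (fun x => F (x + w)) (fun x => hF _)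
    have e : |(w : ℝ)| = (k : ℝ) := by
      have : w = -(k : ℤ) := by omega
      rw [this]
      push_cast
      rw [abs_neg, abs_of_nonneg (Nat.cast_nonneg _)]
    rw [e]
    have e1 : ∑ i ∈ Finset.Icc 1 n, F ((i : ℤ) + k + w) = ∑ i ∈ Finset.Icc 1 n, F (i : ℤ) := by
      apply Finset.sum_congr rfl
      intro i _
      congr 1
      omega
    rw [abs_sub_comm]
    rw [← e1]
    exact this

private theorem win_shift (O : Set ℝ) (a T r e c : ℝ) (h1 : a < r) (h2 : r ≤ a + e)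
    (h3 : c * T ≤ (volume (O ∩ Set.Icc a (a + T))).toReal) :
    c * T - e ≤ (volume ({x : ℝ | x + r ∈ O} ∩ Set.Icc 0 T)).toReal := by
  have e1 : volume ({x : ℝ | x + r ∈ O} ∩ Set.Icc 0 T) = volume (O ∩ Set.Icc r (r + T)) := by
    have h4 : {x : ℝ | x + r ∈ O} ∩ Set.Icc 0 T = (fun x => x + r) ⁻¹' (O ∩ Set.Icc r (r + T)) := by
      ext x
      simp only [Set.mem_inter_iff, Set.mem_preimage, Set.mem_Icc]
      constructor
      · rintro ⟨h5, h6, h7⟩
        exact ⟨h5, by linarith, by linarith⟩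
      · rintro ⟨h5, h6, h7⟩
        exact ⟨h5, by linarith, by linarith⟩
    rw [h4]
    exact measure_preimage_add_right _ _ _
  rw [e1]
  have hfin : ∀ b d : ℝ, volume (O ∩ Set.Icc b d) ≠ ⊤ := fun b d =>
    ((measure_mono Set.inter_subset_right).trans_lt measure_Icc_lt_top).ne
  have h4 : volume (O ∩ Set.Icc a (a + T)) ≤ volume (Set.Icc a r) + volume (O ∩ Set.Icc r (r + T)) := by
    refine (measure_mono ?_).trans (measure_union_le _ _)
    intro x hx
    rcases le_total x r with hxr | hxr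
    · exact Or.inl ⟨hx.2.1, hxr⟩
    · exact Or.inr ⟨hx.1, hxr, by linarith [hx.2.2]⟩
  have h5 := ENNReal.toReal_mono (ENNReal.add_ne_top.2 ⟨measure_Icc_lt_top.ne, hfin _ _⟩) h4
  rw [ENNReal.toReal_add measure_Icc_lt_top.ne (hfin _ _), Real.volume_Icc,
    ENNReal.toReal_ofReal (by linarith)] at h5
  linarith

open Classical in
theorem exists_mean_win (O : Set ℝ) (hO : IsOpen O) (c : ℝ) (_hc : 0 ≤ c)
    (h : ∀ T₀ : ℝ, ∃ a T : ℝ, T₀ ≤ T ∧ c * T ≤ (volume (O ∩ Set.Icc a (a + T))).toReal) :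
    ∃ L : (ℚ → ℝ) → ℝ, IM L ∧ c ≤ L (fun x => if (x : ℝ) ∈ O then 1 else 0) := by
  obtain ⟨U, hUadd, hUsmul, hUmono, hUlim⟩ := exists_ulim
  choose a T hT1 hT2a using fun j : ℕ => h ((j : ℝ) + 1)
  have hr : ∀ j : ℕ, ∃ r : ℚ, a j < (r : ℝ) ∧ (r : ℝ) < a j + 1 / (2 * ((j : ℝ) + 1)) := fun j =>
    exists_rat_btwn (by
      have : (0 : ℝ) < 1 / (2 * ((j : ℝ) + 1)) := by positivity
      linarith)
  choose r hr1 hr2 using hr
  obtain ⟨P, hP⟩ : ∃ P : ℕ → Set ℝ, ∀ j, P j = {x : ℝ | x + (r j : ℝ) ∈ O} := ⟨_, fun _ => rfl⟩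
  have hPo : ∀ j, IsOpen (P j) := fun j => by
    rw [hP]
    exact hO.preimage (continuous_id.add continuous_const)
  have hT2 : ∀ j, c * T j - 1 / (2 * ((j : ℝ) + 1)) ≤ (volume (P j ∩ Set.Icc 0 (T j))).toReal := fun j => by
    rw [hP]
    exact win_shift O (a j) (T j) (r j) _ c (hr1 j) (hr2 j).le (hT2a j)
  have hTpos : ∀ j, 0 < T j := by
    intro j
    have h1 := hT1 j
    have h2 : (0 : ℝ) ≤ j := Nat.cast_nonneg _
    linarith
  choose m₀ hm₀ using fun j : ℕ => riemann_open (P j) (hPo j) (T j) (1 / (2 * ((j : ℝ) + 1))) (hTpos j) (by positivity)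
  -- the moduli
  obtain ⟨m, hm⟩ : ∃ m : ℕ → ℕ, ∀ j, m j = (j + 1).factorial * (m₀ j + 1) := ⟨_, fun _ => rfl⟩
  have hmpos : ∀ j, 0 < m j := by
    intro j
    rw [hm]
    exact Nat.mul_pos (Nat.factorial_pos _) (Nat.succ_pos _)
  have hmge : ∀ j, m₀ j ≤ m j := by
    intro j
    rw [hm]
    calc m₀ j ≤ 1 * (m₀ j + 1) := by omega
      _ ≤ (j + 1).factorial * (m₀ j + 1) := Nat.mul_le_mul_right _ (Nat.factorial_pos _)
  have hmR : ∀ j, (0 : ℝ) < m j := fun j => by exact_mod_cast hmpos j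
  have hm1 : ∀ j, (1 : ℝ) ≤ m j := fun j => by exact_mod_cast hmpos j
  obtain ⟨n, hn⟩ : ∃ n : ℕ → ℕ, ∀ j, n j = ⌊(m j : ℝ) * T j⌋₊ := ⟨_, fun _ => rfl⟩
  have hn1 : ∀ j, (m j : ℝ) * ((j : ℝ) + 1) - 1 ≤ n j := by
    intro j
    have h1 := Nat.lt_floor_add_one ((m j : ℝ) * T j)
    rw [← hn] at h1
    have h2 := mul_le_mul_of_nonneg_left (hT1 j) (hmR j).le
    linarith
  have hn2 : ∀ j, (n j : ℝ) ≤ m j * T j := by
    intro j
    rw [hn]
    exact Nat.floor_le (mul_pos (hmR j) (hTpos j)).le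
  have hnpos : ∀ j, 0 < n j := by
    intro j
    rw [hn]
    apply Nat.floor_pos.mpr
    have h1 := hT1 j
    have h2 : (0 : ℝ) ≤ j := Nat.cast_nonneg _
    have h3 := mul_le_mul (hm1 j) (by linarith : (1 : ℝ) ≤ T j) (by norm_num) (hmR j).le
    linarith
  have hnR : ∀ j, (0 : ℝ) < n j := fun j => by exact_mod_cast hnpos j
  -- the averages
  set A : (ℚ → ℝ) → ℕ → ℝ := fun f j => 1 / (n j : ℝ) * ∑ i ∈ Finset.Icc 1 (n j), f ((i : ℚ) / m j + r j) with hA
  have hAb : ∀ (f : ℚ → ℝ) (C : ℝ), (∀ x, |f x| ≤ C) → ∀ j, |A f j| ≤ C := by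
    intro f C hf j
    show |1 / (n j : ℝ) * ∑ i ∈ Finset.Icc 1 (n j), f ((i : ℚ) / m j + r j)| ≤ C
    rw [abs_mul, abs_of_nonneg (by positivity), one_div, inv_mul_le_iff₀ (hnR j)]
    calc |∑ i ∈ Finset.Icc 1 (n j), f ((i : ℚ) / m j + r j)| ≤ ∑ i ∈ Finset.Icc 1 (n j), |f ((i : ℚ) / m j + r j)| :=
          Finset.abs_sum_le_sum_abs _ _
      _ ≤ ∑ _i ∈ Finset.Icc 1 (n j), C := Finset.sum_le_sum fun i _ => hf _
      _ = n j * C := by
        rw [Finset.sum_const, Nat.card_Icc, nsmul_eq_mul]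
        norm_num
  have hAbd : ∀ f : ℚ → ℝ, Bdf f → ∃ C, ∀ j, |A f j| ≤ C := fun f ⟨C, hC⟩ => ⟨C, hAb f C hC⟩
  refine ⟨fun f => U (A f), ⟨⟨?_, ?_, ?_, ?_⟩, ?_⟩, ?_⟩
  · intro f g hf hg
    have e : A (fun x => f x + g x) = fun j => A f j + A g j := by
      funext j
      show 1 / (n j : ℝ) * ∑ i ∈ Finset.Icc 1 (n j), (f ((i : ℚ) / m j + r j) + g ((i : ℚ) / m j + r j)) =
        1 / (n j : ℝ) * ∑ i ∈ Finset.Icc 1 (n j), f ((i : ℚ) / m j + r j) +
        1 / (n j : ℝ) * ∑ i ∈ Finset.Icc 1 (n j), g ((i : ℚ) / m j + r j)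
      rw [Finset.sum_add_distrib, mul_add]
    show U (A (fun x => f x + g x)) = U (A f) + U (A g)
    rw [e]
    exact hUadd _ _ (hAbd f hf) (hAbd g hg)
  · intro a f hf
    have e : A (fun x => a * f x) = fun j => a * A f j := by
      funext j
      show 1 / (n j : ℝ) * ∑ i ∈ Finset.Icc 1 (n j), (a * f ((i : ℚ) / m j + r j)) =
        a * (1 / (n j : ℝ) * ∑ i ∈ Finset.Icc 1 (n j), f ((i : ℚ) / m j + r j))
      rw [← Finset.mul_sum]
      ring
    show U (A (fun x => a * f x)) = a * U (A f)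
    rw [e]
    exact hUsmul _ _ (hAbd f hf)
  · intro f hf hf0
    have h0 : U (fun _ => 0) = 0 := hUlim _ _ tendsto_const_nhds
    show 0 ≤ U (A f)
    rw [← h0]
    apply hUmono _ _ ⟨0, fun _ => by simp⟩ (hAbd f hf)
    filter_upwards with j
    exact mul_nonneg (by positivity) (Finset.sum_nonneg fun i _ => hf0 _)
  · intro f v hf
    obtain ⟨C, hC⟩ := hf
    have hC0 : 0 ≤ C := (abs_nonneg _).trans (hC 0)
    have hfb : Bdf f := ⟨C, hC⟩
    show U (A (fun x => f (x + v))) = U (A f)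
    have hdiff : Tendsto (fun j => A (fun x => f (x + v)) j + (-1) * A f j) atTop (nhds 0) := by
      have hbig : ∀ᶠ j : ℕ in atTop, |A (fun x => f (x + v)) j + (-1) * A f j| ≤ 2 * C * |(v : ℝ)| / j := by
        filter_upwards [Filter.eventually_ge_atTop (v.den + 1)] with j hj
        have hjR : (0 : ℝ) < j := by
          have : 0 < j := by omega
          exact_mod_cast this
        -- `v m_j` is an integer
        have hdvd : v.den ∣ m j := by
          rw [hm]
          exact Dvd.dvd.mul_right (Nat.dvd_factorial v.den_pos (by omega)) _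
        obtain ⟨q, hq⟩ := hdvd
        set w : ℤ := v.num * q with hw
        have hmQ : (m j : ℚ) ≠ 0 := by
          have := (hmpos j).ne'
          exact_mod_cast this
        have hvw : v = (w : ℚ) / m j := by
          rw [eq_div_iff hmQ, hq, hw]
          push_cast
          rw [← mul_assoc, Rat.mul_den_eq_num]
        have hvwR : (w : ℝ) = v * m j := by
          have : (w : ℚ) = v * m j := by
            rw [eq_div_iff hmQ] at hvw
            exact hvw.symm
          exact_mod_cast this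
        set F : ℤ → ℝ := fun x => f ((x : ℚ) / m j + r j) with hF
        have hsh := shift_int C (n j) w F (fun x => hC _)
        have e1 : ∑ i ∈ Finset.Icc 1 (n j), f ((i : ℚ) / m j + r j + v) =
            ∑ i ∈ Finset.Icc 1 (n j), F ((i : ℤ) + w) := by
          apply Finset.sum_congr rfl
          intro i _
          show f ((i : ℚ) / m j + r j + v) = f ((((i : ℤ) + w : ℤ) : ℚ) / m j + r j)
          congr 1
          push_cast
          rw [add_div, ← hvw]
          ring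
        have e2 : ∑ i ∈ Finset.Icc 1 (n j), f ((i : ℚ) / m j + r j) =
            ∑ i ∈ Finset.Icc 1 (n j), F (i : ℤ) := by
          apply Finset.sum_congr rfl
          intro i _
          show f ((i : ℚ) / m j + r j) = f ((((i : ℤ) : ℤ) : ℚ) / m j + r j)
          congr 1
        have e3 : A (fun x => f (x + v)) j + (-1) * A f j = 1 / (n j : ℝ) *
            (∑ i ∈ Finset.Icc 1 (n j), F ((i : ℤ) + w) - ∑ i ∈ Finset.Icc 1 (n j), F (i : ℤ)) := by
          show 1 / (n j : ℝ) * ∑ i ∈ Finset.Icc 1 (n j), f ((i : ℚ) / m j + r j + v) +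
            (-1) * (1 / (n j : ℝ) * ∑ i ∈ Finset.Icc 1 (n j), f ((i : ℚ) / m j + r j)) = _
          rw [e1, e2]
          ring
        rw [e3, abs_mul, abs_of_nonneg (by positivity), one_div, inv_mul_le_iff₀ (hnR j)]
        refine hsh.trans ?_
        rw [hvwR, abs_mul, abs_of_pos (hmR j)]
        -- `m_j j ≤ n_j`
        have hnm : (m j : ℝ) * j ≤ n j := by
          have h1 := hn1 j
          have h2 := hm1 j
          nlinarith
        have hnonneg : 0 ≤ 2 * C * |(v : ℝ)| := by positivity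
        have h5 : (m j : ℝ) ≤ n j / j := by
          rw [le_div_iff₀ hjR]
          exact hnm
        calc 2 * C * (|(v : ℝ)| * m j) = (2 * C * |(v : ℝ)|) * m j := by ring
          _ ≤ (2 * C * |(v : ℝ)|) * (n j / j) := mul_le_mul_of_nonneg_left h5 hnonneg
          _ = n j * (2 * C * |(v : ℝ)| / j) := by ring
      have hz : Tendsto (fun j : ℕ => 2 * C * |(v : ℝ)| / (j : ℝ)) atTop (nhds 0) :=
        tendsto_const_div_atTop_nhds_zero_nat _
      exact squeeze_zero_norm' (by simpa only [Real.norm_eq_abs] using hbig) hz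
    have hU0 := hUlim _ _ hdiff
    have hbneg : ∃ C, ∀ j, |(-1) * A f j| ≤ C := by
      refine ⟨C, fun j => ?_⟩
      rw [abs_mul, abs_neg, abs_one, one_mul]
      exact hAb f C hC j
    have hadd := hUadd (A (fun x => f (x + v))) (fun j => (-1) * A f j)
      (hAbd _ (hfb.shift v)) hbneg
    rw [hU0, hUsmul (-1) (A f) (hAbd f hfb)] at hadd
    linarith
  · show U (A (fun _ => 1)) = 1
    have e : A (fun _ => 1) = fun _ => (1 : ℝ) := by
      funext j
      show 1 / (n j : ℝ) * ∑ _i ∈ Finset.Icc 1 (n j), (1 : ℝ) = 1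
      rw [Finset.sum_const, Nat.card_Icc, nsmul_eq_mul]
      have := (hnR j).ne'
      field_simp
      norm_num
    rw [e]
    exact hUlim _ _ tendsto_const_nhds
  · -- the density of `O`
    have hlim : Tendsto (fun j : ℕ => c - 1 / ((j : ℝ) + 1)) atTop (nhds c) := by
      have h1 := tendsto_one_div_add_atTop_nhds_zero_nat (𝕜 := ℝ)
      have h2 := h1.const_sub c
      rw [sub_zero] at h2
      exact h2
    have hUc := hUlim _ _ hlim
    show c ≤ U (A (fun x => if (x : ℝ) ∈ O then 1 else 0))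
    rw [← hUc]
    have hind : Bdf (fun x : ℚ => if (x : ℝ) ∈ O then (1 : ℝ) else 0) := by
      refine ⟨1, fun x => ?_⟩
      show |if (x : ℝ) ∈ O then (1 : ℝ) else 0| ≤ 1
      split_ifs <;> simp
    apply hUmono _ _ ?_ (hAbd _ hind)
    · filter_upwards with j
      show c - 1 / ((j : ℝ) + 1) ≤ 1 / (n j : ℝ) *
        ∑ i ∈ Finset.Icc 1 (n j), (if ((((i : ℚ) / m j + r j : ℚ)) : ℝ) ∈ O then (1 : ℝ) else 0)
      rw [one_div (n j : ℝ), le_inv_mul_iff₀ (hnR j)]
      obtain ⟨s, hs1, hs2⟩ := hm₀ j (m j) (hmge j)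
      have hcard : (s.card : ℝ) ≤
          ∑ i ∈ Finset.Icc 1 (n j), (if ((((i : ℚ) / m j + r j : ℚ)) : ℝ) ∈ O then (1 : ℝ) else 0) := by
        have h1 : (s.card : ℝ) = ∑ i ∈ s, (1 : ℝ) := by simp
        rw [h1]
        have h2 : ∑ i ∈ s, (1 : ℝ) =
            ∑ i ∈ s, (if ((((i : ℚ) / m j + r j : ℚ)) : ℝ) ∈ O then (1 : ℝ) else 0) := by
          apply Finset.sum_congr rfl
          intro i hi
          have h3 : ((((i : ℚ) / m j + r j : ℚ)) : ℝ) = (i : ℝ) / m j + r j := by push_cast; rfl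
          have h4 := (hs1 i hi).2.2
          rw [hP] at h4
          have h5 : (i : ℝ) / m j + r j ∈ O := h4
          rw [h3, if_pos h5]
        rw [h2]
        apply Finset.sum_le_sum_of_subset_of_nonneg
        · intro i hi
          rw [Finset.mem_Icc, hn]
          exact ⟨(hs1 i hi).1, (hs1 i hi).2.1⟩
        · intro i _ _
          split_ifs <;> norm_num
      refine le_trans ?_ hcard
      by_cases hcj : c - 1 / ((j : ℝ) + 1) ≤ 0
      · exact (mul_nonpos_of_nonneg_of_nonpos (hnR j).le hcj).trans (Nat.cast_nonneg _)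
      · have hcj' : 0 ≤ c - 1 / ((j : ℝ) + 1) := (not_le.mp hcj).le
        have hj1 : (0 : ℝ) < 1 / ((j : ℝ) + 1) := by positivity
        have hT1' : 1 ≤ T j := by
          have h1 := hT1 j
          have h2 : (0 : ℝ) ≤ j := Nat.cast_nonneg _
          linarith
        calc (n j : ℝ) * (c - 1 / ((j : ℝ) + 1)) ≤ (m j * T j) * (c - 1 / ((j : ℝ) + 1)) :=
              mul_le_mul_of_nonneg_right (hn2 j) hcj'
          _ = (c * T j - T j * (1 / ((j : ℝ) + 1))) * m j := by ring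
          _ ≤ ((volume (P j ∩ Set.Icc 0 (T j))).toReal - 1 / (2 * ((j : ℝ) + 1))) * m j := by
              apply mul_le_mul_of_nonneg_right _ (hmR j).le
              have h1 := hT2 j
              have h2 : 1 / (2 * ((j : ℝ) + 1)) + 1 / (2 * ((j : ℝ) + 1)) = 1 / ((j : ℝ) + 1) := by
                field_simp
                ring
              nlinarith
          _ ≤ s.card := hs2
    · refine ⟨|c| + 1, fun j => ?_⟩
      have h1 : |1 / ((j : ℝ) + 1)| ≤ 1 := by
        rw [abs_of_nonneg (by positivity), div_le_one (by positivity)]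
        have h2 : (0 : ℝ) ≤ j := Nat.cast_nonneg _
        linarith
      exact (abs_sub _ _).trans (add_le_add le_rfl h1)

end PGS
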