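import Pool.Agent.PGL.E3
import Pool.Agent.PGL.E17
import Pool.Agent.PGS.E2w

/-! PGS / E18w: the window form of PGL / E18: a closed set which meets the differences of any `k` reals has density at
least `2 / k - ε` in all long windows `[a, a + T]`, `a ≥ 0`. -/

set_option autoImplicit false

open Finset MeasureTheory PGL

noncomputable section

namespace PGS

theorem density_win (S : Set ℝ) (hS : IsClosed S) (k : ℕ) (hk : 2 ≤ k)
    (hP : ∀ β : Fin k → ℝ, Function.Injective β → ∃ i j, β i < β j ∧ β j - β i ∈ S) (ε : ℝ) (hε : 0 < ε) :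
    ∃ T₀ : ℝ, ∀ a T : ℝ, 0 ≤ a → T₀ ≤ T → (2 / k - ε) * T ≤ (volume (S ∩ Set.Icc a (a + T))).toReal := by
  classical
  by_contra hcon
  push Not at hcon
  set O : Set ℝ := Set.Ioi 0 ∩ Sᶜ with hO
  have hOo : IsOpen O := isOpen_Ioi.inter hS.isOpen_compl
  have hk2 : (2 : ℝ) ≤ k := by exact_mod_cast hk
  have h2k : (2 : ℝ) / k ≤ 1 := by
    rw [div_le_one (by linarith)]
    exact hk2
  obtain ⟨L, hL, hcL⟩ := exists_mean_win O hOo (1 - 2 / k + ε) (by linarith) (by
    intro T₀
    obtain ⟨a, T, ha, hT, hvT⟩ := hcon (max T₀ 1)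
    have hT1 : 1 ≤ T := (le_max_right _ _).trans hT
    refine ⟨a, T, (le_max_left _ _).trans hT, ?_⟩
    have hfin : ∀ A : Set ℝ, volume (A ∩ Set.Icc a (a + T)) ≠ ⊤ := fun A =>
      ((measure_mono Set.inter_subset_right).trans_lt measure_Icc_lt_top).ne
    have h1 : volume (Set.Ioc a (a + T)) ≤ volume (O ∩ Set.Icc a (a + T)) + volume (S ∩ Set.Icc a (a + T)) := by
      refine (measure_mono ?_).trans (measure_union_le _ _)
      intro x hx
      by_cases hxS : x ∈ S
      · exact Or.inr ⟨hxS, hx.1.le, hx.2⟩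
      · exact Or.inl ⟨⟨lt_of_le_of_lt ha hx.1, hxS⟩, hx.1.le, hx.2⟩
    have h2 : T ≤ (volume (O ∩ Set.Icc a (a + T))).toReal + (volume (S ∩ Set.Icc a (a + T))).toReal := by
      rw [← ENNReal.toReal_add (hfin _) (hfin _)]
      have h3 := ENNReal.toReal_mono (ENNReal.add_ne_top.2 ⟨hfin _, hfin _⟩) h1
      rw [Real.volume_Ioc, add_sub_cancel_left, ENNReal.toReal_ofReal (by linarith)] at h3
      exact h3
    have h4 : (1 - 2 / k + ε) * T = T - (2 / k - ε) * T := by ring
    rw [h4]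
    linarith)
  set u : ℚ → ℝ := fun x : ℚ => @ite ℝ ((x : ℝ) ∈ O) (Classical.propDecidable _) 1 0 with hud
  have hcL' : 1 - 2 / k + ε ≤ L u := hcL
  have hu : ∀ x : ℚ, u x = 0 ∨ u x = 1 := by
    intro x
    by_cases h : (x : ℝ) ∈ O
    · right
      simp only [hud, if_pos h]
    · left
      simp only [hud, if_neg h]
  have hB : Bdf u := by
    refine ⟨1, fun x => ?_⟩
    rcases hu x with h | h
    · rw [h]; norm_num
    · rw [h]; norm_num
  obtain ⟨L', hE, hLL⟩ := exists_erg _ hB L hL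
  obtain ⟨x, hx⟩ := comb hE hu k hk ε hε (hcL'.trans hLL)
  have hx' : ∀ i j, i < j → (x i : ℝ) < x j ∧ ((x j : ℝ) - x i) ∉ S := by
    intro i j hij
    have h1 := hx i j hij
    by_cases h : (((x j - x i : ℚ)) : ℝ) ∈ O
    · rw [Rat.cast_sub] at h
      exact ⟨by linarith [Set.mem_Ioi.1 h.1], h.2⟩
    · simp only [hud, if_neg h] at h1
      norm_num at h1
  obtain ⟨i, j, h1, h2⟩ := hP (fun i => (x i : ℝ)) (by
    intro i j hij
    rcases lt_trichotomy i j with h | h | h
    · exact absurd hij (hx' i j h).1.ne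
    · exact h
    · exact absurd hij (hx' j i h).1.ne')
  rcases lt_trichotomy i j with h | h | h
  · exact (hx' i j h).2 h2
  · subst h
    exact lt_irrefl _ h1
  · exact lt_asymm h1 (hx' j i h).1

end PGS
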