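import Pool.Agent.PGS.Sh
import Pool.Agent.PGL.TU
import Pool.Agent.PGL.ET
import Pool.Agent.PGL.S2

/-! PGS / EQ: the sum of the error terms over a family of sets `M x` of primes.

PROOF. `k = card ι`, `K = 24 k`, `A` from `et` with `δ`, `K` and `A₁' = 4 k + |A₁| + 1`. Let `q = qz (ε log N) D`,
`E r = ER N q r + SE N (h i₀)`. For one `x`: `tup_union` for `W x` with `g_i D = |rho (W x) (y x i) (y' x i) D|`,
`F B = ER N q (pr (M x) * pr B) + SE N (h i₀) ≥ 0`; `g_i D ≤ c₀² 12^|D| G_V(..) G_V(..) ≤ c₀² (1 + log N)^4 12^|D|`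
(`rho_le`, `GV_le`; for `N^(b i)` use `b i ≤ 1`, which follows from the hypothesis `pr (M x) N^(∑ ...) ≤ N^(1/2 - δ)`) and
support `pr D ≤ N^(b i + b' i)` for `i ≠ i₀` (`rho_supp`), `g_{i₀} D ≤ 1`, support `pr D ≤ 1` (`rho_dl`). So the inner sum
is at most `(c₀² (1 + log N)^4)^k ∑_{B ⊆ W x, pr B ≤ N^(∑ ...)} (12 k)^|B| F B`. For such `B` the set `B' = M x ∪ B ⊆ V`
satisfies `pr B' = pr (M x) pr B ≤ N^(1/2 - δ)`, `F B = E (pr B')`, `(12 k)^|B| ≤ (12 k)^|B'|`, and the map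
`(x, B) ↦ (B', M x)` is injective (`M` is injective on `I`), with `M x ⊆ B'`: at most `2^|B'|` pairs for every `B'`.
Hence the double sum is at most `(c₀² (1 + log N)^4)^k ∑_{B' ⊆ V, pr B' ≤ N^(1/2-δ)} K^|B'| E (pr B')`, and `et` applies: its
hypothesis is `MB` with `R = {pr B : B ⊆ V, pr B ≤ N^(1/2-δ)}` as in the proof of `s2` (`pr_inj`, the primes of `V` are
not in `D` and do not divide `q`), `h i₀ ≤ C log N ≤ √N`, `q ≤ N^(δ/4)` (`q_le`). If `1 / log N` powers: `log N ≥ 1`. -/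

set_option autoImplicit false

open Finset PGL

noncomputable section

namespace PGS

private theorem eq_log_tt : Filter.Tendsto (fun N : ℕ => Real.log N) Filter.atTop Filter.atTop :=
  Real.tendsto_log_atTop.comp tendsto_natCast_atTop_atTop

private theorem eq_sqrt_log (C : ℝ) : ∀ᶠ N : ℕ in Filter.atTop, C * Real.log N ≤ √(N : ℝ) := by
  have h1 := (isLittleO_log_rpow_atTop (show (0 : ℝ) < 1 / 2 by norm_num)).bound
    (show 0 < 1 / (|C| + 1) by positivity)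
  have h2 := (tendsto_natCast_atTop_atTop (R := ℝ)).eventually h1
  filter_upwards [h2, Filter.eventually_ge_atTop 1] with N hN hN1
  have hN' : (1 : ℝ) ≤ N := by exact_mod_cast hN1
  have hL : 0 ≤ Real.log N := Real.log_nonneg hN'
  rw [Real.norm_of_nonneg hL, Real.norm_of_nonneg (by positivity), ← Real.sqrt_eq_rpow,
    one_div, inv_mul_eq_div, le_div_iff₀ (by positivity)] at hN
  have h3 : C ≤ |C| + 1 := (le_abs_self C).trans (by linarith)
  nlinarith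

private theorem eq_GV_nn {V : Finset ℕ} (hV : Big V 1) (R : ℝ) : 0 ≤ GV V R :=
  sum_nonneg fun B hB => by
    rw [mem_filter, mem_powerset] at hB
    refine (one_div_pos.2 (prod_pos fun p hp => ?_)).le
    have h := (hV p (hB.1 hp)).1.one_lt
    have h' : (1 : ℝ) < p := by exact_mod_cast h
    linarith

private theorem eq_GV_pow {V : Finset ℕ} (hV : Big V 1) {N : ℕ} (hN : 1 ≤ N) {t : ℝ} (h0 : 0 ≤ t)
    (h1 : t ≤ 1) : GV V ((N : ℝ) ^ t) ≤ (1 + Real.log N) ^ 2 := by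
  have hN' : (1 : ℝ) ≤ N := by exact_mod_cast hN
  have hL : 0 ≤ Real.log N := Real.log_nonneg hN'
  refine (GV_le V hV (Real.one_le_rpow hN' h0)).trans ?_
  rw [Real.log_rpow (by linarith)]
  refine pow_le_pow_left₀ (by positivity) ?_ 2
  nlinarith

private theorem eq_ctx_big {ι : Type} [Fintype ι] {ε C : ℝ} {N : ℕ} {D D' V : Finset ℕ} {h : ι → ℕ}
    {c : ℕ} (hc : Ctx ε C N D D' V h c) : Big V (ε * Real.log N) := by
  intro p hp
  have h1 := ((hc.mem p).1 hp).1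
  unfold VN at h1
  exact (mem_filter.1 h1).2

private theorem eq_hyp {ι : Type} [Fintype ι] {δ A ε C : ℝ} {N : ℕ} {D D' V : Finset ℕ}
    {h : ι → ℕ} {c : ℕ} (hc : Ctx ε C N D D' V h c) (hMB : MB δ A ε N D) (hz : 0 ≤ ε * Real.log N)
    (a : ℕ → ℕ) (ha : ∀ B ⊆ V, (a (pr B)).Coprime (PGB.qz (ε * Real.log N) D * pr B)) :
    ∑ B ∈ V.powerset with (pr B : ℝ) ≤ (N : ℝ) ^ (1 / 2 - δ),
      |PGB.Psi N (PGB.qz (ε * Real.log N) D * pr B) (a (pr B)) -
        PGB.Psi N 1 0 / (Nat.totient (PGB.qz (ε * Real.log N) D * pr B) : ℝ)| ≤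
      N / ((Nat.totient (PGB.qz (ε * Real.log N) D) : ℝ) * Real.log N ^ A) := by
  have hB := eq_ctx_big hc
  have hqV : ∀ p ∈ V, ¬ p ∣ PGB.qz (ε * Real.log N) D :=
    fun p hp => q_cop (hB p hp).1 hz (hB p hp).2
  have hinj : Set.InjOn pr
      ((V.powerset.filter fun B => (pr B : ℝ) ≤ (N : ℝ) ^ (1 / 2 - δ) : Finset (Finset ℕ)) :
        Set (Finset ℕ)) := by
    intro B hB' B' hB'' he
    rw [mem_coe, mem_filter, mem_powerset] at hB' hB''
    exact pr_inj (fun p hp => (hB p (hB'.1 hp)).1) (fun p hp => (hB p (hB''.1 hp)).1) he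
  have h7 := hMB ((V.powerset.filter fun B => (pr B : ℝ) ≤ (N : ℝ) ^ (1 / 2 - δ)).image pr) ?_ a ?_
  · rw [sum_image hinj] at h7
    exact h7
  · intro r hr
    obtain ⟨B, hB', rfl⟩ := mem_image.1 hr
    rw [mem_filter, mem_powerset] at hB'
    refine ⟨?_, hB'.2, ?_, ?_⟩
    · unfold pr
      refine Finset.squarefree_prod_of_pairwise_isCoprime ?_ ?_
      · intro p hp p' hp' hne
        exact Nat.coprime_iff_isRelPrime.1
          ((Nat.coprime_primes (hB p (hB'.1 hp)).1 (hB p' (hB'.1 hp')).1).2 hne)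
      · intro p hp
        exact (hB p (hB'.1 hp)).1.prime.squarefree
    · exact Nat.Coprime.prod_left fun p hp =>
        ((hB p (hB'.1 hp)).1.coprime_iff_not_dvd).2 (hqV p (hB'.1 hp))
    · intro p hp hdvd
      unfold pr at hdvd
      obtain ⟨p', hp', hd⟩ := ((hc.prime p hp).prime.dvd_finsetProd_iff _).1 hdvd
      have h8 : p = p' := (Nat.prime_dvd_prime_iff_eq (hc.prime p hp) (hB p' (hB'.1 hp')).1).1 hd
      subst h8
      exact ((hc.mem p).1 (hB'.1 hp')).2.1 hp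
  · intro r hr
    obtain ⟨B, hB', rfl⟩ := mem_image.1 hr
    rw [mem_filter, mem_powerset] at hB'
    exact ha B hB'.1

private theorem eq_prod_G {ι : Type} [Fintype ι] [DecidableEq ι] (i₀ : ι) {Z : ℝ} (hZ : 1 ≤ Z) :
    ∏ i, (if i = i₀ then (1 : ℝ) else Z) ≤ Z ^ Fintype.card ι := by
  calc ∏ i, (if i = i₀ then (1 : ℝ) else Z) ≤ ∏ _i : ι, Z := by
        refine prod_le_prod (fun i _ => ?_) fun i _ => ?_
        · split_ifs <;> positivity
        · split_ifs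
          · exact hZ
          · exact le_rfl
    _ = Z ^ Fintype.card ι := by
        rw [prod_const, card_univ]

private theorem eq_prod_Q {ι : Type} [Fintype ι] [DecidableEq ι] (i₀ : ι) {N : ℕ} (hN : 1 ≤ N)
    (b b' : ι → ℝ) :
    ∏ i, (if i = i₀ then (1 : ℝ) else (N : ℝ) ^ (b i) * (N : ℝ) ^ (b' i)) =
      (N : ℝ) ^ (∑ i ∈ univ.erase i₀, (b i + b' i)) := by
  have hN' : (1 : ℝ) ≤ N := by exact_mod_cast hN
  rw [← mul_prod_erase univ _ (mem_univ i₀), if_pos rfl, one_mul]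
  have h1 : ∏ i ∈ univ.erase i₀, (if i = i₀ then (1 : ℝ) else (N : ℝ) ^ (b i) * (N : ℝ) ^ (b' i)) =
      ∏ i ∈ univ.erase i₀, (N : ℝ) ^ (b i + b' i) := by
    refine prod_congr rfl fun i hi => ?_
    rw [if_neg (ne_of_mem_erase hi), Real.rpow_add (by linarith)]
  rw [h1, ← Real.rpow_sum_of_pos (by linarith)]

private theorem eq_one {ι : Type} [Fintype ι] [DecidableEq ι] {c₀ : ℝ} (hc : 1 ≤ c₀) {N : ℕ}
    (hN : 2 ≤ N) (i₀ : ι) (W : Finset ℕ) (hW : Big W 1) (b b' : ι → ℝ) (hb : ∀ i, 0 ≤ b i)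
    (hb' : ∀ i, 0 ≤ b' i) (hb1 : ∀ i, i ≠ i₀ → b i ≤ 1) (hb1' : ∀ i, i ≠ i₀ → b' i ≤ 1)
    (y y' : ι → Finset ℕ → ℝ) (hy0 : y i₀ = dl) (hy0' : y' i₀ = dl)
    (hy : ∀ i, i ≠ i₀ → Bd (y i) c₀ ((N : ℝ) ^ b i) ∧ Bd (y' i) c₀ ((N : ℝ) ^ b' i))
    (F : Finset ℕ → ℝ) (hF : ∀ B ⊆ W, 0 ≤ F B) :
    ∑ T ∈ tup ι W, (∏ i, |rho W (y i) (y' i) (T i)|) * F (univ.biUnion T) ≤
      (c₀ ^ 2 * (1 + Real.log N) ^ 4) ^ Fintype.card ι *
        ∑ B ∈ W.powerset with (pr B : ℝ) ≤ (N : ℝ) ^ (∑ i ∈ univ.erase i₀, (b i + b' i)),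
          ((12 * Fintype.card ι : ℕ) : ℝ) ^ B.card * F B := by
  have hN' : (1 : ℝ) ≤ N := by
    have : (2 : ℝ) ≤ N := by exact_mod_cast hN
    linarith
  have hL : 0 ≤ Real.log N := Real.log_nonneg hN'
  have hZ : 1 ≤ c₀ ^ 2 * (1 + Real.log N) ^ 4 := by
    have h1 : 1 ≤ c₀ ^ 2 := one_le_pow₀ hc
    have h2 : 1 ≤ (1 + Real.log N) ^ 4 := one_le_pow₀ (by linarith)
    nlinarith
  have h10 := tup_union W hW (fun i T => |rho W (y i) (y' i) T|)
    (fun i => if i = i₀ then (1 : ℝ) else c₀ ^ 2 * (1 + Real.log N) ^ 4)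
    (fun i => if i = i₀ then (1 : ℝ) else (N : ℝ) ^ (b i) * (N : ℝ) ^ (b' i))
    F hF (fun i T => abs_nonneg _) ?_ ?_ ?_ ?_
  · rw [eq_prod_Q i₀ (by omega) b b'] at h10
    refine h10.trans (mul_le_mul_of_nonneg_right (eq_prod_G i₀ hZ) (sum_nonneg fun B hB => ?_))
    rw [mem_filter, mem_powerset] at hB
    exact mul_nonneg (by positivity) (hF B hB.1)
  · intro i T
    by_cases hi : i = i₀
    · subst hi
      simp only [hy0, hy0', rho_dl, if_true, one_mul]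
      split_ifs
      · rw [abs_one]
        exact one_le_pow₀ (by norm_num)
      · rw [abs_zero]
        positivity
    · simp only [if_neg hi]
      have h11 := rho_le W hW (by linarith) (by linarith) (hy i hi).1 (hy i hi).2 T
      have g1 := eq_GV_pow hW (N := N) (by omega) (hb i) (hb1 i hi)
      have g2 := eq_GV_pow hW (N := N) (by omega) (hb' i) (hb1' i hi)
      have g3 : GV W ((N : ℝ) ^ (b i)) * GV W ((N : ℝ) ^ (b' i)) ≤ (1 + Real.log N) ^ 4 := by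
        calc _ ≤ (1 + Real.log N) ^ 2 * (1 + Real.log N) ^ 2 :=
              mul_le_mul g1 g2 (eq_GV_nn hW _) (by positivity)
          _ = (1 + Real.log N) ^ 4 := by ring
      refine h11.trans ?_
      have g4 := mul_le_mul_of_nonneg_left g3
        (show 0 ≤ c₀ * c₀ * 12 ^ T.card by positivity)
      refine g4.trans (le_of_eq ?_)
      ring
  · intro i
    show (0 : ℝ) ≤ if i = i₀ then (1 : ℝ) else c₀ ^ 2 * (1 + Real.log N) ^ 4
    split_ifs <;> positivity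
  · intro i T hne
    have hne' := abs_ne_zero.1 hne
    by_cases hi : i = i₀
    · subst hi
      rw [hy0, hy0', rho_dl] at hne'
      have : T = ∅ := by
        by_contra hT
        exact hne' (if_neg hT)
      subst this
      simp [pr]
    · have h12 := (rho_supp W hW (hy i hi).1 (hy i hi).2 (by positivity) (by positivity) hne').2
      simp only [if_neg hi]
      exact h12
  · intro i
    show (0 : ℝ) ≤ if i = i₀ then (1 : ℝ) else (N : ℝ) ^ (b i) * (N : ℝ) ^ (b' i)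
    split_ifs <;> positivity

private theorem eq_pairs {τ : Type} (I : Finset τ) (M W : τ → Finset ℕ) (V : Finset ℕ)
    (hM : Set.InjOn M I) (hx : ∀ x ∈ I, M x ⊆ V ∧ W x ⊆ V ∧ Disjoint (M x) (W x))
    (E : ℕ → ℝ) (hE : ∀ B ⊆ V, 0 ≤ E (pr B)) (m : ℕ) (hm : 1 ≤ m) (Q Z : ℝ)
    (hQ : ∀ x ∈ I, (pr (M x) : ℝ) * Q ≤ Z) :
    ∑ x ∈ I, ∑ B ∈ (W x).powerset with (pr B : ℝ) ≤ Q, (m : ℝ) ^ B.card * E (pr (M x) * pr B) ≤
      ∑ B ∈ V.powerset with (pr B : ℝ) ≤ Z, ((2 * m : ℕ) : ℝ) ^ B.card * E (pr B) := by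
  classical
  have hm' : (1 : ℝ) ≤ m := by exact_mod_cast hm
  have hpr : ∀ x ∈ I, ∀ B ⊆ W x, pr (M x ∪ B) = pr (M x) * pr B := by
    intro x hxI B hB
    unfold pr
    exact prod_union ((hx x hxI).2.2.mono_right hB)
  have hR : ∑ B ∈ V.powerset with (pr B : ℝ) ≤ Z, ((2 * m : ℕ) : ℝ) ^ B.card * E (pr B) =
      ∑ p ∈ (V.powerset.filter (fun B => (pr B : ℝ) ≤ Z)).sigma (fun B => B.powerset),
        (m : ℝ) ^ p.1.card * E (pr p.1) := by
    rw [sum_sigma]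
    refine sum_congr rfl fun B _ => ?_
    dsimp only
    rw [sum_const, card_powerset, nsmul_eq_mul]
    push_cast
    rw [mul_pow]
    ring
  rw [hR, sum_sigma']
  have hinj : Set.InjOn (fun p : (Σ _ : τ, Finset ℕ) =>
      (⟨M p.1 ∪ p.2, M p.1⟩ : Σ _ : Finset ℕ, Finset ℕ))
      ((I.sigma fun x => (W x).powerset.filter fun B => (pr B : ℝ) ≤ Q :
        Finset (Σ _ : τ, Finset ℕ)) : Set (Σ _ : τ, Finset ℕ)) := by
    rintro ⟨x, B⟩ hp ⟨x', B'⟩ hp' he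
    rw [mem_coe, mem_sigma, mem_filter, mem_powerset] at hp hp'
    dsimp only at hp hp' he
    have h1 : M x ∪ B = M x' ∪ B' := congrArg Sigma.fst he
    have h2 : M x = M x' := by
      have := (Sigma.mk.inj_iff.1 he).2
      exact eq_of_heq this
    have h3 : x = x' := hM hp.1 hp'.1 h2
    subst h3
    have h4 : B = B' := by
      have e1 : (M x ∪ B) \ M x = B := by
        rw [union_sdiff_left]
        exact sdiff_eq_self_of_disjoint ((hx x hp.1).2.2.mono_right hp.2.1).symm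
      have e2 : (M x ∪ B') \ M x = B' := by
        rw [union_sdiff_left]
        exact sdiff_eq_self_of_disjoint ((hx x hp.1).2.2.mono_right hp'.2.1).symm
      rw [← e1, ← e2, h1]
    rw [h4]
  calc ∑ p ∈ I.sigma fun x => (W x).powerset.filter fun B => (pr B : ℝ) ≤ Q,
        (m : ℝ) ^ p.2.card * E (pr (M p.1) * pr p.2)
      ≤ ∑ p ∈ I.sigma fun x => (W x).powerset.filter fun B => (pr B : ℝ) ≤ Q,
        (fun p : (Σ _ : Finset ℕ, Finset ℕ) => (m : ℝ) ^ p.1.card * E (pr p.1))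
          (⟨M p.1 ∪ p.2, M p.1⟩ : Σ _ : Finset ℕ, Finset ℕ) := by
        refine sum_le_sum fun p hp => ?_
        rw [mem_sigma, mem_filter, mem_powerset] at hp
        dsimp only
        rw [hpr p.1 hp.1 p.2 hp.2.1]
        refine mul_le_mul_of_nonneg_right ?_ ?_
        · exact pow_le_pow_right₀ hm' (card_le_card subset_union_right)
        · rw [← hpr p.1 hp.1 p.2 hp.2.1]
          exact hE _ (union_subset (hx p.1 hp.1).1 (hp.2.1.trans (hx p.1 hp.1).2.1))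
    _ = ∑ p ∈ (I.sigma fun x => (W x).powerset.filter fun B => (pr B : ℝ) ≤ Q).image
          (fun p : (Σ _ : τ, Finset ℕ) => (⟨M p.1 ∪ p.2, M p.1⟩ : Σ _ : Finset ℕ, Finset ℕ)),
        (m : ℝ) ^ p.1.card * E (pr p.1) := by
        rw [sum_image hinj]
    _ ≤ _ := by
        refine sum_le_sum_of_subset_of_nonneg ?_ ?_
        · intro p' hp'
          obtain ⟨p, hp, rfl⟩ := mem_image.1 hp'
          rw [mem_sigma, mem_filter, mem_powerset] at hp
          rw [mem_sigma, mem_filter, mem_powerset, mem_powerset]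
          dsimp only
          refine ⟨⟨union_subset (hx p.1 hp.1).1 (hp.2.1.trans (hx p.1 hp.1).2.1), ?_⟩,
            subset_union_left⟩
          rw [hpr p.1 hp.1 p.2 hp.2.1]
          push_cast
          exact (mul_le_mul_of_nonneg_left hp.2.2 (Nat.cast_nonneg _)).trans (hQ p.1 hp.1)
        · intro p hp _
          rw [mem_sigma, mem_filter, mem_powerset] at hp
          exact mul_nonneg (by positivity) (hE _ hp.1.1)

private theorem eq_num {L c₀ A₁ N φ : ℝ} (k : ℕ) (hL : 1 ≤ L) (hc : 1 ≤ c₀) (hN : 0 ≤ N) (hφ : 0 < φ)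
    (h : (c₀ ^ 2 * 2 ^ 4) ^ k ≤ L) :
    (c₀ ^ 2 * (1 + L) ^ 4) ^ k * (N / (φ * L ^ (4 * (k : ℝ) + |A₁| + 1))) ≤ N / (φ * L ^ A₁) := by
  have hL0 : 0 < L := by linarith
  have h1 : c₀ ^ 2 * (1 + L) ^ 4 ≤ (c₀ ^ 2 * 2 ^ 4) * L ^ 4 := by
    have h2 : (1 + L) ^ 4 ≤ (2 * L) ^ 4 := pow_le_pow_left₀ (by linarith) (by linarith) _
    calc c₀ ^ 2 * (1 + L) ^ 4 ≤ c₀ ^ 2 * (2 * L) ^ 4 := mul_le_mul_of_nonneg_left h2 (by positivity)
      _ = (c₀ ^ 2 * 2 ^ 4) * L ^ 4 := by ring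
  have h3 : (c₀ ^ 2 * (1 + L) ^ 4) ^ k ≤ L * L ^ (4 * k) := by
    calc (c₀ ^ 2 * (1 + L) ^ 4) ^ k ≤ ((c₀ ^ 2 * 2 ^ 4) * L ^ 4) ^ k :=
          pow_le_pow_left₀ (by positivity) h1 _
      _ = (c₀ ^ 2 * 2 ^ 4) ^ k * L ^ (4 * k) := by rw [mul_pow, ← pow_mul]
      _ ≤ L * L ^ (4 * k) := mul_le_mul_of_nonneg_right h (by positivity)
  have h4 : L ^ (4 * (k : ℝ) + |A₁| + 1) = L ^ (4 * k) * L ^ |A₁| * L := by
    rw [Real.rpow_add hL0, Real.rpow_add hL0, Real.rpow_one]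
    congr 2
    rw [← Real.rpow_natCast]
    congr 1
    push_cast
    ring
  have h5 : L ^ A₁ ≤ L ^ |A₁| := Real.rpow_le_rpow_of_exponent_le hL (le_abs_self _)
  have h6 : 0 < L ^ A₁ := Real.rpow_pos_of_pos hL0 _
  have h7 : 0 < L ^ |A₁| := Real.rpow_pos_of_pos hL0 _
  have h8 : (c₀ ^ 2 * (1 + L) ^ 4) ^ k * L ^ A₁ ≤ L ^ (4 * k) * L ^ |A₁| * L := by
    calc (c₀ ^ 2 * (1 + L) ^ 4) ^ k * L ^ A₁ ≤ (L * L ^ (4 * k)) * L ^ |A₁| :=
          mul_le_mul h3 h5 h6.le (by positivity)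
      _ = L ^ (4 * k) * L ^ |A₁| * L := by ring
  rw [h4, mul_div_assoc', div_le_div_iff₀ (by positivity) (by positivity)]
  calc (c₀ ^ 2 * (1 + L) ^ 4) ^ k * N * (φ * L ^ A₁)
      = N * φ * ((c₀ ^ 2 * (1 + L) ^ 4) ^ k * L ^ A₁) := by ring
    _ ≤ N * φ * (L ^ (4 * k) * L ^ |A₁| * L) := mul_le_mul_of_nonneg_left h8 (by positivity)
    _ = N * (φ * (L ^ (4 * k) * L ^ |A₁| * L)) := by ring

theorem eqm {ι : Type} [Fintype ι] [DecidableEq ι] (δ : ℝ) (hδ : 0 < δ) (hδ2 : δ < 1 / 2) (c₀ A₁ : ℝ) (hc : 1 ≤ c₀) :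
    ∃ A : ℝ, ∀ ε C : ℝ, 0 < ε → 8 * ε ≤ δ → ∀ b b' : ι → ℝ, (∀ i, 0 ≤ b i) → (∀ i, 0 ≤ b' i) →
    ∃ N₀ : ℕ, ∀ N : ℕ, N₀ ≤ N → ∀ (D D' V : Finset ℕ) (h : ι → ℕ) (c : ℕ), Ctx ε C N D D' V h c →
      MB δ A ε N D → ∀ (i₀ : ι) {τ : Type} (I : Finset τ) (M W : τ → Finset ℕ)
        (y y' : τ → ι → Finset ℕ → ℝ), Set.InjOn M I →
      (∀ x ∈ I, M x ⊆ V ∧ W x ⊆ V ∧ Disjoint (M x) (W x) ∧
        (pr (M x) : ℝ) * (N : ℝ) ^ (∑ i ∈ univ.erase i₀, (b i + b' i)) ≤ (N : ℝ) ^ (1 / 2 - δ) ∧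
        y x i₀ = dl ∧ y' x i₀ = dl ∧
        ∀ i, i ≠ i₀ → Bd (y x i) c₀ ((N : ℝ) ^ b i) ∧ Bd (y' x i) c₀ ((N : ℝ) ^ b' i)) →
      ∑ x ∈ I, ∑ T ∈ tup ι (W x), (∏ i, |rho (W x) (y x i) (y' x i) (T i)|) *
          (ER N (PGB.qz (ε * Real.log N) D) (pr (M x) * pr (univ.biUnion T)) + SE N (h i₀)) ≤
        N / ((Nat.totient (PGB.qz (ε * Real.log N) D) : ℝ) * Real.log N ^ A₁) := by
  obtain ⟨A, N₁, hA⟩ := et δ hδ hδ2 (2 * (12 * Fintype.card ι))
    (4 * (Fintype.card ι : ℝ) + |A₁| + 1)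
  refine ⟨A, fun ε C hε h8 b b' hb hb' => ?_⟩
  have e5 := eq_log_tt.eventually (Filter.eventually_ge_atTop
    (max 1 (max (1 / ε) ((c₀ ^ 2 * 2 ^ 4) ^ Fintype.card ι))))
  refine Filter.eventually_atTop.1 ?_
  filter_upwards [Filter.eventually_ge_atTop N₁, Filter.eventually_ge_atTop 2, e5,
    eq_sqrt_log C] with N hN1 hN2 h5 h6 D D' V h c hctx hMB i₀ τ I M W y y' hM hx
  have hL1 : 1 ≤ Real.log N := (le_max_left _ _).trans h5
  have hz1 : 1 / ε ≤ Real.log N := ((le_max_left _ _).trans (le_max_right _ _)).trans h5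
  have hL2 : (c₀ ^ 2 * 2 ^ 4) ^ Fintype.card ι ≤ Real.log N :=
    ((le_max_right _ _).trans (le_max_right _ _)).trans h5
  rw [div_le_iff₀ hε] at hz1
  have hz : 1 ≤ ε * Real.log N := by linarith
  have hB := eq_ctx_big hctx
  have hB1 : Big V 1 := fun p hp => ⟨(hB p hp).1, hz.trans_lt (hB p hp).2⟩
  have hq0 : 0 < PGB.qz (ε * Real.log N) D := qz_pos _ _
  have hqV : ∀ p ∈ V, ¬ p ∣ PGB.qz (ε * Real.log N) D :=
    fun p hp => q_cop (hB p hp).1 (by linarith) (hB p hp).2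
  have hqle : (PGB.qz (ε * Real.log N) D : ℝ) ≤ (N : ℝ) ^ (δ / 4) :=
    q_le ε (δ / 4) hε (by linarith) N (by omega) D
  have hN2' : (2 : ℝ) ≤ N := by exact_mod_cast hN2
  have hSE : 0 ≤ SE N (h i₀) := by
    unfold SE
    have : 0 ≤ Real.log (3 * N) := Real.log_nonneg (by linarith)
    positivity
  have hH : (h i₀ : ℝ) ≤ √(N : ℝ) := (hctx.le i₀).trans h6
  have h9 := hA N hN1 _ hq0 hqle V hB1 hqV (eq_hyp hctx hMB (by linarith)) (h i₀) hH
  have hk : 1 ≤ 12 * Fintype.card ι := by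
    have : 0 < Fintype.card ι := Fintype.card_pos_iff.2 ⟨i₀⟩
    omega
  have hφ : (0 : ℝ) < Nat.totient (PGB.qz (ε * Real.log N) D) := by
    exact_mod_cast Nat.totient_pos.2 hq0
  -- one `x`
  have hone : ∀ x ∈ I, ∑ T ∈ tup ι (W x), (∏ i, |rho (W x) (y x i) (y' x i) (T i)|) *
      (ER N (PGB.qz (ε * Real.log N) D) (pr (M x) * pr (univ.biUnion T)) + SE N (h i₀)) ≤
      (c₀ ^ 2 * (1 + Real.log N) ^ 4) ^ Fintype.card ι *
        ∑ B ∈ (W x).powerset with (pr B : ℝ) ≤ (N : ℝ) ^ (∑ i ∈ univ.erase i₀, (b i + b' i)),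
          ((12 * Fintype.card ι : ℕ) : ℝ) ^ B.card *
            (ER N (PGB.qz (ε * Real.log N) D) (pr (M x) * pr B) + SE N (h i₀)) := by
    intro x hxI
    obtain ⟨hM1, hW1, hMW, hlev, hy0, hy0', hy⟩ := hx x hxI
    have hW : Big (W x) 1 := fun p hp => hB1 p (hW1 hp)
    have hprM : (1 : ℝ) ≤ pr (M x) := by
      have : 0 < pr (M x) := prod_pos fun p hp => (hB p (hM1 hp)).1.pos
      exact_mod_cast this
    have hs : ∑ i ∈ univ.erase i₀, (b i + b' i) ≤ 1 / 2 - δ := by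
      have h1 : (N : ℝ) ^ (∑ i ∈ univ.erase i₀, (b i + b' i)) ≤ (N : ℝ) ^ (1 / 2 - δ) := by
        refine le_trans ?_ hlev
        have : 0 ≤ (N : ℝ) ^ (∑ i ∈ univ.erase i₀, (b i + b' i)) := by positivity
        nlinarith
      exact (Real.rpow_le_rpow_left_iff (by linarith)).1 h1
    have hsi : ∀ i, i ≠ i₀ → b i + b' i ≤ 1 := by
      intro i hi
      have h1 := single_le_sum (f := fun i => b i + b' i) (s := univ.erase i₀)
        (fun j _ => add_nonneg (hb j) (hb' j)) (mem_erase.2 ⟨hi, mem_univ i⟩)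
      have h2 : b i + b' i ≤ ∑ i ∈ univ.erase i₀, (b i + b' i) := h1
      linarith
    exact eq_one hc hN2 i₀ (W x) hW b b' hb hb' (fun i hi => by linarith [hsi i hi, hb' i])
      (fun i hi => by linarith [hsi i hi, hb i]) (y x) (y' x) hy0 hy0' hy
      (fun B => ER N (PGB.qz (ε * Real.log N) D) (pr (M x) * pr B) + SE N (h i₀))
      (fun B _ => add_nonneg (ER_nonneg _ _ _) hSE)
  have hpairs := eq_pairs I M W V hM (fun x hxI => ⟨(hx x hxI).1, (hx x hxI).2.1, (hx x hxI).2.2.1⟩)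
    (fun r => ER N (PGB.qz (ε * Real.log N) D) r + SE N (h i₀))
    (fun B _ => add_nonneg (ER_nonneg _ _ _) hSE) (12 * Fintype.card ι) hk
    ((N : ℝ) ^ (∑ i ∈ univ.erase i₀, (b i + b' i))) ((N : ℝ) ^ (1 / 2 - δ))
    (fun x hxI => (hx x hxI).2.2.2.1)
  refine (sum_le_sum hone).trans ?_
  rw [← mul_sum]
  refine le_trans (mul_le_mul_of_nonneg_left (hpairs.trans h9) (by positivity)) ?_
  exact eq_num (Fintype.card ι) hL1 hc (by linarith) hφ hL2

end PGS
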