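import Pool.Agent.PGS.D2f
import Pool.Agent.PGS.E18w

/-! PGS / Fin4: the limit points of the normalised prime gaps have density at least `1 / 2` in all long windows. -/

set_option autoImplicit false

open MeasureTheory PGL

noncomputable section

namespace PGS

theorem final4 (ε : ℝ) (hε : 0 < ε) :
    ∃ T₀ : ℝ, ∀ a T : ℝ, 0 ≤ a → T₀ ≤ T → (1 / 2 - ε) * T ≤ (volume (SG ∩ Set.Icc a (a + T))).toReal := by
  have h := density_win SG SG_closed 4 (by norm_num) p4 ε hε
  have e : (2 : ℝ) / ((4 : ℕ) : ℝ) = 1 / 2 := by norm_num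
  rw [e] at h
  exact h

theorem final5 (ε : ℝ) (hε : 0 < ε) :
    ∃ T₀ : ℝ, ∀ a T : ℝ, 0 ≤ a → T₀ ≤ T → (2 / 5 - ε) * T ≤ (volume (SG ∩ Set.Icc a (a + T))).toReal := by
  have h := density_win SG SG_closed 5 (by norm_num) p5 ε hε
  simpa using h

end PGS
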