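import Pool.Agent.PGL.GS1
import Pool.Agent.PGL.GS2

/-! PGS / Gm: the sums of products of Selberg weights, restricted to `n + h i₁` divisible by a set `M` of primes.

PROOF. By the Chinese remainder theorem there is `r` such that for all `n`:
`(n ≡ b [MOD q] ∧ ∀ p ∈ M, p ∣ n + h i₁) ↔ n ≡ r [MOD q * pr M]` (induction on `M` as in the private lemma `crt` of
`PGL/GS1.lean`; `p ∣ n + h` means `n ≡ (p - 1) h [MOD p]`). Apply `gs1`, resp. `gs2`, with `q * pr M` and `r` in place of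
`q` and `b`: the primes of `V` do not divide `q * pr M` since `M` and `V` are disjoint. For `gs2` we need
`(r + h i₀).Coprime (q * pr M)`: modulo `q` it is `b + h i₀`; for `p ∈ M`, `r ≡ - h i₁ mod p`, so
`r + h i₀ ≡ h i₀ - h i₁ ≢ 0 mod p`. (`r` is determined by the equivalence for `n = r`.) -/

set_option autoImplicit false

open Finset PGL

noncomputable section

namespace PGS

private theorem gm_crt (B : Finset ℕ) (hB : ∀ p ∈ B, p.Prime) (q b : ℕ) (hqB : ∀ p ∈ B, ¬ p ∣ q)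
    (c : ℕ → ℕ) : ∃ r, ∀ n, (n ≡ b [MOD q] ∧ ∀ p ∈ B, n ≡ c p [MOD p]) ↔
      n ≡ r [MOD q * ∏ p ∈ B, p] := by
  classical
  induction B using Finset.induction_on with
  | empty =>
    refine ⟨b, fun n => ?_⟩
    simp
  | @insert p B hp ih =>
    obtain ⟨r, hr⟩ := ih (fun x hx => hB x (mem_insert_of_mem hx))
      fun x hx => hqB x (mem_insert_of_mem hx)
    have hpp := hB p (mem_insert_self _ _)
    have hcop : Nat.Coprime (q * ∏ x ∈ B, x) p := by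
      rw [Nat.coprime_comm]
      refine Nat.Coprime.mul_right ?_ ?_
      · exact (Nat.Prime.coprime_iff_not_dvd hpp).2 (hqB p (mem_insert_self _ _))
      · refine Nat.Coprime.prod_right fun x hx => ?_
        refine (Nat.coprime_primes hpp (hB x (mem_insert_of_mem hx))).2 ?_
        rintro rfl
        exact hp hx
    refine ⟨Nat.chineseRemainder hcop r (c p), fun n => ?_⟩
    have hs := (Nat.chineseRemainder hcop r (c p)).2
    rw [Finset.prod_insert hp, mul_comm p, ← mul_assoc,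
      ← Nat.modEq_and_modEq_iff_modEq_mul hcop]
    constructor
    · rintro ⟨h1, h2⟩
      refine ⟨((hr n).1 ⟨h1, fun x hx => h2 x (mem_insert_of_mem hx)⟩).trans hs.1.symm,
        (h2 p (mem_insert_self _ _)).trans hs.2.symm⟩
    · rintro ⟨h1, h2⟩
      obtain ⟨h3, h4⟩ := (hr n).2 (h1.trans hs.1)
      refine ⟨h3, fun x hx => ?_⟩
      rcases mem_insert.1 hx with rfl | hx
      · exact h2.trans hs.2
      · exact h4 x hx

private theorem gm_dvd_iff (p n h : ℕ) (hp : 0 < p) : p ∣ n + h ↔ n ≡ (p - 1) * h [MOD p] := by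
  have h1 : (p - 1) * h + h = p * h := by
    obtain ⟨k, rfl⟩ := Nat.exists_eq_succ_of_ne_zero hp.ne'
    simp only [Nat.succ_eq_add_one, Nat.add_sub_cancel]
    ring
  constructor
  · intro h2
    have h3 : n + h ≡ (p - 1) * h + h [MOD p] := by
      rw [h1]
      exact ((Nat.modEq_zero_iff_dvd).2 h2).trans
        ((Nat.modEq_zero_iff_dvd).2 (dvd_mul_right p h)).symm
    exact Nat.ModEq.add_right_cancel' h h3
  · intro h2
    have h3 : n + h ≡ (p - 1) * h + h [MOD p] := h2.add_right h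
    rw [h1] at h3
    exact (Nat.modEq_zero_iff_dvd).1 (h3.trans ((Nat.modEq_zero_iff_dvd).2 (dvd_mul_right p h)))

private theorem gm_class (q b h : ℕ) (M : Finset ℕ) (hM : ∀ p ∈ M, p.Prime ∧ ¬ p ∣ q) :
    ∃ r, ∀ n, (n ≡ b [MOD q] ∧ ∀ p ∈ M, p ∣ n + h) ↔ n ≡ r [MOD q * pr M] := by
  obtain ⟨r, hr⟩ := gm_crt M (fun p hp => (hM p hp).1) q b (fun p hp => (hM p hp).2)
    (fun p => (p - 1) * h)
  refine ⟨r, fun n => ?_⟩
  unfold pr
  rw [← hr n]
  refine and_congr Iff.rfl (forall₂_congr fun p hp => ?_)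
  exact gm_dvd_iff p n h (hM p hp).1.pos

private theorem gm_pos {q : ℕ} (hq : 0 < q) {M : Finset ℕ} (hM : ∀ p ∈ M, p.Prime) : 0 < q * pr M :=
  Nat.mul_pos hq (Finset.prod_pos fun p hp => (hM p hp).pos)

private theorem gm_nd {q : ℕ} {V M : Finset ℕ} (hV : ∀ p ∈ V, p.Prime) (hM : ∀ p ∈ M, p.Prime)
    (hqV : ∀ p ∈ V, ¬ p ∣ q) (hMV : Disjoint M V) : ∀ p ∈ V, ¬ p ∣ q * pr M := by
  intro p hp hdv
  rcases ((hV p hp).dvd_mul).1 hdv with h | h
  · exact hqV p hp h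
  · obtain ⟨x, hx, hpx⟩ := ((hV p hp).prime.dvd_finsetProd_iff _).1 h
    have h1 : p = x := (Nat.prime_dvd_prime_iff_eq (hV p hp) (hM x hx)).1 hpx
    subst h1
    exact Finset.disjoint_left.1 hMV hx hp

theorem gs1m {ι : Type*} [Fintype ι] (V : Finset ℕ) (hV : ∀ p ∈ V, p.Prime) (q N b : ℕ) (hq : 0 < q)
    (hqV : ∀ p ∈ V, ¬ p ∣ q) (h : ι → ℕ) (hh : ∀ p ∈ V, ∀ i j, i ≠ j → ¬ h i ≡ h j [MOD p])
    (i₁ : ι) (M : Finset ℕ) (hM : ∀ p ∈ M, p.Prime ∧ ¬ p ∣ q) (hMV : Disjoint M V)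
    (y y' : ι → Finset ℕ → ℝ) :
    |∑ n ∈ (Ioc N (2 * N)).filter (fun n => n ≡ b [MOD q] ∧ ∀ p ∈ M, p ∣ n + h i₁),
        ∏ i, (Lam V (y i) (n + h i) * Lam V (y' i) (n + h i)) -
      N / ((q * pr M : ℕ) : ℝ) * TT V (fun i D => rho V (y i) (y' i) D * al (fun p => 1 / (p : ℝ)) D)| ≤
      ∏ i, ∑ D ∈ V.powerset, |rho V (y i) (y' i) D| := by
  classical
  obtain ⟨r, hr⟩ := gm_class q b (h i₁) M hM
  have hset : (Ioc N (2 * N)).filter (fun n => n ≡ b [MOD q] ∧ ∀ p ∈ M, p ∣ n + h i₁) =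
      (Ioc N (2 * N)).filter (· ≡ r [MOD q * pr M]) :=
    Finset.filter_congr fun n _ => hr n
  rw [hset]
  exact gs1 V hV (q * pr M) N r (gm_pos hq fun p hp => (hM p hp).1)
    (gm_nd hV (fun p hp => (hM p hp).1) hqV hMV) h hh y y'

theorem gs2m {ι : Type*} [Fintype ι] (i₀ : ι) (V : Finset ℕ) (hV : ∀ p ∈ V, p.Prime) (q N b : ℕ) (hq : 0 < q)
    (hqV : ∀ p ∈ V, ¬ p ∣ q) (h : ι → ℕ) (hh : ∀ p ∈ V, ∀ i j, i ≠ j → ¬ h i ≡ h j [MOD p])
    (i₁ : ι) (M : Finset ℕ) (hM : ∀ p ∈ M, p.Prime ∧ ¬ p ∣ q ∧ ¬ h i₀ ≡ h i₁ [MOD p]) (hMV : Disjoint M V)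
    (hcop : (b + h i₀).Coprime q) (hN : 2 ≤ N) (hH : h i₀ ≤ N)
    (y y' : ι → Finset ℕ → ℝ) (hy : y i₀ = dl) (hy' : y' i₀ = dl) (E : ℕ → ℝ)
    (hE : ∀ B ⊆ V, ∀ a : ℕ, a.Coprime (q * pr M * pr B) →
      |PGB.Psi N (q * pr M * pr B) a - PGB.Psi N 1 0 / (Nat.totient (q * pr M * pr B) : ℝ)| ≤ E (pr B)) :
    |∑ n ∈ (Ioc N (2 * N)).filter (fun n => n ≡ b [MOD q] ∧ ∀ p ∈ M, p ∣ n + h i₁),
        fp (n + h i₀) * ∏ i, (Lam V (y i) (n + h i) * Lam V (y' i) (n + h i)) -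
      PGB.Psi N 1 0 / (Nat.totient (q * pr M) : ℝ) *
        TT V (fun i D => rho V (y i) (y' i) D * al (fun p => 1 / ((p : ℝ) - 1)) D)| ≤
      ∑ D ∈ tup ι V, (∏ i, |rho V (y i) (y' i) (D i)|) * (E (pr (univ.biUnion D)) + SE N (h i₀)) := by
  classical
  obtain ⟨r, hr⟩ := gm_class q b (h i₁) M fun p hp => ⟨(hM p hp).1, (hM p hp).2.1⟩
  have hset : (Ioc N (2 * N)).filter (fun n => n ≡ b [MOD q] ∧ ∀ p ∈ M, p ∣ n + h i₁) =
      (Ioc N (2 * N)).filter (· ≡ r [MOD q * pr M]) :=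
    Finset.filter_congr fun n _ => hr n
  rw [hset]
  obtain ⟨hr1, hr2⟩ := (hr r).2 (Nat.ModEq.refl r)
  have hcop' : (r + h i₀).Coprime (q * pr M) := by
    apply Nat.Coprime.mul_right
    · have : Nat.gcd (r + h i₀) q = Nat.gcd (b + h i₀) q := (hr1.add_right (h i₀)).gcd_eq
      rw [Nat.Coprime, this]
      exact hcop
    · unfold pr
      apply Nat.Coprime.prod_right
      intro p hp
      refine ((hM p hp).1.coprime_iff_not_dvd.2 ?_).symm
      intro hdv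
      refine (hM p hp).2.2 ?_
      have h3 : r + h i₀ ≡ r + h i₁ [MOD p] :=
        ((Nat.modEq_zero_iff_dvd).2 hdv).trans ((Nat.modEq_zero_iff_dvd).2 (hr2 p hp)).symm
      exact Nat.ModEq.add_left_cancel' r h3
  exact gs2 i₀ V hV (q * pr M) N r (gm_pos hq fun p hp => (hM p hp).1)
    (gm_nd hV (fun p hp => (hM p hp).1) hqV hMV) h hh hcop' hN hH y y' hy hy' E hE

end PGS
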