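import Pool.Agent.PGL.GU

/-! PGS / Gun: the asymptotics of `G_V(x)`, uniformly in `1 ≤ x ≤ N`.

PROOF. As for `PGL.g_asym`: `V ⊆ VN y N`, so `GV V x ≤ GV (VN y N) x ≤ MP y (log x + η' log N)` by `g_upper`; and
`GV (VN y N) x ≤ GV V x (1 + 1 / (y - 1))^m` (each `B ⊆ VN` is the union of a subset of `V` and a subset of `VN \ V`,
which has at most `m` elements, all `> y`; see the private lemma `gu_insert` in `PGL/GU.lean` and the proof of `g_asym`),
so by `g_lower` `MP y log x ≤ GV V x (1 + 1/(y-1))^m`, and `(1 + 1/(y-1))^m → 1`; use `log x ≤ log N`. -/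

set_option autoImplicit false

open Finset PGL

noncomputable section

namespace PGS

private theorem gu42_ph {B : Finset ℕ} (hB : ∀ p ∈ B, p.Prime) : 0 < ph B := by
  refine prod_pos fun p hp => ?_
  have h2 : (2 : ℝ) ≤ p := by exact_mod_cast (hB p hp).two_le
  linarith

private theorem gu42_pr {B : Finset ℕ} (hB : ∀ p ∈ B, p.Prime) : 0 < pr B :=
  prod_pos fun p hp => (hB p hp).pos

private theorem gu42_nonneg {V : Finset ℕ} (hV : ∀ p ∈ V, p.Prime) (R : ℝ) : 0 ≤ GV V R := by
  refine sum_nonneg fun B hB => ?_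
  rw [mem_filter, mem_powerset] at hB
  exact one_div_nonneg.2 (gu42_ph fun p hp => hV p (hB.1 hp)).le

private theorem gu42_mono {V V' : Finset ℕ} (hV : ∀ p ∈ V', p.Prime) (h : V ⊆ V') (R : ℝ) :
    GV V R ≤ GV V' R := by
  refine sum_le_sum_of_subset_of_nonneg (filter_subset_filter _ (powerset_mono.2 h))
    fun B hB _ => ?_
  rw [mem_filter, mem_powerset] at hB
  exact one_div_nonneg.2 (gu42_ph fun p hp => hV p (hB.1 hp)).le

private theorem gu42_insert {V : Finset ℕ} (hV : ∀ p ∈ V, p.Prime) {p : ℕ} (hp : p.Prime)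
    (hpV : p ∉ V) (R : ℝ) : GV (insert p V) R ≤ GV V R * (1 + 1 / ((p : ℝ) - 1)) := by
  unfold GV
  rw [sum_filter, sum_powerset_insert hpV, sum_filter, mul_add, mul_one]
  refine add_le_add le_rfl ?_
  rw [sum_mul]
  refine sum_le_sum fun B hB => ?_
  rw [mem_powerset] at hB
  have hpB : p ∉ B := fun h => hpV (hB h)
  have hB' : ∀ q ∈ B, q.Prime := fun q hq => hV q (hB hq)
  have h1 : pr (insert p B) = p * pr B := prod_insert hpB
  have h2 : ph (insert p B) = ((p : ℝ) - 1) * ph B := prod_insert hpB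
  have h3 : (2 : ℝ) ≤ p := by exact_mod_cast hp.two_le
  have h4 := gu42_ph hB'
  have h5 : (0 : ℝ) < pr B := by exact_mod_cast gu42_pr hB'
  have h6 : 0 < (p : ℝ) - 1 := by linarith
  by_cases hc : (pr (insert p B) : ℝ) ≤ R
  · have h7 : (pr B : ℝ) ≤ R := by
      refine le_trans ?_ hc
      rw [h1]
      push_cast
      nlinarith
    rw [if_pos hc, if_pos h7, h2]
    rw [one_div_mul_one_div_rev]
  · rw [if_neg hc]
    split_ifs
    · positivity
    · rw [zero_mul]

private theorem gu42_union {V : Finset ℕ} (hV : ∀ p ∈ V, p.Prime) {y : ℝ} (hy : 1 < y) (R : ℝ)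
    (D : Finset ℕ) (hD : ∀ p ∈ D, p.Prime ∧ y < (p : ℝ)) :
    GV (V ∪ D) R ≤ GV V R * (1 + 1 / (y - 1)) ^ D.card := by
  classical
  have hy1 : 0 < y - 1 := by linarith
  have hc : 1 ≤ 1 + 1 / (y - 1) := by
    have : 0 < 1 / (y - 1) := by positivity
    linarith
  induction D using Finset.induction_on with
  | empty => simp
  | insert p D hpD ih =>
    have ih' := ih fun q hq => hD q (mem_insert_of_mem hq)
    have hp := hD p (mem_insert_self _ _)
    have hVD : ∀ q ∈ V ∪ D, q.Prime := by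
      intro q hq
      rcases mem_union.1 hq with h | h
      · exact hV q h
      · exact (hD q (mem_insert_of_mem h)).1
    rw [card_insert_of_notMem hpD, pow_succ, ← mul_assoc, union_insert]
    have h0 := gu42_nonneg hVD R
    by_cases hm : p ∈ V ∪ D
    · rw [insert_eq_of_mem hm]
      calc GV (V ∪ D) R ≤ GV (V ∪ D) R * (1 + 1 / (y - 1)) := le_mul_of_one_le_right h0 hc
        _ ≤ _ := mul_le_mul_of_nonneg_right ih' (by linarith)
    · refine (gu42_insert hVD hp.1 hm R).trans ?_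
      refine mul_le_mul ih' ?_ ?_ ?_
      · have : 1 / ((p : ℝ) - 1) ≤ 1 / (y - 1) := one_div_le_one_div_of_le hy1 (by linarith [hp.2])
        linarith
      · have h3 : (2 : ℝ) ≤ p := by exact_mod_cast hp.1.two_le
        have : 0 ≤ 1 / ((p : ℝ) - 1) := one_div_nonneg.2 (by linarith)
        linarith
      · exact mul_nonneg (gu42_nonneg hV R) (by positivity)

private theorem gu42_vn {y : ℝ} {N : ℕ} : ∀ p ∈ VN y N, p.Prime ∧ y < (p : ℝ) := by
  intro p hp
  exact (mem_filter.1 hp).2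

private theorem gu42_tend {ε : ℝ} (hε : 0 < ε) :
    Filter.Tendsto (fun N : ℕ => ε * Real.log N) Filter.atTop Filter.atTop :=
  (Real.tendsto_log_atTop.comp tendsto_natCast_atTop_atTop).const_mul_atTop hε

theorem g_unif (ε η : ℝ) (m : ℕ) (hε : 0 < ε) (hη : 0 < η) : ∃ N₀ : ℕ, ∀ N : ℕ, N₀ ≤ N →
    ∀ V : Finset ℕ, V ⊆ VN (ε * Real.log N) N → ((VN (ε * Real.log N) N) \ V).card ≤ m →
      ∀ x : ℝ, 1 ≤ x → x ≤ N → |GV V x - Gam ε N * (Real.log x / Real.log N)| ≤ η * Gam ε N := by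
  obtain ⟨N₁, hN₁⟩ := g_upper ε η hε hη
  have h1 : Filter.Tendsto (fun t : ℝ => (1 + 1 / (t - 1)) ^ m) Filter.atTop (nhds 1) := by
    have a1 : Filter.Tendsto (fun t : ℝ => 1 / (t - 1)) Filter.atTop (nhds 0) := by
      have a2 : Filter.Tendsto (fun t : ℝ => t - 1) Filter.atTop Filter.atTop :=
        Filter.tendsto_atTop_add_const_right _ (-1) Filter.tendsto_id
      exact a2.const_div_atTop 1
    have a3 := (a1.const_add 1).pow m
    simpa using a3
  have h2 : ∀ᶠ t : ℝ in Filter.atTop, (1 + 1 / (t - 1)) ^ m ≤ 1 + η :=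
    (h1.eventually_lt_const (by linarith : (1 : ℝ) < 1 + η)).mono fun t ht => ht.le
  obtain ⟨N₂, hN₂⟩ := Filter.eventually_atTop.1
    ((gu42_tend hε).eventually ((Filter.eventually_ge_atTop 2).and h2))
  refine ⟨max (max N₁ N₂) 1, fun N hN V hV hm x hx1 hxN => ?_⟩
  have hN1 : N₁ ≤ N := (le_max_left _ _).trans ((le_max_left _ _).trans hN)
  have hN2 : N₂ ≤ N := (le_max_right _ _).trans ((le_max_left _ _).trans hN)
  have hN3 : 1 ≤ N := (le_max_right _ _).trans hN
  obtain ⟨d1, d2⟩ := hN₂ N hN2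
  have hNr : (1 : ℝ) ≤ N := by exact_mod_cast hN3
  have hL : 0 < Real.log N := by
    by_contra hc
    nlinarith
  have hlx0 : 0 ≤ Real.log x := Real.log_nonneg hx1
  have hlxN : Real.log x ≤ Real.log N := Real.log_le_log (by linarith) hxN
  obtain ⟨τ, hτd⟩ : ∃ τ, τ = Real.log x / Real.log N := ⟨_, rfl⟩
  have hτ1 : τ ≤ 1 := by rw [hτd]; exact (div_le_one hL).2 hlxN
  have hlog : Real.log x = τ * Real.log N := by
    rw [hτd]
    field_simp
  rw [← hτd]
  have hMP := MP_pos (ε * Real.log N)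
  have hG0 : 0 ≤ Gam ε N := mul_nonneg hMP.le hL.le
  have hVP : ∀ p ∈ VN (ε * Real.log N) N, p.Prime := fun p hp => (gu42_vn p hp).1
  have hVP' : ∀ p ∈ V, p.Prime := fun p hp => hVP p (hV hp)
  have u1 := gu42_mono hVP hV x
  have u2 := hN₁ N hN1 x hx1 hxN
  rw [hlog] at u2
  have u3 : MP (ε * Real.log N) * (τ * Real.log N + η * Real.log N) = (τ + η) * Gam ε N := by
    unfold Gam
    ring
  have l1 := g_lower (y := ε * Real.log N) (by linarith) hx1 hxN
  rw [hlog] at l1
  have l2 : MP (ε * Real.log N) * (τ * Real.log N) = τ * Gam ε N := by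
    unfold Gam
    ring
  have l3 := gu42_union hVP' (by linarith : 1 < ε * Real.log N) x
    ((VN (ε * Real.log N) N) \ V) (fun p hp => gu42_vn p (mem_sdiff.1 hp).1)
  rw [union_sdiff_of_subset hV] at l3
  have hc1 : 1 ≤ 1 + 1 / (ε * Real.log N - 1) := by
    have : 0 < 1 / (ε * Real.log N - 1) := one_div_pos.2 (by linarith)
    linarith
  have l4 : (1 + 1 / (ε * Real.log N - 1)) ^ ((VN (ε * Real.log N) N) \ V).card ≤ 1 + η :=
    (pow_le_pow_right₀ hc1 hm).trans d2
  have hV0 := gu42_nonneg hVP' x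
  have l5 : τ * Gam ε N ≤ GV V x * (1 + η) := by
    rw [← l2]
    exact l1.trans (l3.trans (mul_le_mul_of_nonneg_left l4 hV0))
  rw [abs_le]
  constructor
  · have l6 : GV V x ≥ τ * Gam ε N - η * Gam ε N := by
      by_contra hcon
      push Not at hcon
      have hη1 : 0 < 1 + η := by linarith
      have l7 := mul_lt_mul_of_pos_right hcon hη1
      have l8 : (τ * Gam ε N - η * Gam ε N) * (1 + η) ≤ τ * Gam ε N := by
        have a1 : 0 ≤ η * Gam ε N := by positivity
        nlinarith [mul_nonneg a1 (by linarith : 0 ≤ 1 - τ), mul_nonneg a1 hη.le]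
      linarith
    linarith
  · linarith

end PGS
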