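import Pool.Agent.PGS.Defs

/-! PGS / JN: the limit `JJ` is nonnegative.

PROOF. Group the pairs `(j, j')` according to the common restriction to the complement of `I`: say `j ~ j'` if `j' i = j i`
for all `i ∉ I`. For a class `E ⊆ J` the factor `∏_{i ∉ I} c (j i)² t (j i) ≥ 0` is the same for all `j ∈ E`, and
`∑_{j, j' ∈ E} ∏_{i ∈ I} (c t)(j i) (c t)(j' i) = (∑_{j ∈ E} ∏_{i ∈ I} (c t)(j i))² ≥ 0`. Formally: with
`u j = ∏_{i ∈ I} c (j i) t (j i)` and `v j = ∏_{i ∉ I} c (j i)² t (j i)`, use the map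
`r j = fun i => if i ∈ I then none else some (j i)` (into `ι → Option (Fin L)`) and `Finset.sum_fiberwise`:
`JJ = ∑_{s} ∑_{j, j' ∈ J, r j = r j' = s} v j u j u j'`, and `v j` depends only on `s`. -/

set_option autoImplicit false

open Finset PGL

noncomputable section

namespace PGS

theorem JJ_nonneg {ι : Type} [Fintype ι] [DecidableEq ι] {L : ℕ} (J : Finset (ι → Fin L)) (c t : Fin L → ℝ)
    (ht : ∀ l, 0 ≤ t l) (I : Finset ι) : 0 ≤ JJ J c t I := by
  classical
  obtain ⟨r, hrdef⟩ : ∃ r : (ι → Fin L) → (ι → Option (Fin L)),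
      ∀ j i, r j i = if i ∈ I then none else some (j i) := ⟨_, fun _ _ => rfl⟩
  have hr : ∀ j j', r j' = r j ↔ ∀ i, i ∉ I → j' i = j i := by
    intro j j'
    constructor
    · intro h i hi
      have h1 := congrFun h i
      rw [hrdef, hrdef, if_neg hi, if_neg hi] at h1
      exact Option.some_injective _ h1
    · intro h
      funext i
      rw [hrdef, hrdef]
      by_cases hi : i ∈ I
      · rw [if_pos hi, if_pos hi]
      · rw [if_neg hi, if_neg hi, h i hi]
  obtain ⟨u, hu⟩ : ∃ u : (ι → Fin L) → ℝ, ∀ j, u j = ∏ i ∈ I, c (j i) * t (j i) :=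
    ⟨_, fun _ => rfl⟩
  obtain ⟨v, hv⟩ : ∃ v : (ι → Fin L) → ℝ, ∀ j, v j = ∏ i ∈ Iᶜ, c (j i) ^ 2 * t (j i) :=
    ⟨_, fun _ => rfl⟩
  have hv0 : ∀ j, 0 ≤ v j := fun j => by
    rw [hv]
    exact prod_nonneg fun i _ => mul_nonneg (sq_nonneg _) (ht _)
  have hvr : ∀ j j', r j' = r j → v j' = v j := by
    intro j j' h
    rw [hr] at h
    rw [hv, hv]
    refine prod_congr rfl fun i hi => ?_
    rw [h i (Finset.mem_compl.1 hi)]
  have hterm : ∀ j j' : ι → Fin L, (∏ i, if i ∈ I then c (j i) * t (j i) * (c (j' i) * t (j' i)) else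
      c (j i) ^ 2 * t (j i)) = v j * (u j * u j') := by
    intro j j'
    rw [← Finset.prod_mul_prod_compl I, hv, hu, hu, ← Finset.prod_mul_distrib, mul_comm]
    congr 1
    · refine prod_congr rfl fun i hi => ?_
      rw [if_neg (Finset.mem_compl.1 hi)]
    · refine prod_congr rfl fun i hi => ?_
      rw [if_pos hi]
  unfold JJ
  have h1 : ∀ j ∈ J, (∑ j' ∈ J.filter (fun j' => ∀ i, i ∉ I → j' i = j i),
      ∏ i, if i ∈ I then c (j i) * t (j i) * (c (j' i) * t (j' i)) else c (j i) ^ 2 * t (j i)) =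
      ∑ j' ∈ J.filter (fun j' => r j' = r j), v j * (u j * u j') := by
    intro j _
    rw [Finset.filter_congr fun j' _ => (hr j j').symm]
    exact sum_congr rfl fun j' _ => hterm j j'
  rw [sum_congr rfl h1, ← Finset.sum_fiberwise_of_maps_to (s := J) (t := J.image r) (g := r)
    (fun j hj => Finset.mem_image_of_mem r hj)]
  refine sum_nonneg fun s hs => ?_
  obtain ⟨j₀, _, rfl⟩ := Finset.mem_image.1 hs
  have h2 : ∀ j ∈ J.filter (fun j => r j = r j₀),
      (∑ j' ∈ J.filter (fun j' => r j' = r j), v j * (u j * u j')) =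
      v j₀ * u j * ∑ j' ∈ J.filter (fun j' => r j' = r j₀), u j' := by
    intro j hj
    have hj' := (Finset.mem_filter.1 hj).2
    rw [hj', Finset.mul_sum]
    refine sum_congr rfl fun j' _ => ?_
    rw [hvr j₀ j hj']
    ring
  rw [sum_congr rfl h2, ← Finset.sum_mul, ← Finset.mul_sum, mul_assoc]
  exact mul_nonneg (hv0 j₀) (mul_self_nonneg _)

theorem t_nonneg {ι : Type} [Fintype ι] {L : ℕ} {ρ : ℝ} {J : Finset (ι → Fin L)} {a b t : Fin L → ℝ}
    (hD : Dat ρ J a b t) (l : Fin L) : 0 ≤ t l := by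
  have h := hD.ov l l
  rw [if_pos rfl] at h
  rw [← h]
  unfold ov
  exact le_max_left _ _

end PGS
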