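import Pool.Agent.PGS.S2Q

/-! PGS / S2W: the sum of `S2Q` with the weight `wq` (upper bound).

PROOF. Apply `tr` with `S = Pg ε N D b₀`, `φ n = fp (n + h i₀) Lam V (y1 N κ) (n + h i₁)² #{(p, q) : p ∈ PR N α β V,
q ∈ Vs N α V, p ∣ n + h i₁, q ∣ n + h i₁}`, `Y = XX log (β/α) DQ`, `Z = Y + XX Γ` (`Y = O(XX Γ)` by `dq`, so
`η' Z = O(η' XX Γ)`); the hypothesis of `tr` is `s2q` for all pairs `j, j' ∈ J` (level: `2 ρ + 2 κ + α + β ≤ 1/2 - δ`),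
`Γ^(k-1) = Γ Γ^(k-2)`. So the sum is at most `XX log (β/α) DQ Γ^(k+2) JJ + η' ... `; `JJ ≥ 0`?: by `tr` with `Y ≥ 0` the
sum being nonnegative only shows `JJ ≥ -η`; use instead `dq` (upper bound of `DQ` by `Γ (T + η')`) and
`0 ≤ JJ J c t {i₀, i₁}`, which is a hypothesis here. -/

set_option autoImplicit false

open Finset PGL

noncomputable section

namespace PGS

/-- the number of the pairs -/
private def cnt76 (P Q : Finset ℕ) (m : ℕ) : ℝ :=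
  ∑ p ∈ P, ∑ q ∈ Q, if p ∣ m ∧ q ∣ m then (1 : ℝ) else 0

private theorem swap76 (S P Q : Finset ℕ) (k : ℕ) (F G : ℕ → ℝ) :
    ∑ n ∈ S, F n * cnt76 P Q (n + k) * G n =
      ∑ p ∈ P, ∑ q ∈ Q, ∑ n ∈ S.filter (fun n => p ∣ n + k ∧ q ∣ n + k), F n * G n := by
  unfold cnt76
  have h1 : ∀ n ∈ S, F n * (∑ p ∈ P, ∑ q ∈ Q, if p ∣ n + k ∧ q ∣ n + k then (1 : ℝ) else 0) * G n =
      ∑ p ∈ P, ∑ q ∈ Q, if p ∣ n + k ∧ q ∣ n + k then F n * G n else 0 := by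
    intro n _
    rw [Finset.mul_sum, Finset.sum_mul]
    refine sum_congr rfl fun p _ => ?_
    rw [Finset.mul_sum, Finset.sum_mul]
    refine sum_congr rfl fun q _ => ?_
    split_ifs <;> ring
  rw [sum_congr rfl h1, Finset.sum_comm]
  refine sum_congr rfl fun p _ => ?_
  rw [Finset.sum_comm]
  refine sum_congr rfl fun q _ => ?_
  rw [Finset.sum_filter]

private theorem fin76 {X G Y Sm JJ' lg T η η₁ η₂ : ℝ} {k : ℕ} (hX : 0 ≤ X) (hG : 0 ≤ G)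
    (hJ : 0 ≤ JJ') (hlg : 0 ≤ lg) (hη1 : 0 < η₁) (hη₂ : 0 ≤ η₂)
    (hη2' : lg * η₂ * JJ' ≤ η / 2) (hη1' : η₁ * (lg * (|T| + η₂) + 1) ≤ η / 2)
    (hY : Y ≤ X * (lg * (G * (T + η₂))))
    (hS : |Sm - Y * G ^ (k + 2) * JJ'| ≤ η₁ * ((Y + X * G) * G ^ (k + 2))) :
    Sm ≤ X * G ^ (k + 3) * (lg * T * JJ' + η) := by
  have hGk : 0 ≤ G ^ (k + 2) := pow_nonneg hG _
  have h1 := (abs_le.1 hS).2
  have e1 : Y * G ^ (k + 2) * JJ' ≤ X * (lg * (G * (T + η₂))) * G ^ (k + 2) * JJ' :=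
    mul_le_mul_of_nonneg_right (mul_le_mul_of_nonneg_right hY hGk) hJ
  have hTa : T ≤ |T| := le_abs_self T
  have e2 : Y + X * G ≤ X * G * (lg * (|T| + η₂) + 1) := by
    have : X * (lg * (G * (T + η₂))) ≤ X * (lg * (G * (|T| + η₂))) := by
      refine mul_le_mul_of_nonneg_left (mul_le_mul_of_nonneg_left
        (mul_le_mul_of_nonneg_left (by linarith) hG) hlg) hX
    calc Y + X * G ≤ X * (lg * (G * (|T| + η₂))) + X * G := by linarith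
      _ = _ := by ring
  have e3 : η₁ * ((Y + X * G) * G ^ (k + 2)) ≤ X * G ^ (k + 3) * (η / 2) := by
    calc η₁ * ((Y + X * G) * G ^ (k + 2)) ≤
        η₁ * (X * G * (lg * (|T| + η₂) + 1) * G ^ (k + 2)) :=
          mul_le_mul_of_nonneg_left (mul_le_mul_of_nonneg_right e2 hGk) hη1.le
      _ = X * G ^ (k + 3) * (η₁ * (lg * (|T| + η₂) + 1)) := by ring
      _ ≤ _ := mul_le_mul_of_nonneg_left hη1' (mul_nonneg hX (pow_nonneg hG _))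
  have e4 : X * (lg * (G * (T + η₂))) * G ^ (k + 2) * JJ' ≤ X * G ^ (k + 3) * (lg * T * JJ' + η / 2) := by
    calc X * (lg * (G * (T + η₂))) * G ^ (k + 2) * JJ' =
        X * G ^ (k + 3) * (lg * T * JJ' + lg * η₂ * JJ') := by ring
      _ ≤ _ := mul_le_mul_of_nonneg_left (by linarith) (mul_nonneg hX (pow_nonneg hG _))
  calc Sm ≤ Y * G ^ (k + 2) * JJ' + η₁ * ((Y + X * G) * G ^ (k + 2)) := by linarith
    _ ≤ X * G ^ (k + 3) * (lg * T * JJ' + η / 2) + X * G ^ (k + 3) * (η / 2) :=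
        add_le_add (e1.trans e4) e3
    _ = _ := by ring

theorem s2qw {ι : Type} [Fintype ι] [DecidableEq ι] (δ ρ κ α β : ℝ) (hδ : 0 < δ) (hδ2 : δ < 1 / 2) (hκ : 0 < κ)
    (hκα : κ < α) (hαβ : α < β) (hβ : β ≤ 1) (hρ0 : 0 ≤ ρ) (hρα : ρ < α)
    (hρ : 2 * ρ + 2 * κ + α + β ≤ 1 / 2 - δ) : ∃ A : ℝ,
    ∀ {L : ℕ} (J : Finset (ι → Fin L)) (c a b t : Fin L → ℝ), Dat ρ J a b t →
    ∀ (i₀ i₁ : ι) (ε C η : ℝ), i₀ ≠ i₁ → 0 ≤ JJ J c t {i₀, i₁} → 0 < ε → 8 * ε ≤ δ → 0 < η →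
    ∃ N₀ : ℕ, ∀ N : ℕ, N₀ ≤ N → ∀ (D D' V : Finset ℕ) (h : ι → ℕ) (b₀ : ℕ), Ctx ε C N D D' V h b₀ →
      MB δ A ε N D →
      ∑ p ∈ PR N α β V, ∑ q ∈ Vs N α V, ∑ n ∈ (Pg ε N D b₀).filter (fun n => p ∣ n + h i₁ ∧ q ∣ n + h i₁),
          fp (n + h i₀) * Lam V (y1 N κ) (n + h i₁) ^ 2 * wq J c a b N V h i₀ i₁ n ≤
        XX ε N D * Gam ε N ^ (Fintype.card ι + 3) * (Real.log (β / α) *
          (13 * (κ / 2) + 21 * (α - κ / 2) - 4 * κ * Real.log (2 * α / κ)) * JJ J c t {i₀, i₁} + η) := by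
  obtain ⟨A, hA⟩ := s2q (ι := ι) δ hδ hδ2
  refine ⟨A, fun {L} J c a b t hD i₀ i₁ ε C η hi hJ hε hεδ hη => ?_⟩
  obtain ⟨T, hT⟩ : ∃ T : ℝ, T = 13 * (κ / 2) + 21 * (α - κ / 2) - 4 * κ * Real.log (2 * α / κ) := ⟨_, rfl⟩
  have hα : 0 < α := hκ.trans hκα
  have hlg : 0 ≤ Real.log (β / α) := by
    refine Real.log_nonneg ?_
    rw [le_div_iff₀ hα]
    linarith
  obtain ⟨J₀, hJ₀⟩ : ∃ J₀ : ℝ, J₀ = JJ J c t {i₀, i₁} := ⟨_, rfl⟩
  have hJ₀n : 0 ≤ J₀ := hJ₀ ▸ hJ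
  have hden : 0 < 2 * (Real.log (β / α) * J₀ + 1) := by positivity
  obtain ⟨η₂, hη₂⟩ : ∃ η₂ : ℝ, η₂ = η / (2 * (Real.log (β / α) * J₀ + 1)) := ⟨_, rfl⟩
  have hη₂0 : 0 < η₂ := hη₂ ▸ div_pos hη hden
  have hη₂' : Real.log (β / α) * η₂ * J₀ ≤ η / 2 := by
    have h1 : η₂ * (2 * (Real.log (β / α) * J₀ + 1)) = η := by
      rw [hη₂]; field_simp
    nlinarith
  have hden' : 0 < Real.log (β / α) * (|T| + η₂) + 1 := by positivity
  obtain ⟨η₁, hη₁⟩ : ∃ η₁ : ℝ, η₁ = η / 2 / (Real.log (β / α) * (|T| + η₂) + 1) := ⟨_, rfl⟩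
  have hη₁0 : 0 < η₁ := hη₁ ▸ div_pos (half_pos hη) hden'
  have hη₁' : η₁ * (Real.log (β / α) * (|T| + η₂) + 1) ≤ η / 2 := by
    rw [hη₁, div_mul_cancel₀ _ hden'.ne']
  obtain ⟨η', hη', N₁, hN₁⟩ := tr ρ J c a b t hD i₀ i₁ hi ε C η₁ hε hη₁0
  obtain ⟨N₂, hN₂⟩ := Ctx_card (ι := ι) ε C hε
  obtain ⟨N₃, hN₃⟩ := Gam_ge ε hε
  obtain ⟨N₄, hN₄⟩ := dq ε η₂ α κ (1 + Fintype.card ι ^ 2) hε hη₂0 hκ hκα.le (by linarith)
  have hb0 : ∀ l, 0 ≤ b l := fun l => (hD.st l).2.2.1.le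
  have hbα : ∀ j ∈ J, ∀ i, b (j i) < α := fun j hj i =>
    lt_of_le_of_lt ((Finset.single_le_sum (f := fun i => b (j i)) (fun i _ => hb0 (j i))
      (mem_univ i)).trans (hD.lev j hj)) hρα
  have hs : ∀ᶠ N : ℕ in Filter.atTop, ∀ j ∈ J, ∀ j' ∈ J,
      ∀ (D D' V : Finset ℕ) (h : ι → ℕ) (c : ℕ), Ctx ε C N D D' V h c → MB δ A ε N D →
      |∑ p ∈ PR N α β V, ∑ q ∈ Vs N α V,
          ∑ n ∈ (Pg ε N D c).filter (fun n => p ∣ n + h i₁ ∧ q ∣ n + h i₁),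
          fp (n + h i₀) * Lam V (y1 N κ) (n + h i₁) ^ 2 * ∏ i ∈ oth i₀ i₁,
            (Lam V (ys N (a (j i)) (b (j i))) (n + h i) * Lam V (ys N (a (j' i)) (b (j' i))) (n + h i)) -
        XX ε N D * (Real.log (β / α) * DQ N α κ V) * Gam ε N ^ (Fintype.card ι - 2) *
          ∏ i ∈ oth i₀ i₁, ov (a (j i)) (b (j i)) (a (j' i)) (b (j' i))| ≤
        η' * (XX ε N D * Gam ε N ^ (Fintype.card ι - 1)) := by
    rw [Filter.eventually_all_finset]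
    intro j hj
    rw [Filter.eventually_all_finset]
    intro j' hj'
    have hlev : ∑ i ∈ oth i₀ i₁, (b (j i) + b (j' i)) + 2 * κ + α + β ≤ 1 / 2 - δ := by
      have h1 : ∑ i ∈ oth i₀ i₁, (b (j i) + b (j' i)) ≤ ∑ i, (b (j i) + b (j' i)) :=
        Finset.sum_le_sum_of_subset_of_nonneg (Finset.subset_univ _)
          fun i _ _ => add_nonneg (hb0 _) (hb0 _)
      rw [Finset.sum_add_distrib (s := univ)] at h1
      have h2 := hD.lev j hj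
      have h3 := hD.lev j' hj'
      linarith
    obtain ⟨N₀, hN₀⟩ := hA i₀ i₁ ε C η' α β κ hi hε hεδ hη' hκ hκα hαβ (fun i => a (j i))
      (fun i => b (j i)) (fun i => a (j' i)) (fun i => b (j' i)) (fun i => hD.st _)
      (fun i => hD.st _) (fun i => ⟨hbα j hj i, hbα j' hj' i⟩) hlev
    filter_upwards [Filter.eventually_ge_atTop N₀] with N hN
    exact hN₀ N hN
  obtain ⟨N₅, hN₅⟩ := Filter.eventually_atTop.1 hs
  refine ⟨max (max N₁ N₂) (max (max N₃ N₄) (max N₅ 1)), fun N hN D D' V h b₀ hC hMB => ?_⟩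
  have f1 : N₁ ≤ N := ((le_max_left _ _).trans (le_max_left _ _)).trans hN
  have f2 : N₂ ≤ N := ((le_max_right _ _).trans (le_max_left _ _)).trans hN
  have f3 : N₃ ≤ N := ((le_max_left _ _).trans ((le_max_left _ _).trans (le_max_right _ _))).trans hN
  have f4 : N₄ ≤ N := ((le_max_right _ _).trans ((le_max_left _ _).trans (le_max_right _ _))).trans hN
  have f5 : N₅ ≤ N := ((le_max_left _ _).trans ((le_max_right _ _).trans (le_max_right _ _))).trans hN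
  have hG : 0 ≤ Gam ε N := (one_div_pos.2 hε).le.trans (hN₃ N f3)
  obtain ⟨hV, hcard⟩ := hN₂ N f2 D D' V h b₀ hC
  have hVp : ∀ p ∈ V, p.Prime := fun p hp => ((mem_filter.1 (hV hp)).2).1
  have hDQ := hN₄ N f4 V hV hcard
  have hDQ0 : 0 ≤ DQ N α κ V := DQ_nonneg hVp
  have hX : 0 ≤ XX ε N D := by
    unfold XX
    positivity
  have hk : 2 ≤ Fintype.card ι := by
    have h1 : ({i₀, i₁} : Finset ι).card = 2 := Finset.card_pair hi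
    rw [← h1]
    exact Finset.card_le_univ _
  have hpow : Gam ε N ^ (Fintype.card ι - 1) = Gam ε N * Gam ε N ^ (Fintype.card ι - 2) := by
    rw [← pow_succ']
    congr 1
    omega
  obtain ⟨Y, hY⟩ : ∃ Y : ℝ, Y = XX ε N D * (Real.log (β / α) * DQ N α κ V) := ⟨_, rfl⟩
  have hY0 : 0 ≤ Y := by rw [hY]; positivity
  have htr := hN₁ N f1 D D' V h b₀ hC (Pg ε N D b₀)
    (fun n => fp (n + h i₀) * Lam V (y1 N κ) (n + h i₁) ^ 2 *
      cnt76 (PR N α β V) (Vs N α V) (n + h i₁)) Y (Y + XX ε N D * Gam ε N) hY0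
    (by nlinarith [mul_nonneg hX hG]) (by
      intro j hj j' hj'
      have h1 := hN₅ N f5 j hj j' hj' D D' V h b₀ hC hMB
      have h2 := swap76 (Pg ε N D b₀) (PR N α β V) (Vs N α V) (h i₁)
        (fun n => fp (n + h i₀) * Lam V (y1 N κ) (n + h i₁) ^ 2)
        (fun n => ∏ i ∈ oth i₀ i₁, (Lam V (ys N (a (j i)) (b (j i))) (n + h i) *
          Lam V (ys N (a (j' i)) (b (j' i))) (n + h i)))
      rw [h2, hY]
      refine h1.trans ?_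
      rw [hpow, ← hY]
      refine mul_le_mul_of_nonneg_left ?_ hη'.le
      have h3 : 0 ≤ Gam ε N ^ (Fintype.card ι - 2) := pow_nonneg hG _
      have h4 := mul_nonneg hY0 h3
      nlinarith)
  have h5 := swap76 (Pg ε N D b₀) (PR N α β V) (Vs N α V) (h i₁)
    (fun n => fp (n + h i₀) * Lam V (y1 N κ) (n + h i₁) ^ 2)
    (fun n => wq J c a b N V h i₀ i₁ n)
  rw [h5, ← hJ₀] at htr
  rw [← hT, ← hJ₀]
  refine fin76 hX hG hJ₀n hlg hη₁0 hη₂0.le hη₂' hη₁' ?_ htr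
  rw [hY]
  refine mul_le_mul_of_nonneg_left (mul_le_mul_of_nonneg_left ?_ hlg) hX
  rw [hT]
  exact hDQ

end PGS
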