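import Pool.Agent.PGS.S2P
import Pool.Agent.PGS.S2W
import Pool.Agent.PGS.JN

/-! PGS / LB: lower bound for the primes `n + h i₀` with `n + h i₁` divisible by one prime in `[N^α, N^β)` and free of the
primes of `V` below `N^α`; `α = 0.1251`, `β = 0.1252`.

PROOF. Let `κ = 0.1248`, `K' = Lam V (y1 N κ)`, `G₁ = mass V (y1 N κ)`, `P = PR N α β V`, `W = Vs N α V`. `y1 N κ` is supported in
`W` (`y1_sub`), so for `m = n + h i₁` without prime factor in `W` `K' m = G₁` (`Lam_sub`, `mass_sub`, the pattern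
`W.filter (· ∣ m)` is empty), and if `ν(m) = #{q ∈ W : q ∣ m} ≥ 1` then `1 - ν(m) ≤ 0`. Hence
`(1 - ν(m)) K'(m)² ≤ G₁² 1[ν(m) = 0]`. Multiply by `fp (n + h i₀) wq n ≥ 0`, sum over `p ∈ P` and `n ∈ Pg` with `p ∣ m`:
`T₁ - T₂ ≤ G₁² ∑_{p ∈ P} ∑_{n : p ∣ m, ν(m) = 0} fp wq`, where `T₁` is the sum of `s2pw` and `T₂` the sum of `s2qw` (level:
`2 ρ + 2 κ + α + β = 2 ρ + 0.4999 ≤ 1/2 - δ`). With `Λ = log (β / α) = log (1252/1251)`,
`T₁ ≥ XX Γ^(k+3) (Λ 17 κ JJ - η')`, `T₂ ≤ XX Γ^(k+3) (Λ T JJ + η')`, `T = 13 (κ/2) + 21 (α - κ/2) - 4 κ log (2 α / κ)`,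
`17 κ - T = 2.1216 - 2.1279 + 0.4992 log (2502 / 1248) ≥ 0.3408` (`log 2 ≥ 0.6931`, `log (2502/2496) ≥ 0.0023`).
`G₁ = 3 mass V (ys N (-1) κ) + 2 mass V (ys N (-1) (κ/2)) = (4 κ + o(1)) Γ` (`mass_step`, `dia_step`), `16 κ² = 0.249200...`,
and `0.3408 / 0.2493 ≥ 1.36`. `JJ ≥ 0` (`JJ_nonneg`). -/

set_option autoImplicit false

open Finset PGL

noncomputable section

namespace PGS

/-! ### numbers -/

private theorem lb_log_ratio : (0.0023 : ℝ) ≤ Real.log (2502 / 2496) := by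
  have h := Real.one_sub_inv_le_log_of_pos (show (0 : ℝ) < 2502 / 2496 by norm_num)
  refine le_trans ?_ h
  norm_num

private theorem lb_num : (0.3408 : ℝ) ≤ 17 * (1248 / 10000) - (13 * (1248 / 10000 / 2) +
    21 * (1251 / 10000 - 1248 / 10000 / 2) - 4 * (1248 / 10000) * Real.log (2 * (1251 / 10000) / (1248 / 10000))) := by
  have h1 : (2 * (1251 / 10000) / (1248 / 10000) : ℝ) = 2 * (2502 / 2496) := by norm_num
  have h2 : Real.log (2 * (1251 / 10000) / (1248 / 10000)) = Real.log 2 + Real.log (2502 / 2496) := by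
    rw [h1, Real.log_mul (by norm_num) (by norm_num)]
  have h3 := Real.log_two_gt_d9
  have h4 := lb_log_ratio
  rw [h2]
  nlinarith

private theorem lb_mono {δ A A' ε : ℝ} {N : ℕ} {D : Finset ℕ} (hA : A' ≤ A) (hN : 1 ≤ Real.log N)
    (h : MB δ A ε N D) : MB δ A' ε N D := by
  intro R hR a ha
  refine (h R hR a ha).trans ?_
  have hφ : (0 : ℝ) < Nat.totient (PGB.qz (ε * Real.log N) D) := by
    exact_mod_cast Nat.totient_pos.2 (PGB.qz_pos _ _)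
  have h1 : 0 < Real.log N ^ A' := Real.rpow_pos_of_pos (by linarith) _
  have h2 : Real.log N ^ A' ≤ Real.log N ^ A := Real.rpow_le_rpow_of_exponent_le hN hA
  gcongr

private theorem lb_prime {ι : Type} [Fintype ι] {ε C : ℝ} {N : ℕ} {D D' V : Finset ℕ} {h : ι → ℕ} {c : ℕ}
    (hC : Ctx ε C N D D' V h c) : ∀ p ∈ V, p.Prime := by
  intro p hp
  have h2 := ((hC.mem p).1 hp).1
  unfold VN at h2
  rw [mem_filter, mem_range] at h2
  exact h2.2.1

private theorem lb_mass_y1 (V : Finset ℕ) (N : ℕ) (κ : ℝ) :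
    mass V (y1 N κ) = 3 * mass V (ys N (-1) κ) + 2 * mass V (ys N (-1) (κ / 2)) := by
  unfold mass
  rw [mul_sum, mul_sum, ← sum_add_distrib]
  refine sum_congr rfl fun B _ => ?_
  unfold y1
  ring

/-- without a prime factor in `W` the weight is the mass -/
private theorem lb_Lam {W : Finset ℕ} (y : Finset ℕ → ℝ) {m : ℕ} (hm : ∀ x ∈ W, ¬ x ∣ m) :
    Lam W y m = mass W y := by
  have h1 : W.filter (· ∣ m) = ∅ := by
    rw [Finset.filter_eq_empty_iff]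
    intro p hp
    exact hm p hp
  unfold Lam
  rw [h1]
  unfold LamS mass
  refine sum_congr rfl fun B _ => ?_
  have h2 : ∏ p ∈ B, ee ∅ p = 1 := prod_eq_one fun p _ => by
    unfold ee
    rw [if_neg (Finset.notMem_empty p)]
  rw [h2, mul_one]

/-- the sieve inequality at one prime `p` -/
private theorem lb_point {ι : Type} [Fintype ι] (S W : Finset ℕ) (h : ι → ℕ) (i₁ : ι) (p : ℕ) (g K : ℕ → ℝ) (G : ℝ)
    (hg : ∀ n, 0 ≤ g n) (hK : ∀ n, (∀ x ∈ W, ¬ x ∣ n + h i₁) → K n = G) :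
    ∑ n ∈ S.filter (fun n => p ∣ n + h i₁), K n ^ 2 * g n -
      ∑ q ∈ W, ∑ n ∈ S.filter (fun n => p ∣ n + h i₁ ∧ q ∣ n + h i₁), K n ^ 2 * g n ≤
    G ^ 2 * ∑ n ∈ S.filter (fun n => p ∣ n + h i₁ ∧ ∀ x ∈ W, ¬ x ∣ n + h i₁), g n := by
  have h1 : ∑ q ∈ W, ∑ n ∈ S.filter (fun n => p ∣ n + h i₁ ∧ q ∣ n + h i₁), K n ^ 2 * g n =
      ∑ n ∈ S.filter (fun n => p ∣ n + h i₁), ∑ q ∈ W, if q ∣ n + h i₁ then K n ^ 2 * g n else 0 := by
    rw [sum_comm]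
    refine sum_congr rfl fun q _ => ?_
    rw [← sum_filter, filter_filter]
  have h2 : ∑ n ∈ S.filter (fun n => p ∣ n + h i₁ ∧ ∀ x ∈ W, ¬ x ∣ n + h i₁), g n =
      ∑ n ∈ S.filter (fun n => p ∣ n + h i₁), if (∀ x ∈ W, ¬ x ∣ n + h i₁) then g n else 0 := by
    rw [← sum_filter, filter_filter]
  rw [h1, h2, ← sum_sub_distrib, mul_sum]
  refine sum_le_sum fun n _ => ?_
  by_cases hn : ∀ x ∈ W, ¬ x ∣ n + h i₁
  · rw [if_pos hn, hK n hn]
    have h3 : ∑ q ∈ W, (if q ∣ n + h i₁ then G ^ 2 * g n else 0) = 0 :=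
      sum_eq_zero fun q hq => if_neg (hn q hq)
    rw [h3, sub_zero]
  · rw [if_neg hn, mul_zero]
    have hn' : ∃ x ∈ W, x ∣ n + h i₁ := by
      by_contra hc
      apply hn
      intro x hx hd
      exact hc ⟨x, hx, hd⟩
    obtain ⟨x, hx, hd⟩ := hn'
    have h4 : K n ^ 2 * g n ≤ ∑ q ∈ W, (if q ∣ n + h i₁ then K n ^ 2 * g n else 0) := by
      refine le_trans (le_of_eq ?_) (single_le_sum (f := fun q => if q ∣ n + h i₁ then K n ^ 2 * g n else 0)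
        (fun q _ => ?_) hx)
      · rw [if_pos hd]
      · split_ifs
        · exact mul_nonneg (sq_nonneg _) (hg n)
        · exact le_refl _
    linarith

/-- the final computation -/
private theorem lb_final {Λ J η X G G₁ T₁ T₂ S κT : ℝ} {k : ℕ} (hΛ : 0 ≤ Λ) (hJ : 0 ≤ J) (hη : 0 < η)
    (hX : 0 ≤ X) (hG : 0 < G) (hS : 0 ≤ S) (hG0 : 0 ≤ G₁) (hG1 : G₁ ≤ (4992 / 10000 + 5 / 100000) * G)
    (hκT : (0.3408 : ℝ) ≤ 17 * (1248 / 10000) - κT)
    (h1 : |T₁ - X * G ^ (k + 3) * (Λ * (17 * (1248 / 10000)) * J)| ≤ η / 10 * (X * G ^ (k + 3)))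
    (h2 : T₂ ≤ X * G ^ (k + 3) * (Λ * κT * J + η / 10))
    (h3 : T₁ - T₂ ≤ G₁ ^ 2 * S) :
    X * G ^ (k + 1) * (Λ * (136 / 100) * J - η) ≤ S := by
  have hLJ : 0 ≤ Λ * J := mul_nonneg hΛ hJ
  have hXG : 0 ≤ X * G ^ (k + 3) := by positivity
  have h4 := (abs_le.1 h1).1
  have h5 : X * G ^ (k + 3) * (0.3408 * (Λ * J) - 2 * (η / 10)) ≤ T₁ - T₂ := by
    have h6 : 0.3408 * (Λ * J) ≤ (17 * (1248 / 10000) - κT) * (Λ * J) := mul_le_mul_of_nonneg_right hκT hLJ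
    have h7 := mul_le_mul_of_nonneg_left h6 hXG
    nlinarith
  have h8 : G₁ ^ 2 ≤ 0.2493 * G ^ 2 := by
    have h9 : G₁ ^ 2 ≤ ((4992 / 10000 + 5 / 100000) * G) ^ 2 := pow_le_pow_left₀ hG0 hG1 2
    nlinarith [sq_nonneg G]
  have h10 : G₁ ^ 2 * S ≤ 0.2493 * G ^ 2 * S := mul_le_mul_of_nonneg_right h8 hS
  have h11 : 0.2493 * (Λ * (136 / 100) * J - η) ≤ 0.3408 * (Λ * J) - 2 * (η / 10) := by
    nlinarith
  have h12 := mul_le_mul_of_nonneg_left h11 hXG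
  have h13 : X * G ^ (k + 3) * (0.2493 * (Λ * (136 / 100) * J - η)) =
      0.2493 * G ^ 2 * (X * G ^ (k + 1) * (Λ * (136 / 100) * J - η)) := by
    ring
  have h14 : 0.2493 * G ^ 2 * (X * G ^ (k + 1) * (Λ * (136 / 100) * J - η)) ≤ 0.2493 * G ^ 2 * S := by
    linarith
  exact le_of_mul_le_mul_left h14 (by positivity)

theorem lb {ι : Type} [Fintype ι] [DecidableEq ι] (δ ρ : ℝ) (hδ : 0 < δ) (hρ0 : 0 ≤ ρ)
    (hρ : 2 * ρ + δ ≤ 1 / 10000) : ∃ A : ℝ,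
    ∀ {L : ℕ} (J : Finset (ι → Fin L)) (c a b t : Fin L → ℝ), Dat ρ J a b t →
    ∀ (i₀ i₁ : ι) (ε C η : ℝ), i₀ ≠ i₁ → 0 < ε → 8 * ε ≤ δ → 0 < η →
    ∃ N₀ : ℕ, ∀ N : ℕ, N₀ ≤ N → ∀ (D D' V : Finset ℕ) (h : ι → ℕ) (b₀ : ℕ), Ctx ε C N D D' V h b₀ →
      MB δ A ε N D →
      XX ε N D * Gam ε N ^ (Fintype.card ι + 1) *
          (Real.log (1252 / 1251) * (136 / 100) * JJ J c t {i₀, i₁} - η) ≤
        ∑ p ∈ PR N (1251 / 10000) (1252 / 10000) V, ∑ n ∈ (Pg ε N D b₀).filter (fun n => p ∣ n + h i₁ ∧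
          ∀ x ∈ Vs N (1251 / 10000) V, ¬ x ∣ n + h i₁), fp (n + h i₀) * wq J c a b N V h i₀ i₁ n := by
  obtain ⟨A₁, hA₁⟩ := s2pw (ι := ι) δ ρ (1248 / 10000) (1251 / 10000) (1252 / 10000) hδ (by linarith) (by norm_num)
    (by norm_num) (by norm_num) hρ0 (by linarith) (by linarith)
  obtain ⟨A₂, hA₂⟩ := s2qw (ι := ι) δ ρ (1248 / 10000) (1251 / 10000) (1252 / 10000) hδ (by linarith) (by norm_num)
    (by norm_num) (by norm_num) (by norm_num) hρ0 (by linarith) (by linarith)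
  refine ⟨max A₁ A₂, ?_⟩
  intro L J c a b t hD i₀ i₁ ε C η hi hε hε8 hη
  have hJJ : 0 ≤ JJ J c t {i₀, i₁} := JJ_nonneg J c t (fun l => t_nonneg hD l) _
  have hη10 : 0 < η / 10 := by linarith
  obtain ⟨N₁, hN₁⟩ := hA₁ J c a b t hD i₀ i₁ ε C (η / 10) hi hε hε8 hη10
  obtain ⟨N₂, hN₂⟩ := hA₂ J c a b t hD i₀ i₁ ε C (η / 10) hi hJJ hε hε8 hη10
  have hSt1 : St (-1) (1248 / 10000) := ⟨Or.inl rfl, by norm_num, by norm_num, by norm_num⟩
  have hSt2 : St (-1) (1248 / 10000 / 2) := ⟨Or.inl rfl, by norm_num, by norm_num, by norm_num⟩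
  obtain ⟨N₃, hN₃⟩ := dia_step (ι := ι) ε C (1 / 100000) (-1) (1248 / 10000) (-1) (1248 / 10000) hε (by norm_num)
    hSt1 hSt1
  obtain ⟨N₄, hN₄⟩ := dia_step (ι := ι) ε C (1 / 100000) (-1) (1248 / 10000 / 2) (-1) (1248 / 10000 / 2) hε
    (by norm_num) hSt2 hSt2
  obtain ⟨N₅, hN₅⟩ := Gam_ge ε hε
  refine ⟨max (max (max N₁ N₂) (max N₃ N₄)) (max N₅ 3), fun N hN D D' V h b₀ hC hM => ?_⟩
  have g1 : N₁ ≤ N := le_trans (le_trans (le_max_left _ _) (le_trans (le_max_left _ _) (le_max_left _ _))) hN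
  have g2 : N₂ ≤ N := le_trans (le_trans (le_max_right _ _) (le_trans (le_max_left _ _) (le_max_left _ _))) hN
  have g3 : N₃ ≤ N := le_trans (le_trans (le_max_left _ _) (le_trans (le_max_right _ _) (le_max_left _ _))) hN
  have g4 : N₄ ≤ N := le_trans (le_trans (le_max_right _ _) (le_trans (le_max_right _ _) (le_max_left _ _))) hN
  have g5 : N₅ ≤ N := le_trans (le_trans (le_max_left _ _) (le_max_right _ _)) hN
  have g6 : 3 ≤ N := le_trans (le_trans (le_max_right _ _) (le_max_right _ _)) hN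
  have hL : 1 ≤ Real.log N := by
    have h1 : Real.exp 1 ≤ N := by
      have h2 := Real.exp_one_lt_d9
      have h3 : (3 : ℝ) ≤ N := by exact_mod_cast g6
      linarith
    have h4 := Real.log_le_log (Real.exp_pos 1) h1
    rwa [Real.log_exp] at h4
  have M1 := lb_mono (le_max_left A₁ A₂) hL hM
  have M2 := lb_mono (le_max_right A₁ A₂) hL hM
  have E1 := hN₁ N g1 D D' V h b₀ hC M1
  have E2 := hN₂ N g2 D D' V h b₀ hC M2
  have E3 := hN₃ N g3 D D' V h b₀ hC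
  have E4 := hN₄ N g4 D D' V h b₀ hC
  have hV := lb_prime hC
  have hG : 0 < Gam ε N := lt_of_lt_of_le (by positivity) (hN₅ N g5)
  have hX : 0 ≤ XX ε N D := by
    unfold XX
    positivity
  -- the mass
  have hov : ∀ x : ℝ, 0 ≤ x → ov (-1) x (-1) x = x := by
    intro x hx
    unfold ov
    rw [min_self, max_self, max_eq_right (by norm_num : (-1 : ℝ) ≤ 0), sub_zero, max_eq_right hx]
  rw [hov _ (by norm_num), ← mass_step] at E3 E4
  obtain ⟨G₁, hG₁⟩ : ∃ G₁ : ℝ, G₁ = mass V (y1 N (1248 / 10000)) := ⟨_, rfl⟩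
  have hG₁e := hG₁
  rw [lb_mass_y1] at hG₁e
  have hG10 : 0 ≤ G₁ := by
    have e3 := (abs_le.1 E3).1
    have e4 := (abs_le.1 E4).1
    rw [hG₁e]
    nlinarith
  have hG11 : G₁ ≤ (4992 / 10000 + 5 / 100000) * Gam ε N := by
    have e3 := (abs_le.1 E3).2
    have e4 := (abs_le.1 E4).2
    rw [hG₁e]
    nlinarith
  -- the weight without small prime factors
  have hWV : Vs N (1251 / 10000) V ⊆ V := filter_subset _ _
  have hsub := y1_sub (N := N) (by omega) (κ := 1248 / 10000) (α := 1251 / 10000) (by norm_num) (by norm_num) hV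
  have hK : ∀ n : ℕ, (∀ x ∈ Vs N (1251 / 10000) V, ¬ x ∣ n + h i₁) →
      Lam V (y1 N (1248 / 10000)) (n + h i₁) = G₁ := by
    intro n hn
    rw [Lam_sub hWV _ hsub, lb_Lam _ hn, hG₁, mass_sub hWV _ hsub]
  have hg : ∀ n, 0 ≤ fp (n + h i₀) * wq J c a b N V h i₀ i₁ n := by
    intro n
    refine mul_nonneg ?_ (wq_nonneg _ _ _ _ _ _ _ _ _ _)
    unfold fp
    split_ifs
    · exact Real.log_natCast_nonneg _
    · exact le_refl _
  have hlog : Real.log (1252 / 10000 / (1251 / 10000)) = Real.log (1252 / 1251) := by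
    congr 1
    norm_num
  rw [hlog] at E1 E2
  refine lb_final (G₁ := G₁) (Real.log_nonneg (by norm_num)) hJJ hη hX hG ?_ hG10 hG11 lb_num E1 E2 ?_
  · exact sum_nonneg fun p _ => sum_nonneg fun n _ => hg n
  · rw [← sum_sub_distrib, mul_sum]
    refine sum_le_sum fun p _ => ?_
    have hp := lb_point (Pg ε N D b₀) (Vs N (1251 / 10000) V) h i₁ p
      (fun n => fp (n + h i₀) * wq J c a b N V h i₀ i₁ n)
      (fun n => Lam V (y1 N (1248 / 10000)) (n + h i₁)) G₁ hg hK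
    refine le_trans (le_of_eq ?_) hp
    congr 1
    · exact sum_congr rfl fun n _ => by ring
    · exact sum_congr rfl fun q _ => sum_congr rfl fun n _ => by ring

end PGS
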