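import Pool.Agent.PGL.MT

/-! PGS / Mc: `PGL.main_term` for weights bounded by a constant `c`.

PROOF. Put `u i = y i / c`, `u' i = y' i / c` (functions `fun B => y i B / c`), bounded by `1` with the same supports.
`rho V` is bilinear (`lam V (fun B => y B / c) A = lam V y A / c`), so `rho V (y i) (y' i) D = c² rho V (u i) (u' i) D`,
hence `TT V (fun i D => rho V (y i) (y' i) D * al α D) = (c²)^k TT V (fun i D => rho V (u i) (u' i) D * al α D)` and
`dia V (y i) (y' i) = c² dia V (u i) (u' i)`. Take `C = c^(2k) C₀ + C₀` with the constant `C₀` of `main_term k`. -/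

set_option autoImplicit false

open Finset PGL

noncomputable section

namespace PGS

private theorem mc_div (c : ℝ) (hc : c ≠ 0) (a b : ℝ) : a / b = c * (a / c / b) := by
  rw [← mul_div_assoc, mul_div_cancel₀ _ hc]

private theorem mc_lam (V : Finset ℕ) (y : Finset ℕ → ℝ) (c : ℝ) (hc : c ≠ 0) (A : Finset ℕ) :
    lam V y A = c * lam V (fun B => y B / c) A := by
  unfold lam
  rw [Finset.sum_congr rfl (fun B _ => mc_div c hc (y B) (ph B)), ← Finset.mul_sum]
  ring

private theorem mc_rho (V : Finset ℕ) (y y' : Finset ℕ → ℝ) (c : ℝ) (hc : c ≠ 0)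
    (D : Finset ℕ) :
    rho V y y' D = c ^ 2 * rho V (fun B => y B / c) (fun B => y' B / c) D := by
  unfold rho
  rw [Finset.mul_sum]
  refine Finset.sum_congr rfl fun q _ => ?_
  rw [mc_lam V y c hc, mc_lam V y' c hc]
  ring

private theorem mc_dia (V : Finset ℕ) (y y' : Finset ℕ → ℝ) (c : ℝ) (hc : c ≠ 0) :
    dia V y y' = c ^ 2 * dia V (fun B => y B / c) (fun B => y' B / c) := by
  unfold dia
  rw [Finset.mul_sum]
  refine Finset.sum_congr rfl fun B _ => ?_
  have h1 : y B * y' B = c ^ 2 * (y B / c * (y' B / c)) := by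
    field_simp
  rw [h1, mul_div_assoc]

theorem main_term_c (k : ℕ) (c : ℝ) (hc : 1 ≤ c) : ∃ C : ℝ, 0 < C ∧ ∀ {ι : Type} [Fintype ι], Fintype.card ι = k →
    ∀ (V : Finset ℕ) (z : ℝ), C ≤ z → Big V z → ∀ α : ℕ → ℝ,
      (∀ p ∈ V, 0 ≤ α p ∧ α p ≤ 1 ∧ |p * α p - 1| ≤ 2 / p) →
      ∀ (y y' : ι → Finset ℕ → ℝ) (R R' : ι → ℝ), (∀ i, Bd (y i) c (R i)) → (∀ i, Bd (y' i) c (R' i)) →
        |TT V (fun i D => rho V (y i) (y' i) D * al α D) - ∏ i, dia V (y i) (y' i)| ≤
          C / z * ∏ i, GV V (R i) := by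
  obtain ⟨C₀, hC₀, H⟩ := main_term k
  have hc0 : c ≠ 0 := by
    intro h
    rw [h] at hc
    linarith
  have hcp : 0 < c := by linarith
  have hK : 0 < (c ^ 2) ^ k := by positivity
  refine ⟨(c ^ 2) ^ k * C₀ + C₀, by positivity, ?_⟩
  intro ι _ hι V z hz hV α hα y y' R R' hy hy'
  have hz0 : C₀ ≤ z := by nlinarith [mul_pos hK hC₀]
  have hzp : 0 < z := lt_of_lt_of_le hC₀ hz0
  have hb : ∀ (w : Finset ℕ → ℝ) (S : ℝ), Bd w c S → Bd (fun B => w B / c) 1 S := by
    intro w S hw B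
    refine ⟨?_, fun h => ?_⟩
    · dsimp only
      rw [abs_div, abs_of_pos hcp, div_le_one hcp]
      exact (hw B).1
    · dsimp only
      rw [(hw B).2 h, zero_div]
  have h1 := H hι V z hz0 hV α hα (fun i B => y i B / c) (fun i B => y' i B / c) R R'
    (fun i => hb _ _ (hy i)) (fun i => hb _ _ (hy' i))
  have hT : TT V (fun i D => rho V (y i) (y' i) D * al α D) =
      (c ^ 2) ^ k * TT V (fun i D => rho V (fun B => y i B / c) (fun B => y' i B / c) D * al α D) := by
    unfold TT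
    rw [Finset.mul_sum]
    refine Finset.sum_congr rfl fun D _ => ?_
    rw [← hι, ← Finset.card_univ, ← Finset.prod_const, ← Finset.prod_mul_distrib]
    refine Finset.prod_congr rfl fun i _ => ?_
    dsimp only
    rw [mc_rho V (y i) (y' i) c hc0]
    ring
  have hD : ∏ i, dia V (y i) (y' i) =
      (c ^ 2) ^ k * ∏ i, dia V (fun B => y i B / c) (fun B => y' i B / c) := by
    rw [← hι, ← Finset.card_univ, ← Finset.prod_const, ← Finset.prod_mul_distrib]
    exact Finset.prod_congr rfl fun i _ => mc_dia V (y i) (y' i) c hc0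
  have hG : 0 ≤ C₀ / z * ∏ i, GV V (R i) := (abs_nonneg _).trans h1
  rw [hT, hD, ← mul_sub, abs_mul, abs_of_pos hK]
  have h2 := mul_le_mul_of_nonneg_left h1 hK.le
  have h3 : ((c ^ 2) ^ k * C₀ + C₀) / z * ∏ i, GV V (R i) =
      (c ^ 2) ^ k * (C₀ / z * ∏ i, GV V (R i)) + C₀ / z * ∏ i, GV V (R i) := by ring
  rw [h3]
  linarith

end PGS
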