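import Pool.Agent.PGS.Gm
import Pool.Agent.PGS.Sh
import Pool.Agent.PGL.S1

/-! PGS / S1M: `PGL.s1` for the integers `n` for which a set `M` of large primes divides `n + h i₁`.

PROOF. Follow the proof of `PGL.s1`. Let `q = qz (ε log N) D`, `W = Vs N α V`. All weights `ys N (a i) (b i)` are
supported on products `≤ N^(b i) < N^α`, so `Lam V = Lam W`, `dia V = dia W` for them (`ys_sub`, `Lam_sub`, `dia_sub`).
`Pg` filtered is the set of `gs1m` (`Finset.filter_filter`); `gs1m` with `W`, `q`, `M`: `M` is disjoint from `W` as its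
primes are `≥ N^α`, and the primes of `V` do not divide `q` (`q_cop`). The main term is `N / (q pr M) * TT W`; by
`main_term` (`α p = 1 / p`, `z = ε log N`) `|TT W - ∏ dia| ≤ (C / z) ∏ G_W(N^(b i)) ≤ (C / z) (2 Γ)^k`, and
`dia_step` gives `∏ dia = Γ^k (∏ ov + o(1))` as in `s1` (`prod_pert`). The error is at most
`∏_i ∑_D |ρ_i(D)| ≤ N^(∑ (b i + b' i)) (1 + 2 log N)^(16 k)` (`rho_l1`), and
`N / (q pr M) ≥ N^(1 - 2 ε - (1 - θ)) = N^(θ - 2 ε)` (`q_le` with `γ = 2 ε`), `Γ ≥ 1 / ε ≥ 1` (`Gam_ge`), so the error is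
at most `(η / 2) N / (q pr M) Γ^k` for large `N` because `∑ (b i + b' i) < θ - 2 ε`. Everything is uniform in `M`. -/

set_option autoImplicit false

open Finset PGL

noncomputable section

namespace PGS

private theorem s1m_GV_nonneg {V : Finset ℕ} (hV : Big V 1) (R : ℝ) : 0 ≤ GV V R := by
  refine Finset.sum_nonneg fun B hB => ?_
  rw [mem_filter, mem_powerset] at hB
  refine one_div_nonneg.2 (Finset.prod_nonneg fun p hp => ?_)
  have h1 : (1 : ℝ) < p := (hV p (hB.1 hp)).2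
  linarith

private theorem s1m_GV_mono {V W : Finset ℕ} (hV : Big V 1) (hW : W ⊆ V) (R : ℝ) :
    GV W R ≤ GV V R := by
  unfold GV
  refine Finset.sum_le_sum_of_subset_of_nonneg
    (Finset.filter_subset_filter _ (Finset.powerset_mono.2 hW)) fun B hB _ => ?_
  rw [mem_filter, mem_powerset] at hB
  refine one_div_nonneg.2 (Finset.prod_nonneg fun p hp => ?_)
  have h1 : (1 : ℝ) < p := (hV p (hB.1 hp)).2
  linarith

private theorem s1m_ov_nonneg (a b a' b' : ℝ) : 0 ≤ ov a b a' b' := le_max_left _ _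

private theorem s1m_ov_le_one {a b a' b' : ℝ} (h : b ≤ 1) : ov a b a' b' ≤ 1 := by
  unfold ov
  refine max_le zero_le_one ?_
  have h1 : min b b' ≤ b := min_le_left _ _
  have h2 : 0 ≤ max (max a a') 0 := le_max_right _ _
  linarith

/-- powers of the logarithm are small -/
private theorem s1m_log_small (k : ℕ) (η δ : ℝ) (hη : 0 < η) (hδ : 0 < δ) :
    ∀ᶠ N : ℕ in Filter.atTop, (1 + 2 * Real.log N) ^ (16 * k) ≤ η * (N : ℝ) ^ δ := by
  have h1 := (isLittleO_log_rpow_rpow_atTop ((16 * k : ℕ) : ℝ) hδ).def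
    (show (0 : ℝ) < η / 4 ^ (16 * k) by positivity)
  have h3 : ∀ᶠ x : ℝ in Filter.atTop, (1 + 2 * Real.log x) ^ (16 * k) ≤ η * x ^ δ := by
    filter_upwards [h1, Filter.eventually_ge_atTop (Real.exp 1)] with x h2 h3
    have hx0 : 0 < x := (Real.exp_pos 1).trans_le h3
    have hl : 1 ≤ Real.log x := by
      rw [Real.le_log_iff_exp_le hx0]
      exact h3
    rw [Real.rpow_natCast, Real.norm_of_nonneg (by positivity), Real.norm_of_nonneg (by positivity)] at h2
    have h4 : (1 + 2 * Real.log x) ^ (16 * k) ≤ 4 ^ (16 * k) * Real.log x ^ (16 * k) := by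
      rw [← mul_pow]
      exact pow_le_pow_left₀ (by linarith) (by linarith) _
    refine h4.trans ?_
    calc (4 : ℝ) ^ (16 * k) * Real.log x ^ (16 * k)
        ≤ 4 ^ (16 * k) * (η / 4 ^ (16 * k) * x ^ δ) :=
          mul_le_mul_of_nonneg_left h2 (by positivity)
      _ = η * x ^ δ := by
          field_simp
  exact tendsto_natCast_atTop_atTop.eventually h3

private theorem s1m_ev {P : ℕ → Prop} (h : ∃ N₀ : ℕ, ∀ N : ℕ, N₀ ≤ N → P N) :
    ∀ᶠ N : ℕ in Filter.atTop, P N := Filter.eventually_atTop.2 h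

/-- a small `t` with `t ^ k` close to `1` -/
private theorem s1m_root (k : ℕ) (η : ℝ) (hη : 0 < η) : ∃ t : ℝ, 0 < t ∧ (1 + t) ^ k - 1 ≤ η := by
  have h1 : Filter.Tendsto (fun t : ℝ => (1 + t) ^ k - 1) (nhdsWithin 0 (Set.Ioi 0)) (nhds 0) := by
    have h2 : Continuous fun t : ℝ => (1 + t) ^ k - 1 := by fun_prop
    have h3 := h2.tendsto 0
    simp only [add_zero, one_pow, sub_self] at h3
    exact h3.mono_left nhdsWithin_le_nhds
  have h4 := (h1.eventually_le_const hη).and self_mem_nhdsWithin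
  obtain ⟨t, ht, ht0⟩ := h4.exists
  exact ⟨t, ht0, ht⟩

theorem s1m {ι : Type} [Fintype ι] (ε C η α θ : ℝ) (hε : 0 < ε) (hε1 : ε ≤ 1 / 16) (hη : 0 < η) (hα : 0 < α)
    (a b a' b' : ι → ℝ) (hst : ∀ i, St (a i) (b i)) (hst' : ∀ i, St (a' i) (b' i))
    (hb : ∀ i, b i < α ∧ b' i < α) (hlev : ∑ i, (b i + b' i) + 2 * ε < θ) :
    ∃ N₀ : ℕ, ∀ N : ℕ, N₀ ≤ N → ∀ (D D' V : Finset ℕ) (h : ι → ℕ) (c : ℕ), Ctx ε C N D D' V h c →
      ∀ (i₁ : ι) (M : Finset ℕ), M ⊆ V → (∀ p ∈ M, (N : ℝ) ^ α ≤ (p : ℝ)) → (pr M : ℝ) ≤ (N : ℝ) ^ (1 - θ) →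
      |∑ n ∈ (Pg ε N D c).filter (fun n => ∀ p ∈ M, p ∣ n + h i₁),
          ∏ i, (Lam V (ys N (a i) (b i)) (n + h i) * Lam V (ys N (a' i) (b' i)) (n + h i)) -
        N / ((PGB.qz (ε * Real.log N) D : ℝ) * pr M) * Gam ε N ^ Fintype.card ι *
          ∏ i, ov (a i) (b i) (a' i) (b' i)| ≤
        η * (N / ((PGB.qz (ε * Real.log N) D : ℝ) * pr M) * Gam ε N ^ Fintype.card ι) := by
  set k := Fintype.card ι with hk
  obtain ⟨C₁, hC₁, hmain⟩ := main_term k
  obtain ⟨t, ht, htk⟩ := s1m_root k (η / 4) (by positivity)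
  obtain ⟨δ, hδ⟩ : ∃ δ, δ = θ - 2 * ε - ∑ i, (b i + b' i) := ⟨_, rfl⟩
  have hδ0 : 0 < δ := by rw [hδ]; linarith
  have e1 := s1m_ev (Ctx_card (ι := ι) ε C hε)
  have e2 := Filter.eventually_all.2 fun i : ι =>
    s1m_ev (g_asym ε 1 (b i) (1 + k ^ 2) hε one_pos (hst i).2.2.1 (hst i).2.2.2)
  have e3 := Filter.eventually_all.2 fun i : ι =>
    s1m_ev (dia_step (ι := ι) ε C t (a i) (b i) (a' i) (b' i) hε ht (hst i) (hst' i))
  have e4 := s1m_ev (Gam_ge ε hε)
  have e5 := s1m_log_small k (η / 4) δ (by positivity) hδ0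
  have hzt : Filter.Tendsto (fun N : ℕ => ε * Real.log N) Filter.atTop Filter.atTop :=
    (Real.tendsto_log_atTop.comp tendsto_natCast_atTop_atTop).const_mul_atTop hε
  have e6 := hzt.eventually_ge_atTop (max 1 (max C₁ (C₁ * 2 ^ k / (η / 4))))
  have e7 := Filter.eventually_ge_atTop (2 : ℕ)
  refine Filter.eventually_atTop.1 ?_
  filter_upwards [e1, e2, e3, e4, e5, e6, e7] with N e1 e2 e3 e4 e5 e6 e7 D D' V h c hctx i₁ M hMV
    hMα hMθ
  obtain ⟨hVN, hcard⟩ := e1 D D' V h c hctx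
  rw [max_le_iff, max_le_iff] at e6
  obtain ⟨hz1, hzC, hzη⟩ := e6
  set z : ℝ := ε * Real.log N with hz
  set Γ : ℝ := Gam ε N with hΓdef
  have e7' : 1 ≤ N := by omega
  have hN1 : (1 : ℝ) ≤ N := by exact_mod_cast e7'
  have hN0 : (0 : ℝ) < N := by linarith
  have hL : 0 ≤ Real.log N := Real.log_nonneg hN1
  have hz0 : 0 < z := by linarith
  have hΓ1 : 1 ≤ Γ := by
    refine le_trans ?_ e4
    rw [le_div_iff₀ hε]
    linarith
  have hΓ0 : 0 < Γ := by linarith
  set q : ℕ := PGB.qz z D with hq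
  have hq0 : 0 < q := qz_pos z D
  have hqR : (0 : ℝ) < q := by exact_mod_cast hq0
  have hqN : (q : ℝ) ≤ (N : ℝ) ^ (2 * ε) := q_le ε (2 * ε) hε le_rfl N e7' D
  have hbig : Big V z := by
    intro p hp
    have h1 := ((hctx.mem p).1 hp).1
    unfold VN at h1
    exact (mem_filter.1 h1).2
  have hbig1 : Big V 1 := fun p hp => ⟨(hbig p hp).1, by linarith [(hbig p hp).2]⟩
  have hVprime : ∀ p ∈ V, p.Prime := fun p hp => (hbig p hp).1
  have hprM : (0 : ℝ) < pr M := by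
    unfold pr
    exact_mod_cast Finset.prod_pos fun p hp => (hVprime p (hMV hp)).pos
  -- the small primes
  obtain ⟨W, hW⟩ : ∃ W, W = Vs N α V := ⟨_, rfl⟩
  have hWV : W ⊆ V := by
    rw [hW]
    exact Finset.filter_subset _ _
  have hbigW : Big W z := fun p hp => hbig p (hWV hp)
  have hbigW1 : Big W 1 := fun p hp => hbig1 p (hWV hp)
  have hLamW : ∀ i n, Lam V (ys N (a i) (b i)) n = Lam W (ys N (a i) (b i)) n := fun i n =>
    Lam_sub hWV _ (by rw [hW]; exact ys_sub e7 (hb i).1 hVprime) n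
  have hLamW' : ∀ i n, Lam V (ys N (a' i) (b' i)) n = Lam W (ys N (a' i) (b' i)) n := fun i n =>
    Lam_sub hWV _ (by rw [hW]; exact ys_sub e7 (hb i).2 hVprime) n
  have hdiaW : ∀ i, dia V (ys N (a i) (b i)) (ys N (a' i) (b' i)) =
      dia W (ys N (a i) (b i)) (ys N (a' i) (b' i)) := fun i =>
    dia_sub hWV _ _ (by rw [hW]; exact ys_sub e7 (hb i).1 hVprime)
  have hMW : Disjoint M W := by
    rw [Finset.disjoint_left]
    intro p hp hpW
    rw [hW, mem_Vs] at hpW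
    exact absurd (hMα p hp) (not_le.2 hpW.2)
  -- the first step
  have s1' := gs1m W (fun p hp => hVprime p (hWV hp)) q N c hq0
    (fun p hp => q_cop (hbigW p hp).1 hz0.le (hbigW p hp).2) h
    (fun p hp => ((hctx.mem p).1 (hWV hp)).2.2) i₁ M
    (fun p hp => ⟨hVprime p (hMV hp), q_cop (hbig p (hMV hp)).1 hz0.le (hbig p (hMV hp)).2⟩) hMW
    (fun i => ys N (a i) (b i)) (fun i => ys N (a' i) (b' i))
  have hsum : ∑ n ∈ (Pg ε N D c).filter (fun n => ∀ p ∈ M, p ∣ n + h i₁),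
      ∏ i, (Lam V (ys N (a i) (b i)) (n + h i) * Lam V (ys N (a' i) (b' i)) (n + h i)) =
      ∑ n ∈ (Ioc N (2 * N)).filter (fun n => n ≡ c [MOD q] ∧ ∀ p ∈ M, p ∣ n + h i₁),
      ∏ i, (Lam W (ys N (a i) (b i)) (n + h i) * Lam W (ys N (a' i) (b' i)) (n + h i)) := by
    unfold Pg
    rw [Finset.filter_filter]
    refine Finset.sum_congr rfl fun n _ => Finset.prod_congr rfl fun i _ => ?_
    rw [hLamW, hLamW']
  rw [hsum]
  rw [Nat.cast_mul] at s1'
  set Q : ℝ := (q : ℝ) * pr M with hQ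
  have hQ0 : 0 < Q := mul_pos hqR hprM
  -- the error of the first step
  have hErr : ∏ i, ∑ D ∈ W.powerset, |rho W (ys N (a i) (b i)) (ys N (a' i) (b' i)) D| ≤
      η / 4 * (N / Q * Γ ^ k) := by
    calc ∏ i, ∑ D ∈ W.powerset, |rho W (ys N (a i) (b i)) (ys N (a' i) (b' i)) D|
        ≤ ∏ i : ι, ((N : ℝ) ^ (b i + b' i) * (1 + 2 * Real.log N) ^ 16) :=
          Finset.prod_le_prod (fun i _ => Finset.sum_nonneg fun D _ => abs_nonneg _) fun i _ =>
            rho_l1 W hbigW1 N e7' _ _ _ _ (hst i).2.2.1.le (hst i).2.2.2 (hst' i).2.2.1.le (hst' i).2.2.2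
      _ = (N : ℝ) ^ (∑ i, (b i + b' i)) * (1 + 2 * Real.log N) ^ (16 * k) := by
          rw [Finset.prod_mul_distrib, Finset.prod_const, Finset.card_univ, ← pow_mul,
            Real.rpow_sum_of_pos hN0]
      _ ≤ (N : ℝ) ^ (∑ i, (b i + b' i)) * (η / 4 * (N : ℝ) ^ δ) :=
          mul_le_mul_of_nonneg_left e5 (by positivity)
      _ = η / 4 * (N : ℝ) ^ (θ - 2 * ε) := by
          rw [mul_left_comm, ← Real.rpow_add hN0]
          congr 2
          rw [hδ]
          ring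
      _ ≤ η / 4 * (N / Q * Γ ^ k) := by
          refine mul_le_mul_of_nonneg_left ?_ (by positivity)
          have h1 : (N : ℝ) ^ (θ - 2 * ε) ≤ N / Q := by
            rw [le_div_iff₀ hQ0]
            calc (N : ℝ) ^ (θ - 2 * ε) * Q
                ≤ (N : ℝ) ^ (θ - 2 * ε) * ((N : ℝ) ^ (2 * ε) * (N : ℝ) ^ (1 - θ)) :=
                  mul_le_mul_of_nonneg_left (mul_le_mul hqN hMθ hprM.le (by positivity))
                    (by positivity)
              _ = N := by
                  rw [← Real.rpow_add hN0, ← Real.rpow_add hN0]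
                  have h2 : θ - 2 * ε + (2 * ε + (1 - θ)) = 1 := by ring
                  rw [h2, Real.rpow_one]
          have h2 : (1 : ℝ) ≤ Γ ^ k := one_le_pow₀ hΓ1
          calc (N : ℝ) ^ (θ - 2 * ε) ≤ N / Q := h1
            _ = N / Q * 1 := (mul_one _).symm
            _ ≤ N / Q * Γ ^ k := mul_le_mul_of_nonneg_left h2 (by positivity)
  -- the main term
  have hM1 : |TT W (fun i D => rho W (ys N (a i) (b i)) (ys N (a' i) (b' i)) D *
      al (fun p => 1 / (p : ℝ)) D) - ∏ i, dia W (ys N (a i) (b i)) (ys N (a' i) (b' i))| ≤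
      η / 4 * Γ ^ k := by
    have h1 := hmain (ι := ι) rfl W z hzC hbigW (fun p => 1 / (p : ℝ)) (fun p hp => by
      have hp1 : (1 : ℝ) < p := by linarith [(hbigW p hp).2]
      refine ⟨by positivity, ?_, ?_⟩
      · rw [div_le_one (by linarith)]
        linarith
      · rw [mul_one_div_cancel (by linarith), sub_self, abs_zero]
        positivity) (fun i => ys N (a i) (b i)) (fun i => ys N (a' i) (b' i))
      (fun i => (N : ℝ) ^ (b i)) (fun i => (N : ℝ) ^ (b' i)) (fun i => ys_Bd N _ _) (fun i => ys_Bd N _ _)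
    refine h1.trans ?_
    have h2 : ∏ i, GV W ((N : ℝ) ^ (b i)) ≤ (2 * Γ) ^ k := by
      calc ∏ i, GV W ((N : ℝ) ^ (b i)) ≤ ∏ _i : ι, (2 * Γ) :=
            Finset.prod_le_prod (fun i _ => s1m_GV_nonneg hbigW1 _) fun i _ => by
              have h3 := (abs_le.1 (e2 i V hVN hcard)).2
              have h4 := (hst i).2.2.2
              have h5 := s1m_GV_mono hbig1 hWV ((N : ℝ) ^ (b i))
              nlinarith
        _ = (2 * Γ) ^ k := by rw [Finset.prod_const, Finset.card_univ]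
    calc C₁ / z * ∏ i, GV W ((N : ℝ) ^ (b i)) ≤ C₁ / z * (2 * Γ) ^ k :=
          mul_le_mul_of_nonneg_left h2 (by positivity)
      _ = C₁ * 2 ^ k / z * Γ ^ k := by
          rw [mul_pow]
          ring
      _ ≤ η / 4 * Γ ^ k := by
          refine mul_le_mul_of_nonneg_right ?_ (by positivity)
          rw [div_le_iff₀ hz0]
          rw [div_le_iff₀ (by positivity)] at hzη
          linarith
  have hM2 : |∏ i, dia W (ys N (a i) (b i)) (ys N (a' i) (b' i)) -
      Γ ^ k * ∏ i, ov (a i) (b i) (a' i) (b' i)| ≤ η / 4 * Γ ^ k := by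
    have h1 := prod_pert (Finset.univ : Finset ι) (fun i => dia W (ys N (a i) (b i)) (ys N (a' i) (b' i)))
      (fun i => ov (a i) (b i) (a' i) (b' i) * Γ) (fun _ => Γ) (t := 1 + t) (by linarith)
      (fun i _ => by
        have h2 := s1m_ov_nonneg (a i) (b i) (a' i) (b' i)
        have h3 := s1m_ov_le_one (a := a i) (a' := a' i) (b' := b' i) (hst i).2.2.2
        show |ov (a i) (b i) (a' i) (b' i) * Γ| ≤ Γ
        rw [abs_of_nonneg (by positivity)]
        nlinarith)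
      (fun i _ => by
        have h2 := e3 i D D' V h c hctx
        show |dia W (ys N (a i) (b i)) (ys N (a' i) (b' i)) - _| ≤ Γ * (1 + t - 1)
        rw [add_sub_cancel_left, mul_comm Γ t, ← hdiaW i]
        exact h2)
    rw [Finset.prod_mul_distrib, Finset.prod_const, Finset.card_univ] at h1
    rw [mul_comm (Γ ^ k)]
    refine h1.trans ?_
    rw [mul_comm]
    exact mul_le_mul_of_nonneg_right htk (by positivity)
  have hNq : (0 : ℝ) ≤ N / Q := by positivity
  -- assembly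
  have h1 : |(N : ℝ) / Q * TT W (fun i D => rho W (ys N (a i) (b i)) (ys N (a' i) (b' i)) D *
      al (fun p => 1 / (p : ℝ)) D) - N / Q * ∏ i, dia W (ys N (a i) (b i)) (ys N (a' i) (b' i))| ≤
      N / Q * (η / 4 * Γ ^ k) := by
    rw [← mul_sub, abs_mul, abs_of_nonneg hNq]
    exact mul_le_mul_of_nonneg_left hM1 hNq
  have h2 : |(N : ℝ) / Q * ∏ i, dia W (ys N (a i) (b i)) (ys N (a' i) (b' i)) -
      N / Q * Γ ^ k * ∏ i, ov (a i) (b i) (a' i) (b' i)| ≤ N / Q * (η / 4 * Γ ^ k) := by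
    rw [mul_assoc, ← mul_sub, abs_mul, abs_of_nonneg hNq]
    exact mul_le_mul_of_nonneg_left hM2 hNq
  have h3 := s1'.trans hErr
  have h4 : 0 ≤ (N : ℝ) / Q * Γ ^ k := by positivity
  have h5 : N / Q * (η / 4 * Γ ^ k) = η / 4 * (N / Q * Γ ^ k) := by ring
  rw [h5] at h1 h2
  rw [abs_le] at h1 h2 h3 ⊢
  constructor <;> nlinarith [h1.1, h1.2, h2.1, h2.2, h3.1, h3.2]

end PGS
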