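import Pool.Agent.PGS.Defs

/-! PGS / Tr: from the products of step weights to the weight `wq`.

PROOF. Expand the square: `wq n = ∑_{j, j' ∈ J} C_j C_j' μ_j μ_j' ∏_{i ∈ oth} Lam Lam'` with `C_j = ∏_i c (j i)`,
`μ_j = mass(y_{j i₀}) mass(y_{j i₁})`. By `mass_step`, `dia_step` and `Dat.ov` (`l = l'`)
`|mass V (ys N (a l) (b l)) - t l Γ| ≤ η'' Γ` for large `N` (finitely many `l`), so
`|μ_j μ_j' - t t t' t' Γ^4| ≤ C η'' Γ^4` (`0 ≤ t l ≤ 1` by `St` and `ov`), `|μ_j μ_j'| ≤ 16 Γ^4`. With the hypothesis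
`∑ φ n ∏ = Y Γ^(k-2) ∏ ov + O(η' Z Γ^(k-2))`, `0 ≤ ∏ ov ≤ 1`, `Y ≤ Z`, and `k ≥ 2` (`i₀ ≠ i₁`), `Γ^(k-2) Γ^4 = Γ^(k+2)`:
`∑ φ n wq n = Y Γ^(k+2) ∑_{j, j'} C_j C_j' t(j i₀) t(j' i₀) t(j i₁) t(j' i₁) ∏_{i ∈ oth} ov(j i, j' i) + O(...)`; by
`Dat.ov` the product over `oth` is `0` unless `j' i = j i` for all `i ∉ {i₀, i₁}`, then `∏ t (j i)`: the sum is
`JJ J c t {i₀, i₁}` (compare `w1_JJ_empty` in `PGL/W1.lean` and the proof of `w2`). Choose `η'`, `η''` small in terms of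
`∑_{j, j'} |C_j C_j'|`. `Γ > 0` by `Gam_ge`. -/

set_option autoImplicit false

open Finset PGL

noncomputable section

namespace PGS

/-- the coefficient of a pair -/
private def trC42 {ι : Type} [Fintype ι] {L : ℕ} (c : Fin L → ℝ) (p : (ι → Fin L) × (ι → Fin L)) : ℝ :=
  (∏ i, c (p.1 i)) * ∏ i, c (p.2 i)

private theorem tr42_JJ {ι : Type} [Fintype ι] [DecidableEq ι] {L : ℕ} {ρ : ℝ} (J : Finset (ι → Fin L))
    (c : Fin L → ℝ) {a b t : Fin L → ℝ} (hD : Dat ρ J a b t) {i₀ i₁ : ι} (hi : i₀ ≠ i₁) :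
    JJ J c t {i₀, i₁} = ∑ p ∈ J ×ˢ J, trC42 c p * (t (p.1 i₀) * t (p.2 i₀) * (t (p.1 i₁) * t (p.2 i₁))) *
      ∏ i ∈ (univ.erase i₀).erase i₁, ov (a (p.1 i)) (b (p.1 i)) (a (p.2 i)) (b (p.2 i)) := by
  have hi1 : i₁ ∈ univ.erase i₀ := Finset.mem_erase.2 ⟨hi.symm, mem_univ _⟩
  have hnot : ∀ i ∈ (univ.erase i₀).erase i₁, i ∉ ({i₀, i₁} : Finset ι) := by
    intro i hi'
    rw [Finset.mem_insert, Finset.mem_singleton]
    rintro (h | h)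
    · exact (Finset.mem_erase.1 (Finset.mem_erase.1 hi').2).1 h
    · exact (Finset.mem_erase.1 hi').1 h
  have hsplit : ∀ f : ι → ℝ, ∏ i, f i = f i₀ * (f i₁ * ∏ i ∈ (univ.erase i₀).erase i₁, f i) := by
    intro f
    rw [mul_prod_erase (univ.erase i₀) f hi1, mul_prod_erase univ f (mem_univ i₀)]
  unfold JJ
  rw [Finset.sum_product]
  refine sum_congr rfl fun j _ => ?_
  rw [Finset.sum_filter]
  refine sum_congr rfl fun j' _ => ?_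
  have hov : ∀ i, ov (a (j i)) (b (j i)) (a (j' i)) (b (j' i)) =
      if j i = j' i then t (j i) else 0 := fun i => hD.ov _ _
  simp only [hov]
  by_cases hc : ∀ i, i ∉ ({i₀, i₁} : Finset ι) → j' i = j i
  · rw [if_pos hc]
    unfold trC42
    simp only
    rw [hsplit, hsplit (fun i => c (j i)), hsplit (fun i => c (j' i))]
    have e1 : ∏ i ∈ (univ.erase i₀).erase i₁, c (j' i) = ∏ i ∈ (univ.erase i₀).erase i₁, c (j i) :=
      prod_congr rfl fun i hi' => by rw [hc i (hnot i hi')]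
    have e2 : (∏ i ∈ (univ.erase i₀).erase i₁, if j i = j' i then t (j i) else 0) =
        ∏ i ∈ (univ.erase i₀).erase i₁, t (j i) :=
      prod_congr rfl fun i hi' => by rw [hc i (hnot i hi'), if_pos rfl]
    have e3 : (∏ x ∈ (univ.erase i₀).erase i₁, if x ∈ ({i₀, i₁} : Finset ι) then
        c (j x) * t (j x) * (c (j' x) * t (j' x)) else c (j x) ^ 2 * t (j x)) =
        (∏ i ∈ (univ.erase i₀).erase i₁, c (j i)) ^ 2 * ∏ i ∈ (univ.erase i₀).erase i₁, t (j i) := by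
      rw [← Finset.prod_pow, ← Finset.prod_mul_distrib]
      refine prod_congr rfl fun i hi' => ?_
      rw [if_neg (hnot i hi')]
    rw [e1, e2, e3, if_pos (by simp), if_pos (by simp)]
    ring
  · rw [if_neg hc]
    push Not at hc
    obtain ⟨i, hi', hne⟩ := hc
    rw [Finset.mem_insert, Finset.mem_singleton] at hi'
    push Not at hi'
    symm
    rw [Finset.prod_eq_zero (Finset.mem_erase.2 ⟨hi'.2, Finset.mem_erase.2 ⟨hi'.1, mem_univ i⟩⟩), mul_zero]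
    rw [if_neg (Ne.symm hne)]

private theorem lamp42 {ι : Type} [Fintype ι] {ε C : ℝ} {N : ℕ} {D D' V : Finset ℕ} {h : ι → ℕ} {c : ℕ}
    (hC : Ctx ε C N D D' V h c) (y : Finset ℕ → ℝ) {m : ℕ} (hm : m.Prime) (hN : N < m) :
    Lam V y m = mass V y := by
  have h1 : V.filter (· ∣ m) = ∅ := by
    rw [Finset.filter_eq_empty_iff]
    intro p hp hpm
    have h2 := ((hC.mem p).1 hp).1
    unfold VN at h2
    rw [mem_filter, mem_range] at h2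
    have h3 := (Nat.prime_dvd_prime_iff_eq h2.2.1 hm).1 hpm
    omega
  unfold Lam
  rw [h1]
  unfold LamS mass
  refine sum_congr rfl fun B _ => ?_
  have h2 : ∏ p ∈ B, ee ∅ p = 1 := prod_eq_one fun p _ => by
    unfold ee
    rw [if_neg (Finset.notMem_empty p)]
  rw [h2, mul_one]

private theorem two42 {G m m' t t' η : ℝ} (hG : 0 ≤ G) (hη0 : 0 ≤ η) (hη1 : η ≤ 1)
    (ht : |t| ≤ 1) (ht' : |t'| ≤ 1) (hm : |m - t * G| ≤ η * G) (hm' : |m' - t' * G| ≤ η * G) :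
    |m * m' - t * t' * G ^ 2| ≤ 3 * η * G ^ 2 ∧ |m * m'| ≤ 4 * G ^ 2 ∧ |t * t'| ≤ 1 := by
  have b : ∀ {m t : ℝ}, |t| ≤ 1 → |m - t * G| ≤ η * G → |m| ≤ 2 * G := by
    intro m t ht hm
    have h1 : |m| ≤ |m - t * G| + |t * G| := by
      have := abs_add_le (m - t * G) (t * G)
      rwa [sub_add_cancel] at this
    rw [abs_mul, abs_of_nonneg hG] at h1
    nlinarith
  have b1 := b ht hm
  have b2 := b ht' hm'
  refine ⟨?_, ?_, ?_⟩
  · have e : m * m' - t * t' * G ^ 2 = (m - t * G) * m' + t * G * (m' - t' * G) := by ring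
    have p1 : |(m - t * G) * m'| ≤ η * G * (2 * G) := by
      rw [abs_mul]
      exact mul_le_mul hm b2 (abs_nonneg _) (by positivity)
    have p2 : |t * G * (m' - t' * G)| ≤ 1 * G * (η * G) := by
      rw [abs_mul, abs_mul, abs_of_nonneg hG]
      exact mul_le_mul (mul_le_mul_of_nonneg_right ht hG) hm' (abs_nonneg _) (by positivity)
    rw [e]
    refine (abs_add_le _ _).trans ((add_le_add p1 p2).trans (le_of_eq ?_))
    ring
  · rw [abs_mul]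
    calc |m| * |m'| ≤ (2 * G) * (2 * G) := mul_le_mul b1 b2 (abs_nonneg _) (by positivity)
      _ = 4 * G ^ 2 := by ring
  · rw [abs_mul]
    calc |t| * |t'| ≤ 1 * 1 := mul_le_mul ht ht' (abs_nonneg _) (by norm_num)
      _ = 1 := by norm_num

private theorem est42 {G X Y Z S o m₁ m₂ m₃ m₄ t₁ t₂ t₃ t₄ η : ℝ} (hG : 0 ≤ G) (hX : 0 ≤ X)
    (hY : 0 ≤ Y) (hYZ : Y ≤ Z) (hη0 : 0 ≤ η) (hη1 : η ≤ 1) (ho : |o| ≤ 1)
    (hS : |S - Y * X * o| ≤ η * (Z * X))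
    (h₁ : |t₁| ≤ 1) (h₂ : |t₂| ≤ 1) (h₃ : |t₃| ≤ 1) (h₄ : |t₄| ≤ 1)
    (k₁ : |m₁ - t₁ * G| ≤ η * G) (k₂ : |m₂ - t₂ * G| ≤ η * G)
    (k₃ : |m₃ - t₃ * G| ≤ η * G) (k₄ : |m₄ - t₄ * G| ≤ η * G) :
    |m₁ * m₂ * (m₃ * m₄) * S - Y * (X * G ^ 4) * (t₁ * t₂ * (t₃ * t₄) * o)| ≤
      31 * η * (Z * (X * G ^ 4)) := by
  obtain ⟨a1, a2, a3⟩ := two42 hG hη0 hη1 h₁ h₂ k₁ k₂
  obtain ⟨b1, b2, b3⟩ := two42 hG hη0 hη1 h₃ h₄ k₃ k₄
  have hZ : 0 ≤ Z := hY.trans hYZ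
  have c1 : |m₁ * m₂ * (m₃ * m₄) - t₁ * t₂ * (t₃ * t₄) * G ^ 4| ≤ 15 * η * G ^ 4 := by
    have e : m₁ * m₂ * (m₃ * m₄) - t₁ * t₂ * (t₃ * t₄) * G ^ 4 =
        (m₁ * m₂ - t₁ * t₂ * G ^ 2) * (m₃ * m₄) + t₁ * t₂ * G ^ 2 * (m₃ * m₄ - t₃ * t₄ * G ^ 2) := by
      ring
    have p1 : |(m₁ * m₂ - t₁ * t₂ * G ^ 2) * (m₃ * m₄)| ≤ 3 * η * G ^ 2 * (4 * G ^ 2) := by
      rw [abs_mul]
      exact mul_le_mul a1 b2 (abs_nonneg _) (by positivity)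
    have p2 : |t₁ * t₂ * G ^ 2 * (m₃ * m₄ - t₃ * t₄ * G ^ 2)| ≤ 1 * G ^ 2 * (3 * η * G ^ 2) := by
      rw [abs_mul, abs_mul (t₁ * t₂), abs_of_nonneg (pow_nonneg hG 2)]
      exact mul_le_mul (mul_le_mul_of_nonneg_right a3 (by positivity)) b1 (abs_nonneg _)
        (by positivity)
    rw [e]
    refine (abs_add_le _ _).trans ((add_le_add p1 p2).trans (le_of_eq ?_))
    ring
  have c2 : |m₁ * m₂ * (m₃ * m₄)| ≤ 16 * G ^ 4 := by
    rw [abs_mul]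
    calc |m₁ * m₂| * |m₃ * m₄| ≤ (4 * G ^ 2) * (4 * G ^ 2) :=
          mul_le_mul a2 b2 (abs_nonneg _) (by positivity)
      _ = 16 * G ^ 4 := by ring
  have e : m₁ * m₂ * (m₃ * m₄) * S - Y * (X * G ^ 4) * (t₁ * t₂ * (t₃ * t₄) * o) =
      m₁ * m₂ * (m₃ * m₄) * (S - Y * X * o) +
        Y * X * o * (m₁ * m₂ * (m₃ * m₄) - t₁ * t₂ * (t₃ * t₄) * G ^ 4) := by
    ring
  have q1 : |m₁ * m₂ * (m₃ * m₄) * (S - Y * X * o)| ≤ 16 * G ^ 4 * (η * (Z * X)) := by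
    rw [abs_mul]
    exact mul_le_mul c2 hS (abs_nonneg _) (by positivity)
  have q2 : |Y * X * o * (m₁ * m₂ * (m₃ * m₄) - t₁ * t₂ * (t₃ * t₄) * G ^ 4)| ≤
      Z * X * 1 * (15 * η * G ^ 4) := by
    rw [abs_mul, abs_mul (Y * X), abs_of_nonneg (mul_nonneg hY hX)]
    refine mul_le_mul ?_ c1 (abs_nonneg _) (by positivity)
    exact mul_le_mul (mul_le_mul_of_nonneg_right hYZ hX) ho (abs_nonneg _) (by positivity)
  rw [e]
  refine (abs_add_le _ _).trans ((add_le_add q1 q2).trans (le_of_eq ?_))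
  ring

private theorem ov42 {a b a' b' : ℝ} (h : St a b) : |ov a b a' b'| ≤ 1 := by
  have h0 : 0 ≤ ov a b a' b' := le_max_left _ _
  rw [abs_of_nonneg h0]
  unfold ov
  refine max_le zero_le_one ?_
  have h1 := h.2.2.2
  have h2 : min b b' ≤ b := min_le_left _ _
  have h3 : (0 : ℝ) ≤ max (max a a') 0 := le_max_right _ _
  linarith

private theorem expand42 {ι : Type} [Fintype ι] [DecidableEq ι] {L : ℕ} (J : Finset (ι → Fin L))
    (c a b : Fin L → ℝ) (N : ℕ) (V : Finset ℕ) (h : ι → ℕ) (i₀ i₁ : ι) (n : ℕ) :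
    wq J c a b N V h i₀ i₁ n = ∑ p ∈ J ×ˢ J, trC42 c p *
      (mass V (ys N (a (p.1 i₀)) (b (p.1 i₀))) * mass V (ys N (a (p.2 i₀)) (b (p.2 i₀))) *
      (mass V (ys N (a (p.1 i₁)) (b (p.1 i₁))) * mass V (ys N (a (p.2 i₁)) (b (p.2 i₁)))) *
      ∏ i ∈ oth i₀ i₁, (Lam V (ys N (a (p.1 i)) (b (p.1 i))) (n + h i) *
            Lam V (ys N (a (p.2 i)) (b (p.2 i))) (n + h i))) := by
  unfold wq
  rw [pow_two, Finset.sum_mul_sum, ← Finset.sum_product']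
  refine sum_congr rfl fun p _ => ?_
  rw [Finset.prod_mul_distrib]
  unfold trC42
  ring

theorem tr {ι : Type} [Fintype ι] [DecidableEq ι] {L : ℕ} (ρ : ℝ) (J : Finset (ι → Fin L)) (c a b t : Fin L → ℝ)
    (hD : Dat ρ J a b t) (i₀ i₁ : ι) (hi : i₀ ≠ i₁) (ε C η : ℝ) (hε : 0 < ε) (hη : 0 < η) :
    ∃ η' : ℝ, 0 < η' ∧ ∃ N₀ : ℕ, ∀ N : ℕ, N₀ ≤ N → ∀ (D D' V : Finset ℕ) (h : ι → ℕ) (b₀ : ℕ),
      Ctx ε C N D D' V h b₀ → ∀ (S : Finset ℕ) (φ : ℕ → ℝ) (Y Z : ℝ), 0 ≤ Y → Y ≤ Z →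
      (∀ j ∈ J, ∀ j' ∈ J, |∑ n ∈ S, φ n * ∏ i ∈ oth i₀ i₁, (Lam V (ys N (a (j i)) (b (j i))) (n + h i) *
            Lam V (ys N (a (j' i)) (b (j' i))) (n + h i)) -
          Y * Gam ε N ^ (Fintype.card ι - 2) *
            ∏ i ∈ oth i₀ i₁, ov (a (j i)) (b (j i)) (a (j' i)) (b (j' i))| ≤
          η' * (Z * Gam ε N ^ (Fintype.card ι - 2))) →
      |∑ n ∈ S, φ n * wq J c a b N V h i₀ i₁ n - Y * Gam ε N ^ (Fintype.card ι + 2) * JJ J c t {i₀, i₁}| ≤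
        η * (Z * Gam ε N ^ (Fintype.card ι + 2)) := by
  obtain ⟨T, hT⟩ : ∃ T : ℝ, T = ∑ p ∈ J ×ˢ J, |trC42 c p| := ⟨_, rfl⟩
  have hT0 : 0 ≤ T := by
    rw [hT]
    exact sum_nonneg fun p _ => abs_nonneg _
  obtain ⟨ξ, hξ⟩ : ∃ ξ : ℝ, ξ = min 1 (η / (31 * T + 1)) := ⟨_, rfl⟩
  have hξ0 : 0 < ξ := by
    rw [hξ]
    exact lt_min one_pos (div_pos hη (by linarith))
  have hξ1 : ξ ≤ 1 := by
    rw [hξ]
    exact min_le_left _ _
  have hξT : 31 * ξ * T ≤ η := by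
    have h1 : ξ ≤ η / (31 * T + 1) := by
      rw [hξ]
      exact min_le_right _ _
    rw [le_div_iff₀ (by linarith)] at h1
    nlinarith
  have ht1 : ∀ l, |t l| ≤ 1 := by
    intro l
    have h1 := ov42 (a' := a l) (b' := b l) (hD.st l)
    rw [hD.ov l l, if_pos rfl] at h1
    exact h1
  have ho1 : ∀ p : (ι → Fin L) × (ι → Fin L),
      |∏ i ∈ oth i₀ i₁, ov (a (p.1 i)) (b (p.1 i)) (a (p.2 i)) (b (p.2 i))| ≤ 1 := by
    intro p
    rw [Finset.abs_prod]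
    exact Finset.prod_le_one (fun _ _ => abs_nonneg _) fun i _ => ov42 (hD.st _)
  have hMs : ∀ᶠ N : ℕ in Filter.atTop, ∀ l ∈ (univ : Finset (Fin L)),
      ∀ (D D' V : Finset ℕ) (h : ι → ℕ) (b₀ : ℕ), Ctx ε C N D D' V h b₀ →
        |mass V (ys N (a l) (b l)) - t l * Gam ε N| ≤ ξ * Gam ε N := by
    rw [Filter.eventually_all_finset]
    intro l _
    obtain ⟨N₀, hN₀⟩ := dia_step (ι := ι) ε C ξ (a l) (b l) (a l) (b l) hε hξ0 (hD.st l) (hD.st l)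
    filter_upwards [Filter.eventually_ge_atTop N₀] with N hN
    intro D D' V h b₀ hC
    have h1 := hN₀ N hN D D' V h b₀ hC
    rw [hD.ov l l, if_pos rfl, ← mass_step] at h1
    exact h1
  obtain ⟨N₁, hN₁⟩ := Gam_ge ε hε
  obtain ⟨N₂, hN₂⟩ := Filter.eventually_atTop.1 hMs
  refine ⟨ξ, hξ0, max N₁ N₂, fun N hN D D' V h b₀ hC S φ Y Z hY hYZ hH => ?_⟩
  have hM' := hN₂ N ((le_max_right _ _).trans hN)
  have hG : 0 < Gam ε N :=
    lt_of_lt_of_le (by positivity) (hN₁ N ((le_max_left _ _).trans hN))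
  have hk : 2 ≤ Fintype.card ι := by
    have h1 : ({i₀, i₁} : Finset ι).card = 2 := Finset.card_pair hi
    rw [← h1]
    exact Finset.card_le_univ _
  have hpow : Gam ε N ^ (Fintype.card ι + 2) = Gam ε N ^ (Fintype.card ι - 2) * Gam ε N ^ 4 := by
    rw [← pow_add]
    congr 1
    omega
  have hsum : ∑ n ∈ S, φ n * wq J c a b N V h i₀ i₁ n = ∑ p ∈ J ×ˢ J, trC42 c p *
      (mass V (ys N (a (p.1 i₀)) (b (p.1 i₀))) * mass V (ys N (a (p.2 i₀)) (b (p.2 i₀))) *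
      (mass V (ys N (a (p.1 i₁)) (b (p.1 i₁))) * mass V (ys N (a (p.2 i₁)) (b (p.2 i₁)))) *
      ∑ n ∈ S, φ n * ∏ i ∈ oth i₀ i₁, (Lam V (ys N (a (p.1 i)) (b (p.1 i))) (n + h i) *
            Lam V (ys N (a (p.2 i)) (b (p.2 i))) (n + h i))) := by
    have h1 : ∀ n ∈ S, φ n * wq J c a b N V h i₀ i₁ n = ∑ p ∈ J ×ˢ J, trC42 c p *
      (mass V (ys N (a (p.1 i₀)) (b (p.1 i₀))) * mass V (ys N (a (p.2 i₀)) (b (p.2 i₀))) *
      (mass V (ys N (a (p.1 i₁)) (b (p.1 i₁))) * mass V (ys N (a (p.2 i₁)) (b (p.2 i₁)))) *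
      (φ n * ∏ i ∈ oth i₀ i₁, (Lam V (ys N (a (p.1 i)) (b (p.1 i))) (n + h i) *
            Lam V (ys N (a (p.2 i)) (b (p.2 i))) (n + h i)))) := by
      intro n _
      rw [expand42, Finset.mul_sum]
      refine sum_congr rfl fun p _ => ?_
      ring
    rw [sum_congr rfl h1, Finset.sum_comm]
    refine sum_congr rfl fun p _ => ?_
    rw [← Finset.mul_sum, ← Finset.mul_sum]
  rw [hsum, tr42_JJ J c hD hi, Finset.mul_sum, ← Finset.sum_sub_distrib]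
  refine (Finset.abs_sum_le_sum_abs _ _).trans ?_
  have hterm : ∀ p ∈ J ×ˢ J, |trC42 c p *
      (mass V (ys N (a (p.1 i₀)) (b (p.1 i₀))) * mass V (ys N (a (p.2 i₀)) (b (p.2 i₀))) *
      (mass V (ys N (a (p.1 i₁)) (b (p.1 i₁))) * mass V (ys N (a (p.2 i₁)) (b (p.2 i₁)))) *
      ∑ n ∈ S, φ n * ∏ i ∈ oth i₀ i₁, (Lam V (ys N (a (p.1 i)) (b (p.1 i))) (n + h i) *
            Lam V (ys N (a (p.2 i)) (b (p.2 i))) (n + h i))) -
      Y * Gam ε N ^ (Fintype.card ι + 2) *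
      (trC42 c p * (t (p.1 i₀) * t (p.2 i₀) * (t (p.1 i₁) * t (p.2 i₁))) *
      ∏ i ∈ (univ.erase i₀).erase i₁, ov (a (p.1 i)) (b (p.1 i)) (a (p.2 i)) (b (p.2 i)))| ≤
      |trC42 c p| * (31 * ξ * (Z * Gam ε N ^ (Fintype.card ι + 2))) := by
    intro p hp
    rw [Finset.mem_product] at hp
    have h1 := hH p.1 hp.1 p.2 hp.2
    have hm := fun l => hM' l (mem_univ l) D D' V h b₀ hC
    have h4 := est42 hG.le (pow_nonneg hG.le (Fintype.card ι - 2)) hY hYZ hξ0.le hξ1 (ho1 p) h1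
      (ht1 (p.1 i₀)) (ht1 (p.2 i₀)) (ht1 (p.1 i₁)) (ht1 (p.2 i₁))
      (hm (p.1 i₀)) (hm (p.2 i₀)) (hm (p.1 i₁)) (hm (p.2 i₁))
    rw [hpow]
    have e : ∀ X P o : ℝ, trC42 c p * X - Y * (Gam ε N ^ (Fintype.card ι - 2) * Gam ε N ^ 4) *
        (trC42 c p * P * o) = trC42 c p * (X - Y * (Gam ε N ^ (Fintype.card ι - 2) * Gam ε N ^ 4) *
          (P * o)) := by
      intro X P o
      ring
    rw [e, abs_mul]
    exact mul_le_mul_of_nonneg_left h4 (abs_nonneg _)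
  refine (sum_le_sum hterm).trans ?_
  rw [← Finset.sum_mul, ← hT]
  have hZ : 0 ≤ Z := hY.trans hYZ
  have hU : 0 ≤ Z * Gam ε N ^ (Fintype.card ι + 2) := by positivity
  calc T * (31 * ξ * (Z * Gam ε N ^ (Fintype.card ι + 2))) =
        31 * ξ * T * (Z * Gam ε N ^ (Fintype.card ι + 2)) := by ring
    _ ≤ _ := mul_le_mul_of_nonneg_right hξT hU

/-- at primes the weight `ww` is `wq` -/
theorem ww_eq_wq {ι : Type} [Fintype ι] [DecidableEq ι] {L : ℕ} (J : Finset (ι → Fin L)) (c a b : Fin L → ℝ)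
    {ε C : ℝ} {N : ℕ} {D D' V : Finset ℕ} {h : ι → ℕ} {b₀ : ℕ} (hC : Ctx ε C N D D' V h b₀) (i₀ i₁ : ι)
    (hi : i₀ ≠ i₁) {n : ℕ} (hn : N < n) (h0 : (n + h i₀).Prime) (h1 : (n + h i₁).Prime) :
    ww J c a b N V h n = wq J c a b N V h i₀ i₁ n := by
  have hi1 : i₁ ∈ univ.erase i₀ := Finset.mem_erase.2 ⟨hi.symm, mem_univ _⟩
  have e1 : ∀ y : Finset ℕ → ℝ, Lam V y (n + h i₁) = mass V y := fun y =>
    lamp42 hC y h1 (by omega)
  have e0 : ∀ y : Finset ℕ → ℝ, Lam V y (n + h i₀) = mass V y := fun y =>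
    lamp42 hC y h0 (by omega)
  unfold ww wq
  congr 1
  refine sum_congr rfl fun j _ => ?_
  rw [Finset.prod_mul_distrib,
    ← mul_prod_erase univ (fun i => Lam V (ys N (a (j i)) (b (j i))) (n + h i)) (mem_univ i₀),
    ← mul_prod_erase (univ.erase i₀) (fun i => Lam V (ys N (a (j i)) (b (j i))) (n + h i)) hi1]
  rw [e0, e1]
  unfold oth
  ring

end PGS
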