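import Pool.Agent.PGS.EQ
import Pool.Agent.PGS.Gm
import Pool.Agent.PGS.Mer
import Pool.Agent.PGS.Tr

/-! PGS / S2P: `PGL.s2` for the integers `n` with `p ∣ n + h i₁`, summed over the primes `p ∈ [N^α, N^β)` of `V`.

PROOF of `s2p`. Let `q = qz (ε log N) D`, `W = Vs N α V` (then `Lam V = Lam W`, `dia V = dia W` for the weights used,
`ys_sub`, `Lam_sub`, `dia_sub`), `y i₀ = y' i₀ = dl` (`Lam_dl`), `y i = ys N (a i) (b i)` for `i ≠ i₀`. For
`p ∈ P = PR N α β V` apply `gs2m` with `V := W`, `M := {p}` (`p ∉ W`; `p ∤ q` by `q_cop`; `¬ h i₀ ≡ h i₁ [MOD p]` by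
`Ctx.mem`), `E r = ER N q (p r)` (`ER_ge`): the inner sum is `Psi N 1 0 / (φ(q) (p - 1)) * TT W` up to an error; the sum of the
errors over `p` is at most `N / (φ(q) log N) ≤ (η / 4) XX Γ^(k-1)` by `eqm` with `I = P`, `M p = {p}`, `W p = W`, `c₀ = 1`,
`A₁ = 1` (level: `p N^(∑ (b + b')) < N^(β + ∑) ≤ N^(1/2 - δ)`; `Γ ≥ 1 / ε ≥ 1`). The main term does not depend on `p`: by
`main_term` (`α p = 1 / (p - 1)`, `R_i = N^(b i)`, `R_{i₀} = 1`, `dia W dl dl = 1`, `G_W(1) = 1`) and `dia_step`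
`|TT W - Γ^(k-1) ∏ ov| ≤ η' Γ^(k-1)` as in `s2`. Finally `∑_{p ∈ P} 1 / (p - 1) = log (β / α) + o(1)` (`mer_V`, `Ctx_card`)
and `Psi N 1 0 = (1 + o(1)) N` (`psi_asym`).
`s2pw` (for the weight `wq`, with the two step function `y1` at `i₁`): `Lam V (y1 N κ) = 3 Lam V (ys N (-1) κ) + 2 Lam V
(ys N (-1) (κ/2))` (`Lam_y1`), so its square has three terms `9`, `12`, `4`, with overlaps `κ`, `κ/2`, `κ/2`:
`9 κ + 12 κ/2 + 4 κ/2 = 17 κ`. Apply `s2p` to the three terms and all `j, j' ∈ J` (level `2 ρ + 2 κ + β ≤ 1/2 - δ`), and `tr`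
with `S = Pg ε N D b₀`, `φ n = fp (n + h i₀) Lam V (y1 N κ) (n + h i₁)² #{p ∈ P : p ∣ n + h i₁}`,
`Y = XX log (β/α) 17 κ Γ`, `Z = Y + XX Γ` (exchange the sums over `p` and `n`). -/

set_option autoImplicit false

open Finset PGL

noncomputable section

namespace PGS

/-- the sieve functions: `dl` at `i₀` -/
private def pyy {ι : Type} [DecidableEq ι] (i₀ : ι) (N : ℕ) (a b : ι → ℝ) (i : ι) : Finset ℕ → ℝ :=
  if i = i₀ then dl else ys N (a i) (b i)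

private theorem pyy_self {ι : Type} [DecidableEq ι] (i₀ : ι) (N : ℕ) (a b : ι → ℝ) :
    pyy i₀ N a b i₀ = dl := by
  unfold pyy
  rw [if_pos rfl]

private theorem pyy_ne {ι : Type} [DecidableEq ι] {i₀ i : ι} (h : i ≠ i₀) (N : ℕ) (a b : ι → ℝ) :
    pyy i₀ N a b i = ys N (a i) (b i) := by
  unfold pyy
  rw [if_neg h]

private theorem pyy_Bd {ι : Type} [DecidableEq ι] (i₀ : ι) (N : ℕ) (a b : ι → ℝ) (i : ι) :
    Bd (pyy i₀ N a b i) 1 (if i = i₀ then 1 else (N : ℝ) ^ (b i)) := by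
  by_cases h : i = i₀
  · subst h
    rw [pyy_self, if_pos rfl]
    exact dl_Bd
  · rw [pyy_ne h, if_neg h]
    exact ys_Bd _ _ _

private theorem p_dia_dl (V : Finset ℕ) : dia V dl dl = 1 := by
  unfold dia
  rw [sum_eq_single ∅]
  · simp [dl, ph]
  · intro B _ hB
    simp [dl, hB]
  · intro h
    exact absurd (empty_mem_powerset V) h

private theorem p_GV_one {V : Finset ℕ} (hV : Big V 1) : GV V 1 = 1 := by
  unfold GV
  have h1 : V.powerset.filter (fun B => (pr B : ℝ) ≤ 1) = {∅} := by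
    ext B
    rw [mem_filter, mem_powerset, mem_singleton]
    constructor
    · rintro ⟨h2, h3⟩
      by_contra hne
      obtain ⟨p, hp⟩ := nonempty_iff_ne_empty.2 hne
      have h4 : p ∣ pr B := dvd_prod_of_mem _ hp
      have h5 : 0 < pr B := prod_pos fun q hq => (hV q (h2 hq)).1.pos
      have h6 := Nat.le_of_dvd h5 h4
      have h7 := (hV p (h2 hp)).1.two_le
      have h8 : pr B ≤ 1 := by exact_mod_cast h3
      omega
    · rintro rfl
      exact ⟨empty_subset _, by simp [pr]⟩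
  rw [h1, sum_singleton]
  simp [ph]

private theorem p_ph_pos {V : Finset ℕ} (hV : Big V 1) {B : Finset ℕ} (hB : B ⊆ V) : 0 < ph B :=
  prod_pos fun p hp => by
    have h := (hV p (hB hp)).1.one_lt
    have h' : (1 : ℝ) < p := by exact_mod_cast h
    linarith

private theorem p_GV_nn {V : Finset ℕ} (hV : Big V 1) (R : ℝ) : 0 ≤ GV V R :=
  sum_nonneg fun B hB => by
    rw [mem_filter, mem_powerset] at hB
    exact (one_div_pos.2 (p_ph_pos hV hB.1)).le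

private theorem p_GV_mono {V W : Finset ℕ} (hV : Big V 1) (hW : W ⊆ V) (R : ℝ) : GV W R ≤ GV V R := by
  unfold GV
  refine sum_le_sum_of_subset_of_nonneg ?_ fun B hB _ => ?_
  · intro B hB
    rw [mem_filter, mem_powerset] at hB ⊢
    exact ⟨hB.1.trans hW, hB.2⟩
  · rw [mem_filter, mem_powerset] at hB
    exact (one_div_pos.2 (p_ph_pos hV hB.1)).le

private theorem p_ov_nn (a b a' b' : ℝ) : 0 ≤ ov a b a' b' := le_max_left _ _

private theorem p_ov_le {a b a' b' : ℝ} (h : St a b) : ov a b a' b' ≤ 1 := by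
  unfold ov
  refine max_le zero_le_one ?_
  have h1 := h.2.2.2
  have h2 : min b b' ≤ b := min_le_left _ _
  have h3 : (0 : ℝ) ≤ max (max a a') 0 := le_max_right _ _
  linarith

private theorem p_log_tt : Filter.Tendsto (fun N : ℕ => Real.log N) Filter.atTop Filter.atTop :=
  Real.tendsto_log_atTop.comp tendsto_natCast_atTop_atTop

private theorem p_exists_eta (m : ℕ) {η : ℝ} (hη : 0 < η) : ∃ η' : ℝ, 0 < η' ∧ (1 + η') ^ m - 1 ≤ η := by
  have h1 : Continuous fun t : ℝ => (1 + t) ^ m := (continuous_const.add continuous_id).pow m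
  have h2 := (h1.tendsto 0).eventually (gt_mem_nhds (show (1 + (0 : ℝ)) ^ m < 1 + η by simp [hη]))
  obtain ⟨r, hr, h3⟩ := Metric.eventually_nhds_iff.1 h2
  refine ⟨r / 2, by positivity, ?_⟩
  have h4 := h3 (y := r / 2) (by rw [Real.dist_eq, sub_zero, abs_of_pos (by positivity)]; linarith)
  linarith

private theorem p_sqrt_log (C : ℝ) : ∀ᶠ N : ℕ in Filter.atTop, C * Real.log N ≤ √(N : ℝ) := by
  have h1 := (isLittleO_log_rpow_atTop (show (0 : ℝ) < 1 / 2 by norm_num)).bound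
    (show 0 < 1 / (|C| + 1) by positivity)
  have h2 := (tendsto_natCast_atTop_atTop (R := ℝ)).eventually h1
  filter_upwards [h2, Filter.eventually_ge_atTop 1] with N hN hN1
  have hN' : (1 : ℝ) ≤ N := by exact_mod_cast hN1
  have hL : 0 ≤ Real.log N := Real.log_nonneg hN'
  rw [Real.norm_of_nonneg hL, Real.norm_of_nonneg (by positivity), ← Real.sqrt_eq_rpow,
    one_div, inv_mul_eq_div, le_div_iff₀ (by positivity)] at hN
  have h3 : C ≤ |C| + 1 := (le_abs_self C).trans (by linarith)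
  nlinarith

section Ctx
variable {ι : Type} [Fintype ι] {ε C : ℝ} {N : ℕ} {D D' V : Finset ℕ} {h : ι → ℕ} {c : ℕ}

private theorem p_ctx_big (hc : Ctx ε C N D D' V h c) : Big V (ε * Real.log N) := by
  intro p hp
  have h1 := ((hc.mem p).1 hp).1
  unfold VN at h1
  exact (mem_filter.1 h1).2

private theorem p_ctx_big1 (hc : Ctx ε C N D D' V h c) (h1 : 1 ≤ ε * Real.log N) : Big V 1 :=
  fun p hp => ⟨(p_ctx_big hc p hp).1, h1.trans_lt (p_ctx_big hc p hp).2⟩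

end Ctx

private theorem p_Vs_sub {N : ℕ} {α : ℝ} {V : Finset ℕ} : Vs N α V ⊆ V := filter_subset _ _

/-- the main term for the primes below `N^α` -/
private theorem p_main {ι : Type} [Fintype ι] [DecidableEq ι] (i₀ : ι) (ε C η α : ℝ) (hε : 0 < ε)
    (hη : 0 < η) (a b a' b' : ι → ℝ) (hst : ∀ i, St (a i) (b i)) (hst' : ∀ i, St (a' i) (b' i))
    (hbα : ∀ i, b i < α) :
    ∀ᶠ N : ℕ in Filter.atTop, ∀ (D D' V : Finset ℕ) (h : ι → ℕ) (c : ℕ), Ctx ε C N D D' V h c →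
      |TT (Vs N α V) (fun i D => rho (Vs N α V) (pyy i₀ N a b i) (pyy i₀ N a' b' i) D *
          al (fun p => 1 / ((p : ℝ) - 1)) D) -
        Gam ε N ^ (Fintype.card ι - 1) * ∏ i ∈ univ.erase i₀, ov (a i) (b i) (a' i) (b' i)| ≤
        η * Gam ε N ^ (Fintype.card ι - 1) := by
  obtain ⟨C₀, hC₀, hmt⟩ := main_term (Fintype.card ι)
  obtain ⟨η', hη', hη1⟩ := p_exists_eta (Fintype.card ι - 1) (show 0 < η / 2 by positivity)
  have e1 : ∀ᶠ N : ℕ in Filter.atTop, ∀ i : ι, ∀ (D D' V : Finset ℕ) (h : ι → ℕ) (c : ℕ),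
      Ctx ε C N D D' V h c →
      |dia V (ys N (a i) (b i)) (ys N (a' i) (b' i)) - ov (a i) (b i) (a' i) (b' i) * Gam ε N| ≤
        η' * Gam ε N := Filter.eventually_all.2 fun i => Filter.eventually_atTop.2
          (dia_step ε C η' (a i) (b i) (a' i) (b' i) hε hη' (hst i) (hst' i))
  have e2 : ∀ᶠ N : ℕ in Filter.atTop, ∀ i : ι, ∀ V : Finset ℕ, V ⊆ VN (ε * Real.log N) N →
      ((VN (ε * Real.log N) N) \ V).card ≤ 1 + Fintype.card ι ^ 2 →
        |GV V ((N : ℝ) ^ (b i)) - b i * Gam ε N| ≤ 1 * Gam ε N :=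
    Filter.eventually_all.2 fun i => Filter.eventually_atTop.2
      (g_asym ε 1 (b i) (1 + Fintype.card ι ^ 2) hε one_pos (hst i).2.2.1 (hst i).2.2.2)
  have e3 := Filter.eventually_atTop.2 (Ctx_card (ι := ι) ε C hε)
  have e4 := Filter.eventually_atTop.2 (Gam_ge ε hε)
  have e5 := p_log_tt.eventually (Filter.eventually_ge_atTop
    (max (C₀ / ε) (max (1 / ε) (C₀ * 2 ^ (Fintype.card ι - 1) / (ε * (η / 2))))))
  filter_upwards [e1, e2, e3, e4, e5, Filter.eventually_ge_atTop 2] with N h1 h2 h3 h4 h5 hN2 D D' V h c hc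
  set Γ := Gam ε N with hΓ
  have hΓ0 : 0 < Γ := lt_of_lt_of_le (by positivity) h4
  have hz0 : C₀ / ε ≤ Real.log N := (le_max_left _ _).trans h5
  have hz1 : 1 / ε ≤ Real.log N := ((le_max_left _ _).trans (le_max_right _ _)).trans h5
  have hz2 : C₀ * 2 ^ (Fintype.card ι - 1) / (ε * (η / 2)) ≤ Real.log N :=
    ((le_max_right _ _).trans (le_max_right _ _)).trans h5
  rw [div_le_iff₀ hε] at hz0 hz1
  rw [div_le_iff₀ (by positivity)] at hz2
  have hz0' : C₀ ≤ ε * Real.log N := by linarith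
  have hz1' : 1 ≤ ε * Real.log N := by linarith
  have hBV := p_ctx_big hc
  have hBV1 := p_ctx_big1 hc hz1'
  have hB : Big (Vs N α V) (ε * Real.log N) := fun p hp => hBV p (p_Vs_sub hp)
  have hB1 : Big (Vs N α V) 1 := fun p hp => hBV1 p (p_Vs_sub hp)
  have hcard : (univ.erase i₀).card = Fintype.card ι - 1 := by
    rw [card_erase_of_mem (mem_univ _), card_univ]
  -- the main term
  have m1 := hmt (ι := ι) rfl (Vs N α V) (ε * Real.log N) hz0' hB (fun p => 1 / ((p : ℝ) - 1)) ?_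
    (pyy i₀ N a b) (pyy i₀ N a' b') _ _ (pyy_Bd i₀ N a b) (pyy_Bd i₀ N a' b')
  swap
  · intro p hp
    have hp2 : (2 : ℝ) ≤ p := by exact_mod_cast (hB p hp).1.two_le
    have hp1 : (0 : ℝ) < (p : ℝ) - 1 := by linarith
    refine ⟨by positivity, ?_, ?_⟩
    · rw [div_le_one hp1]
      linarith
    · have e : (p : ℝ) * (1 / ((p : ℝ) - 1)) - 1 = 1 / ((p : ℝ) - 1) := by
        field_simp
        ring
      rw [e, abs_of_pos (by positivity), div_le_div_iff₀ hp1 (by linarith)]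
      linarith
  have m2 : ∏ i, dia (Vs N α V) (pyy i₀ N a b i) (pyy i₀ N a' b' i) =
      ∏ i ∈ univ.erase i₀, dia V (ys N (a i) (b i)) (ys N (a' i) (b' i)) := by
    rw [← mul_prod_erase univ _ (mem_univ i₀), pyy_self, pyy_self, p_dia_dl, one_mul]
    refine prod_congr rfl fun i hi => ?_
    rw [pyy_ne (ne_of_mem_erase hi), pyy_ne (ne_of_mem_erase hi)]
    exact (dia_sub p_Vs_sub _ _ (ys_sub hN2 (hbα i) fun p hp => (hBV p hp).1)).symm
  have m3 : ∏ i, GV (Vs N α V) (if i = i₀ then 1 else (N : ℝ) ^ (b i)) ≤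
      (2 * Γ) ^ (Fintype.card ι - 1) := by
    rw [← mul_prod_erase univ _ (mem_univ i₀), if_pos rfl, p_GV_one hB1, one_mul, ← hcard,
      ← prod_const]
    refine prod_le_prod (fun i _ => p_GV_nn hB1 _) fun i hi => ?_
    rw [if_neg (ne_of_mem_erase hi)]
    have h6 := h3 D D' V h c hc
    have h7 := h2 i V h6.1 h6.2
    have h8 := (hst i).2.2.2
    have h9 := p_GV_mono hBV1 (p_Vs_sub (N := N) (α := α)) ((N : ℝ) ^ (b i))
    rw [abs_le] at h7
    nlinarith [h7.2]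
  rw [m2] at m1
  have m4 := prod_pert (univ.erase i₀) (fun i => dia V (ys N (a i) (b i)) (ys N (a' i) (b' i)))
    (fun i => ov (a i) (b i) (a' i) (b' i) * Γ) (fun _ => Γ) (t := 1 + η') (by linarith)
    (fun i _ => by
      have := p_ov_nn (a i) (b i) (a' i) (b' i)
      have h9 := p_ov_le (a' := a' i) (b' := b' i) (hst i)
      rw [abs_of_nonneg (by positivity)]
      nlinarith)
    (fun i _ => by
      have := h1 i D D' V h c hc
      rw [add_sub_cancel_left]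
      linarith)
  rw [prod_const, prod_mul_distrib, prod_const, hcard] at m4
  have m5 : C₀ / (ε * Real.log N) * ∏ i, GV (Vs N α V) (if i = i₀ then 1 else (N : ℝ) ^ (b i)) ≤
      η / 2 * Γ ^ (Fintype.card ι - 1) := by
    refine (mul_le_mul_of_nonneg_left m3 (by positivity)).trans ?_
    rw [mul_pow, ← mul_assoc]
    refine mul_le_mul_of_nonneg_right ?_ (by positivity)
    rw [div_mul_eq_mul_div, div_le_iff₀ (by positivity)]
    linarith
  have m6 : Γ ^ (Fintype.card ι - 1) * ((1 + η') ^ (Fintype.card ι - 1) - 1) ≤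
      η / 2 * Γ ^ (Fintype.card ι - 1) := by
    have : 0 < Γ ^ (Fintype.card ι - 1) := by positivity
    nlinarith
  rw [mul_comm (∏ i ∈ univ.erase i₀, ov (a i) (b i) (a' i) (b' i))] at m4
  have m7 := m1.trans m5
  have m8 := m4.trans m6
  rw [abs_le] at m7 m8 ⊢
  constructor <;> linarith [m7.1, m7.2, m8.1, m8.2]

/-- the numerical part of `s2p` -/
private theorem p_num {S Ψ T σ φ G O N ℓ η e : ℝ} (hφ : 0 < φ) (hN : 0 ≤ N) (hG : 0 ≤ G) (hO : 0 ≤ O)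
    (hO1 : O ≤ 1) (hη : 0 ≤ η) (hη1 : η ≤ 1) (hℓ : 0 ≤ ℓ) (h1 : |S - Ψ / φ * T * σ| ≤ e)
    (h2 : |T - G * O| ≤ η * G) (h3 : |Ψ - N| ≤ η * N) (h4 : |σ - ℓ| ≤ η) :
    |S - N / φ * ℓ * G * O| ≤ e + η * (3 * ℓ + 4) * (N / φ * G) := by
  have hX : 0 ≤ N / φ := by positivity
  have hΨ : |Ψ / φ - N / φ| ≤ η * (N / φ) := by
    rw [← sub_div, abs_div, abs_of_pos hφ, div_le_iff₀ hφ]
    calc |Ψ - N| ≤ η * N := h3
      _ = η * (N / φ) * φ := by field_simp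
  obtain ⟨X, hXd⟩ : ∃ X, X = N / φ := ⟨_, rfl⟩
  obtain ⟨Y, hYd⟩ : ∃ Y, Y = Ψ / φ := ⟨_, rfl⟩
  rw [← hXd] at hX hΨ ⊢
  rw [← hYd] at hΨ h1
  have e1 : S - X * ℓ * G * O = (S - Y * T * σ) + ((Y - X) * T * σ + X * (T - G * O) * σ +
      X * (G * O) * (σ - ℓ)) := by ring
  have bT : |T| ≤ 2 * G := by
    have h5 : |T| ≤ |T - G * O| + |G * O| := by
      have := abs_add_le (T - G * O) (G * O)
      rwa [sub_add_cancel] at this
    rw [abs_of_nonneg (show 0 ≤ G * O by positivity)] at h5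
    nlinarith
  have bS : |σ| ≤ ℓ + 1 := by
    have h5 : |σ| ≤ |σ - ℓ| + |ℓ| := by
      have := abs_add_le (σ - ℓ) ℓ
      rwa [sub_add_cancel] at this
    rw [abs_of_nonneg hℓ] at h5
    linarith
  have a1 : |(Y - X) * T * σ| ≤ η * X * (2 * G) * (ℓ + 1) := by
    rw [abs_mul, abs_mul]
    exact mul_le_mul (mul_le_mul hΨ bT (abs_nonneg _) (by positivity)) bS (abs_nonneg _)
      (by positivity)
  have a2 : |X * (T - G * O) * σ| ≤ X * (η * G) * (ℓ + 1) := by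
    rw [abs_mul, abs_mul, abs_of_nonneg hX]
    exact mul_le_mul (mul_le_mul_of_nonneg_left h2 hX) bS (abs_nonneg _) (by positivity)
  have a3 : |X * (G * O) * (σ - ℓ)| ≤ X * G * η := by
    rw [abs_mul, abs_of_nonneg (show 0 ≤ X * (G * O) by positivity)]
    refine mul_le_mul (mul_le_mul_of_nonneg_left ?_ hX) h4 (abs_nonneg _) (by positivity)
    nlinarith
  rw [e1]
  have b1 := abs_add_le (S - Y * T * σ) ((Y - X) * T * σ + X * (T - G * O) * σ +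
      X * (G * O) * (σ - ℓ))
  have b2 := abs_add_le ((Y - X) * T * σ + X * (T - G * O) * σ) (X * (G * O) * (σ - ℓ))
  have b3 := abs_add_le ((Y - X) * T * σ) (X * (T - G * O) * σ)
  have e2 : η * X * (2 * G) * (ℓ + 1) + X * (η * G) * (ℓ + 1) + X * G * η =
      η * (3 * ℓ + 4) * (X * G) := by ring
  linarith

theorem s2p {ι : Type} [Fintype ι] [DecidableEq ι] (δ : ℝ) (hδ : 0 < δ) (hδ2 : δ < 1 / 2) : ∃ A : ℝ,
    ∀ (i₀ i₁ : ι) (ε C η α β : ℝ), i₀ ≠ i₁ → 0 < ε → 8 * ε ≤ δ → 0 < η → 0 < α → α < β → ∀ a b a' b' : ι → ℝ,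
      (∀ i, St (a i) (b i)) → (∀ i, St (a' i) (b' i)) → (∀ i, b i < α ∧ b' i < α) →
      ∑ i ∈ univ.erase i₀, (b i + b' i) + β ≤ 1 / 2 - δ →
    ∃ N₀ : ℕ, ∀ N : ℕ, N₀ ≤ N → ∀ (D D' V : Finset ℕ) (h : ι → ℕ) (c : ℕ), Ctx ε C N D D' V h c →
      MB δ A ε N D →
      |∑ p ∈ PR N α β V, ∑ n ∈ (Pg ε N D c).filter (fun n => p ∣ n + h i₁), fp (n + h i₀) *
          ∏ i ∈ univ.erase i₀, (Lam V (ys N (a i) (b i)) (n + h i) * Lam V (ys N (a' i) (b' i)) (n + h i)) -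
        XX ε N D * Real.log (β / α) * Gam ε N ^ (Fintype.card ι - 1) *
          ∏ i ∈ univ.erase i₀, ov (a i) (b i) (a' i) (b' i)| ≤
        η * (XX ε N D * Gam ε N ^ (Fintype.card ι - 1)) := by
  obtain ⟨A, hA⟩ := eqm (ι := ι) δ hδ hδ2 1 1 le_rfl
  refine ⟨A, fun i₀ i₁ ε C η α β hi hε h8 hη hα hαβ a b a' b' hst hst' hbα hlev => ?_⟩
  obtain ⟨ℓ, hℓ⟩ : ∃ ℓ : ℝ, ℓ = Real.log (β / α) := ⟨_, rfl⟩
  have hℓ0 : 0 < ℓ := by
    rw [hℓ]
    exact Real.log_pos ((one_lt_div hα).2 hαβ)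
  obtain ⟨η₁, hη₁⟩ : ∃ η₁ : ℝ, η₁ = min 1 (η / 2 / (3 * ℓ + 4)) := ⟨_, rfl⟩
  have hη₁0 : 0 < η₁ := by
    rw [hη₁]
    exact lt_min one_pos (by positivity)
  have hη₁1 : η₁ ≤ 1 := by
    rw [hη₁]
    exact min_le_left _ _
  have hη₁2 : η₁ * (3 * ℓ + 4) ≤ η / 2 := by
    have h1 : η₁ ≤ η / 2 / (3 * ℓ + 4) := by
      rw [hη₁]
      exact min_le_right _ _
    rwa [le_div_iff₀ (by positivity)] at h1
  have hb0 : ∀ i, 0 < b i := fun i => (hst i).2.2.1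
  have hb0' : ∀ i, 0 < b' i := fun i => (hst' i).2.2.1
  have hβ1 : β ≤ 1 := by
    have h1 : 0 ≤ ∑ i ∈ univ.erase i₀, (b i + b' i) := sum_nonneg fun i _ => (add_pos (hb0 i) (hb0' i)).le
    linarith
  have e1 := Filter.eventually_atTop.2 (hA ε C hε h8 b b' (fun i => (hb0 i).le) fun i => (hb0' i).le)
  have e2 := p_main i₀ ε C η₁ α hε hη₁0 a b a' b' hst hst' fun i => (hbα i).1
  have e3 := Filter.eventually_atTop.2 (psi_asym η₁ hη₁0)
  have e4 := Filter.eventually_atTop.2 (Gam_ge ε hε)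
  have e5 := p_log_tt.eventually (Filter.eventually_ge_atTop (max 1 (max (1 / ε) (2 / η))))
  have e6 := Filter.eventually_atTop.2 (mer_V ε η₁ α β (1 + Fintype.card ι ^ 2) hη₁0 hα hαβ hβ1)
  have e7 := Filter.eventually_atTop.2 (Ctx_card (ι := ι) ε C hε)
  refine Filter.eventually_atTop.1 ?_
  filter_upwards [e1, e2, e3, e4, e5, e6, e7, p_sqrt_log C, Filter.eventually_ge_atTop 2] with N h1 h2 h3
    h4 h5 h6 h7 h9 hN2 D D' V h c hc hMB
  have hL1 : 1 ≤ Real.log N := (le_max_left _ _).trans h5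
  have hz1 : 1 / ε ≤ Real.log N := ((le_max_left _ _).trans (le_max_right _ _)).trans h5
  have hL2 : 2 / η ≤ Real.log N := ((le_max_right _ _).trans (le_max_right _ _)).trans h5
  rw [div_le_iff₀ hε] at hz1
  rw [div_le_iff₀ hη] at hL2
  have hz : 1 ≤ ε * Real.log N := by linarith
  have hB := p_ctx_big hc
  have hNr : (2 : ℝ) ≤ N := by exact_mod_cast hN2
  obtain ⟨q, hq⟩ : ∃ q, q = PGB.qz (ε * Real.log N) D := ⟨_, rfl⟩
  have hq0 : 0 < q := by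
    rw [hq]
    exact qz_pos _ _
  have hqV : ∀ p ∈ V, ¬ p ∣ q := fun p hp => by
    rw [hq]
    exact q_cop (hB p hp).1 (by linarith) (hB p hp).2
  have hφ : (0 : ℝ) < Nat.totient q := by exact_mod_cast Nat.totient_pos.2 hq0
  have hΓ1 : 1 ≤ Gam ε N := by
    refine le_trans ?_ h4
    rw [le_div_iff₀ hε]
    linarith
  have hHN : h i₀ ≤ N := by
    have g1 : (h i₀ : ℝ) ≤ √(N : ℝ) := (hc.le i₀).trans h9
    have g2 : √(N : ℝ) ≤ N := by
      rw [Real.sqrt_le_left (by positivity)]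
      nlinarith
    exact_mod_cast g1.trans g2
  have hPV : ∀ p ∈ PR N α β V, p ∈ V ∧ p ∉ Vs N α V ∧ (p : ℝ) < (N : ℝ) ^ β := by
    intro p hp
    rw [mem_PR] at hp
    refine ⟨hp.1, ?_, hp.2.2⟩
    rw [mem_Vs]
    rintro ⟨_, h10⟩
    linarith [hp.2.1]
  obtain ⟨T, hT⟩ : ∃ T : ℝ, T = TT (Vs N α V) (fun i D => rho (Vs N α V) (pyy i₀ N a b i)
    (pyy i₀ N a' b' i) D * al (fun p => 1 / ((p : ℝ) - 1)) D) := ⟨_, rfl⟩
  -- one prime
  have hone : ∀ p ∈ PR N α β V,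
      |∑ n ∈ (Pg ε N D c).filter (fun n => p ∣ n + h i₁), fp (n + h i₀) *
          ∏ i ∈ univ.erase i₀, (Lam V (ys N (a i) (b i)) (n + h i) *
            Lam V (ys N (a' i) (b' i)) (n + h i)) -
        PGB.Psi N 1 0 / (Nat.totient q : ℝ) * T * (1 / ((p : ℝ) - 1))| ≤
      ∑ U ∈ tup ι (Vs N α V), (∏ i, |rho (Vs N α V) (pyy i₀ N a b i) (pyy i₀ N a' b' i) (U i)|) *
          (ER N q (pr {p} * pr (univ.biUnion U)) + SE N (h i₀)) := by
    intro p hp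
    obtain ⟨hpV, hpW, _⟩ := hPV p hp
    have hpp := (hB p hpV).1
    have h10 := gs2m i₀ (Vs N α V) (fun p hp => (hB p (p_Vs_sub hp)).1) q N c hq0
      (fun p hp => hqV p (p_Vs_sub hp)) h
      (fun p hp => ((hc.mem p).1 (p_Vs_sub hp)).2.2) i₁ {p}
      (fun p' hp' => by
        rw [mem_singleton] at hp'
        subst hp'
        exact ⟨hpp, hqV _ hpV, ((hc.mem _).1 hpV).2.2 i₀ i₁ hi⟩)
      (by rwa [disjoint_singleton_left]) (by rw [hq]; exact hc.cop i₀) hN2 hHN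
      (pyy i₀ N a b) (pyy i₀ N a' b')
      (pyy_self _ _ _ _) (pyy_self _ _ _ _) (fun r => ER N q (pr {p} * r))
      (fun B hB' a' ha' => by
        have h11 : 0 < q * (pr {p} * pr B) := Nat.mul_pos hq0 (Nat.mul_pos
          (prod_pos fun p' hp' => by rw [mem_singleton] at hp'; rw [hp']; exact hpp.pos)
          (prod_pos fun p' hp' => (hB p' (p_Vs_sub (hB' hp'))).1.pos))
        rw [mul_assoc] at ha' ⊢
        exact ER_ge h11 ha')
    have hset : (Ioc N (2 * N)).filter (fun n => n ≡ c [MOD q] ∧ ∀ p' ∈ ({p} : Finset ℕ), p' ∣ n + h i₁) =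
        (Pg ε N D c).filter (fun n => p ∣ n + h i₁) := by
      unfold Pg
      rw [← hq, filter_filter]
      refine filter_congr fun n _ => ?_
      simp only [mem_singleton, forall_eq]
    have htot : (Nat.totient (q * pr {p}) : ℝ) = (Nat.totient q : ℝ) * ((p : ℝ) - 1) := by
      have h12 : pr {p} = p := by
        unfold pr
        rw [prod_singleton]
      rw [h12, Nat.totient_mul ((hpp.coprime_iff_not_dvd.2 (hqV p hpV)).symm), Nat.totient_prime hpp]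
      push_cast [hpp.one_le]
      ring
    rw [hset, htot] at h10
    have hsum : ∑ n ∈ (Pg ε N D c).filter (fun n => p ∣ n + h i₁), fp (n + h i₀) *
        ∏ i, (Lam (Vs N α V) (pyy i₀ N a b i) (n + h i) *
          Lam (Vs N α V) (pyy i₀ N a' b' i) (n + h i)) =
        ∑ n ∈ (Pg ε N D c).filter (fun n => p ∣ n + h i₁), fp (n + h i₀) *
          ∏ i ∈ univ.erase i₀, (Lam V (ys N (a i) (b i)) (n + h i) *
            Lam V (ys N (a' i) (b' i)) (n + h i)) := by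
      refine sum_congr rfl fun n _ => ?_
      congr 1
      rw [← mul_prod_erase univ _ (mem_univ i₀), pyy_self, pyy_self, Lam_dl, one_mul, one_mul]
      refine prod_congr rfl fun i hi' => ?_
      rw [pyy_ne (ne_of_mem_erase hi'), pyy_ne (ne_of_mem_erase hi'),
        Lam_sub p_Vs_sub _ (ys_sub hN2 (hbα i).1 fun p hp => (hB p hp).1),
        Lam_sub p_Vs_sub _ (ys_sub hN2 (hbα i).2 fun p hp => (hB p hp).1)]
    rw [hsum] at h10
    have hp1 : (0 : ℝ) < (p : ℝ) - 1 := by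
      have : (1 : ℝ) < p := by exact_mod_cast hpp.one_lt
      linarith
    have e : PGB.Psi N 1 0 / ((Nat.totient q : ℝ) * ((p : ℝ) - 1)) * T =
        PGB.Psi N 1 0 / (Nat.totient q : ℝ) * T * (1 / ((p : ℝ) - 1)) := by
      field_simp
    rw [← hT, e] at h10
    exact h10
  have hW1 := hA
  -- the sum of the errors
  have herr : ∑ p ∈ PR N α β V, ∑ U ∈ tup ι (Vs N α V),
      (∏ i, |rho (Vs N α V) (pyy i₀ N a b i) (pyy i₀ N a' b' i) (U i)|) *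
          (ER N q (pr {p} * pr (univ.biUnion U)) + SE N (h i₀)) ≤
      N / ((Nat.totient q : ℝ) * Real.log N ^ (1 : ℝ)) := by
    have h10 := h1 D D' V h c hc hMB i₀ (PR N α β V) (fun p : ℕ => ({p} : Finset ℕ))
      (fun _ => Vs N α V) (fun _ => pyy i₀ N a b) (fun _ => pyy i₀ N a' b')
      (fun p _ p' _ hpp => singleton_injective hpp) (fun p hp => ?_)
    · rw [← hq] at h10
      exact h10
    · obtain ⟨hpV, hpW, hpβ⟩ := hPV p hp
      refine ⟨singleton_subset_iff.2 hpV, p_Vs_sub, by rwa [disjoint_singleton_left], ?_,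
        pyy_self _ _ _ _, pyy_self _ _ _ _, fun i hi' => ?_⟩
      · have h12 : pr {p} = p := by
          unfold pr
          rw [prod_singleton]
        rw [h12]
        calc (p : ℝ) * (N : ℝ) ^ (∑ i ∈ univ.erase i₀, (b i + b' i)) ≤
            (N : ℝ) ^ β * (N : ℝ) ^ (∑ i ∈ univ.erase i₀, (b i + b' i)) :=
              mul_le_mul_of_nonneg_right hpβ.le (by positivity)
          _ = (N : ℝ) ^ (β + ∑ i ∈ univ.erase i₀, (b i + b' i)) := by
              rw [Real.rpow_add (by linarith)]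
          _ ≤ (N : ℝ) ^ (1 / 2 - δ) :=
              Real.rpow_le_rpow_of_exponent_le (by linarith) (by linarith)
      · rw [pyy_ne hi', pyy_ne hi']
        exact ⟨ys_Bd _ _ _, ys_Bd _ _ _⟩
  have hcd := h7 D D' V h c hc
  have hmer := (h6 V hcd.1 hcd.2).1
  have hS : |∑ p ∈ PR N α β V, ∑ n ∈ (Pg ε N D c).filter (fun n => p ∣ n + h i₁), fp (n + h i₀) *
          ∏ i ∈ univ.erase i₀, (Lam V (ys N (a i) (b i)) (n + h i) *
            Lam V (ys N (a' i) (b' i)) (n + h i)) -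
        PGB.Psi N 1 0 / (Nat.totient q : ℝ) * T * ∑ p ∈ PR N α β V, 1 / ((p : ℝ) - 1)| ≤
      N / ((Nat.totient q : ℝ) * Real.log N ^ (1 : ℝ)) := by
    rw [mul_sum, ← sum_sub_distrib]
    exact (abs_sum_le_sum_abs _ _).trans ((sum_le_sum hone).trans herr)
  have hO : 0 ≤ ∏ i ∈ univ.erase i₀, ov (a i) (b i) (a' i) (b' i) :=
    prod_nonneg fun i _ => p_ov_nn _ _ _ _
  have hO1 : ∏ i ∈ univ.erase i₀, ov (a i) (b i) (a' i) (b' i) ≤ 1 :=
    prod_le_one (fun i _ => p_ov_nn _ _ _ _) fun i _ => p_ov_le (hst i)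
  have h2' := h2 D D' V h c hc
  rw [← hT] at h2'
  rw [← hℓ] at hmer
  have hG1 : 1 ≤ Gam ε N ^ (Fintype.card ι - 1) := one_le_pow₀ hΓ1
  have h10 := p_num hφ (Nat.cast_nonneg N) (by linarith) hO hO1 hη₁0.le hη₁1 hℓ0.le hS h2' h3 hmer
  have hXX : XX ε N D = N / (Nat.totient q : ℝ) := by
    unfold XX
    rw [hq]
  rw [hXX, ← hℓ]
  refine h10.trans ?_
  have hX0 : 0 ≤ (N : ℝ) / (Nat.totient q : ℝ) := by positivity
  obtain ⟨X, hX⟩ : ∃ X : ℝ, X = (N : ℝ) / (Nat.totient q : ℝ) := ⟨_, rfl⟩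
  obtain ⟨G, hG⟩ : ∃ G : ℝ, G = Gam ε N ^ (Fintype.card ι - 1) := ⟨_, rfl⟩
  have e10 : (N : ℝ) / ((Nat.totient q : ℝ) * Real.log N ^ (1 : ℝ)) = X / Real.log N := by
    rw [Real.rpow_one, ← div_div, hX]
  rw [e10, ← hX, ← hG]
  rw [← hX] at hX0
  rw [← hG] at hG1
  have e11 : X / Real.log N ≤ η / 2 * (X * G) := by
    rw [div_le_iff₀ (by linarith)]
    have h12 : 1 ≤ η / 2 * Real.log N := by linarith
    calc X = X * 1 * 1 := by ring
      _ ≤ X * G * (η / 2 * Real.log N) :=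
        mul_le_mul (mul_le_mul_of_nonneg_left hG1 hX0) h12 zero_le_one (by positivity)
      _ = η / 2 * (X * G) * Real.log N := by ring
  have e12 : η₁ * (3 * ℓ + 4) * (X * G) ≤ η / 2 * (X * G) :=
    mul_le_mul_of_nonneg_right hη₁2 (by positivity)
  linarith

/-- exchange of the sums over the primes and over the integers -/
private theorem p_ex (P S : Finset ℕ) (H : ℕ) (g : ℕ → ℝ) :
    ∑ p ∈ P, ∑ n ∈ S.filter (fun n => p ∣ n + H), g n =
      ∑ n ∈ S, g n * ((P.filter (fun p => p ∣ n + H)).card : ℝ) := by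
  simp only [sum_filter]
  rw [sum_comm]
  refine sum_congr rfl fun n _ => ?_
  rw [← sum_filter, sum_const, nsmul_eq_mul, mul_comm]

/-- data with the coordinate `i₁` replaced -/
private def pu {ι : Type} [DecidableEq ι] {L : ℕ} (u : Fin L → ℝ) (v : ℝ) (i₁ : ι) (j : ι → Fin L) (i : ι) : ℝ :=
  if i = i₁ then v else u (j i)

private theorem p_prodL {ι : Type} [Fintype ι] [DecidableEq ι] {L : ℕ} (a b : Fin L → ℝ) {i₀ i₁ : ι}
    (hi : i₀ ≠ i₁) (N : ℕ) (V : Finset ℕ) (h : ι → ℕ) (κ₁ κ₂ : ℝ) (j j' : ι → Fin L) (n : ℕ) :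
    ∏ i ∈ univ.erase i₀, (Lam V (ys N (pu a (-1) i₁ j i) (pu b κ₁ i₁ j i)) (n + h i) *
        Lam V (ys N (pu a (-1) i₁ j' i) (pu b κ₂ i₁ j' i)) (n + h i)) =
      (Lam V (ys N (-1) κ₁) (n + h i₁) * Lam V (ys N (-1) κ₂) (n + h i₁)) *
        ∏ i ∈ oth i₀ i₁, (Lam V (ys N (a (j i)) (b (j i))) (n + h i) *
            Lam V (ys N (a (j' i)) (b (j' i))) (n + h i)) := by
  have hi1 : i₁ ∈ univ.erase i₀ := Finset.mem_erase.2 ⟨hi.symm, mem_univ _⟩
  rw [← mul_prod_erase (univ.erase i₀) _ hi1]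
  congr 1
  · unfold pu
    rw [if_pos rfl, if_pos rfl, if_pos rfl, if_pos rfl]
  · unfold oth
    refine prod_congr rfl fun i hi' => ?_
    have h1 : i ≠ i₁ := (Finset.mem_erase.1 hi').1
    unfold pu
    rw [if_neg h1, if_neg h1, if_neg h1, if_neg h1]

private theorem p_prodO {ι : Type} [Fintype ι] [DecidableEq ι] {L : ℕ} (a b : Fin L → ℝ) {i₀ i₁ : ι}
    (hi : i₀ ≠ i₁) {κ₁ κ₂ : ℝ} (h1 : 0 < κ₁) (h2 : 0 < κ₂) (j j' : ι → Fin L) :
    ∏ i ∈ univ.erase i₀, ov (pu a (-1) i₁ j i) (pu b κ₁ i₁ j i) (pu a (-1) i₁ j' i) (pu b κ₂ i₁ j' i) =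
      min κ₁ κ₂ * ∏ i ∈ oth i₀ i₁, ov (a (j i)) (b (j i)) (a (j' i)) (b (j' i)) := by
  have hi1 : i₁ ∈ univ.erase i₀ := Finset.mem_erase.2 ⟨hi.symm, mem_univ _⟩
  rw [← mul_prod_erase (univ.erase i₀) _ hi1]
  congr 1
  · unfold pu
    rw [if_pos rfl, if_pos rfl, if_pos rfl, if_pos rfl]
    unfold ov
    rw [max_self, max_eq_right (by norm_num : (-1 : ℝ) ≤ 0), sub_zero,
      max_eq_right (lt_min h1 h2).le]
  · unfold oth
    refine prod_congr rfl fun i hi' => ?_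
    have h1 : i ≠ i₁ := (Finset.mem_erase.1 hi').1
    unfold pu
    rw [if_neg h1, if_neg h1, if_neg h1, if_neg h1]

theorem s2pw {ι : Type} [Fintype ι] [DecidableEq ι] (δ ρ κ α β : ℝ) (hδ : 0 < δ) (hδ2 : δ < 1 / 2) (hκ : 0 < κ)
    (hκα : κ < α) (hαβ : α < β) (hρ0 : 0 ≤ ρ) (hρα : ρ < α) (hρ : 2 * ρ + 2 * κ + β ≤ 1 / 2 - δ) : ∃ A : ℝ,
    ∀ {L : ℕ} (J : Finset (ι → Fin L)) (c a b t : Fin L → ℝ), Dat ρ J a b t →
    ∀ (i₀ i₁ : ι) (ε C η : ℝ), i₀ ≠ i₁ → 0 < ε → 8 * ε ≤ δ → 0 < η →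
    ∃ N₀ : ℕ, ∀ N : ℕ, N₀ ≤ N → ∀ (D D' V : Finset ℕ) (h : ι → ℕ) (b₀ : ℕ), Ctx ε C N D D' V h b₀ →
      MB δ A ε N D →
      |∑ p ∈ PR N α β V, ∑ n ∈ (Pg ε N D b₀).filter (fun n => p ∣ n + h i₁),
          fp (n + h i₀) * Lam V (y1 N κ) (n + h i₁) ^ 2 * wq J c a b N V h i₀ i₁ n -
        XX ε N D * Gam ε N ^ (Fintype.card ι + 3) * (Real.log (β / α) * (17 * κ) * JJ J c t {i₀, i₁})| ≤
        η * (XX ε N D * Gam ε N ^ (Fintype.card ι + 3)) := by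
  obtain ⟨A, hA⟩ := s2p (ι := ι) δ hδ hδ2
  refine ⟨A, ?_⟩
  intro L J c a b t hD i₀ i₁ ε C η hi hε h8 hη
  have hα : 0 < α := hκ.trans hκα
  obtain ⟨ℓ, hℓ⟩ : ∃ ℓ : ℝ, ℓ = Real.log (β / α) := ⟨_, rfl⟩
  have hℓ0 : 0 < ℓ := by
    rw [hℓ]
    exact Real.log_pos ((one_lt_div hα).2 hαβ)
  have hη2 : 0 < η / (ℓ * (17 * κ) + 1) := by positivity
  obtain ⟨η', hη', N₁, hN₁⟩ := tr ρ J c a b t hD i₀ i₁ hi ε C (η / (ℓ * (17 * κ) + 1)) hε hη2
  have hη3 : 0 < η' / 25 := by positivity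
  have hb0 : ∀ l, 0 < b l := fun l => (hD.st l).2.2.1
  have hbρ : ∀ j ∈ J, ∀ i, b (j i) ≤ ρ := fun j hj i =>
    (single_le_sum (f := fun i => b (j i)) (fun i _ => (hb0 _).le) (mem_univ i)).trans (hD.lev j hj)
  have hSt : ∀ κ₁ : ℝ, 0 < κ₁ → κ₁ ≤ κ → ∀ (j : ι → Fin L) (i : ι),
      St (pu a (-1) i₁ j i) (pu b κ₁ i₁ j i) := by
    intro κ₁ h1 h2 j i
    unfold pu
    by_cases h3 : i = i₁
    · rw [if_pos h3, if_pos h3]
      exact ⟨Or.inl rfl, by linarith, h1, by linarith⟩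
    · rw [if_neg h3, if_neg h3]
      exact hD.st _
  have hbd : ∀ κ₁ : ℝ, κ₁ ≤ κ → ∀ j ∈ J, ∀ i, pu b κ₁ i₁ j i < α := by
    intro κ₁ h2 j hj i
    unfold pu
    by_cases h3 : i = i₁
    · rw [if_pos h3]
      linarith
    · rw [if_neg h3]
      exact (hbρ j hj i).trans_lt hρα
  have hi1 : i₁ ∈ univ.erase i₀ := Finset.mem_erase.2 ⟨hi.symm, mem_univ _⟩
  have hlev : ∀ κ₁ : ℝ, κ₁ ≤ κ → ∀ j ∈ J, ∑ i ∈ univ.erase i₀, pu b κ₁ i₁ j i ≤ κ + ρ := by
    intro κ₁ h2 j hj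
    rw [← add_sum_erase (univ.erase i₀) _ hi1]
    have h3 : pu b κ₁ i₁ j i₁ = κ₁ := by
      unfold pu
      rw [if_pos rfl]
    have h4 : ∑ i ∈ (univ.erase i₀).erase i₁, pu b κ₁ i₁ j i ≤ ∑ i, b (j i) := by
      have h5 : ∑ i ∈ (univ.erase i₀).erase i₁, pu b κ₁ i₁ j i =
          ∑ i ∈ (univ.erase i₀).erase i₁, b (j i) :=
        sum_congr rfl fun i hi' => by
          unfold pu
          rw [if_neg (Finset.mem_erase.1 hi').1]
      rw [h5]
      exact sum_le_sum_of_subset_of_nonneg ((erase_subset _ _).trans (erase_subset _ _))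
        fun i _ _ => (hb0 _).le
    have h6 := hD.lev j hj
    rw [h3]
    linarith
  have hE : ∀ κ₁ κ₂ : ℝ, 0 < κ₁ → κ₁ ≤ κ → 0 < κ₂ → κ₂ ≤ κ →
      ∀ᶠ N : ℕ in Filter.atTop, ∀ x ∈ J ×ˢ J,
      ∀ (D D' V : Finset ℕ) (h : ι → ℕ) (b₀ : ℕ), Ctx ε C N D D' V h b₀ → MB δ A ε N D →
      |∑ p ∈ PR N α β V, ∑ n ∈ (Pg ε N D b₀).filter (fun n => p ∣ n + h i₁), fp (n + h i₀) *
          ((Lam V (ys N (-1) κ₁) (n + h i₁) * Lam V (ys N (-1) κ₂) (n + h i₁)) *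
        ∏ i ∈ oth i₀ i₁, (Lam V (ys N (a (x.1 i)) (b (x.1 i))) (n + h i) *
            Lam V (ys N (a (x.2 i)) (b (x.2 i))) (n + h i))) -
        XX ε N D * ℓ * Gam ε N ^ (Fintype.card ι - 1) *
          (min κ₁ κ₂ * ∏ i ∈ oth i₀ i₁, ov (a (x.1 i)) (b (x.1 i)) (a (x.2 i)) (b (x.2 i)))| ≤
        η' / 25 * (XX ε N D * Gam ε N ^ (Fintype.card ι - 1)) := by
    intro κ₁ κ₂ k1 k2 k3 k4
    rw [Filter.eventually_all_finset]
    intro x hx
    rw [mem_product] at hx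
    obtain ⟨N₀, hN₀⟩ := hA i₀ i₁ ε C (η' / 25) α β hi hε h8 hη3 hα hαβ
      (pu a (-1) i₁ x.1) (pu b κ₁ i₁ x.1) (pu a (-1) i₁ x.2) (pu b κ₂ i₁ x.2)
      (hSt κ₁ k1 k2 x.1) (hSt κ₂ k3 k4 x.2)
      (fun i => ⟨hbd κ₁ k2 x.1 hx.1 i, hbd κ₂ k4 x.2 hx.2 i⟩) (by
        rw [sum_add_distrib]
        have h1 := hlev κ₁ k2 x.1 hx.1
        have h2 := hlev κ₂ k4 x.2 hx.2
        linarith)
    filter_upwards [Filter.eventually_ge_atTop N₀] with N hN
    intro D D' V h b₀ hC hM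
    have h1 := hN₀ N hN D D' V h b₀ hC hM
    simp only [p_prodL a b hi] at h1
    rw [p_prodO a b hi k1 k3, ← hℓ] at h1
    exact h1
  have hκ2 : 0 < κ / 2 := by linarith
  have hκ2' : κ / 2 ≤ κ := by linarith
  obtain ⟨N₂, hN₂⟩ := Filter.eventually_atTop.1 ((hE κ κ hκ le_rfl hκ le_rfl).and
    ((hE κ (κ / 2) hκ le_rfl hκ2 hκ2').and (hE (κ / 2) (κ / 2) hκ2 hκ2' hκ2 hκ2')))
  obtain ⟨N₃, hN₃⟩ := Gam_ge ε hε
  refine ⟨max N₁ (max N₂ N₃), fun N hN D D' V h b₀ hC hM => ?_⟩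
  have hNa : N₁ ≤ N := (le_max_left _ _).trans hN
  have hNb : N₂ ≤ N := ((le_max_left _ _).trans (le_max_right _ _)).trans hN
  have hNc : N₃ ≤ N := ((le_max_right _ _).trans (le_max_right _ _)).trans hN
  obtain ⟨hE1, hE2, hE3⟩ := hN₂ N hNb
  have hΓ : 0 < Gam ε N := lt_of_lt_of_le (by positivity) (hN₃ N hNc)
  have hk : 2 ≤ Fintype.card ι := by
    have h1 : 1 < Fintype.card ι := Fintype.one_lt_card_iff.2 ⟨i₀, i₁, hi⟩
    omega
  have hX0 : 0 ≤ XX ε N D := by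
    unfold XX
    positivity
  obtain ⟨X, hX⟩ : ∃ X : ℝ, X = XX ε N D := ⟨_, rfl⟩
  rw [← hX] at hX0 ⊢
  obtain ⟨φ, hφ⟩ : ∃ φ : ℕ → ℝ, φ = fun n => fp (n + h i₀) * Lam V (y1 N κ) (n + h i₁) ^ 2 *
    (((PR N α β V).filter (fun p => p ∣ n + h i₁)).card : ℝ) := ⟨_, rfl⟩
  have h1 := hN₁ N hNa D D' V h b₀ hC (Pg ε N D b₀) φ (X * (ℓ * (17 * κ)) * Gam ε N)
    (X * (ℓ * (17 * κ)) * Gam ε N + X * Gam ε N) (by positivity)
    (by linarith [mul_nonneg hX0 hΓ.le]) ?_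
  · have e1 : ∑ n ∈ Pg ε N D b₀, φ n * wq J c a b N V h i₀ i₁ n =
        ∑ p ∈ PR N α β V, ∑ n ∈ (Pg ε N D b₀).filter (fun n => p ∣ n + h i₁),
          fp (n + h i₀) * Lam V (y1 N κ) (n + h i₁) ^ 2 * wq J c a b N V h i₀ i₁ n := by
      rw [p_ex, hφ]
      exact sum_congr rfl fun n _ => by ring
    have hpw : Gam ε N ^ (Fintype.card ι + 3) = Gam ε N ^ (Fintype.card ι + 2) * Gam ε N := by
      rw [← pow_succ]
    rw [e1] at h1
    have e2 : X * Gam ε N ^ (Fintype.card ι + 3) * (Real.log (β / α) * (17 * κ) * JJ J c t {i₀, i₁}) =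
        X * (ℓ * (17 * κ)) * Gam ε N * Gam ε N ^ (Fintype.card ι + 2) * JJ J c t {i₀, i₁} := by
      rw [hpw, ← hℓ]
      ring
    have e3 : η / (ℓ * (17 * κ) + 1) * ((X * (ℓ * (17 * κ)) * Gam ε N + X * Gam ε N) *
        Gam ε N ^ (Fintype.card ι + 2)) = η * (X * Gam ε N ^ (Fintype.card ι + 3)) := by
      rw [hpw]
      have : ℓ * (17 * κ) + 1 ≠ 0 := by positivity
      field_simp
    rw [e2, ← e3]
    exact h1
  · intro j hj j' hj'
    have hjj : (j, j') ∈ J ×ˢ J := mem_product.2 ⟨hj, hj'⟩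
    have f1 := hE1 (j, j') hjj D D' V h b₀ hC hM
    have f2 := hE2 (j, j') hjj D D' V h b₀ hC hM
    have f3 := hE3 (j, j') hjj D D' V h b₀ hC hM
    simp only at f1 f2 f3
    rw [← hX] at f1 f2 f3
    rw [min_self] at f1 f3
    rw [min_eq_right hκ2'] at f2
    have hpw : Gam ε N ^ (Fintype.card ι - 1) = Gam ε N * Gam ε N ^ (Fintype.card ι - 2) := by
      rw [← pow_succ']
      congr 1
      omega
    have e1 : ∑ n ∈ Pg ε N D b₀, φ n * ∏ i ∈ oth i₀ i₁, (Lam V (ys N (a (j i)) (b (j i))) (n + h i) *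
            Lam V (ys N (a (j' i)) (b (j' i))) (n + h i)) =
        9 * (∑ p ∈ PR N α β V, ∑ n ∈ (Pg ε N D b₀).filter (fun n => p ∣ n + h i₁), fp (n + h i₀) *
          ((Lam V (ys N (-1) κ) (n + h i₁) * Lam V (ys N (-1) κ) (n + h i₁)) *
        ∏ i ∈ oth i₀ i₁, (Lam V (ys N (a (j i)) (b (j i))) (n + h i) *
            Lam V (ys N (a (j' i)) (b (j' i))) (n + h i)))) +
        12 * (∑ p ∈ PR N α β V, ∑ n ∈ (Pg ε N D b₀).filter (fun n => p ∣ n + h i₁), fp (n + h i₀) *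
          ((Lam V (ys N (-1) κ) (n + h i₁) * Lam V (ys N (-1) (κ / 2)) (n + h i₁)) *
        ∏ i ∈ oth i₀ i₁, (Lam V (ys N (a (j i)) (b (j i))) (n + h i) *
            Lam V (ys N (a (j' i)) (b (j' i))) (n + h i)))) +
        4 * (∑ p ∈ PR N α β V, ∑ n ∈ (Pg ε N D b₀).filter (fun n => p ∣ n + h i₁), fp (n + h i₀) *
          ((Lam V (ys N (-1) (κ / 2)) (n + h i₁) * Lam V (ys N (-1) (κ / 2)) (n + h i₁)) *
        ∏ i ∈ oth i₀ i₁, (Lam V (ys N (a (j i)) (b (j i))) (n + h i) *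
            Lam V (ys N (a (j' i)) (b (j' i))) (n + h i)))) := by
      rw [p_ex, p_ex, p_ex, mul_sum, mul_sum, mul_sum, ← sum_add_distrib, ← sum_add_distrib, hφ]
      refine sum_congr rfl fun n _ => ?_
      simp only [Lam_y1]
      ring
    rw [e1]
    rw [hpw] at f1 f2 f3
    obtain ⟨O, hO⟩ : ∃ O : ℝ, O = ∏ i ∈ oth i₀ i₁, ov (a (j i)) (b (j i)) (a (j' i)) (b (j' i)) :=
      ⟨_, rfl⟩
    obtain ⟨G, hG⟩ : ∃ G : ℝ, G = Gam ε N ^ (Fintype.card ι - 2) := ⟨_, rfl⟩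
    have hG0 : 0 ≤ G := by
      rw [hG]
      positivity
    rw [← hO, ← hG] at f1 f2 f3 ⊢
    rw [abs_le] at f1 f2 f3 ⊢
    have hY : 0 ≤ η' * (X * (ℓ * (17 * κ)) * Gam ε N * G) := by positivity
    constructor
    · nlinarith [f1.1, f2.1, f3.1]
    · nlinarith [f1.2, f2.2, f3.2]

end PGS
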