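import Pool.Agent.PGS.EQ
import Pool.Agent.PGS.Gm
import Pool.Agent.PGS.Mc
import Pool.Agent.PGS.Mer
import Pool.Agent.PGS.Tr
import Pool.Agent.PGS.Dq

/-! PGS / S2Q: the sum over the `n` with `p q ∣ n + h i₁`, `p ∈ [N^α, N^β)`, `q < N^α` primes of `V`.

Notation: `q₀ = qz (ε log N) D`, `W = Vs N α V`, `k = card ι`. For `q ∈ W` let `z i = shP q (ys N (a i) (b i))` for
`i ≠ i₀, i₁`, `z i₁ = shM q (y1 N κ)`, `z i₀ = dl` (`zq` below).
PROOF of `inq`. Fix `p ∈ PR N α β V`, `q ∈ W`, `M = {p, q}`, `U = W.erase q`. If `q ∣ n + h i₁` then `q ∤ n + h i` for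
`i ≠ i₁` (`Ctx.mem`), so by `Lam_sub`, `Lam_shM`, `Lam_shP` (`W` in place of `V`; all weights are supported in `W`,
`ys_sub`, `y1_sub`): `Lam V (y1 N κ) (n + h i₁) = Lam U (z i₁) (n + h i₁)`, `Lam V (ys ..) (n + h i) = Lam U (z i) (n + h i)`.
`gs2m` with `V := U`, `M = {p, q}`, `E r = ER N q₀ (pr M * r)` (`ER_ge`): the sum is
`Psi N 1 0 / (φ(q₀) (p - 1) (q - 1)) * TT U` up to `err`. `main_term_c k 10` (`Bd (z i) 10 (N^(b i))`, `N^κ` at `i₁`, `1` at
`i₀`; `α p = 1 / (p - 1)`; `z = ε log N`): `|TT U - ∏ dia| ≤ (C / (ε log N)) ∏ G_U(..) ≤ (C' / log N) Γ^(k-1)`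
(`G_U ≤ G_V ≤ 2 Γ`, `k - 1` factors, `G_U(1) = 1` at `i₀`). Here `dia U dl dl = 1`, `dia U (z i₁) (z i₁) =
dia (V.erase q) (shM q (y1 N κ)) (shM q (y1 N κ)) =: d_q` (`dia_sub`), `0 ≤ d_q ≤ 100 G_V(N^κ) ≤ 200 Γ`, and for `i ≠ i₀, i₁`
`|dia U (z i) (z' i) - ov_i Γ| ≤ η' Γ` for large `N`, uniformly in `q`: `dia_shP` (`q > ε log N`, `3 G / (q - 1)`),
`dia U y y' = dia (V.erase q) y y'`, `|dia (V.erase q) y y' - dia V y y'| ≤ G_V(N^b) / (q - 1)` (the sets containing `q`) and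
`dia_step`. So `|∏ dia - d_q Γ^(k-2) ∏ ov| ≤ η'' d_q Γ^(k-2)` (`prod_pert`).
PROOF of `s2q`. Sum `inq` over `p` and `q`: `∑_p 1/(p-1) = log (β/α) + o(1)` (`mer_V`), `∑_q d_q / (q - 1) = DQ N α κ V`, which
is `O(Γ)` by `dq`; `∑_q 1/(q-1) ≤ 2 log (log N) + C` or simply `≤ C + ∑ 1/p ≤ ...`: from `mer_unif` with `u = 2`, `v = N`:
`∑_q 1/(q-1) ≤ 2 ∑_q 1/q ≤ 2 log log N + C''`, times `C' / log N` tends to `0`. The sum of the `err` is at most
`N / (φ(q₀) log N)` by `eqm` with `c₀ = 10`, `A₁ = 1`, index set `I = (PR N α β V) ×ˢ W`, `M (p, q) = {p, q}` (injective as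
`q < N^α ≤ p`), `W (p, q) = W.erase q`, `y (p, q) = zq ...` (`b i₁ := κ`; level: `p q N^(∑ (b + b') + 2 κ) ≤ N^(1/2 - δ)`).
`Psi N 1 0 = (1 + o(1)) N` (`psi_asym`). `Γ ≥ 1`. -/

set_option autoImplicit false

open Finset PGL

noncomputable section

namespace PGS

/-- the weights over `(Vs N α V).erase q` for `n` with `q ∣ n + h i₁` -/
def zq {ι : Type} [Fintype ι] [DecidableEq ι] (N : ℕ) (κ : ℝ) (i₀ i₁ : ι) (a b : ι → ℝ) (q : ℕ) (i : ι) :
    Finset ℕ → ℝ :=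
  if i = i₀ then dl else if i = i₁ then shM q (y1 N κ) else shP q (ys N (a i) (b i))

/-- the error term for one pair of primes -/
def err {ι : Type} [Fintype ι] [DecidableEq ι] (ε : ℝ) (N : ℕ) (D V : Finset ℕ) (α κ : ℝ) (h : ι → ℕ) (i₀ i₁ : ι)
    (a b a' b' : ι → ℝ) (p q : ℕ) : ℝ :=
  ∑ T ∈ tup ι ((Vs N α V).erase q),
    (∏ i, |rho ((Vs N α V).erase q) (zq N κ i₀ i₁ a b q i) (zq N κ i₀ i₁ a' b' q i) (T i)|) *
      (ER N (PGB.qz (ε * Real.log N) D) (pr {p, q} * pr (univ.biUnion T)) + SE N (h i₀))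

private theorem q_GV_nn {V : Finset ℕ} (hV : Big V 1) (R : ℝ) : 0 ≤ GV V R :=
  sum_nonneg fun B hB => by
    rw [mem_filter, mem_powerset] at hB
    refine (one_div_pos.2 (prod_pos fun p hp => ?_)).le
    have h := (hV p (hB.1 hp)).1.one_lt
    have h' : (1 : ℝ) < p := by exact_mod_cast h
    linarith

private theorem q_ph_pos {B : Finset ℕ} (hB : ∀ p ∈ B, p.Prime) : 0 < ph B :=
  prod_pos fun p hp => by
    have h' : (1 : ℝ) < p := by exact_mod_cast (hB p hp).one_lt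
    linarith

private theorem q_GV_mono {V V' : Finset ℕ} (hV : Big V' 1) (h : V ⊆ V') (R : ℝ) : GV V R ≤ GV V' R := by
  unfold GV
  refine sum_le_sum_of_subset_of_nonneg ?_ fun B hB _ => ?_
  · intro B hB
    rw [mem_filter, mem_powerset] at hB ⊢
    exact ⟨hB.1.trans h, hB.2⟩
  · rw [mem_filter, mem_powerset] at hB
    exact (one_div_pos.2 (q_ph_pos fun p hp => (hV p (hB.1 hp)).1)).le

private theorem q_GV_one {V : Finset ℕ} (hV : Big V 1) : GV V 1 = 1 := by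
  unfold GV
  have h1 : V.powerset.filter (fun B => (pr B : ℝ) ≤ 1) = {∅} := by
    ext B
    rw [mem_filter, mem_powerset, mem_singleton]
    constructor
    · rintro ⟨h2, h3⟩
      by_contra hne
      obtain ⟨p, hp⟩ := nonempty_iff_ne_empty.2 hne
      have h4 : p ∣ pr B := dvd_prod_of_mem _ hp
      have h5 : 0 < pr B := prod_pos fun q hq => (hV q (h2 hq)).1.pos
      have h6 := Nat.le_of_dvd h5 h4
      have h7 := (hV p (h2 hp)).1.two_le
      have h8 : pr B ≤ 1 := by exact_mod_cast h3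
      omega
    · rintro rfl
      exact ⟨empty_subset _, by simp [pr]⟩
  rw [h1, sum_singleton]
  simp [ph]

private theorem q_dia_dl (V : Finset ℕ) : dia V dl dl = 1 := by
  unfold dia
  rw [sum_eq_single ∅]
  · simp [dl, ph]
  · intro B _ hB
    simp [dl, hB]
  · intro h
    exact absurd (empty_mem_powerset V) h

private theorem q_dia_nn {V : Finset ℕ} (hV : ∀ p ∈ V, p.Prime) (y : Finset ℕ → ℝ) : 0 ≤ dia V y y := by
  unfold dia
  refine sum_nonneg fun B hB => ?_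
  rw [mem_powerset] at hB
  exact div_nonneg (mul_self_nonneg _) (q_ph_pos fun p hp => hV p (hB hp)).le

private theorem q_log_tt : Filter.Tendsto (fun N : ℕ => Real.log N) Filter.atTop Filter.atTop :=
  Real.tendsto_log_atTop.comp tendsto_natCast_atTop_atTop

private theorem q_exists_eta (m : ℕ) {η : ℝ} (hη : 0 < η) : ∃ η' : ℝ, 0 < η' ∧ (1 + η') ^ m - 1 ≤ η := by
  have h1 : Continuous fun t : ℝ => (1 + t) ^ m := (continuous_const.add continuous_id).pow m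
  have h2 := (h1.tendsto 0).eventually (gt_mem_nhds (show (1 + (0 : ℝ)) ^ m < 1 + η by simp [hη]))
  obtain ⟨r, hr, h3⟩ := Metric.eventually_nhds_iff.1 h2
  refine ⟨r / 2, by positivity, ?_⟩
  have h4 := h3 (y := r / 2) (by rw [Real.dist_eq, sub_zero, abs_of_pos (by positivity)]; linarith)
  linarith

private theorem q_ov_nn (a b a' b' : ℝ) : 0 ≤ ov a b a' b' := le_max_left _ _

private theorem q_ov_le {a b a' b' : ℝ} (h : St a b) : ov a b a' b' ≤ 1 := by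
  unfold ov
  refine max_le zero_le_one ?_
  have h1 := h.2.2.2
  have h2 : min b b' ≤ b := min_le_left _ _
  have h3 : (0 : ℝ) ≤ max (max a a') 0 := le_max_right _ _
  linarith

private theorem q_Bd_mono {y : Finset ℕ → ℝ} {c c' R : ℝ} (h : Bd y c R) (hc : c ≤ c') : Bd y c' R :=
  fun B => ⟨(h B).1.trans hc, (h B).2⟩

private theorem q_Psi_nn (N : ℕ) : 0 ≤ PGB.Psi N 1 0 := by
  unfold PGB.Psi
  exact sum_nonneg fun _ _ => ArithmeticFunction.vonMangoldt_nonneg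

private theorem q_sqrt_log (C : ℝ) : ∀ᶠ N : ℕ in Filter.atTop, C * Real.log N ≤ √(N : ℝ) := by
  have h1 := (isLittleO_log_rpow_atTop (show (0 : ℝ) < 1 / 2 by norm_num)).bound
    (show 0 < 1 / (|C| + 1) by positivity)
  have h2 := (tendsto_natCast_atTop_atTop (R := ℝ)).eventually h1
  filter_upwards [h2, Filter.eventually_ge_atTop 1] with N hN hN1
  have hN' : (1 : ℝ) ≤ N := by exact_mod_cast hN1
  have hL : 0 ≤ Real.log N := Real.log_nonneg hN'
  rw [Real.norm_of_nonneg hL, Real.norm_of_nonneg (by positivity), ← Real.sqrt_eq_rpow,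
    one_div, inv_mul_eq_div, le_div_iff₀ (by positivity)] at hN
  have h3 : C ≤ |C| + 1 := (le_abs_self C).trans (by linarith)
  nlinarith

section Ctx
variable {ι : Type} [Fintype ι] {ε C : ℝ} {N : ℕ} {D D' V : Finset ℕ} {h : ι → ℕ} {c : ℕ}

private theorem q_big (hc : Ctx ε C N D D' V h c) : Big V (ε * Real.log N) := by
  intro p hp
  have h1 := ((hc.mem p).1 hp).1
  unfold VN at h1
  exact (mem_filter.1 h1).2

private theorem q_big1 (hc : Ctx ε C N D D' V h c) (h1 : 1 ≤ ε * Real.log N) : Big V 1 :=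
  fun p hp => ⟨(q_big hc p hp).1, h1.trans_lt (q_big hc p hp).2⟩

private theorem q_leN (hc : Ctx ε C N D D' V h c) {p : ℕ} (hp : p ∈ V) : p ≤ N := by
  have h1 := ((hc.mem p).1 hp).1
  unfold VN at h1
  have := mem_range.1 (mem_filter.1 h1).1
  omega

end Ctx

private theorem prod_oth {ι : Type} [Fintype ι] [DecidableEq ι] {i₀ i₁ : ι} (hi : i₀ ≠ i₁) (f : ι → ℝ) :
    ∏ i, f i = f i₀ * (f i₁ * ∏ i ∈ oth i₀ i₁, f i) := by
  unfold oth
  rw [mul_prod_erase (univ.erase i₀) f (mem_erase.2 ⟨hi.symm, mem_univ _⟩), mul_prod_erase univ f (mem_univ i₀)]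

private theorem card_oth {ι : Type} [Fintype ι] [DecidableEq ι] {i₀ i₁ : ι} (hi : i₀ ≠ i₁) :
    (oth i₀ i₁).card = Fintype.card ι - 2 ∧ Fintype.card ι - 1 = Fintype.card ι - 2 + 1 := by
  have h1 : 1 < Fintype.card ι := Fintype.one_lt_card_iff.2 ⟨i₀, i₁, hi⟩
  refine ⟨?_, by omega⟩
  unfold oth
  rw [card_erase_of_mem (mem_erase.2 ⟨hi.symm, mem_univ _⟩), card_erase_of_mem (mem_univ _), card_univ]
  omega

/-- removing the prime `q` changes the diagonal sum little -/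
private theorem dia_erase {V : Finset ℕ} (hV : Big V 1) {y y' : Finset ℕ → ℝ} {R R' : ℝ} {q : ℕ} (hq : q ∈ V)
    (hy : Bd y 1 R) (hy' : Bd y' 1 R') :
    |dia (V.erase q) y y' - dia V y y'| ≤ 1 / ((q : ℝ) - 1) * GV V R := by
  have hq1 : (1 : ℝ) < q := (hV q hq).2
  have hq0 : (0 : ℝ) < (q : ℝ) - 1 := by linarith
  have hVe : Big (V.erase q) 1 := fun p hp => hV p (mem_of_mem_erase hp)
  have h1 : dia V y y' = dia (V.erase q) y y' +
      ∑ B ∈ (V.erase q).powerset, y (insert q B) * y' (insert q B) / ph (insert q B) := by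
    unfold dia
    conv_lhs => rw [← insert_erase hq]
    rw [sum_powerset_insert (notMem_erase q V)]
  rw [h1, ← sub_sub, sub_self, zero_sub, abs_neg]
  calc |∑ B ∈ (V.erase q).powerset, y (insert q B) * y' (insert q B) / ph (insert q B)| ≤
        ∑ B ∈ (V.erase q).powerset, |y (insert q B) * y' (insert q B) / ph (insert q B)| :=
        abs_sum_le_sum_abs _ _
    _ ≤ ∑ B ∈ (V.erase q).powerset, if (pr B : ℝ) ≤ R then 1 / ((q : ℝ) - 1) * (1 / ph B) else 0 := by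
        refine sum_le_sum fun B hB => ?_
        rw [mem_powerset] at hB
        have hqB : q ∉ B := fun h => notMem_erase q V (hB h)
        have hBp : ∀ p ∈ B, p.Prime := fun p hp => (hVe p (hB hp)).1
        have hph : 0 < ph B := q_ph_pos hBp
        have hph2 : ph (insert q B) = ((q : ℝ) - 1) * ph B := by
          unfold ph
          rw [prod_insert hqB]
        by_cases hz : y (insert q B) = 0
        · rw [hz, zero_mul, zero_div, abs_zero]
          split_ifs <;> positivity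
        · have hR : (pr (insert q B) : ℝ) ≤ R := by
            by_contra hcon
            exact hz ((hy _).2 (not_le.1 hcon))
          have hR2 : (pr B : ℝ) ≤ R := by
            refine le_trans ?_ hR
            unfold pr
            rw [prod_insert hqB]
            push_cast
            have : (0 : ℝ) ≤ ∏ p ∈ B, (p : ℝ) := prod_nonneg fun _ _ => Nat.cast_nonneg _
            nlinarith
          rw [if_pos hR2, hph2, abs_div, abs_mul, abs_of_pos (mul_pos hq0 hph)]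
          have e1 : |y (insert q B)| * |y' (insert q B)| ≤ 1 :=
            mul_le_one₀ (hy _).1 (abs_nonneg _) (hy' _).1
          rw [one_div_mul_one_div]
          exact div_le_div_of_nonneg_right e1 (mul_pos hq0 hph).le
    _ = 1 / ((q : ℝ) - 1) * GV (V.erase q) R := by
        rw [← sum_filter, ← mul_sum]
        rfl
    _ ≤ 1 / ((q : ℝ) - 1) * GV V R :=
        mul_le_mul_of_nonneg_left (q_GV_mono hV (erase_subset _ _) R) (by positivity)

private theorem Vs_sub {N : ℕ} {α : ℝ} {V : Finset ℕ} : Vs N α V ⊆ V := filter_subset _ _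

private theorem dia_oth {V : Finset ℕ} (hV : Big V 1) {N : ℕ} (hN : 2 ≤ N) {a b a' b' α : ℝ} {q : ℕ} (hq : q ∈ V)
    (hb : b < α) :
    |dia ((Vs N α V).erase q) (shP q (ys N a b)) (shP q (ys N a' b')) - dia V (ys N a b) (ys N a' b')| ≤
      4 / ((q : ℝ) - 1) * GV V ((N : ℝ) ^ b) := by
  have hq1 : (1 : ℝ) < q := (hV q hq).2
  have hq0 : (0 : ℝ) < (q : ℝ) - 1 := by linarith
  have hUV : (Vs N α V).erase q ⊆ V := (erase_subset _ _).trans Vs_sub
  have hU : Big ((Vs N α V).erase q) 1 := fun p hp => hV p (hUV hp)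
  have h1 := dia_shP hU (hV q hq).1.two_le (ys_Bd N a b) (ys_Bd N a' b')
  have h2 : dia (V.erase q) (ys N a b) (ys N a' b') = dia ((Vs N α V).erase q) (ys N a b) (ys N a' b') := by
    refine dia_sub (erase_subset_erase _ Vs_sub) _ _ fun B hB hne => ?_
    have h3 := ys_sub hN hb (fun p hp => (hV p hp).1) B (hB.trans (erase_subset _ _)) hne
    intro p hp
    exact mem_erase.2 ⟨(mem_erase.1 (hB hp)).1, h3 hp⟩
  have h3 := dia_erase hV hq (ys_Bd N a b) (ys_Bd N a' b')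
  rw [h2] at h3
  have h4 : 3 / ((q : ℝ) - 1) * GV ((Vs N α V).erase q) ((N : ℝ) ^ b) ≤ 3 / ((q : ℝ) - 1) * GV V ((N : ℝ) ^ b) :=
    mul_le_mul_of_nonneg_left (q_GV_mono hV hUV _) (by positivity)
  have h5 : 4 / ((q : ℝ) - 1) * GV V ((N : ℝ) ^ b) =
      3 / ((q : ℝ) - 1) * GV V ((N : ℝ) ^ b) + 1 / ((q : ℝ) - 1) * GV V ((N : ℝ) ^ b) := by ring
  rw [h5]
  refine (abs_sub_le _ (dia ((Vs N α V).erase q) (ys N a b) (ys N a' b')) _).trans ?_
  exact add_le_add (h1.trans h4) h3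

private theorem dia_i1 {V : Finset ℕ} (hV : ∀ p ∈ V, p.Prime) {N : ℕ} (hN : 2 ≤ N) {κ α : ℝ} (hκ : 0 ≤ κ)
    (hκα : κ < α) {q : ℕ} (hq : q ∈ V) :
    dia ((Vs N α V).erase q) (shM q (y1 N κ)) (shM q (y1 N κ)) =
      dia (V.erase q) (shM q (y1 N κ)) (shM q (y1 N κ)) := by
  symm
  refine dia_sub (erase_subset_erase _ Vs_sub) _ _ fun B hB hne => ?_
  have hBV : B ⊆ V := hB.trans (erase_subset _ _)
  have h3 : B ⊆ Vs N α V := by
    by_cases hz : y1 N κ B = 0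
    · have hz2 : y1 N κ (insert q B) ≠ 0 := by
        intro h4
        apply hne
        unfold shM
        rw [hz, h4, sub_zero]
      exact (subset_insert _ _).trans (y1_sub hN hκ hκα hV _ (insert_subset hq hBV) hz2)
    · exact y1_sub hN hκ hκα hV B hBV hz
  intro p hp
  exact mem_erase.2 ⟨(mem_erase.1 (hB hp)).1, h3 hp⟩

section zq
variable {ι : Type} [Fintype ι] [DecidableEq ι]

private theorem zq_i0 (N : ℕ) (κ : ℝ) (i₀ i₁ : ι) (a b : ι → ℝ) (q : ℕ) : zq N κ i₀ i₁ a b q i₀ = dl := by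
  unfold zq
  rw [if_pos rfl]

private theorem zq_i1 (N : ℕ) (κ : ℝ) {i₀ i₁ : ι} (hi : i₀ ≠ i₁) (a b : ι → ℝ) (q : ℕ) :
    zq N κ i₀ i₁ a b q i₁ = shM q (y1 N κ) := by
  unfold zq
  rw [if_neg hi.symm, if_pos rfl]

private theorem zq_oth (N : ℕ) (κ : ℝ) {i₀ i₁ i : ι} (hi : i ∈ oth i₀ i₁) (a b : ι → ℝ) (q : ℕ) :
    zq N κ i₀ i₁ a b q i = shP q (ys N (a i) (b i)) := by
  rw [mem_oth] at hi
  unfold zq
  rw [if_neg hi.2, if_neg hi.1]

private theorem zq_Bd {N : ℕ} (hN : 1 ≤ N) {κ : ℝ} (hκ : 0 ≤ κ) (i₀ i₁ : ι) (a b : ι → ℝ) {q : ℕ} (hq : 2 ≤ q)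
    (i : ι) : Bd (zq N κ i₀ i₁ a b q i) 10
      (if i = i₀ then 1 else if i = i₁ then (N : ℝ) ^ κ else (N : ℝ) ^ (b i)) := by
  unfold zq
  split_ifs
  · exact q_Bd_mono dl_Bd (by norm_num)
  · exact q_Bd_mono (shM_Bd (by omega) (y1_Bd hN hκ)) (by norm_num)
  · exact q_Bd_mono (shP_Bd hq (ys_Bd N (a i) (b i))) (by norm_num)

end zq

/-- numerical assembly for one pair of primes -/
private theorem q_num {S X T P d G O e₁ e₂ e₃ : ℝ} (hX : 0 ≤ X) (h1 : |S - X * T| ≤ e₃) (h2 : |T - P| ≤ e₁)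
    (h3 : |P - d * G * O| ≤ e₂) : |S - X * (d * G * O)| ≤ X * (e₂ + e₁) + e₃ := by
  have e : S - X * (d * G * O) = (S - X * T) + (X * (T - P) + X * (P - d * G * O)) := by ring
  rw [e]
  refine (abs_add_le _ _).trans ?_
  have a1 := abs_add_le (X * (T - P)) (X * (P - d * G * O))
  rw [abs_mul, abs_mul, abs_of_nonneg hX] at a1
  have a2 := mul_le_mul_of_nonneg_left h2 hX
  have a3 := mul_le_mul_of_nonneg_left h3 hX
  linarith

theorem inq {ι : Type} [Fintype ι] [DecidableEq ι] (i₀ i₁ : ι) (ε C η α β κ : ℝ) (hi : i₀ ≠ i₁) (hε : 0 < ε)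
    (hη : 0 < η) (hκ : 0 < κ) (hκα : κ < α) (hαβ : α < β) (a b a' b' : ι → ℝ)
    (hst : ∀ i, St (a i) (b i)) (hst' : ∀ i, St (a' i) (b' i)) (hb : ∀ i, b i < α ∧ b' i < α) :
    ∃ C₁ : ℝ, 0 < C₁ ∧ ∃ N₀ : ℕ, ∀ N : ℕ, N₀ ≤ N →
      ∀ (D D' V : Finset ℕ) (h : ι → ℕ) (c : ℕ), Ctx ε C N D D' V h c →
      ∀ p ∈ PR N α β V, ∀ q ∈ Vs N α V,
      |∑ n ∈ (Pg ε N D c).filter (fun n => p ∣ n + h i₁ ∧ q ∣ n + h i₁),
          fp (n + h i₀) * Lam V (y1 N κ) (n + h i₁) ^ 2 * ∏ i ∈ oth i₀ i₁,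
            (Lam V (ys N (a i) (b i)) (n + h i) * Lam V (ys N (a' i) (b' i)) (n + h i)) -
        PGB.Psi N 1 0 / ((Nat.totient (PGB.qz (ε * Real.log N) D) : ℝ) * ((p : ℝ) - 1) * ((q : ℝ) - 1)) *
          (dia (V.erase q) (shM q (y1 N κ)) (shM q (y1 N κ)) * Gam ε N ^ (Fintype.card ι - 2) *
            ∏ i ∈ oth i₀ i₁, ov (a i) (b i) (a' i) (b' i))| ≤
        PGB.Psi N 1 0 / ((Nat.totient (PGB.qz (ε * Real.log N) D) : ℝ) * ((p : ℝ) - 1) * ((q : ℝ) - 1)) *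
          (η * dia (V.erase q) (shM q (y1 N κ)) (shM q (y1 N κ)) * Gam ε N ^ (Fintype.card ι - 2) +
            C₁ / Real.log N * Gam ε N ^ (Fintype.card ι - 1)) +
          err ε N D V α κ h i₀ i₁ a b a' b' p q := by
  by_cases hα1 : α ≤ 1
  swap
  · refine ⟨1, one_pos, 2, fun N hN D D' V h c hc p hp q _ => ?_⟩
    exfalso
    have h1 := mem_PR.1 hp
    have h2 := q_leN hc h1.1
    have hN1 : (1 : ℝ) < N := by exact_mod_cast (show 1 < N by omega)
    have h3 : (N : ℝ) < (N : ℝ) ^ α := by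
      conv_lhs => rw [← Real.rpow_one (N : ℝ)]
      exact Real.rpow_lt_rpow_of_exponent_lt hN1 (not_le.1 hα1)
    have h4 : (p : ℝ) ≤ N := by exact_mod_cast h2
    linarith [h1.2.1]
  obtain ⟨hco, hk1⟩ := card_oth hi
  obtain ⟨C₀, hC₀, hmt⟩ := main_term_c (Fintype.card ι) 10 (by norm_num)
  obtain ⟨η', hη', hη1⟩ := q_exists_eta (Fintype.card ι - 2) hη
  refine ⟨C₀ / ε * 2 ^ (Fintype.card ι - 1), by positivity, ?_⟩
  have e1 : ∀ᶠ N : ℕ in Filter.atTop, ∀ i : ι, ∀ (D D' V : Finset ℕ) (h : ι → ℕ) (c : ℕ),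
      Ctx ε C N D D' V h c →
      |dia V (ys N (a i) (b i)) (ys N (a' i) (b' i)) - ov (a i) (b i) (a' i) (b' i) * Gam ε N| ≤
        η' / 2 * Gam ε N := Filter.eventually_all.2 fun i => Filter.eventually_atTop.2
          (dia_step ε C (η' / 2) (a i) (b i) (a' i) (b' i) hε (by positivity) (hst i) (hst' i))
  have e2 : ∀ᶠ N : ℕ in Filter.atTop, ∀ i : ι, ∀ V : Finset ℕ, V ⊆ VN (ε * Real.log N) N →
      ((VN (ε * Real.log N) N) \ V).card ≤ 1 + Fintype.card ι ^ 2 →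
        |GV V ((N : ℝ) ^ (b i)) - b i * Gam ε N| ≤ 1 * Gam ε N :=
    Filter.eventually_all.2 fun i => Filter.eventually_atTop.2
      (g_asym ε 1 (b i) (1 + Fintype.card ι ^ 2) hε one_pos (hst i).2.2.1 (hst i).2.2.2)
  have e2' := Filter.eventually_atTop.2
      (g_asym ε 1 κ (1 + Fintype.card ι ^ 2) hε one_pos hκ (by linarith))
  have e3 := Filter.eventually_atTop.2 (Ctx_card (ι := ι) ε C hε)
  have e4 := Filter.eventually_atTop.2 (Gam_ge ε hε)
  have e5 := q_log_tt.eventually (Filter.eventually_ge_atTop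
    (max (C₀ / ε) (max (1 / ε) ((16 / η' + 1) / ε))))
  refine Filter.eventually_atTop.1 ?_
  filter_upwards [e1, e2, e2', e3, e4, e5, q_sqrt_log C, Filter.eventually_ge_atTop 2] with N h1 h2 h2' h3 h4 h5
    h6 hN2 D D' V h c hc p hp q hq
  set Γ := Gam ε N with hΓ
  have hΓ0 : 0 < Γ := lt_of_lt_of_le (by positivity) h4
  have hz0 : C₀ / ε ≤ Real.log N := (le_max_left _ _).trans h5
  have hz1 : 1 / ε ≤ Real.log N := ((le_max_left _ _).trans (le_max_right _ _)).trans h5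
  have hz2 : (16 / η' + 1) / ε ≤ Real.log N := ((le_max_right _ _).trans (le_max_right _ _)).trans h5
  rw [div_le_iff₀ hε] at hz0 hz1 hz2
  have hz0' : C₀ ≤ ε * Real.log N := by linarith
  have hz1' : 1 ≤ ε * Real.log N := by linarith
  have hz2' : 16 / η' + 1 ≤ ε * Real.log N := by linarith
  have hL0 : 0 < Real.log N := by
    by_contra hcon
    have := mul_nonpos_of_nonneg_of_nonpos hε.le (not_lt.1 hcon)
    linarith
  have hN1 : (1 : ℝ) < N := by exact_mod_cast (show 1 < N by omega)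
  have hB := q_big hc
  have hB1 := q_big1 hc hz1'
  have hpV := (mem_PR.1 hp).1
  have hpα := (mem_PR.1 hp).2.1
  have hqV := (mem_Vs.1 hq).1
  have hqα := (mem_Vs.1 hq).2
  have hpq : q ≠ p := by
    rintro rfl
    linarith
  set U : Finset ℕ := (Vs N α V).erase q with hU
  have hUV : U ⊆ V := (erase_subset _ _).trans Vs_sub
  have hUB : Big U (ε * Real.log N) := fun r hr => hB r (hUV hr)
  have hUB1 : Big U 1 := fun r hr => hB1 r (hUV hr)
  set q₀ := PGB.qz (ε * Real.log N) D with hq₀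
  have hq00 : 0 < q₀ := qz_pos _ _
  have hnd : ∀ r ∈ V, ¬ r ∣ q₀ := fun r hr => q_cop (hB r hr).1 (by linarith) (hB r hr).2
  have hHN : h i₀ ≤ N := by
    have g1 : (h i₀ : ℝ) ≤ √(N : ℝ) := (hc.le i₀).trans h6
    have g2 : √(N : ℝ) ≤ N := by
      rw [Real.sqrt_le_left (by positivity)]
      nlinarith
    exact_mod_cast g1.trans g2
  set M : Finset ℕ := {p, q} with hM
  have hMV : M ⊆ V := by
    intro r hr
    rw [hM, mem_insert, mem_singleton] at hr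
    rcases hr with rfl | rfl
    · exact hpV
    · exact hqV
  have hMU : Disjoint M U := by
    rw [disjoint_left]
    intro r hr hr'
    rw [hM, mem_insert, mem_singleton] at hr
    rcases hr with rfl | rfl
    · have := (mem_Vs.1 (mem_of_mem_erase hr')).2
      linarith
    · exact notMem_erase _ _ hr'
  have hcong : ∀ r ∈ V, ∀ i j, i ≠ j → ¬ h i ≡ h j [MOD r] := fun r hr => ((hc.mem r).1 hr).2.2
  have hq2 : 2 ≤ q := (hB q hqV).1.two_le
  have hq1r : (1 : ℝ) < q := (hB1 q hqV).2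
  have hp1r : (1 : ℝ) < p := (hB1 p hpV).2
  -- the exact formula
  have k1 := gs2m i₀ U (fun r hr => (hUB r hr).1) q₀ N c hq00 (fun r hr => hnd r (hUV hr)) h
    (fun r hr => hcong r (hUV hr)) i₁ M
    (fun r hr => ⟨(hB r (hMV hr)).1, hnd r (hMV hr), hcong r (hMV hr) i₀ i₁ hi⟩) hMU (hc.cop i₀) hN2 hHN
    (zq N κ i₀ i₁ a b q) (zq N κ i₀ i₁ a' b' q) (zq_i0 _ _ _ _ _ _ _) (zq_i0 _ _ _ _ _ _ _)
    (fun r => ER N q₀ (pr M * r)) (fun B hBU a'' ha'' => by
      rw [mul_assoc] at ha'' ⊢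
      refine ER_ge (Nat.mul_pos hq00 (Nat.mul_pos ?_ ?_)) ha''
      · exact prod_pos fun r hr => (hB r (hMV hr)).1.pos
      · exact prod_pos fun r hr => (hUB r (hBU hr)).1.pos)
  have k2 : ∑ n ∈ (Ioc N (2 * N)).filter (fun n => n ≡ c [MOD q₀] ∧ ∀ r ∈ M, r ∣ n + h i₁),
      fp (n + h i₀) * ∏ i, (Lam U (zq N κ i₀ i₁ a b q i) (n + h i) * Lam U (zq N κ i₀ i₁ a' b' q i) (n + h i)) =
      ∑ n ∈ (Pg ε N D c).filter (fun n => p ∣ n + h i₁ ∧ q ∣ n + h i₁),
          fp (n + h i₀) * Lam V (y1 N κ) (n + h i₁) ^ 2 * ∏ i ∈ oth i₀ i₁,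
            (Lam V (ys N (a i) (b i)) (n + h i) * Lam V (ys N (a' i) (b' i)) (n + h i)) := by
    have f1 : (Ioc N (2 * N)).filter (fun n => n ≡ c [MOD q₀] ∧ ∀ r ∈ M, r ∣ n + h i₁) =
        (Pg ε N D c).filter (fun n => p ∣ n + h i₁ ∧ q ∣ n + h i₁) := by
      unfold Pg
      rw [filter_filter]
      refine filter_congr fun n _ => ?_
      rw [hM, ← hq₀]
      simp
    rw [f1]
    refine sum_congr rfl fun n hn => ?_
    have hqn : q ∣ n + h i₁ := (mem_filter.1 hn).2.2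
    rw [prod_oth hi, zq_i0, zq_i0, Lam_dl, zq_i1 _ _ hi, zq_i1 _ _ hi, one_mul, one_mul, ← sq, mul_assoc]
    congr 2
    · rw [Lam_sub Vs_sub (y1 N κ) (y1_sub hN2 hκ.le hκα fun r hr => (hB r hr).1),
        Lam_shM (fun r hr => (hB r (Vs_sub hr)).1) hq (y1 N κ) hqn]
    · refine prod_congr rfl fun i hi' => ?_
      have hne : i₁ ≠ i := (mem_oth.1 hi').1.symm
      have hqn' : ¬ q ∣ n + h i := by
        intro hd
        refine hcong q hqV i₁ i hne ?_
        have g1 : n + h i₁ ≡ n + h i [MOD q] :=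
          ((Nat.modEq_zero_iff_dvd).2 hqn).trans ((Nat.modEq_zero_iff_dvd).2 hd).symm
        exact Nat.ModEq.add_left_cancel' n g1
      rw [zq_oth _ _ hi', zq_oth _ _ hi',
        Lam_sub Vs_sub (ys N (a i) (b i)) (ys_sub hN2 (hb i).1 fun r hr => (hB r hr).1),
        Lam_sub Vs_sub (ys N (a' i) (b' i)) (ys_sub hN2 (hb i).2 fun r hr => (hB r hr).1),
        Lam_shP (fun r hr => (hB r (Vs_sub hr)).1) hq (ys N (a i) (b i)) hqn',
        Lam_shP (fun r hr => (hB r (Vs_sub hr)).1) hq (ys N (a' i) (b' i)) hqn']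
  rw [k2] at k1
  have k3 : ((Nat.totient (q₀ * pr M) : ℕ) : ℝ) = (Nat.totient q₀ : ℝ) * ((p : ℝ) - 1) * ((q : ℝ) - 1) := by
    have hMp : ∀ r ∈ M, r.Prime := fun r hr => (hB r (hMV hr)).1
    rw [Nat.totient_mul (pr_coprime hMp (subset_refl M) fun r hr => hnd r (hMV hr)), Nat.cast_mul,
      pr_totient hMp (subset_refl M), hM, prod_pair hpq.symm, mul_assoc]
  rw [k3] at k1
  set X : ℝ := PGB.Psi N 1 0 / ((Nat.totient q₀ : ℝ) * ((p : ℝ) - 1) * ((q : ℝ) - 1)) with hX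
  have hX0 : 0 ≤ X := by
    refine div_nonneg (q_Psi_nn N) ?_
    have : 0 ≤ (p : ℝ) - 1 := by linarith
    have : 0 ≤ (q : ℝ) - 1 := by linarith
    positivity
  -- the main term
  have k4 := hmt (ι := ι) rfl U (ε * Real.log N) hz0' hUB (fun p => 1 / ((p : ℝ) - 1)) ?_
    (zq N κ i₀ i₁ a b q) (zq N κ i₀ i₁ a' b' q) _ _ (zq_Bd (by omega) hκ.le i₀ i₁ a b hq2)
    (zq_Bd (by omega) hκ.le i₀ i₁ a' b' hq2)
  swap
  · intro r hr
    have hp2 : (2 : ℝ) ≤ r := by exact_mod_cast (hUB r hr).1.two_le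
    have hp1 : (0 : ℝ) < (r : ℝ) - 1 := by linarith
    refine ⟨by positivity, ?_, ?_⟩
    · rw [div_le_one hp1]
      linarith
    · have e : (r : ℝ) * (1 / ((r : ℝ) - 1)) - 1 = 1 / ((r : ℝ) - 1) := by
        field_simp
        ring
      rw [e, abs_of_pos (by positivity), div_le_div_iff₀ hp1 (by linarith)]
      linarith
  have h3' := h3 D D' V h c hc
  have hGb : ∀ i, GV V ((N : ℝ) ^ (b i)) ≤ 2 * Γ := by
    intro i
    have h7 := h2 i V h3'.1 h3'.2
    have h8 := (hst i).2.2.2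
    rw [abs_le] at h7
    nlinarith [h7.2]
  have hGκ : GV V ((N : ℝ) ^ κ) ≤ 2 * Γ := by
    have h7 := h2' V h3'.1 h3'.2
    rw [abs_le] at h7
    nlinarith [h7.2]
  have k5 : ∏ i, GV U (if i = i₀ then 1 else if i = i₁ then (N : ℝ) ^ κ else (N : ℝ) ^ (b i)) ≤
      (2 * Γ) ^ (Fintype.card ι - 1) := by
    rw [prod_oth hi, if_pos rfl, if_neg hi.symm, if_pos rfl, q_GV_one hUB1, one_mul, hk1, pow_succ, ← hco,
      ← prod_const, mul_comm]
    refine mul_le_mul ?_ ((q_GV_mono hB1 hUV _).trans hGκ) (q_GV_nn hUB1 _) (by positivity)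
    refine prod_le_prod (fun i _ => q_GV_nn hUB1 _) fun i hi' => ?_
    rw [mem_oth] at hi'
    rw [if_neg hi'.2, if_neg hi'.1]
    exact (q_GV_mono hB1 hUV _).trans (hGb i)
  have k6 : C₀ / (ε * Real.log N) *
      ∏ i, GV U (if i = i₀ then 1 else if i = i₁ then (N : ℝ) ^ κ else (N : ℝ) ^ (b i)) ≤
      C₀ / ε * 2 ^ (Fintype.card ι - 1) / Real.log N * Γ ^ (Fintype.card ι - 1) := by
    refine (mul_le_mul_of_nonneg_left k5 (by positivity)).trans (le_of_eq ?_)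
    rw [mul_pow]
    field_simp
  have k7 := k4.trans k6
  -- the diagonal terms
  set d : ℝ := dia (V.erase q) (shM q (y1 N κ)) (shM q (y1 N κ)) with hd
  have hd0 : 0 ≤ d := q_dia_nn (fun r hr => (hB r (mem_of_mem_erase hr)).1) _
  have k8 : ∏ i, dia U (zq N κ i₀ i₁ a b q i) (zq N κ i₀ i₁ a' b' q i) =
      d * ∏ i ∈ oth i₀ i₁, dia U (shP q (ys N (a i) (b i))) (shP q (ys N (a' i) (b' i))) := by
    rw [prod_oth hi, zq_i0, zq_i0, q_dia_dl, zq_i1 _ _ hi, zq_i1 _ _ hi, one_mul,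
      dia_i1 (fun r hr => (hB r hr).1) hN2 hκ.le hκα hqV]
    congr 1
    exact prod_congr rfl fun i hi' => by rw [zq_oth _ _ hi', zq_oth _ _ hi']
  have k9 := prod_pert (oth i₀ i₁)
    (fun i => dia U (shP q (ys N (a i) (b i))) (shP q (ys N (a' i) (b' i))))
    (fun i => ov (a i) (b i) (a' i) (b' i) * Γ) (fun _ => Γ) (t := 1 + η') (by linarith)
    (fun i _ => by
      have := q_ov_nn (a i) (b i) (a' i) (b' i)
      have h9 := q_ov_le (a' := a' i) (b' := b' i) (hst i)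
      rw [abs_of_nonneg (by positivity)]
      nlinarith)
    (fun i _ => by
      have g1 := h1 i D D' V h c hc
      have g2 := dia_oth hB1 hN2 (a := a i) (b := b i) (a' := a' i) (b' := b' i) hqV (hb i).1
      have hqz : (16 / η' + 1 : ℝ) < q := lt_of_le_of_lt hz2' (hB q hqV).2
      have hq0r : (0 : ℝ) < (q : ℝ) - 1 := by linarith
      have g3 : 4 / ((q : ℝ) - 1) ≤ η' / 4 := by
        rw [div_le_div_iff₀ hq0r (by norm_num)]
        have g4 : 16 / η' < (q : ℝ) - 1 := by linarith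
        rw [div_lt_iff₀ hη'] at g4
        linarith
      have g5 : 4 / ((q : ℝ) - 1) * GV V ((N : ℝ) ^ (b i)) ≤ η' / 4 * (2 * Γ) :=
        mul_le_mul g3 (hGb i) (q_GV_nn hB1 _) (by positivity)
      have g6 := abs_sub_le (dia U (shP q (ys N (a i) (b i))) (shP q (ys N (a' i) (b' i))))
        (dia V (ys N (a i) (b i)) (ys N (a' i) (b' i))) (ov (a i) (b i) (a' i) (b' i) * Γ)
      rw [add_sub_cancel_left]
      have g7 := g2.trans g5
      linarith)
  rw [prod_const, prod_mul_distrib, prod_const, hco] at k9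
  have k10 : |∏ i, dia U (zq N κ i₀ i₁ a b q i) (zq N κ i₀ i₁ a' b' q i) -
      d * Γ ^ (Fintype.card ι - 2) * ∏ i ∈ oth i₀ i₁, ov (a i) (b i) (a' i) (b' i)| ≤
      η * d * Γ ^ (Fintype.card ι - 2) := by
    rw [k8]
    have g1 : d * ∏ i ∈ oth i₀ i₁, dia U (shP q (ys N (a i) (b i))) (shP q (ys N (a' i) (b' i))) -
        d * Γ ^ (Fintype.card ι - 2) * ∏ i ∈ oth i₀ i₁, ov (a i) (b i) (a' i) (b' i) =
        d * (∏ i ∈ oth i₀ i₁, dia U (shP q (ys N (a i) (b i))) (shP q (ys N (a' i) (b' i))) -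
          (∏ i ∈ oth i₀ i₁, ov (a i) (b i) (a' i) (b' i)) * Γ ^ (Fintype.card ι - 2)) := by ring
    rw [g1, abs_mul, abs_of_nonneg hd0]
    calc _ ≤ d * (Γ ^ (Fintype.card ι - 2) * ((1 + η') ^ (Fintype.card ι - 2) - 1)) :=
          mul_le_mul_of_nonneg_left k9 hd0
      _ ≤ d * (Γ ^ (Fintype.card ι - 2) * η) := by
          refine mul_le_mul_of_nonneg_left (mul_le_mul_of_nonneg_left hη1 (by positivity)) hd0
      _ = η * d * Γ ^ (Fintype.card ι - 2) := by ring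
  exact q_num hX0 k1 k7 k10

private theorem q_small (K₁ K₂ e : ℝ) (hK₁ : 0 ≤ K₁) (he : 0 < e) : ∀ᶠ N : ℕ in Filter.atTop,
    K₁ * Real.log (Real.log N) + K₂ ≤ e * Real.log N := by
  have h1 := q_log_tt.eventually (Real.isLittleO_log_id_atTop.bound
    (show 0 < e / (2 * (K₁ + 1)) by positivity))
  have h2 := q_log_tt.eventually (Filter.eventually_ge_atTop (max 0 (2 * K₂ / e)))
  filter_upwards [h1, h2] with N g1 g2
  have g3 : 0 ≤ Real.log N := (le_max_left _ _).trans g2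
  have g4 : 2 * K₂ / e ≤ Real.log N := (le_max_right _ _).trans g2
  rw [div_le_iff₀ he] at g4
  rw [Real.norm_eq_abs, id, Real.norm_eq_abs, abs_of_nonneg g3, div_mul_eq_mul_div,
    le_div_iff₀ (by positivity)] at g1
  have g5 : Real.log (Real.log N) ≤ |Real.log (Real.log N)| := le_abs_self _
  have g6 : 0 ≤ |Real.log (Real.log N)| := abs_nonneg _
  nlinarith

private theorem q_alg (A B x y : ℝ) : A / (B * x * y) = A / B * (1 / x) * (1 / y) := by
  simp only [div_eq_mul_inv, mul_inv, one_mul]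
  ring

/-- numerical assembly of the sum over the pairs -/
private theorem q_fin {S Ψ φ P Q DQ lg G1 G2 Γ O L N C₁ C₂ η₀ η Er : ℝ} (hφ : 0 < φ) (hN : 0 ≤ N) (hL : 0 < L)
    (hΨ0 : 0 ≤ Ψ) (hP0 : 0 ≤ P) (hQ0 : 0 ≤ Q) (hD0 : 0 ≤ DQ) (hlg : 0 ≤ lg) (hG2 : 1 ≤ G2) (hΓ : 1 ≤ Γ)
    (hG1 : G1 = G2 * Γ) (hO : 0 ≤ O) (hO1 : O ≤ 1) (hC₁ : 0 ≤ C₁) (hC₂ : 0 ≤ C₂) (hη₀ : 0 < η₀) (hη₀1 : η₀ ≤ 1)
    (hη : (2 * (lg + 1) * (C₂ + 1) + 1 + (lg + 2) * C₂) * η₀ ≤ η)
    (hS : |S - Ψ / φ * G2 * O * (P * DQ)| ≤ Ψ / φ * (P * (η₀ * G2 * DQ + C₁ / L * G1 * Q)) + Er)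
    (hE : Er ≤ N / (φ * L)) (h1 : |Ψ - N| ≤ η₀ * N) (h2 : |P - lg| ≤ η₀) (h3 : DQ ≤ Γ * C₂)
    (h4 : C₁ * Q ≤ η₀ * L) (h5 : 1 ≤ η₀ * L) :
    |S - N / φ * (lg * DQ) * G2 * O| ≤ η * (N / φ * G1) := by
  have hG10 : 1 ≤ G1 := by rw [hG1]; nlinarith
  have hW : 0 ≤ N / φ := by positivity
  have a1 : Ψ ≤ 2 * N := by
    have := (abs_le.1 h1).2
    nlinarith
  have a2 : P ≤ lg + 1 := by
    have := (abs_le.1 h2).2
    linarith
  have a3 : G2 * DQ ≤ C₂ * G1 := by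
    rw [hG1]
    calc G2 * DQ ≤ G2 * (Γ * C₂) := mul_le_mul_of_nonneg_left h3 (by linarith)
      _ = _ := by ring
  have a4 : C₁ / L * Q ≤ η₀ := by
    rw [div_mul_eq_mul_div, div_le_iff₀ hL]
    exact h4
  have a5 : Er ≤ η₀ * (N / φ * G1) := by
    have e1 : N / (φ * L) = N / φ * (1 / L) := by
      field_simp
    have e2 : 1 / L ≤ η₀ := by
      rw [div_le_iff₀ hL]
      exact h5
    rw [e1] at hE
    calc Er ≤ N / φ * (1 / L) := hE
      _ ≤ N / φ * η₀ := mul_le_mul_of_nonneg_left e2 hW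
      _ ≤ η₀ * (N / φ * G1) := by nlinarith [mul_nonneg hW hη₀.le]
  have a6 : P * (η₀ * G2 * DQ + C₁ / L * G1 * Q) ≤ (lg + 1) * ((C₂ + 1) * η₀ * G1) := by
    have e1 : η₀ * G2 * DQ + C₁ / L * G1 * Q ≤ (C₂ + 1) * η₀ * G1 := by
      have e2 : η₀ * G2 * DQ ≤ η₀ * (C₂ * G1) := by
        rw [mul_assoc]
        exact mul_le_mul_of_nonneg_left a3 hη₀.le
      have e3 : C₁ / L * G1 * Q ≤ η₀ * G1 := by
        calc C₁ / L * G1 * Q = C₁ / L * Q * G1 := by ring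
          _ ≤ η₀ * G1 := mul_le_mul_of_nonneg_right a4 (by linarith)
      nlinarith
    have e4 : 0 ≤ η₀ * G2 * DQ + C₁ / L * G1 * Q := by
      have : 0 ≤ G1 := by linarith
      have : 0 ≤ G2 := by linarith
      positivity
    exact mul_le_mul a2 e1 e4 (by linarith)
  have a7 : Ψ / φ * (P * (η₀ * G2 * DQ + C₁ / L * G1 * Q)) ≤
      2 * (N / φ) * ((lg + 1) * ((C₂ + 1) * η₀ * G1)) := by
    have e1 : Ψ / φ ≤ 2 * (N / φ) := by
      rw [← mul_div_assoc]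
      exact div_le_div_of_nonneg_right a1 hφ.le
    have e2 : 0 ≤ P * (η₀ * G2 * DQ + C₁ / L * G1 * Q) := by
      have : 0 ≤ G1 := by linarith
      have : 0 ≤ G2 := by linarith
      positivity
    exact mul_le_mul e1 a6 e2 (by positivity)
  have a8 : |Ψ / φ * G2 * O * (P * DQ) - N / φ * (lg * DQ) * G2 * O| ≤
      N / φ * ((lg + 2) * η₀ * (C₂ * G1)) := by
    have e1 : Ψ / φ * G2 * O * (P * DQ) - N / φ * (lg * DQ) * G2 * O =
        (Ψ * P - N * lg) / φ * (G2 * DQ * O) := by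
      field_simp
    have e2 : |Ψ * P - N * lg| ≤ (lg + 2) * η₀ * N := by
      have e3 : Ψ * P - N * lg = (Ψ - N) * P + N * (P - lg) := by ring
      rw [e3]
      refine (abs_add_le _ _).trans ?_
      rw [abs_mul, abs_mul, abs_of_nonneg hP0, abs_of_nonneg hN]
      have e4 : |Ψ - N| * P ≤ η₀ * N * (lg + 1) := mul_le_mul h1 a2 hP0 (by positivity)
      have e5 : N * |P - lg| ≤ N * η₀ := mul_le_mul_of_nonneg_left h2 hN
      linarith
    have e6 : 0 ≤ G2 * DQ * O := by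
      have : 0 ≤ G2 := by linarith
      positivity
    have e7 : G2 * DQ * O ≤ C₂ * G1 := by
      have : 0 ≤ G2 := by linarith
      calc G2 * DQ * O ≤ G2 * DQ * 1 := mul_le_mul_of_nonneg_left hO1 (by positivity)
        _ = G2 * DQ := mul_one _
        _ ≤ _ := a3
    rw [e1, abs_mul, abs_div, abs_of_pos hφ, abs_of_nonneg e6]
    calc |Ψ * P - N * lg| / φ * (G2 * DQ * O) ≤ (lg + 2) * η₀ * N / φ * (C₂ * G1) :=
          mul_le_mul (div_le_div_of_nonneg_right e2 hφ.le) e7 e6 (by positivity)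
      _ = _ := by ring
  have a9 := abs_sub_le S (Ψ / φ * G2 * O * (P * DQ)) (N / φ * (lg * DQ) * G2 * O)
  have a10 : N / φ * G1 * ((2 * (lg + 1) * (C₂ + 1) + 1 + (lg + 2) * C₂) * η₀) ≤ N / φ * G1 * η :=
    mul_le_mul_of_nonneg_left hη (by
      have : 0 ≤ G1 := by linarith
      positivity)
  have a11 : N / φ * G1 * ((2 * (lg + 1) * (C₂ + 1) + 1 + (lg + 2) * C₂) * η₀) =
      2 * (N / φ) * ((lg + 1) * ((C₂ + 1) * η₀ * G1)) + η₀ * (N / φ * G1) +
        N / φ * ((lg + 2) * η₀ * (C₂ * G1)) := by ring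
  linarith

theorem s2q {ι : Type} [Fintype ι] [DecidableEq ι] (δ : ℝ) (hδ : 0 < δ) (hδ2 : δ < 1 / 2) : ∃ A : ℝ,
    ∀ (i₀ i₁ : ι) (ε C η α β κ : ℝ), i₀ ≠ i₁ → 0 < ε → 8 * ε ≤ δ → 0 < η → 0 < κ → κ < α → α < β →
      ∀ a b a' b' : ι → ℝ, (∀ i, St (a i) (b i)) → (∀ i, St (a' i) (b' i)) → (∀ i, b i < α ∧ b' i < α) →
      ∑ i ∈ oth i₀ i₁, (b i + b' i) + 2 * κ + α + β ≤ 1 / 2 - δ →
    ∃ N₀ : ℕ, ∀ N : ℕ, N₀ ≤ N → ∀ (D D' V : Finset ℕ) (h : ι → ℕ) (c : ℕ), Ctx ε C N D D' V h c →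
      MB δ A ε N D →
      |∑ p ∈ PR N α β V, ∑ q ∈ Vs N α V,
          ∑ n ∈ (Pg ε N D c).filter (fun n => p ∣ n + h i₁ ∧ q ∣ n + h i₁),
          fp (n + h i₀) * Lam V (y1 N κ) (n + h i₁) ^ 2 * ∏ i ∈ oth i₀ i₁,
            (Lam V (ys N (a i) (b i)) (n + h i) * Lam V (ys N (a' i) (b' i)) (n + h i)) -
        XX ε N D * (Real.log (β / α) * DQ N α κ V) * Gam ε N ^ (Fintype.card ι - 2) *
          ∏ i ∈ oth i₀ i₁, ov (a i) (b i) (a' i) (b' i)| ≤
        η * (XX ε N D * Gam ε N ^ (Fintype.card ι - 1)) := by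
  obtain ⟨A, hA⟩ := eqm (ι := ι) δ hδ hδ2 10 1 (by norm_num)
  refine ⟨A, fun i₀ i₁ ε C η α β κ hi hε h8 hη hκ hκα hαβ a b a' b' hst hst' hb hlev => ?_⟩
  obtain ⟨hco, hk1⟩ := card_oth hi
  have hsum0 : 0 ≤ ∑ i ∈ oth i₀ i₁, (b i + b' i) :=
    sum_nonneg fun i _ => add_nonneg (hst i).2.2.1.le (hst' i).2.2.1.le
  have hα0 : 0 < α := hκ.trans hκα
  have hβ1 : β ≤ 1 := by linarith
  have hα1 : α ≤ 1 := by linarith
  set bb : ι → ℝ := fun i => if i = i₁ then κ else b i with hbb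
  set bb' : ι → ℝ := fun i => if i = i₁ then κ else b' i with hbb'
  have hbb0 : ∀ i, 0 ≤ bb i := by
    intro i
    simp only [hbb]
    split_ifs
    · exact hκ.le
    · exact (hst i).2.2.1.le
  have hbb0' : ∀ i, 0 ≤ bb' i := by
    intro i
    simp only [hbb']
    split_ifs
    · exact hκ.le
    · exact (hst' i).2.2.1.le
  have hlg : 0 ≤ Real.log (β / α) := Real.log_nonneg (by rw [le_div_iff₀ hα0]; linarith)
  set lg := Real.log (β / α) with hlgd
  set C₂ : ℝ := |13 * (κ / 2) + 21 * (α - κ / 2) - 4 * κ * Real.log (2 * α / κ)| + 1 with hC₂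
  have hC₂0 : 0 ≤ C₂ := by positivity
  set Kc : ℝ := 2 * (lg + 1) * (C₂ + 1) + 1 + (lg + 2) * C₂ with hKc
  have hKc0 : 0 < Kc := by positivity
  set η₀ : ℝ := min 1 (η / Kc) with hη₀
  have hη₀0 : 0 < η₀ := lt_min one_pos (by positivity)
  have hη₀1 : η₀ ≤ 1 := min_le_left _ _
  have hη₀2 : Kc * η₀ ≤ η := by
    have := min_le_right 1 (η / Kc)
    rw [← hη₀, le_div_iff₀ hKc0] at this
    linarith
  obtain ⟨C₁, hC₁, hin⟩ := inq i₀ i₁ ε C η₀ α β κ hi hε hη₀0 hκ hκα hαβ a b a' b' hst hst' hb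
  obtain ⟨C₃, hC₃, hmu⟩ := mer_unif
  have e1 := Filter.eventually_atTop.2 hin
  have e2 := Filter.eventually_atTop.2 (hA ε C hε h8 bb bb' hbb0 hbb0')
  have e3 := Filter.eventually_atTop.2 (psi_asym η₀ hη₀0)
  have e4 := Filter.eventually_atTop.2 (Gam_ge ε hε)
  have e5 := Filter.eventually_atTop.2 (Ctx_card (ι := ι) ε C hε)
  have e6 := Filter.eventually_atTop.2 (mer_V ε η₀ α β (1 + Fintype.card ι ^ 2) hη₀0 hα0 hαβ hβ1)
  have e7 := Filter.eventually_atTop.2 (dq ε 1 α κ (1 + Fintype.card ι ^ 2) hε one_pos hκ hκα.le hα1)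
  have e8 := q_small (2 * C₁) (C₁ * (2 * (C₃ / Real.log 2 - Real.log (Real.log 2)))) η₀ (by positivity) hη₀0
  have e9 := q_log_tt.eventually (Filter.eventually_ge_atTop (max (1 / ε) (1 / η₀)))
  refine Filter.eventually_atTop.1 ?_
  filter_upwards [e1, e2, e3, e4, e5, e6, e7, e8, e9, Filter.eventually_ge_atTop 2] with N h1 h2 h3 h4 h5 h6 h7 h8'
    h9 hN2 D D' V h c hc hMB
  set Γ := Gam ε N with hΓ
  set L := Real.log N with hL
  have hN1 : (1 : ℝ) < N := by exact_mod_cast (show 1 < N by omega)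
  have hL0 : 0 < L := Real.log_pos hN1
  have hz1 : 1 / ε ≤ L := (le_max_left _ _).trans h9
  have hz2 : 1 / η₀ ≤ L := (le_max_right _ _).trans h9
  rw [div_le_iff₀ hε] at hz1
  rw [div_le_iff₀ hη₀0] at hz2
  have hz : 1 ≤ ε * L := by linarith
  have hB := q_big hc
  have hB1 := q_big1 hc hz
  have hcard := h5 D D' V h c hc
  set q₀ := PGB.qz (ε * L) D with hq₀
  have hφ : (0 : ℝ) < Nat.totient q₀ := by exact_mod_cast Nat.totient_pos.2 (qz_pos _ _)
  have hΓ1 : 1 ≤ Γ := by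
    refine le_trans ?_ h4
    rw [le_div_iff₀ hε]
    linarith
  have hO : 0 ≤ ∏ i ∈ oth i₀ i₁, ov (a i) (b i) (a' i) (b' i) := prod_nonneg fun i _ => q_ov_nn _ _ _ _
  have hO1 : ∏ i ∈ oth i₀ i₁, ov (a i) (b i) (a' i) (b' i) ≤ 1 :=
    prod_le_one (fun i _ => q_ov_nn _ _ _ _) fun i _ => q_ov_le (hst i)
  have hPRV : PR N α β V ⊆ V := filter_subset _ _
  have hP0 : 0 ≤ ∑ p ∈ PR N α β V, 1 / ((p : ℝ) - 1) := sum_nonneg fun p hp => by
    have := (hB1 p (hPRV hp)).2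
    have : 0 < (p : ℝ) - 1 := by linarith
    positivity
  have hQ0 : 0 ≤ ∑ q ∈ Vs N α V, 1 / ((q : ℝ) - 1) := sum_nonneg fun p hp => by
    have := (hB1 p (Vs_sub hp)).2
    have : 0 < (p : ℝ) - 1 := by linarith
    positivity
  have hDQ0 : 0 ≤ DQ N α κ V := DQ_nonneg fun p hp => (hB p hp).1
  -- the errors
  have hEr : ∑ p ∈ PR N α β V, ∑ q ∈ Vs N α V, err ε N D V α κ h i₀ i₁ a b a' b' p q ≤
      N / ((Nat.totient q₀ : ℝ) * L) := by
    have g1 := h2 D D' V h c hc hMB i₀ (PR N α β V ×ˢ Vs N α V) (fun x => {x.1, x.2})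
      (fun x => (Vs N α V).erase x.2) (fun x => zq N κ i₀ i₁ a b x.2) (fun x => zq N κ i₀ i₁ a' b' x.2) ?_ ?_
    · rw [Real.rpow_one, sum_product] at g1
      exact g1
    · intro x hx y hy hxy
      obtain ⟨p, q⟩ := x
      obtain ⟨p', q'⟩ := y
      have hx' := mem_product.1 (mem_coe.1 hx)
      have hy' := mem_product.1 (mem_coe.1 hy)
      have x1 := (mem_PR.1 hx'.1).2.1
      have x2 := (mem_Vs.1 hx'.2).2
      have y1' := (mem_PR.1 hy'.1).2.1
      have y2' := (mem_Vs.1 hy'.2).2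
      simp only at x1 x2 y1' y2' hxy
      have m1 : p ∈ ({p', q'} : Finset ℕ) := by rw [← hxy]; simp
      have m2 : q ∈ ({p', q'} : Finset ℕ) := by rw [← hxy]; simp
      rw [mem_insert, mem_singleton] at m1 m2
      have n1 : p = p' := by
        rcases m1 with m1 | m1
        · exact m1
        · exfalso
          rw [m1] at x1
          linarith
      have n2 : q = q' := by
        rcases m2 with m2 | m2
        · exfalso
          rw [m2] at x2
          linarith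
        · exact m2
      rw [n1, n2]
    · intro x hx
      obtain ⟨p, q⟩ := x
      have hx' := mem_product.1 hx
      have x0 := mem_PR.1 hx'.1
      have x1 := mem_Vs.1 hx'.2
      simp only at x0 x1 ⊢
      have hpq : p ≠ q := by
        rintro rfl
        linarith [x0.2.1, x1.2]
      have hq2 : 2 ≤ q := (hB q x1.1).1.two_le
      refine ⟨?_, (erase_subset _ _).trans Vs_sub, ?_, ?_, zq_i0 _ _ _ _ _ _ _, zq_i0 _ _ _ _ _ _ _, ?_⟩
      · intro r hr
        rw [mem_insert, mem_singleton] at hr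
        rcases hr with rfl | rfl
        · exact x0.1
        · exact x1.1
      · rw [disjoint_left]
        intro r hr hr'
        rw [mem_insert, mem_singleton] at hr
        rcases hr with rfl | rfl
        · have := (mem_Vs.1 (mem_of_mem_erase hr')).2
          linarith [x0.2.1]
        · exact notMem_erase _ _ hr'
      · have hNp : (0 : ℝ) < N := by linarith
        have s1 : ∑ i ∈ univ.erase i₀, (bb i + bb' i) = 2 * κ + ∑ i ∈ oth i₀ i₁, (b i + b' i) := by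
          rw [← add_sum_erase (univ.erase i₀) _ (mem_erase.2 ⟨hi.symm, mem_univ i₁⟩)]
          have s2 : bb i₁ + bb' i₁ = 2 * κ := by
            simp only [hbb, hbb', if_true]
            ring
          rw [s2]
          congr 1
          refine sum_congr rfl fun i hi' => ?_
          have := (mem_oth.1 hi').1
          simp only [hbb, hbb', if_neg this]
        have s3 : (pr ({p, q} : Finset ℕ) : ℝ) = p * q := by
          unfold pr
          rw [prod_pair hpq]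
          push_cast
          rfl
        rw [s3, s1]
        calc (p : ℝ) * q * (N : ℝ) ^ (2 * κ + ∑ i ∈ oth i₀ i₁, (b i + b' i)) ≤
              (N : ℝ) ^ β * (N : ℝ) ^ α * (N : ℝ) ^ (2 * κ + ∑ i ∈ oth i₀ i₁, (b i + b' i)) := by
              refine mul_le_mul_of_nonneg_right ?_ (by positivity)
              exact mul_le_mul x0.2.2.le x1.2.le (Nat.cast_nonneg _) (by positivity)
          _ = (N : ℝ) ^ (β + α + (2 * κ + ∑ i ∈ oth i₀ i₁, (b i + b' i))) := by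
              rw [Real.rpow_add hNp (β + α), Real.rpow_add hNp β α]
          _ ≤ (N : ℝ) ^ (1 / 2 - δ) := Real.rpow_le_rpow_of_exponent_le hN1.le (by linarith)
      · intro i hi'
        have t1 := zq_Bd (N := N) (by omega) hκ.le i₀ i₁ a b hq2 i
        have t2 := zq_Bd (N := N) (by omega) hκ.le i₀ i₁ a' b' hq2 i
        rw [if_neg hi'] at t1 t2
        constructor
        · simp only [hbb]
          split_ifs at t1 ⊢ with hii
          · exact t1
          · exact t1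
        · simp only [hbb']
          split_ifs at t2 ⊢ with hii
          · exact t2
          · exact t2
  -- the sum over the pairs
  have hmain : |∑ p ∈ PR N α β V, ∑ q ∈ Vs N α V,
          ∑ n ∈ (Pg ε N D c).filter (fun n => p ∣ n + h i₁ ∧ q ∣ n + h i₁),
          fp (n + h i₀) * Lam V (y1 N κ) (n + h i₁) ^ 2 * ∏ i ∈ oth i₀ i₁,
            (Lam V (ys N (a i) (b i)) (n + h i) * Lam V (ys N (a' i) (b' i)) (n + h i)) -
        PGB.Psi N 1 0 / (Nat.totient q₀ : ℝ) * Γ ^ (Fintype.card ι - 2) *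
          (∏ i ∈ oth i₀ i₁, ov (a i) (b i) (a' i) (b' i)) *
          ((∑ p ∈ PR N α β V, 1 / ((p : ℝ) - 1)) * DQ N α κ V)| ≤
      PGB.Psi N 1 0 / (Nat.totient q₀ : ℝ) * ((∑ p ∈ PR N α β V, 1 / ((p : ℝ) - 1)) *
        (η₀ * Γ ^ (Fintype.card ι - 2) * DQ N α κ V +
          C₁ / L * Γ ^ (Fintype.card ι - 1) * ∑ q ∈ Vs N α V, 1 / ((q : ℝ) - 1))) +
      ∑ p ∈ PR N α β V, ∑ q ∈ Vs N α V, err ε N D V α κ h i₀ i₁ a b a' b' p q := by
    have g1 : PGB.Psi N 1 0 / (Nat.totient q₀ : ℝ) * Γ ^ (Fintype.card ι - 2) *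
          (∏ i ∈ oth i₀ i₁, ov (a i) (b i) (a' i) (b' i)) *
          ((∑ p ∈ PR N α β V, 1 / ((p : ℝ) - 1)) * DQ N α κ V) =
        ∑ p ∈ PR N α β V, ∑ q ∈ Vs N α V,
          PGB.Psi N 1 0 / ((Nat.totient q₀ : ℝ) * ((p : ℝ) - 1) * ((q : ℝ) - 1)) *
          (dia (V.erase q) (shM q (y1 N κ)) (shM q (y1 N κ)) * Γ ^ (Fintype.card ι - 2) *
            ∏ i ∈ oth i₀ i₁, ov (a i) (b i) (a' i) (b' i)) := by
      unfold DQ
      rw [sum_mul_sum, mul_sum]
      refine sum_congr rfl fun p _ => ?_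
      rw [mul_sum]
      refine sum_congr rfl fun q _ => ?_
      rw [q_alg]
      ring
    have g2 : PGB.Psi N 1 0 / (Nat.totient q₀ : ℝ) * ((∑ p ∈ PR N α β V, 1 / ((p : ℝ) - 1)) *
        (η₀ * Γ ^ (Fintype.card ι - 2) * DQ N α κ V +
          C₁ / L * Γ ^ (Fintype.card ι - 1) * ∑ q ∈ Vs N α V, 1 / ((q : ℝ) - 1))) =
        ∑ p ∈ PR N α β V, ∑ q ∈ Vs N α V,
          PGB.Psi N 1 0 / ((Nat.totient q₀ : ℝ) * ((p : ℝ) - 1) * ((q : ℝ) - 1)) *
          (η₀ * dia (V.erase q) (shM q (y1 N κ)) (shM q (y1 N κ)) * Γ ^ (Fintype.card ι - 2) +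
            C₁ / L * Γ ^ (Fintype.card ι - 1)) := by
      unfold DQ
      rw [mul_sum, mul_sum, ← sum_add_distrib, sum_mul_sum, mul_sum]
      refine sum_congr rfl fun p _ => ?_
      rw [mul_sum]
      refine sum_congr rfl fun q _ => ?_
      rw [q_alg]
      ring
    rw [g1, g2, ← sum_sub_distrib, ← sum_add_distrib]
    refine (abs_sum_le_sum_abs _ _).trans (sum_le_sum fun p hp => ?_)
    rw [← sum_sub_distrib, ← sum_add_distrib]
    refine (abs_sum_le_sum_abs _ _).trans (sum_le_sum fun q hq => ?_)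
    exact h1 D D' V h c hc p hp q hq
  have hQ : C₁ * ∑ q ∈ Vs N α V, 1 / ((q : ℝ) - 1) ≤ η₀ * L := by
    have hNr : (2 : ℝ) ≤ N := by exact_mod_cast hN2
    have g1 := hmu 2 N le_rfl hNr (Vs N α V) (fun p hp => ⟨(hB p (Vs_sub hp)).1,
      by exact_mod_cast (hB p (Vs_sub hp)).1.two_le, by exact_mod_cast q_leN hc (Vs_sub hp)⟩)
    have hl2 : 0 < Real.log 2 := Real.log_pos (by norm_num)
    rw [← hL, Real.log_div hL0.ne' hl2.ne'] at g1
    have g2 : ∑ q ∈ Vs N α V, 1 / ((q : ℝ) - 1) ≤ 2 * ∑ q ∈ Vs N α V, 1 / (q : ℝ) := by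
      rw [mul_sum]
      refine sum_le_sum fun q hq => ?_
      have hq2 : (2 : ℝ) ≤ q := by exact_mod_cast (hB q (Vs_sub hq)).1.two_le
      rw [mul_one_div, div_le_div_iff₀ (by linarith) (by linarith)]
      linarith
    calc C₁ * ∑ q ∈ Vs N α V, 1 / ((q : ℝ) - 1) ≤
          C₁ * (2 * (Real.log L - Real.log (Real.log 2) + C₃ / Real.log 2)) :=
          mul_le_mul_of_nonneg_left (by linarith) hC₁.le
      _ = 2 * C₁ * Real.log L + C₁ * (2 * (C₃ / Real.log 2 - Real.log (Real.log 2))) := by ring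
      _ ≤ η₀ * L := h8'
  have hDQ : DQ N α κ V ≤ Γ * C₂ := by
    refine (h7 V hcard.1 hcard.2).trans (mul_le_mul_of_nonneg_left ?_ (by linarith))
    have := le_abs_self (13 * (κ / 2) + 21 * (α - κ / 2) - 4 * κ * Real.log (2 * α / κ))
    linarith
  have hfin := q_fin (S := ∑ p ∈ PR N α β V, ∑ q ∈ Vs N α V,
          ∑ n ∈ (Pg ε N D c).filter (fun n => p ∣ n + h i₁ ∧ q ∣ n + h i₁),
          fp (n + h i₀) * Lam V (y1 N κ) (n + h i₁) ^ 2 * ∏ i ∈ oth i₀ i₁,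
            (Lam V (ys N (a i) (b i)) (n + h i) * Lam V (ys N (a' i) (b' i)) (n + h i)))
    (N := (N : ℝ)) (G1 := Γ ^ (Fintype.card ι - 1)) hφ (Nat.cast_nonneg N) hL0 (q_Psi_nn N) hP0 hQ0 hDQ0 hlg
    (one_le_pow₀ hΓ1) hΓ1 (by rw [hk1, pow_succ]) hO hO1 hC₁.le hC₂0 hη₀0 hη₀1 hη₀2 hmain hEr h3
    (h6 V hcard.1 hcard.2).1 hDQ hQ (by linarith)
  exact hfin

end PGS
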