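import Pool.Agent.PGS.S1M
import Pool.Agent.PGS.Tr
import Pool.Agent.PGS.JN
import Pool.Agent.PGL.W2

/-! PGS / UM: crude upper bound for the primes `n + h i₀`, when a set `M` of large primes divides `n + h i₁` and no
other small prime does.

PROOF of `um`. Let `K₁ = Lam V (ys N (-1) κ₁)`. For `j, j' ∈ J` apply `s1m` with the data `(-1, κ₁)`, `(-1, κ₁)` at `i₀` and at
`i₁` (`St (-1) κ₁`, `ov = κ₁`) and `j i`, `j' i` at the other `i`; level `∑ (b i + b' i) + 2 ε ≤ 2 ρ + 4 κ₁ + 2 ε < θ`. The product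
over all `i` is `K₁(n + h i₀)² K₁(n + h i₁)²` times the product over `oth i₀ i₁`. So `tr` applies with
`S = (Pg ε N D b₀).filter ..`, `φ n = K₁(n + h i₀)² K₁(n + h i₁)²`, `Y = N / (q pr M) κ₁² Γ²`, `Z = N / (q pr M) Γ²`.
PROOF of `up`. If `n + h i₀` is a prime then `K₁(n + h i₀) = mass V (ys N (-1) κ₁) =: G₁` (`Lam_prime`) and
`fp (n + h i₀) ≤ log (3 N)` (`h i₀ ≤ C log N ≤ N`). If no prime of `V` below `N^α` divides `m = n + h i₁` then `K₁(m) = G₁`: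
`ys N (-1) κ₁` is supported in `Vs N α V` (`ys_sub`, `Lam_sub`, `mass_sub`) and `(Vs N α V).filter (· ∣ m) = ∅`. So the sum is
at most `log (3N) G₁^(-4)` times the sum in `um` (all terms are `≥ 0`, `wq ≥ 0`), and `G₁ ≥ (κ₁ - η') Γ` (`mass_step`,
`dia_step`). The result is `N / (q pr M) log (3 N) Γ^k (JJ / κ₁² + η'')`, and `log (3N) ≤ (1 + η') log N`,
`(N / q) log N ≤ (50 / 49) XX Γ` by `hu`. Use `JJ ≥ 0` (`JJ_nonneg`, `t_nonneg`). -/

set_option autoImplicit false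

open Finset PGL

noncomputable section

namespace PGS

private theorem um_split {ι : Type} [Fintype ι] [DecidableEq ι] {i₀ i₁ : ι} (hi : i₀ ≠ i₁) (f : ι → ℝ) :
    ∏ i, f i = f i₀ * (f i₁ * ∏ i ∈ oth i₀ i₁, f i) := by
  have hi1 : i₁ ∈ univ.erase i₀ := Finset.mem_erase.2 ⟨hi.symm, mem_univ _⟩
  unfold oth
  rw [mul_prod_erase (univ.erase i₀) f hi1, mul_prod_erase univ f (mem_univ i₀)]

/-- the modified data -/
private def um_mk {ι : Type} [DecidableEq ι] (i₀ i₁ : ι) (v : ℝ) (f : ι → ℝ) : ι → ℝ :=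
  fun i => if i = i₀ ∨ i = i₁ then v else f i

private theorem um_mk0 {ι : Type} [DecidableEq ι] (i₀ i₁ : ι) (v : ℝ) (f : ι → ℝ) :
    um_mk i₀ i₁ v f i₀ = v := by
  unfold um_mk
  rw [if_pos (Or.inl rfl)]

private theorem um_mk1 {ι : Type} [DecidableEq ι] (i₀ i₁ : ι) (v : ℝ) (f : ι → ℝ) :
    um_mk i₀ i₁ v f i₁ = v := by
  unfold um_mk
  rw [if_pos (Or.inr rfl)]

private theorem um_mk_oth {ι : Type} [Fintype ι] [DecidableEq ι] (i₀ i₁ : ι) (v : ℝ) (f : ι → ℝ) {i : ι}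
    (hi : i ∈ oth i₀ i₁) : um_mk i₀ i₁ v f i = f i := by
  rw [mem_oth] at hi
  unfold um_mk
  rw [if_neg]
  rintro (h | h)
  · exact hi.2 h
  · exact hi.1 h

private theorem um_ov {κ : ℝ} (hκ : 0 < κ) : ov (-1) κ (-1) κ = κ := by
  unfold ov
  rw [min_self, max_self, max_eq_right (by norm_num : (-1 : ℝ) ≤ 0), sub_zero, max_eq_right hκ.le]

theorem um {ι : Type} [Fintype ι] [DecidableEq ι] (ρ κ₁ α θ : ℝ) (hρ0 : 0 ≤ ρ) (hρα : ρ < α) (hκ : 0 < κ₁)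
    (hκα : κ₁ < α) (hα : α ≤ 1) {L : ℕ} (J : Finset (ι → Fin L)) (c a b t : Fin L → ℝ) (hD : Dat ρ J a b t)
    (i₀ i₁ : ι) (hi : i₀ ≠ i₁) (ε C η : ℝ) (hε : 0 < ε) (hε1 : ε ≤ 1 / 16) (hη : 0 < η)
    (hlev : 2 * ρ + 4 * κ₁ + 2 * ε < θ) :
    ∃ N₀ : ℕ, ∀ N : ℕ, N₀ ≤ N → ∀ (D D' V : Finset ℕ) (h : ι → ℕ) (b₀ : ℕ), Ctx ε C N D D' V h b₀ →
      ∀ M : Finset ℕ, M ⊆ V → (∀ p ∈ M, (N : ℝ) ^ α ≤ (p : ℝ)) → (pr M : ℝ) ≤ (N : ℝ) ^ (1 - θ) →
      ∑ n ∈ (Pg ε N D b₀).filter (fun n => ∀ p ∈ M, p ∣ n + h i₁),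
          Lam V (ys N (-1) κ₁) (n + h i₀) ^ 2 * Lam V (ys N (-1) κ₁) (n + h i₁) ^ 2 * wq J c a b N V h i₀ i₁ n ≤
        N / ((PGB.qz (ε * Real.log N) D : ℝ) * pr M) * Gam ε N ^ (Fintype.card ι + 4) *
          (κ₁ ^ 2 * JJ J c t {i₀, i₁} + η) := by
  obtain ⟨η', hη', N₁, hN₁⟩ := tr ρ J c a b t hD i₀ i₁ hi ε C η hε hη
  have hα0 : 0 < α := hκ.trans hκα
  have hκ1 : κ₁ ≤ 1 := by linarith
  have hst : ∀ (j : ι → Fin L) (i : ι),
      St (um_mk i₀ i₁ (-1) (fun i => a (j i)) i) (um_mk i₀ i₁ κ₁ (fun i => b (j i)) i) := by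
    intro j i
    unfold um_mk
    by_cases h : i = i₀ ∨ i = i₁
    · rw [if_pos h, if_pos h]
      exact ⟨Or.inl rfl, by linarith, hκ, hκ1⟩
    · rw [if_neg h, if_neg h]
      exact hD.st _
  have hb0 : ∀ l, 0 ≤ b l := fun l => (hD.st l).2.2.1.le
  have hbα : ∀ j ∈ J, ∀ i, um_mk i₀ i₁ κ₁ (fun i => b (j i)) i < α := by
    intro j hj i
    unfold um_mk
    by_cases h : i = i₀ ∨ i = i₁
    · rw [if_pos h]
      exact hκα
    · rw [if_neg h]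
      have h1 : b (j i) ≤ ∑ i, b (j i) :=
        Finset.single_le_sum (f := fun i => b (j i)) (fun i _ => hb0 _) (mem_univ i)
      have h2 := hD.lev j hj
      linarith
  have hsumb : ∀ j ∈ J, ∑ i, um_mk i₀ i₁ κ₁ (fun i => b (j i)) i ≤ ρ + 2 * κ₁ := by
    intro j hj
    have h1 : ∀ i, um_mk i₀ i₁ κ₁ (fun i => b (j i)) i ≤
        b (j i) + ((if i = i₀ then κ₁ else 0) + (if i = i₁ then κ₁ else 0)) := by
      intro i
      unfold um_mk
      have h2 := hb0 (j i)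
      by_cases h3 : i = i₀
      · rw [if_pos (Or.inl h3), if_pos h3]
        have h4 : 0 ≤ (if i = i₁ then κ₁ else 0) := by split_ifs <;> linarith
        linarith
      · by_cases h4 : i = i₁
        · rw [if_pos (Or.inr h4), if_neg h3, if_pos h4]
          linarith
        · rw [if_neg (by tauto), if_neg h3, if_neg h4]
          linarith
    refine (sum_le_sum fun i _ => h1 i).trans ?_
    rw [sum_add_distrib, sum_add_distrib, Finset.sum_ite_eq' univ i₀ (fun _ => κ₁),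
      Finset.sum_ite_eq' univ i₁ (fun _ => κ₁), if_pos (mem_univ _), if_pos (mem_univ _)]
    have h2 := hD.lev j hj
    linarith
  have hMs : ∀ᶠ N : ℕ in Filter.atTop, ∀ p ∈ J ×ˢ J,
      ∀ (D D' V : Finset ℕ) (h : ι → ℕ) (b₀ : ℕ), Ctx ε C N D D' V h b₀ →
      ∀ (M : Finset ℕ), M ⊆ V → (∀ p ∈ M, (N : ℝ) ^ α ≤ (p : ℝ)) → (pr M : ℝ) ≤ (N : ℝ) ^ (1 - θ) →
      |∑ n ∈ (Pg ε N D b₀).filter (fun n => ∀ p ∈ M, p ∣ n + h i₁),
          ∏ i, (Lam V (ys N (um_mk i₀ i₁ (-1) (fun i => a (p.1 i)) i)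
            (um_mk i₀ i₁ κ₁ (fun i => b (p.1 i)) i)) (n + h i) *
            Lam V (ys N (um_mk i₀ i₁ (-1) (fun i => a (p.2 i)) i)
            (um_mk i₀ i₁ κ₁ (fun i => b (p.2 i)) i)) (n + h i)) -
        N / ((PGB.qz (ε * Real.log N) D : ℝ) * pr M) * Gam ε N ^ Fintype.card ι *
          ∏ i, ov (um_mk i₀ i₁ (-1) (fun i => a (p.1 i)) i) (um_mk i₀ i₁ κ₁ (fun i => b (p.1 i)) i)
            (um_mk i₀ i₁ (-1) (fun i => a (p.2 i)) i) (um_mk i₀ i₁ κ₁ (fun i => b (p.2 i)) i)| ≤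
        η' * (N / ((PGB.qz (ε * Real.log N) D : ℝ) * pr M) * Gam ε N ^ Fintype.card ι) := by
    rw [Filter.eventually_all_finset]
    intro p hp
    rw [Finset.mem_product] at hp
    obtain ⟨N₀, hN₀⟩ := s1m (ι := ι) ε C η' α θ hε hε1 hη' hα0
      (um_mk i₀ i₁ (-1) (fun i => a (p.1 i))) (um_mk i₀ i₁ κ₁ (fun i => b (p.1 i)))
      (um_mk i₀ i₁ (-1) (fun i => a (p.2 i))) (um_mk i₀ i₁ κ₁ (fun i => b (p.2 i)))
      (hst p.1) (hst p.2) (fun i => ⟨hbα p.1 hp.1 i, hbα p.2 hp.2 i⟩) (by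
        rw [sum_add_distrib]
        have h1 := hsumb p.1 hp.1
        have h2 := hsumb p.2 hp.2
        linarith)
    filter_upwards [Filter.eventually_ge_atTop N₀] with N hN
    intro D D' V h b₀ hC M hM hMα hMθ
    exact hN₀ N hN D D' V h b₀ hC i₁ M hM hMα hMθ
  obtain ⟨N₂, hN₂⟩ := Filter.eventually_atTop.1 hMs
  obtain ⟨N₃, hN₃⟩ := Gam_ge ε hε
  refine ⟨max N₁ (max N₂ N₃), fun N hN D D' V h b₀ hC M hM hMα hMθ => ?_⟩
  have hN1 : N₁ ≤ N := (le_max_left _ _).trans hN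
  have hN2 : N₂ ≤ N := ((le_max_left _ _).trans (le_max_right _ _)).trans hN
  have hN3 : N₃ ≤ N := ((le_max_right _ _).trans (le_max_right _ _)).trans hN
  have hG : 0 < Gam ε N := lt_of_lt_of_le (by positivity) (hN₃ N hN3)
  have hk : 2 ≤ Fintype.card ι := by
    have h1 : ({i₀, i₁} : Finset ι).card = 2 := Finset.card_pair hi
    rw [← h1]
    exact Finset.card_le_univ _
  obtain ⟨X, hX⟩ : ∃ X : ℝ, X = N / ((PGB.qz (ε * Real.log N) D : ℝ) * pr M) := ⟨_, rfl⟩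
  have hX0 : 0 ≤ X := by
    rw [hX]
    positivity
  have hpow : Gam ε N ^ Fintype.card ι = Gam ε N ^ 2 * Gam ε N ^ (Fintype.card ι - 2) := by
    rw [← pow_add]
    congr 1
    omega
  have hpow4 : Gam ε N ^ (Fintype.card ι + 4) = Gam ε N ^ 2 * Gam ε N ^ (Fintype.card ι + 2) := by
    rw [← pow_add]
    congr 1
    omega
  have hκsq : κ₁ ^ 2 ≤ 1 := pow_le_one₀ hκ.le hκ1
  have hmain := hN₁ N hN1 D D' V h b₀ hC
    ((Pg ε N D b₀).filter (fun n => ∀ p ∈ M, p ∣ n + h i₁))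
    (fun n => Lam V (ys N (-1) κ₁) (n + h i₀) ^ 2 * Lam V (ys N (-1) κ₁) (n + h i₁) ^ 2)
    (X * Gam ε N ^ 2 * κ₁ ^ 2) (X * Gam ε N ^ 2) (by positivity)
    (mul_le_of_le_one_right (by positivity) hκsq) (by
      intro j hj j' hj'
      have h1 := hN₂ N hN2 (j, j') (Finset.mk_mem_product hj hj') D D' V h b₀ hC M hM hMα hMθ
      rw [← hX] at h1
      have h2 : ∀ n, ∏ i, (Lam V (ys N (um_mk i₀ i₁ (-1) (fun i => a (j i)) i)
            (um_mk i₀ i₁ κ₁ (fun i => b (j i)) i)) (n + h i) *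
            Lam V (ys N (um_mk i₀ i₁ (-1) (fun i => a (j' i)) i)
            (um_mk i₀ i₁ κ₁ (fun i => b (j' i)) i)) (n + h i)) =
          Lam V (ys N (-1) κ₁) (n + h i₀) ^ 2 * Lam V (ys N (-1) κ₁) (n + h i₁) ^ 2 *
          ∏ i ∈ oth i₀ i₁, (Lam V (ys N (a (j i)) (b (j i))) (n + h i) *
            Lam V (ys N (a (j' i)) (b (j' i))) (n + h i)) := by
        intro n
        rw [um_split hi, um_mk0, um_mk0, um_mk0, um_mk0, um_mk1, um_mk1, um_mk1, um_mk1]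
        have h3 : ∏ i ∈ oth i₀ i₁, (Lam V (ys N (um_mk i₀ i₁ (-1) (fun i => a (j i)) i)
            (um_mk i₀ i₁ κ₁ (fun i => b (j i)) i)) (n + h i) *
            Lam V (ys N (um_mk i₀ i₁ (-1) (fun i => a (j' i)) i)
            (um_mk i₀ i₁ κ₁ (fun i => b (j' i)) i)) (n + h i)) =
          ∏ i ∈ oth i₀ i₁, (Lam V (ys N (a (j i)) (b (j i))) (n + h i) *
            Lam V (ys N (a (j' i)) (b (j' i))) (n + h i)) := by
          refine prod_congr rfl fun i hi' => ?_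
          rw [um_mk_oth _ _ _ _ hi', um_mk_oth _ _ _ _ hi', um_mk_oth _ _ _ _ hi',
            um_mk_oth _ _ _ _ hi']
        rw [h3]
        ring
      have h4 : ∏ i, ov (um_mk i₀ i₁ (-1) (fun i => a (j i)) i) (um_mk i₀ i₁ κ₁ (fun i => b (j i)) i)
            (um_mk i₀ i₁ (-1) (fun i => a (j' i)) i) (um_mk i₀ i₁ κ₁ (fun i => b (j' i)) i) =
          κ₁ ^ 2 * ∏ i ∈ oth i₀ i₁, ov (a (j i)) (b (j i)) (a (j' i)) (b (j' i)) := by
        rw [um_split hi, um_mk0, um_mk0, um_mk0, um_mk0, um_mk1, um_mk1, um_mk1, um_mk1, um_ov hκ]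
        have h3 : ∏ i ∈ oth i₀ i₁, ov (um_mk i₀ i₁ (-1) (fun i => a (j i)) i)
            (um_mk i₀ i₁ κ₁ (fun i => b (j i)) i)
            (um_mk i₀ i₁ (-1) (fun i => a (j' i)) i) (um_mk i₀ i₁ κ₁ (fun i => b (j' i)) i) =
            ∏ i ∈ oth i₀ i₁, ov (a (j i)) (b (j i)) (a (j' i)) (b (j' i)) := by
          refine prod_congr rfl fun i hi' => ?_
          rw [um_mk_oth _ _ _ _ hi', um_mk_oth _ _ _ _ hi', um_mk_oth _ _ _ _ hi',
            um_mk_oth _ _ _ _ hi']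
        rw [h3]
        ring
      simp only at h1
      rw [h4, hpow] at h1
      rw [sum_congr rfl fun n _ => h2 n] at h1
      have e1 : X * Gam ε N ^ 2 * κ₁ ^ 2 * Gam ε N ^ (Fintype.card ι - 2) *
          ∏ i ∈ oth i₀ i₁, ov (a (j i)) (b (j i)) (a (j' i)) (b (j' i)) =
          X * (Gam ε N ^ 2 * Gam ε N ^ (Fintype.card ι - 2)) *
          (κ₁ ^ 2 * ∏ i ∈ oth i₀ i₁, ov (a (j i)) (b (j i)) (a (j' i)) (b (j' i))) := by ring
      have e2 : η' * (X * Gam ε N ^ 2 * Gam ε N ^ (Fintype.card ι - 2)) =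
          η' * (X * (Gam ε N ^ 2 * Gam ε N ^ (Fintype.card ι - 2))) := by ring
      rw [e1, e2]
      exact h1)
  have h1 := (abs_le.1 hmain).2
  rw [← hX, hpow4]
  have e1 : X * (Gam ε N ^ 2 * Gam ε N ^ (Fintype.card ι + 2)) * (κ₁ ^ 2 * JJ J c t {i₀, i₁} + η) =
      X * Gam ε N ^ 2 * κ₁ ^ 2 * Gam ε N ^ (Fintype.card ι + 2) * JJ J c t {i₀, i₁} +
      η * (X * Gam ε N ^ 2 * Gam ε N ^ (Fintype.card ι + 2)) := by ring
  rw [e1]
  linarith

private theorem um_delta (κ jj η : ℝ) (hκ : 0 < κ) (hη : 0 < η) :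
    ∃ δ : ℝ, 0 < δ ∧ δ < κ ∧
      50 / 49 * ((1 + δ) * (κ ^ 2 * jj + δ) / (κ - δ) ^ 4) ≤ 50 / 49 * jj / κ ^ 2 + η := by
  have hcont : Filter.Tendsto (fun δ : ℝ => 50 / 49 * ((1 + δ) * (κ ^ 2 * jj + δ) / (κ - δ) ^ 4))
      (nhdsWithin 0 (Set.Ioi 0)) (nhds (50 / 49 * ((1 + 0) * (κ ^ 2 * jj + 0) / (κ - 0) ^ 4))) := by
    apply Filter.Tendsto.mono_left _ nhdsWithin_le_nhds
    have h1 : ContinuousAt (fun δ : ℝ => 50 / 49 * ((1 + δ) * (κ ^ 2 * jj + δ) / (κ - δ) ^ 4)) 0 := by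
      have h2 : (κ - 0) ^ 4 ≠ 0 := by
        rw [sub_zero]
        positivity
      fun_prop (disch := assumption)
    exact h1
  have hlt : 50 / 49 * ((1 + 0) * (κ ^ 2 * jj + 0) / (κ - 0) ^ 4) < 50 / 49 * jj / κ ^ 2 + η := by
    have h1 : 50 / 49 * ((1 + 0) * (κ ^ 2 * jj + 0) / (κ - 0) ^ 4) = 50 / 49 * jj / κ ^ 2 := by
      rw [sub_zero, add_zero, add_zero, one_mul]
      field_simp
    rw [h1]
    linarith
  have h1 := hcont.eventually_lt_const hlt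
  have h2 : Set.Ioo (0 : ℝ) κ ∈ nhdsWithin (0 : ℝ) (Set.Ioi 0) := Ioo_mem_nhdsGT hκ
  obtain ⟨δ, hδ1, hδ2⟩ := (h1.and h2).exists
  exact ⟨δ, hδ2.1, hδ2.2, hδ1.le⟩

private theorem um_Lam_empty {V : Finset ℕ} (y : Finset ℕ → ℝ) {m : ℕ} (h1 : V.filter (· ∣ m) = ∅) :
    Lam V y m = mass V y := by
  unfold Lam
  rw [h1]
  unfold LamS mass
  refine sum_congr rfl fun B _ => ?_
  have h2 : ∏ p ∈ B, ee ∅ p = 1 := prod_eq_one fun p _ => by
    unfold ee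
    rw [if_neg (Finset.notMem_empty p)]
  rw [h2, mul_one]

theorem up {ι : Type} [Fintype ι] [DecidableEq ι] (ρ κ₁ α θ : ℝ) (hρ0 : 0 ≤ ρ) (hρα : ρ < α) (hκ : 0 < κ₁)
    (hκα : κ₁ < α) (hα : α ≤ 1) {L : ℕ} (J : Finset (ι → Fin L)) (c a b t : Fin L → ℝ) (hD : Dat ρ J a b t)
    (i₀ i₁ : ι) (hi : i₀ ≠ i₁) (ε C η : ℝ) (hε : 0 < ε) (hε1 : ε ≤ 1 / 16) (hη : 0 < η)
    (hlev : 2 * ρ + 4 * κ₁ + 2 * ε < θ) :
    ∃ N₀ : ℕ, ∀ N : ℕ, N₀ ≤ N → ∀ (D D' V : Finset ℕ) (h : ι → ℕ) (b₀ : ℕ), Ctx ε C N D D' V h b₀ →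
      49 / 50 ≤ (PGB.qz (ε * Real.log N) D : ℝ) / (Nat.totient (PGB.qz (ε * Real.log N) D) : ℝ) * Gam ε N /
        Real.log N →
      ∀ M : Finset ℕ, M ⊆ V → (∀ p ∈ M, (N : ℝ) ^ α ≤ (p : ℝ)) → (pr M : ℝ) ≤ (N : ℝ) ^ (1 - θ) →
      ∑ n ∈ (Pg ε N D b₀).filter (fun n => (∀ p ∈ M, p ∣ n + h i₁) ∧ ∀ p ∈ Vs N α V, ¬ p ∣ n + h i₁),
          fp (n + h i₀) * wq J c a b N V h i₀ i₁ n ≤
        XX ε N D * Gam ε N ^ (Fintype.card ι + 1) * (50 / 49 * JJ J c t {i₀, i₁} / κ₁ ^ 2 + η) / pr M := by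
  classical
  obtain ⟨jj, hjj⟩ : ∃ jj : ℝ, jj = JJ J c t {i₀, i₁} := ⟨_, rfl⟩
  have hjj0 : 0 ≤ jj := by
    rw [hjj]
    exact JJ_nonneg J c t (t_nonneg hD) _
  obtain ⟨δ, hδ0, hδκ, hδ⟩ := um_delta κ₁ jj η hκ hη
  obtain ⟨N₁, hN₁⟩ := um ρ κ₁ α θ hρ0 hρα hκ hκα hα J c a b t hD i₀ i₁ hi ε C δ hε hε1 hδ0 hlev
  have hStκ : St (-1) κ₁ := ⟨Or.inl rfl, by linarith, hκ, by linarith⟩
  obtain ⟨N₂, hN₂⟩ := dia_step (ι := ι) ε C δ (-1) κ₁ (-1) κ₁ hε hδ0 hStκ hStκ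
  obtain ⟨N₃, hN₃⟩ := Gam_ge ε hε
  have ht : Filter.Tendsto (fun N : ℕ => Real.log N) Filter.atTop Filter.atTop :=
    Real.tendsto_log_atTop.comp tendsto_natCast_atTop_atTop
  have hCl : ∀ᶠ N : ℕ in Filter.atTop, C * Real.log N ≤ N := by
    have h1 : (fun x : ℝ => Real.log x) =o[Filter.atTop] (fun x : ℝ => x) := Real.isLittleO_log_id_atTop
    have h2 := (h1.comp_tendsto tendsto_natCast_atTop_atTop).bound
      (show (0 : ℝ) < 1 / (|C| + 1) by positivity)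
    filter_upwards [h2] with N hN
    simp only [Function.comp] at hN
    rw [Real.norm_eq_abs, Real.norm_eq_abs, Nat.abs_cast] at hN
    have h3 : |C| * |Real.log N| ≤ |C| * (1 / (|C| + 1) * N) :=
      mul_le_mul_of_nonneg_left hN (abs_nonneg _)
    have h4 : |C| * (1 / (|C| + 1) * N) ≤ N := by
      have h5 : |C| * (1 / (|C| + 1)) ≤ 1 := by
        rw [mul_one_div, div_le_one (by positivity)]
        linarith
      have h6 := mul_le_mul_of_nonneg_right h5 (Nat.cast_nonneg (α := ℝ) N)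
      linarith
    have h5 : C * Real.log N ≤ |C| * |Real.log N| := by
      rw [← abs_mul]
      exact le_abs_self _
    linarith
  obtain ⟨N₄, hN₄⟩ := Filter.eventually_atTop.1
    (((ht.eventually_ge_atTop (Real.log 3 / δ)).and (ht.eventually_ge_atTop 1)).and
      (hCl.and (Filter.eventually_ge_atTop 2)))
  refine ⟨max N₁ (max N₂ (max N₃ N₄)), fun N hN D D' V h b₀ hC hu M hM hMα hMθ => ?_⟩
  have hN1 : N₁ ≤ N := (le_max_left _ _).trans hN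
  have hN2 : N₂ ≤ N := ((le_max_left _ _).trans (le_max_right _ _)).trans hN
  have hN3 : N₃ ≤ N :=
    (((le_max_left _ _).trans (le_max_right _ _)).trans (le_max_right _ _)).trans hN
  have hN4 : N₄ ≤ N :=
    (((le_max_right _ _).trans (le_max_right _ _)).trans (le_max_right _ _)).trans hN
  obtain ⟨⟨hL3, hL1⟩, hCN, hN2'⟩ := hN₄ N hN4
  have hL0 : 0 < Real.log N := by linarith
  have hG : 0 < Gam ε N := lt_of_lt_of_le (by positivity) (hN₃ N hN3)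
  have hVp : ∀ p ∈ V, p.Prime := by
    intro p hp
    have h1 := ((hC.mem p).1 hp).1
    unfold VN at h1
    exact (mem_filter.1 h1).2.1
  have hN0 : (0 : ℝ) < N := by
    have : (2 : ℝ) ≤ N := by exact_mod_cast hN2'
    linarith
  -- the mass
  obtain ⟨G₁, hG₁⟩ : ∃ G₁ : ℝ, G₁ = mass V (ys N (-1) κ₁) := ⟨_, rfl⟩
  have hG₁lo : (κ₁ - δ) * Gam ε N ≤ G₁ := by
    have h1 := hN₂ N hN2 D D' V h b₀ hC
    rw [← mass_step, ← hG₁, um_ov hκ] at h1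
    have h2 := (abs_le.1 h1).1
    linarith
  have hG₁0 : 0 < G₁ := lt_of_lt_of_le (mul_pos (by linarith) hG) hG₁lo
  -- the sum of `um`
  obtain ⟨U, hU⟩ : ∃ U : ℝ, U = ∑ n ∈ (Pg ε N D b₀).filter (fun n => ∀ p ∈ M, p ∣ n + h i₁),
      Lam V (ys N (-1) κ₁) (n + h i₀) ^ 2 * Lam V (ys N (-1) κ₁) (n + h i₁) ^ 2 *
        wq J c a b N V h i₀ i₁ n := ⟨_, rfl⟩
  have hUum := hN₁ N hN1 D D' V h b₀ hC M hM hMα hMθ
  rw [← hU, ← hjj] at hUum
  have hterm0 : ∀ n, 0 ≤ Lam V (ys N (-1) κ₁) (n + h i₀) ^ 2 * Lam V (ys N (-1) κ₁) (n + h i₁) ^ 2 *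
        wq J c a b N V h i₀ i₁ n := fun n =>
    mul_nonneg (mul_nonneg (sq_nonneg _) (sq_nonneg _)) (wq_nonneg _ _ _ _ _ _ _ _ _ _)
  have hU0 : 0 ≤ U := by
    rw [hU]
    exact sum_nonneg fun n _ => hterm0 n
  -- comparison
  have hcomp : ∑ n ∈ (Pg ε N D b₀).filter (fun n => (∀ p ∈ M, p ∣ n + h i₁) ∧
      ∀ p ∈ Vs N α V, ¬ p ∣ n + h i₁), fp (n + h i₀) * wq J c a b N V h i₀ i₁ n ≤
      Real.log (3 * N) / G₁ ^ 4 * U := by
    rw [hU, Finset.mul_sum]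
    have h0 : (0 : ℝ) ≤ Real.log (3 * N) := by
      apply Real.log_nonneg
      have : (2 : ℝ) ≤ N := by exact_mod_cast hN2'
      linarith
    refine le_trans ?_ (Finset.sum_le_sum_of_subset_of_nonneg
      (s := (Pg ε N D b₀).filter (fun n => (∀ p ∈ M, p ∣ n + h i₁) ∧
      ∀ p ∈ Vs N α V, ¬ p ∣ n + h i₁)) ?_ fun n _ _ => ?_)
    · refine sum_le_sum fun n hn => ?_
      obtain ⟨hnP, hnM, hnV⟩ := Finset.mem_filter.1 hn
      have hnN : N < n ∧ n ≤ 2 * N := by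
        unfold Pg at hnP
        exact Finset.mem_Ioc.1 (Finset.mem_filter.1 hnP).1
      by_cases hp : (n + h i₀).Prime
      · have e0 : Lam V (ys N (-1) κ₁) (n + h i₀) = G₁ := by
          rw [hG₁]
          exact Lam_prime hC _ hp (by omega)
        have e1 : Lam V (ys N (-1) κ₁) (n + h i₁) = G₁ := by
          have hsub : Vs N α V ⊆ V := by
            unfold Vs
            exact Finset.filter_subset _ _
          have hys := ys_sub (N := N) hN2' (a := -1) (b := κ₁) (α := α) hκα hVp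
          rw [hG₁, Lam_sub hsub _ hys, mass_sub hsub _ hys]
          apply um_Lam_empty
          rw [Finset.filter_eq_empty_iff]
          intro p hp'
          exact hnV p hp'
        rw [e0, e1]
        have h2 : Real.log (3 * N) / G₁ ^ 4 * (G₁ ^ 2 * G₁ ^ 2 * wq J c a b N V h i₀ i₁ n) =
            Real.log (3 * N) * wq J c a b N V h i₀ i₁ n := by
          field_simp
        rw [h2]
        refine mul_le_mul_of_nonneg_right ?_ (wq_nonneg _ _ _ _ _ _ _ _ _ _)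
        unfold fp
        rw [if_pos hp]
        apply Real.log_le_log
        · exact_mod_cast hp.pos
        · have h3 := hC.le i₀
          have h4 : (n : ℝ) ≤ 2 * N := by exact_mod_cast hnN.2
          push_cast
          linarith
      · have h2 : fp (n + h i₀) = 0 := by
          unfold fp
          rw [if_neg hp]
        rw [h2, zero_mul]
        exact mul_nonneg (div_nonneg h0 (by positivity)) (hterm0 n)
    · intro n hn
      obtain ⟨hnP, hnM, hnV⟩ := Finset.mem_filter.1 hn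
      exact Finset.mem_filter.2 ⟨hnP, hnM⟩
    · exact mul_nonneg (div_nonneg h0 (by positivity)) (hterm0 n)
  -- logarithms
  have hlog : Real.log (3 * N) ≤ (1 + δ) * Real.log N := by
    rw [Real.log_mul (by norm_num) hN0.ne']
    rw [div_le_iff₀ hδ0] at hL3
    linarith
  have hlog0 : 0 ≤ (1 + δ) * Real.log N := by positivity
  obtain ⟨q, hq⟩ : ∃ q : ℕ, q = PGB.qz (ε * Real.log N) D := ⟨_, rfl⟩
  have hq0 : 0 < q := by
    rw [hq]
    exact qz_pos _ _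
  have hφ0 : 0 < Nat.totient q := Nat.totient_pos.2 hq0
  have hqr : (0 : ℝ) < q := by exact_mod_cast hq0
  have hφr : (0 : ℝ) < (Nat.totient q : ℝ) := by exact_mod_cast hφ0
  have hM0 : 0 < pr M := prod_pos fun p hp => (hVp p (hM hp)).pos
  have hMr : (0 : ℝ) < (pr M : ℝ) := by exact_mod_cast hM0
  unfold XX
  rw [← hq] at hu hUum ⊢
  rw [← hjj]
  -- the key estimate
  have hu' : (N : ℝ) / q * Real.log N ≤ 50 / 49 * (N / (Nat.totient q : ℝ) * Gam ε N) := by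
    rw [le_div_iff₀ hL0] at hu
    have h1 := mul_le_mul_of_nonneg_left hu (by positivity : (0 : ℝ) ≤ 50 / 49 * (N / q))
    have h2 : 50 / 49 * ((N : ℝ) / q) * (49 / 50 * Real.log N) = (N : ℝ) / q * Real.log N := by ring
    have h3 : 50 / 49 * ((N : ℝ) / q) * ((q : ℝ) / (Nat.totient q : ℝ) * Gam ε N) =
        50 / 49 * (N / (Nat.totient q : ℝ) * Gam ε N) := by
      field_simp
    rw [h2, h3] at h1
    exact h1
  have hA0 : 0 ≤ κ₁ ^ 2 * jj + δ := by positivity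
  have hκδ : 0 < κ₁ - δ := by linarith
  have hG4 : ((κ₁ - δ) * Gam ε N) ^ 4 ≤ G₁ ^ 4 := pow_le_pow_left₀ (by positivity) hG₁lo 4
  calc ∑ n ∈ (Pg ε N D b₀).filter (fun n => (∀ p ∈ M, p ∣ n + h i₁) ∧
      ∀ p ∈ Vs N α V, ¬ p ∣ n + h i₁), fp (n + h i₀) * wq J c a b N V h i₀ i₁ n
      ≤ Real.log (3 * N) / G₁ ^ 4 * U := hcomp
    _ ≤ (1 + δ) * Real.log N / ((κ₁ - δ) * Gam ε N) ^ 4 *
        (N / ((q : ℝ) * pr M) * Gam ε N ^ (Fintype.card ι + 4) * (κ₁ ^ 2 * jj + δ)) := by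
        refine mul_le_mul ?_ hUum hU0 (by positivity)
        exact div_le_div₀ hlog0 hlog (by positivity) hG4
    _ = ((N : ℝ) / q * Real.log N) * (Gam ε N ^ Fintype.card ι *
        ((1 + δ) * (κ₁ ^ 2 * jj + δ) / (κ₁ - δ) ^ 4) / pr M) := by
        rw [pow_add]
        field_simp
    _ ≤ (50 / 49 * (N / (Nat.totient q : ℝ) * Gam ε N)) * (Gam ε N ^ Fintype.card ι *
        ((1 + δ) * (κ₁ ^ 2 * jj + δ) / (κ₁ - δ) ^ 4) / pr M) :=
        mul_le_mul_of_nonneg_right hu' (by positivity)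
    _ = N / (Nat.totient q : ℝ) * Gam ε N ^ (Fintype.card ι + 1) / pr M *
        (50 / 49 * ((1 + δ) * (κ₁ ^ 2 * jj + δ) / (κ₁ - δ) ^ 4)) := by
        rw [pow_succ]
        ring
    _ ≤ N / (Nat.totient q : ℝ) * Gam ε N ^ (Fintype.card ι + 1) / pr M *
        (50 / 49 * jj / κ₁ ^ 2 + η) := mul_le_mul_of_nonneg_left hδ (by positivity)
    _ = _ := by ring

end PGS
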